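import Pool.Agent.Lib.MP_3e612f_nt.RD.Defs

/-!
Box Cauchy - Schwarz with a colouring.

PROOF. Let `f u = et (P u)` and group the coordinates by colour. `|av f| ^ (2 ^ d)` is at most the average over
`u⁰, u¹` of the product over `ε : Fin d → Bool` of `f (u^ε)` or its conjugate, `u^ε k = u^{ε (col k)} k` (Cauchy - Schwarz
once for every colour; by induction on the number of colours), that is of `et` of the alternating sum of `P (u^ε)`.
The alternating sum kills the functions of `P` of a set of coordinates which misses a colour, and for a function of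
`S ⊆ J`, `|S| ≤ d`, which meets all colours, `S` has exactly one element of each colour and the alternating sum is the
top coefficient times the product of the differences `u¹ k - u⁰ k`. Put `z i k = (u⁰ k, u¹ k)` for `col k = i` (the other
values of `z` do not occur).
-/

set_option autoImplicit false

namespace Pool.Agent.Lib.MP_3e612f_nt.RD

open Finset
open Pool.Agent.Lib.MP_3e612f_nt.PI (ee)
open Pool.Agent.Lib.MP_3e612f_nt.DI (av pr)
open Pool.Agent.Lib.MP_3e612f_nt.LORT (Dg cst)

/-- the top coefficient of `P` at `κ` -/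
def tc {ι : Type} [DecidableEq ι] {d : ℕ} (P : (ι → Bool) → UnitAddCircle) (κ : Fin d → ι) :
    UnitAddCircle :=
  ∑ I : Finset (Fin d), (-1 : ℤ) ^ I.card • P fun k => decide (k ∈ I.image κ)

/-- toggling one element -/
private def tg {d : ℕ} (i0 : Fin d) (I : Finset (Fin d)) : Finset (Fin d) :=
  if i0 ∈ I then I.erase i0 else insert i0 I

private theorem mem_tg_self {d : ℕ} (i0 : Fin d) (I : Finset (Fin d)) :
    i0 ∈ tg i0 I ↔ i0 ∉ I := by
  unfold tg
  by_cases h : i0 ∈ I
  · rw [if_pos h]
    simp [h]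
  · rw [if_neg h]
    simp [h]

private theorem mem_tg_ne {d : ℕ} {i0 i : Fin d} (hi : i ≠ i0) (I : Finset (Fin d)) :
    i ∈ tg i0 I ↔ i ∈ I := by
  unfold tg
  by_cases h : i0 ∈ I
  · rw [if_pos h, mem_erase]
    exact ⟨fun h => h.2, fun h => ⟨hi, h⟩⟩
  · rw [if_neg h, mem_insert]
    exact ⟨fun h => h.resolve_left hi, fun h => Or.inr h⟩

private theorem tg_tg {d : ℕ} (i0 : Fin d) (I : Finset (Fin d)) : tg i0 (tg i0 I) = I := by
  ext i
  by_cases hi : i = i0
  · subst hi
    rw [mem_tg_self, mem_tg_self, not_not]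
  · rw [mem_tg_ne hi, mem_tg_ne hi]

private theorem tg_card {d : ℕ} (i0 : Fin d) (I : Finset (Fin d)) :
    (-1 : ℤ) ^ (tg i0 I).card = - (-1) ^ I.card := by
  unfold tg
  by_cases h : i0 ∈ I
  · rw [if_pos h]
    rw [← card_erase_add_one h, pow_succ]
    ring
  · rw [if_neg h, card_insert_of_notMem h, pow_succ]
    ring

/-- cancellation of the pairs -/
private theorem box_cancel {d : ℕ} (i0 : Fin d) (F : Finset (Fin d) → UnitAddCircle)
    (hF : ∀ I, F (tg i0 I) = F I) : ∑ I : Finset (Fin d), (-1 : ℤ) ^ I.card • F I = 0 := by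
  refine Finset.sum_involution (fun I _ => tg i0 I) (fun I _ => ?_) (fun I _ _ h => ?_)
    (fun I _ => mem_univ _) (fun I _ => tg_tg i0 I)
  · rw [hF, tg_card, neg_smul, add_neg_cancel]
  · have h1 := mem_tg_self i0 I
    rw [h] at h1
    by_cases h2 : i0 ∈ I
    · exact h1.1 h2 h2
    · exact h2 (h1.2 h2)

private theorem box_sgn {d : ℕ} (I : Finset (Fin d)) :
    (-1 : ℤ) ^ I.card = ∏ i, (if i ∈ I then (-1 : ℤ) else 1) := by
  rw [Finset.prod_ite_mem, univ_inter, prod_const]

/-- the alternating sum of a function of `d` bits -/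
private theorem box_alt {d : ℕ} (G : (Fin d → Bool) → UnitAddCircle) (x y : Fin d → Bool) :
    ∑ I : Finset (Fin d), (-1 : ℤ) ^ I.card • G (fun i => if i ∈ I then y i else x i) =
      (∏ i, zz (x i, y i)) •
        ∑ I : Finset (Fin d), (-1 : ℤ) ^ I.card • G (fun i => decide (i ∈ I)) := by
  by_cases h : ∃ i, x i = y i
  · obtain ⟨i0, hi0⟩ := h
    rw [Finset.prod_eq_zero (mem_univ i0), zero_smul]
    · apply box_cancel i0
      intro I
      congr 1
      funext i
      by_cases hi : i = i0
      · subst hi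
        rw [hi0, ite_self, ite_self]
      · simp only [mem_tg_ne hi]
    · simp [zz, hi0]
  · push Not at h
    obtain ⟨N, hN⟩ : ∃ N : Finset (Fin d), N = univ.filter fun i => x i = true := ⟨_, rfl⟩
    have hinv : Function.Involutive (fun I : Finset (Fin d) => symmDiff I N) :=
      fun I => symmDiff_symmDiff_cancel_right N I
    rw [← Equiv.sum_comp (Function.Involutive.toPerm _ hinv)
      (fun I : Finset (Fin d) => (-1 : ℤ) ^ I.card • G (fun i => decide (i ∈ I))), Finset.smul_sum]
    refine Finset.sum_congr rfl fun I _ => ?_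
    have hmem : ∀ i, i ∈ symmDiff I N ↔ (i ∈ I ∧ x i = false ∨ i ∉ I ∧ x i = true) := by
      intro i
      rw [Finset.mem_symmDiff, hN, mem_filter]
      cases x i <;> simp
    show _ = _ • ((-1 : ℤ) ^ (symmDiff I N).card • G (fun i => decide (i ∈ symmDiff I N)))
    have h1 : (fun i => if i ∈ I then y i else x i) = fun i => decide (i ∈ symmDiff I N) := by
      funext i
      have hi := h i
      simp only [hmem]
      by_cases hI : i ∈ I <;> cases hx : x i <;> cases hy : y i <;> simp_all
    rw [h1, smul_smul]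
    congr 1
    rw [box_sgn, box_sgn, ← prod_mul_distrib]
    refine prod_congr rfl fun i _ => ?_
    have hi := h i
    simp only [hmem]
    by_cases hI : i ∈ I <;> cases hx : x i <;> cases hy : y i <;> simp_all [zz]

private theorem tc_zero {ι : Type} [DecidableEq ι] {d : ℕ} {ψ : (ι → Bool) → UnitAddCircle}
    {S : Finset ι} (hψ : ∀ x y, (∀ i ∈ S, x i = y i) → ψ x = ψ y) {κ : Fin d → ι} {i0 : Fin d}
    (h : κ i0 ∉ S) : tc ψ κ = 0 := by
  unfold tc
  apply box_cancel i0
  intro I
  apply hψ
  intro k hk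
  congr 1
  rw [eq_iff_iff, mem_image, mem_image]
  constructor
  · rintro ⟨i, hi, rfl⟩
    have hne : i ≠ i0 := fun e => h (e ▸ hk)
    exact ⟨i, (mem_tg_ne hne I).1 hi, rfl⟩
  · rintro ⟨i, hi, rfl⟩
    have hne : i ≠ i0 := fun e => h (e ▸ hk)
    exact ⟨i, (mem_tg_ne hne I).2 hi, rfl⟩

private theorem tc_add {ι : Type} [DecidableEq ι] {d : ℕ} (f g : (ι → Bool) → UnitAddCircle)
    (κ : Fin d → ι) : tc (f + g) κ = tc f κ + tc g κ := by
  unfold tc
  rw [← Finset.sum_add_distrib]
  exact Finset.sum_congr rfl fun I _ => by rw [Pi.add_apply, smul_add]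

private theorem tc_neg {ι : Type} [DecidableEq ι] {d : ℕ} (f : (ι → Bool) → UnitAddCircle)
    (κ : Fin d → ι) : tc (-f) κ = - tc f κ := by
  unfold tc
  rw [← Finset.sum_neg_distrib]
  exact Finset.sum_congr rfl fun I _ => by rw [Pi.neg_apply, smul_neg]

/-- the coordinates with a colour in `I` are taken from `y` -/
private def mix {ι : Type} {d : ℕ} (col : ι → Fin d) (I : Finset (Fin d)) (x y : ι → Bool) :
    ι → Bool := fun k => if col k ∈ I then y k else x k

private theorem box_key {ι : Type} [Fintype ι] [DecidableEq ι] {d : ℕ} (J : Finset ι)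
    (P : (ι → Bool) → UnitAddCircle) (hP : Dg J d P) (col : ι → Fin d) (x y : ι → Bool) :
    ∑ I : Finset (Fin d), (-1 : ℤ) ^ I.card • P (mix col I x y) =
      ∑ κ : Fin d → ι, (∏ i, zz (x (κ i), y (κ i))) •
        if ∀ i, κ i ∈ J ∧ col (κ i) = i then tc P κ else 0 := by
  unfold Dg at hP
  induction hP using AddSubgroup.closure_induction with
  | mem ψ hψ =>
    obtain ⟨S, hSJ, hS, hdep⟩ := hψ
    by_cases h : ∀ i : Fin d, ∃ s ∈ S, col s = i
    · choose s hs hcol using h
      have hinj : Function.Injective s := fun i j hij => by rw [← hcol i, ← hcol j, hij]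
      have himg : univ.image s = S := by
        apply Finset.eq_of_subset_of_card_le
        · intro k hk
          obtain ⟨i, -, rfl⟩ := mem_image.1 hk
          exact hs i
        · rw [card_image_of_injective _ hinj, card_univ, Fintype.card_fin]
          exact hS
      have hsc : ∀ k ∈ S, s (col k) = k := by
        intro k hk
        rw [← himg] at hk
        obtain ⟨i, -, rfl⟩ := mem_image.1 hk
        rw [hcol]
      obtain ⟨G, hG⟩ : ∃ G : (Fin d → Bool) → UnitAddCircle, G = fun v => ψ fun k => v (col k) :=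
        ⟨_, rfl⟩
      have hψG : ∀ v, ψ v = G fun i => v (s i) := by
        intro v
        rw [hG]
        apply hdep
        intro k hk
        show v k = v (s (col k))
        rw [hsc k hk]
      have hL : ∀ I : Finset (Fin d), ψ (mix col I x y) =
          G (fun i => if i ∈ I then y (s i) else x (s i)) := by
        intro I
        rw [hψG]
        congr 1
        funext i
        unfold mix
        rw [hcol]
      rw [Finset.sum_congr rfl fun I _ => by rw [hL I], box_alt G (fun i => x (s i))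
        (fun i => y (s i)), Finset.sum_eq_single s]
      · rw [if_pos fun i => ⟨hSJ (hs i), hcol i⟩]
        congr 1
        unfold tc
        refine Finset.sum_congr rfl fun I _ => ?_
        rw [hψG]
        congr 2
        funext i
        congr 1
        rw [eq_iff_iff]
        exact (hinj.mem_finset_image).symm
      · intro κ _ hκ
        by_cases hc : ∀ i, κ i ∈ J ∧ col (κ i) = i
        · rw [if_pos hc]
          obtain ⟨i0, hi0⟩ := Function.ne_iff.1 hκ
          rw [tc_zero (i0 := i0) hdep, smul_zero]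
          intro hmem
          apply hi0
          have h1 := hsc _ hmem
          rw [(hc i0).2] at h1
          exact h1.symm
        · rw [if_neg hc, smul_zero]
      · intro h
        exact absurd (mem_univ _) h
    · push Not at h
      obtain ⟨i0, hi0⟩ := h
      rw [box_cancel i0, Finset.sum_eq_zero]
      · intro κ _
        by_cases hc : ∀ i, κ i ∈ J ∧ col (κ i) = i
        · rw [if_pos hc, tc_zero (i0 := i0) hdep, smul_zero]
          intro hmem
          exact hi0 _ hmem (hc i0).2
        · rw [if_neg hc, smul_zero]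
      · intro I
        apply hdep
        intro k hk
        unfold mix
        simp only [mem_tg_ne (hi0 k hk)]
  | zero =>
    have h1 : ∀ κ : Fin d → ι, tc (0 : (ι → Bool) → UnitAddCircle) κ = 0 := by
      intro κ
      unfold tc
      simp
    simp [h1]
  | add f g _ _ hf hg =>
    have h1 : ∀ κ : Fin d → ι, (if ∀ i, κ i ∈ J ∧ col (κ i) = i then tc (f + g) κ else 0) =
        (if ∀ i, κ i ∈ J ∧ col (κ i) = i then tc f κ else 0) +
        (if ∀ i, κ i ∈ J ∧ col (κ i) = i then tc g κ else 0) := by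
      intro κ
      by_cases hc : ∀ i, κ i ∈ J ∧ col (κ i) = i
      · rw [if_pos hc, if_pos hc, if_pos hc, tc_add]
      · rw [if_neg hc, if_neg hc, if_neg hc, add_zero]
    simp only [h1, smul_add, Finset.sum_add_distrib]
    rw [← hf, ← hg, ← Finset.sum_add_distrib]
    exact Finset.sum_congr rfl fun I _ => by rw [Pi.add_apply, smul_add]
  | neg f _ hf =>
    have h1 : ∀ κ : Fin d → ι, (if ∀ i, κ i ∈ J ∧ col (κ i) = i then tc (-f) κ else 0) =
        - (if ∀ i, κ i ∈ J ∧ col (κ i) = i then tc f κ else 0) := by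
      intro κ
      by_cases hc : ∀ i, κ i ∈ J ∧ col (κ i) = i
      · rw [if_pos hc, if_pos hc, tc_neg]
      · rw [if_neg hc, if_neg hc, neg_zero]
    simp only [h1, smul_neg, Finset.sum_neg_distrib]
    rw [← hf, ← Finset.sum_neg_distrib]
    exact Finset.sum_congr rfl fun I _ => by rw [Pi.neg_apply, smul_neg]

private theorem box_cs {α : Type} [Fintype α] (F : α → ℂ) :
    ‖av F‖ ^ 2 ≤ (Fintype.card α : ℝ)⁻¹ * ∑ a, ‖F a‖ ^ 2 := by
  unfold av
  rw [norm_mul, norm_inv, Complex.norm_natCast, mul_pow]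
  have h1 : ‖∑ a, F a‖ ^ 2 ≤ (Fintype.card α : ℝ) * ∑ a, ‖F a‖ ^ 2 := by
    have h2 : ‖∑ a, F a‖ ^ 2 ≤ (∑ a, ‖F a‖) ^ 2 :=
      pow_le_pow_left₀ (norm_nonneg _) (norm_sum_le _ _) 2
    have h3 := sq_sum_le_card_mul_sum_sq (s := (univ : Finset α)) (f := fun a => ‖F a‖)
    rw [card_univ] at h3
    exact h2.trans h3
  rcases Nat.eq_zero_or_pos (Fintype.card α) with h0 | h0
  · rw [h0]
    simp
  · have h2 : (0 : ℝ) < Fintype.card α := by exact_mod_cast h0
    calc ((Fintype.card α : ℝ)⁻¹) ^ 2 * ‖∑ a, F a‖ ^ 2 ≤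
        ((Fintype.card α : ℝ)⁻¹) ^ 2 * ((Fintype.card α : ℝ) * ∑ a, ‖F a‖ ^ 2) :=
          mul_le_mul_of_nonneg_left h1 (by positivity)
      _ = _ := by field_simp

private theorem box_sq {α : Type} [Fintype α] (F : α → ℂ) :
    (av fun w => av fun w' => F w * (starRingEnd ℂ) (F w')) = ((‖av F‖ ^ 2 : ℝ) : ℂ) := by
  have h1 : ∀ w, (av fun w' => F w * (starRingEnd ℂ) (F w')) = (starRingEnd ℂ) (av F) * F w := by
    intro w
    rw [Pool.Agent.Lib.MP_3e612f_nt.DI.av_mul_left, ← Pool.Agent.Lib.MP_3e612f_nt.DI.av_conj,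
      mul_comm]
  simp only [h1]
  rw [Pool.Agent.Lib.MP_3e612f_nt.DI.av_mul_left, mul_comm, Complex.mul_conj']
  push_cast
  rfl

private theorem box_step {ι : Type} [Fintype ι] [DecidableEq ι] (Φ : (ι → Bool) → (ι → Bool) → ℂ)
    (B : Finset ι) (hΦ : ∀ x y w, Φ x (B.piecewise w y) = Φ x y) :
    ‖av fun x => av fun y => Φ x y‖ ^ 2 ≤
      ‖av fun x => av fun y => Φ x y * (starRingEnd ℂ) (Φ (B.piecewise y x) y)‖ := by
  classical
  obtain ⟨H, hH⟩ : ∃ H : (ι → Bool) × (ι → Bool) → ℂ,
      H = fun p => av fun w => Φ (B.piecewise w p.2) p.1 := ⟨_, rfl⟩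
  have hL : (av fun x => av fun y => Φ x y) = av H := by
    rw [Pool.Agent.Lib.MP_3e612f_nt.DI.av_comm, Pool.Agent.Lib.MP_3e612f_nt.DI.av_prod]
    congr 1
    funext y
    rw [← Pool.Agent.Lib.MP_3e612f_nt.DI.av_piecewise B (fun x => Φ x y), hH]
  have hR : (av fun x => av fun y => Φ x y * (starRingEnd ℂ) (Φ (B.piecewise y x) y)) =
      (((Fintype.card ((ι → Bool) × (ι → Bool)) : ℝ)⁻¹ * ∑ p, ‖H p‖ ^ 2 : ℝ) : ℂ) := by
    have e1 : (((Fintype.card ((ι → Bool) × (ι → Bool)) : ℝ)⁻¹ * ∑ p, ‖H p‖ ^ 2 : ℝ) : ℂ) =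
        av fun p => ((‖H p‖ ^ 2 : ℝ) : ℂ) := by
      unfold av
      push_cast
      rfl
    rw [e1]
    have e2 : ∀ p : (ι → Bool) × (ι → Bool), ((‖H p‖ ^ 2 : ℝ) : ℂ) =
        av fun w => av fun w' => Φ (B.piecewise w p.2) p.1 *
          (starRingEnd ℂ) (Φ (B.piecewise w' p.2) p.1) := by
      intro p
      rw [box_sq (fun w => Φ (B.piecewise w p.2) p.1), hH]
    rw [show (fun p => ((‖H p‖ ^ 2 : ℝ) : ℂ)) = fun p : (ι → Bool) × (ι → Bool) =>
        av fun w => av fun w' => Φ (B.piecewise w p.2) p.1 *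
          (starRingEnd ℂ) (Φ (B.piecewise w' p.2) p.1) from funext e2,
      Pool.Agent.Lib.MP_3e612f_nt.DI.av_prod]
    rw [← Pool.Agent.Lib.MP_3e612f_nt.DI.av_piecewise B
      (fun x => av fun y => Φ x y * (starRingEnd ℂ) (Φ (B.piecewise y x) y))]
    have e3 : ∀ x w : ι → Bool, (av fun y => Φ (B.piecewise w x) y *
        (starRingEnd ℂ) (Φ (B.piecewise y (B.piecewise w x)) y)) =
        av fun y => av fun w' => Φ (B.piecewise w x) y *
          (starRingEnd ℂ) (Φ (B.piecewise w' x) y) := by
      intro x w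
      rw [← Pool.Agent.Lib.MP_3e612f_nt.DI.av_piecewise B (fun y => Φ (B.piecewise w x) y *
        (starRingEnd ℂ) (Φ (B.piecewise y (B.piecewise w x)) y))]
      congr 1
      funext y
      congr 1
      funext w'
      rw [hΦ, hΦ]
      congr 3
      funext k
      by_cases hk : k ∈ B
      · simp [hk]
      · simp [hk]
    simp only [e3]
    -- the order of the averages
    have e4 : ∀ x : ι → Bool, (av fun w => av fun y => av fun w' => Φ (B.piecewise w x) y *
          (starRingEnd ℂ) (Φ (B.piecewise w' x) y)) =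
        av fun y => av fun w => av fun w' => Φ (B.piecewise w x) y *
          (starRingEnd ℂ) (Φ (B.piecewise w' x) y) :=
      fun x => Pool.Agent.Lib.MP_3e612f_nt.DI.av_comm _
    simp only [e4]
    exact Pool.Agent.Lib.MP_3e612f_nt.DI.av_comm _
  rw [hL, hR, Complex.norm_real, Real.norm_eq_abs, abs_of_nonneg (by positivity)]
  exact box_cs H

private theorem box_et_sub (a b : UnitAddCircle) : et (a - b) = et a * (starRingEnd ℂ) (et b) := by
  unfold et
  rw [sub_eq_add_neg, AddCircle.toCircle_add, Circle.coe_mul, AddCircle.toCircle_neg,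
    Circle.coe_inv_eq_conj]

private theorem box_ind {ι : Type} [Fintype ι] [DecidableEq ι] {d : ℕ}
    (P : (ι → Bool) → UnitAddCircle) (col : ι → Fin d) (T : Finset (Fin d)) :
    ‖av fun u => et (P u)‖ ^ 2 ^ T.card ≤
      ‖av fun x => av fun y => et (∑ I ∈ T.powerset, (-1 : ℤ) ^ I.card • P (mix col I x y))‖ := by
  induction T using Finset.induction_on with
  | empty =>
    rw [card_empty, pow_zero, pow_one]
    refine le_of_eq ?_
    congr 2
    funext x
    have h1 : ∀ y : ι → Bool, mix col ∅ x y = x := by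
      intro y
      funext k
      simp [mix]
    simp only [powerset_empty, sum_singleton, card_empty, pow_zero, one_smul, h1]
    rw [Pool.Agent.Lib.MP_3e612f_nt.DI.av_const]
  | insert t T ht ih =>
    rw [card_insert_of_notMem ht, pow_succ, pow_mul]
    refine (pow_le_pow_left₀ (by positivity) ih 2).trans ?_
    refine (box_step (fun x y => et (∑ I ∈ T.powerset, (-1 : ℤ) ^ I.card • P (mix col I x y)))
      (univ.filter fun k => col k = t) ?_).trans (le_of_eq ?_)
    · intro x y w
      show et _ = et _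
      congr 1
      refine Finset.sum_congr rfl fun I hI => ?_
      congr 2
      funext k
      unfold mix
      by_cases hk : col k ∈ I
      · have h1 : col k ≠ t := fun e => ht (e ▸ mem_powerset.1 hI hk)
        simp [hk, h1]
      · simp [hk]
    · congr 2
      funext x
      congr 1
      funext y
      rw [← box_et_sub]
      congr 1
      rw [Finset.sum_powerset_insert ht, sub_eq_add_neg, ← Finset.sum_neg_distrib]
      congr 1
      refine Finset.sum_congr rfl fun I hI => ?_
      have h2 : t ∉ I := fun h => ht (mem_powerset.1 hI h)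
      rw [card_insert_of_notMem h2, pow_succ, mul_neg, mul_one, neg_smul]
      congr 3
      funext k
      unfold mix
      by_cases hk : col k ∈ I
      · simp [hk]
      · by_cases hk' : col k = t
        · simp [hk', h2]
        · simp [hk, hk']

/-- **box Cauchy - Schwarz** -/
theorem box {ι : Type} [Fintype ι] [DecidableEq ι] {d : ℕ} (hd : 1 ≤ d) (J : Finset ι)
    (P : (ι → Bool) → UnitAddCircle) (hP : Dg J d P) (col : ι → Fin d) :
    ‖av fun u => et (P u)‖ ^ 2 ^ d ≤
      ‖av fun z : Fin d → ι → Bool × Bool => et (∑ κ : Fin d → ι, (∏ i, zz (z i (κ i))) •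
        if ∀ i, κ i ∈ J ∧ col (κ i) = i then tc P κ else 0)‖ := by
  have h1 := box_ind P col univ
  rw [card_univ, Fintype.card_fin, Finset.powerset_univ] at h1
  refine h1.trans (le_of_eq ?_)
  congr 1
  simp only [box_key J P hP col]
  -- the average over `z`
  obtain ⟨f, hf⟩ : ∃ f : (ι → Bool × Bool) → ℂ, f = fun p => et (∑ κ : Fin d → ι,
      (∏ i, zz (p (κ i))) • if ∀ i, κ i ∈ J ∧ col (κ i) = i then tc P κ else 0) := ⟨_, rfl⟩
  have e1 : (fun z : Fin d → ι → Bool × Bool => et (∑ κ : Fin d → ι, (∏ i, zz (z i (κ i))) •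
      if ∀ i, κ i ∈ J ∧ col (κ i) = i then tc P κ else 0)) =
      fun z : Fin d → ι → Bool × Bool => (fun h : Fin d × ι → Bool × Bool =>
        f (h ∘ fun k => (col k, k))) ((Equiv.curry (Fin d) ι (Bool × Bool)).symm z) := by
    funext z
    rw [hf]
    show et _ = et _
    congr 1
    refine Finset.sum_congr rfl fun κ _ => ?_
    by_cases hc : ∀ i, κ i ∈ J ∧ col (κ i) = i
    · rw [if_pos hc]
      congr 1
      refine Finset.prod_congr rfl fun i _ => ?_
      show zz (z i (κ i)) = zz (z (col (κ i)) (κ i))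
      rw [(hc i).2]
    · rw [if_neg hc, smul_zero, smul_zero]
  rw [e1, Pool.Agent.Lib.MP_3e612f_nt.DI.av_equiv (Equiv.curry (Fin d) ι (Bool × Bool)).symm
      (fun h : Fin d × ι → Bool × Bool => f (h ∘ fun k => (col k, k))),
    Pool.Agent.Lib.MP_3e612f_nt.DI.av_comp_inj
      (fun k : ι => ((col k, k) : Fin d × ι)) (fun k k' h => (Prod.ext_iff.1 h).2) f]
  rw [← Pool.Agent.Lib.MP_3e612f_nt.DI.av_equiv
    (Equiv.arrowProdEquivProdArrow ι (fun _ => Bool) (fun _ => Bool)).symm f,
    Pool.Agent.Lib.MP_3e612f_nt.DI.av_prod, hf]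
  rfl

end Pool.Agent.Lib.MP_3e612f_nt.RD
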