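import Pool.Agent.Lib.MP_3e612f_nt.RD.Fam

/-!
The passage from random to all tuples.

`cheb`. `G = Tup d A`, `vt x` = the places of `x` (`k = d`), `F`, `E` from `max_fam`. It is enough to bound `W(F)`
(take `B' ≥ 4/3 d C'`, `C' = ` the bound). Let `s(σ) = ∑_{x ∈ F} W x 1[x visible]`, visible:
`L i (x i).1 (σ (x i).1) = some (x i).2` for all `i`. `ave s ≥ ρ1^d W(F)` (the places are different, so the events
are independent); `Var s ≤ ∑_{x, x' with a common place} W x W x' ≤ d W(F)` (for disjoint places the covariance is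
`0`; the degrees are `≤ 1`). Chebyshev: `pr (s < ρ1^d W(F) / 2) ≤ 4 d / (ρ1^(2 d) W(F)) < δ` if `W(F)` is
large. So for some `σ` in the given event `ρ1^d W(F) / 2 ≤ s(σ) ≤ C + d B` (the `x ∈ F` with a place in `E(σ)`
contribute at most `|E(σ)| · 1 ≤ B`).
-/

set_option autoImplicit false

namespace Pool.Agent.Lib.MP_3e612f_nt.RD

open Finset
open Pool.Agent.Lib.MP_3e612f_nt.PI (ee)
open Pool.Agent.Lib.MP_3e612f_nt.DI (av pr)

section aux
variable {α : Type} [Fintype α]

private theorem ave_mul_left' (c : ℝ) (f : α → ℝ) : ave (fun a => c * f a) = c * ave f := by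
  unfold ave
  rw [← Finset.mul_sum, mul_left_comm]

private theorem ave_add' (f g : α → ℝ) : ave (fun a => f a + g a) = ave f + ave g := by
  unfold ave
  rw [Finset.sum_add_distrib, mul_add]

private theorem ave_sum' {ι : Type} (s : Finset ι) (f : ι → α → ℝ) :
    ave (fun a => ∑ i ∈ s, f i a) = ∑ i ∈ s, ave (f i) := by
  unfold ave
  rw [Finset.sum_comm, Finset.mul_sum]

private theorem ave_mono' {f g : α → ℝ} (h : ∀ a, f a ≤ g a) : ave f ≤ ave g := by
  unfold ave
  exact mul_le_mul_of_nonneg_left (Finset.sum_le_sum fun a _ => h a) (by positivity)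

private theorem ave_const' [Nonempty α] (c : ℝ) : ave (fun _ : α => c) = c := by
  unfold ave
  have h : (Fintype.card α : ℝ) ≠ 0 := by exact_mod_cast Fintype.card_ne_zero
  rw [Finset.sum_const, card_univ, nsmul_eq_mul, inv_mul_cancel_left₀ h]

private theorem pr_eq_ave' (P : α → Prop) [DecidablePred P] :
    pr P = ave fun a => if P a then 1 else 0 := by
  unfold pr ave
  rw [Finset.sum_boole, div_eq_inv_mul]
  congr!

private theorem ave_cast (f : α → ℝ) : ((ave f : ℝ) : ℂ) = av fun a => (f a : ℂ) := by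
  unfold ave av
  push_cast
  rfl

private theorem ave_comp' {C ι S : Type} [Fintype C] [DecidableEq C] [Fintype ι] [DecidableEq ι]
    [Fintype S] [Nonempty S] (g : C → ι) (hg : Function.Injective g) (f : (C → S) → ℝ) :
    ave (fun σ : ι → S => f (σ ∘ g)) = ave f := by
  have h := DI.av_comp_inj g hg fun h : C → S => (f h : ℂ)
  have h1 := ave_cast (fun σ : ι → S => f (σ ∘ g))
  have h2 := ave_cast f
  have h3 : ((ave (fun σ : ι → S => f (σ ∘ g)) : ℝ) : ℂ) = ((ave f : ℝ) : ℂ) := by
    rw [h1, h2]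
    exact h
  exact_mod_cast h3

private theorem ave_pi' {C S : Type} [Fintype C] [DecidableEq C] [Fintype S] (f : C → S → ℝ) :
    ave (fun h : C → S => ∏ c, f c (h c)) = ∏ c, ave (f c) := by
  unfold ave
  rw [Finset.prod_mul_distrib, Finset.prod_const, card_univ, Fintype.card_fun, Nat.cast_pow,
    inv_pow, Finset.prod_univ_sum, Fintype.piFinset_univ]

private theorem ave_ind {C ι S : Type} [Fintype C] [DecidableEq C] [Fintype ι] [DecidableEq ι]
    [Fintype S] [Nonempty S] (g : C → ι) (hg : Function.Injective g) (f : C → S → ℝ) :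
    ave (fun σ : ι → S => ∏ c, f c (σ (g c))) = ∏ c, ave (f c) := by
  rw [← ave_pi']
  exact ave_comp' g hg fun h : C → S => ∏ c, f c (h c)

private theorem sum_union_le {Q : Type} [DecidableEq Q] {s t : Finset Q} {W : Q → ℝ}
    (hW : ∀ x ∈ s ∪ t, 0 ≤ W x) : ∑ x ∈ s ∪ t, W x ≤ ∑ x ∈ s, W x + ∑ x ∈ t, W x := by
  rw [← Finset.sum_union_inter]
  have : 0 ≤ ∑ x ∈ s ∩ t, W x := sum_nonneg fun x hx =>
    hW x (mem_union_left _ (mem_inter.1 hx).1)
  linarith

private theorem sum_biUnion_le' {Q J : Type} [DecidableEq Q] (s : Finset J) (t : J → Finset Q)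
    (W : Q → ℝ) (hW : ∀ x, 0 ≤ W x) : ∑ x ∈ s.biUnion t, W x ≤ ∑ j ∈ s, ∑ x ∈ t j, W x := by
  classical
  induction s using Finset.induction_on with
  | empty => simp
  | insert j s hj ih =>
    rw [biUnion_insert, sum_insert hj]
    exact (sum_union_le fun x _ => hW x).trans (add_le_add_right ih _)

end aux

/-- **from random tuples to all tuples** -/
theorem cheb (d B : ℕ) (hd : 1 ≤ d) {C ρ1 δ : ℝ} (hC : 0 ≤ C) (hρ : 0 < ρ1) (hδ : 0 < δ) :
    ∃ (B' : ℕ) (C' : ℝ), 0 ≤ C' ∧ ∀ (ι S Θ : Type) [Fintype ι] [DecidableEq ι] [Fintype S]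
      [Nonempty S] [Fintype Θ] [DecidableEq Θ] (L : Fin d → ι → S → Option Θ) (A : Finset ι),
      (∀ i, ∀ k ∈ A, ∀ θ, ρ1 ≤ pr fun s => L i k s = some θ) →
      ∀ W : (Fin d → ι × Θ) → ℝ, (∀ x, 0 ≤ W x) → (∀ x, W x ≤ 1 / 4) →
        δ ≤ pr (fun σ : ι → S => ∃ E : Finset ι, E.card ≤ B ∧
          ∑ x ∈ (Tup d (A \ E)).filter (fun x => ∀ i, L i (x i).1 (σ (x i).1) = some (x i).2),
            W x ≤ C) →
        ∃ E : Finset ι, E.card ≤ B' ∧ ∑ x ∈ Tup d (A \ E), W x ≤ C' := by
  classical
  set c0 : ℝ := (C + B) with hc0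
  have hc0' : 0 ≤ c0 := by positivity
  set C' : ℝ := max (2 * c0 / ρ1 ^ d) (4 * d / (δ * ρ1 ^ (2 * d))) with hC'
  have hρd : 0 < ρ1 ^ d := pow_pos hρ d
  have hC'0 : 0 ≤ C' := le_max_of_le_left (by positivity)
  refine ⟨⌈4 / 3 * (d * C')⌉₊, C', hC'0, ?_⟩
  intro ι S Θ _ _ _ _ _ _ L A hL W hW hW4 hpr
  set vt : (Fin d → ι × Θ) → Finset ι := fun x => univ.image fun i => (x i).1 with hvt
  obtain ⟨F, hFG, hdeg, E, hE, hEF⟩ := max_fam vt d
    (fun x => by
      refine card_image_le.trans ?_
      simp) W hW hW4 (Tup d A)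
  have hmemvt : ∀ x j, j ∈ vt x ↔ ∃ i, (x i).1 = j := by
    intro x j
    simp [hvt]
  -- tuples off a set
  have hsub : ∀ x, ∀ E' : Finset ι, x ∈ Tup d A → Disjoint (vt x) E' → x ∈ Tup d (A \ E') := by
    intro x E' hx hd'
    simp only [Tup, mem_filter, mem_univ, true_and, mem_sdiff] at hx ⊢
    refine ⟨hx.1, fun i => ⟨hx.2 i, ?_⟩⟩
    exact Finset.disjoint_left.1 hd' ((hmemvt x _).2 ⟨i, rfl⟩)
  have hsub' : Tup d (A \ E) ⊆ F := by
    intro x hx
    simp only [Tup, mem_filter, mem_univ, true_and, mem_sdiff] at hx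
    refine hEF x ?_ ?_
    · simp only [Tup, mem_filter, mem_univ, true_and]
      exact ⟨hx.1, fun i => (hx.2 i).1⟩
    · rw [Finset.disjoint_left]
      intro j hj
      obtain ⟨i, rfl⟩ := (hmemvt x j).1 hj
      exact (hx.2 i).2
  set w : ℝ := ∑ x ∈ F, W x with hw
  have hw0 : 0 ≤ w := sum_nonneg fun x _ => hW x
  -- the main bound
  have main : w ≤ C' := by
    by_contra hcon
    push Not at hcon
    have hw1 : 2 * c0 / ρ1 ^ d < w := lt_of_le_of_lt (le_max_left _ _) hcon
    have hw2 : 4 * d / (δ * ρ1 ^ (2 * d)) < w := lt_of_le_of_lt (le_max_right _ _) hcon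
    let f : (Fin d → ι × Θ) → Fin d → S → ℝ :=
      fun x i s => if L i (x i).1 s = some (x i).2 then 1 else 0
    let v : (Fin d → ι × Θ) → (ι → S) → ℝ := fun x σ => ∏ i, f x i (σ (x i).1)
    have hv01 : ∀ x σ, v x σ = if (∀ i, L i (x i).1 (σ (x i).1) = some (x i).2) then 1 else 0 := by
      intro x σ
      simp only [v, f]
      rw [Finset.prod_boole]
      simp
    have hvle : ∀ x σ, v x σ ≤ 1 := by
      intro x σ
      rw [hv01]
      split_ifs <;> norm_num
    have hv0 : ∀ x σ, 0 ≤ v x σ := by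
      intro x σ
      rw [hv01]
      split_ifs <;> norm_num
    have hinj : ∀ x ∈ F, Function.Injective fun i => (x i).1 := by
      intro x hx
      have := hFG hx
      simp only [Tup, mem_filter, mem_univ, true_and] at this
      exact this.1
    have hA : ∀ x ∈ F, ∀ i, (x i).1 ∈ A := by
      intro x hx
      have := hFG hx
      simp only [Tup, mem_filter, mem_univ, true_and] at this
      exact this.2
    have hf0 : ∀ x i, 0 ≤ ave (f x i) := by
      intro x i
      unfold ave
      refine mul_nonneg (by positivity) (sum_nonneg fun s _ => ?_)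
      simp only [f]
      split_ifs <;> norm_num
    have hp : ∀ x ∈ F, ave (v x) = ∏ i, ave (f x i) := fun x hx =>
      ave_ind (fun i => (x i).1) (hinj x hx) (f x)
    have hp0 : ∀ x ∈ F, 0 ≤ ave (v x) := by
      intro x hx
      rw [hp x hx]
      exact prod_nonneg fun i _ => hf0 x i
    have hpρ : ∀ x ∈ F, ρ1 ^ d ≤ ave (v x) := by
      intro x hx
      rw [hp x hx]
      have h1 : ∏ _i : Fin d, ρ1 = ρ1 ^ d := by simp
      rw [← h1]
      refine prod_le_prod (fun i _ => hρ.le) fun i _ => ?_
      have h2 := hL i (x i).1 (hA x hx i) (x i).2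
      rw [pr_eq_ave'] at h2
      exact h2
    have hpair : ∀ x ∈ F, ∀ y ∈ F, Disjoint (vt x) (vt y) →
        ave (fun σ => v x σ * v y σ) = ave (v x) * ave (v y) := by
      intro x hx y hy hxy
      let g : Fin d ⊕ Fin d → ι := Sum.elim (fun i => (x i).1) (fun i => (y i).1)
      have hg : Function.Injective g := by
        rintro (i | i) (j | j) hij
        · exact congrArg Sum.inl (hinj x hx hij)
        · exfalso
          refine Finset.disjoint_left.1 hxy ((hmemvt x (x i).1).2 ⟨i, rfl⟩) ?_
          change (x i).1 = (y j).1 at hij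
          rw [hij]
          exact (hmemvt y _).2 ⟨j, rfl⟩
        · exfalso
          refine Finset.disjoint_left.1 hxy ((hmemvt x (x j).1).2 ⟨j, rfl⟩) ?_
          change (y i).1 = (x j).1 at hij
          rw [← hij]
          exact (hmemvt y _).2 ⟨i, rfl⟩
        · exact congrArg Sum.inr (hinj y hy hij)
      have h1 := ave_ind (S := S) g hg (Sum.elim (f x) (f y))
      rw [Fintype.prod_sum_type] at h1
      simp only [Sum.elim_inl, Sum.elim_inr] at h1
      rw [hp x hx, hp y hy, ← h1]
      congr 1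
      funext σ
      rw [Fintype.prod_sum_type]
      rfl
    -- second moment
    let s : (ι → S) → ℝ := fun σ => ∑ x ∈ F, W x * v x σ
    set μ : ℝ := ∑ x ∈ F, W x * ave (v x) with hμ
    have hμs : ave s = μ := by
      simp only [s]
      rw [ave_sum']
      exact sum_congr rfl fun x _ => ave_mul_left' _ _
    have hμw : ρ1 ^ d * w ≤ μ := by
      rw [hw, mul_sum]
      refine sum_le_sum fun x hx => ?_
      rw [mul_comm]
      exact mul_le_mul_of_nonneg_left (hpρ x hx) (hW x)
    have hs2 : ave (fun σ => s σ * s σ) = ∑ x ∈ F, ∑ y ∈ F, W x * W y *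
        ave (fun σ => v x σ * v y σ) := by
      have h1 : (fun σ => s σ * s σ) = fun σ => ∑ x ∈ F, ∑ y ∈ F,
          (W x * W y) * (v x σ * v y σ) := by
        funext σ
        simp only [s]
        rw [sum_mul_sum]
        refine sum_congr rfl fun x _ => sum_congr rfl fun y _ => by ring
      rw [h1, ave_sum']
      refine sum_congr rfl fun x _ => ?_
      rw [ave_sum']
      exact sum_congr rfl fun y _ => ave_mul_left' _ _
    have hμ2 : μ * μ = ∑ x ∈ F, ∑ y ∈ F, W x * W y * (ave (v x) * ave (v y)) := by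
      rw [hμ, sum_mul_sum]
      refine sum_congr rfl fun x _ => sum_congr rfl fun y _ => by ring
    have hcommon : ∀ x ∈ F, ∑ y ∈ F, W x * W y * (ave (fun σ => v x σ * v y σ) -
        ave (v x) * ave (v y)) ≤ W x * d := by
      intro x hx
      have h1 : ∀ y ∈ F, W x * W y * (ave (fun σ => v x σ * v y σ) - ave (v x) * ave (v y)) ≤
          W x * ∑ i : Fin d, if (x i).1 ∈ vt y then W y else 0 := by
        intro y hy
        rw [mul_assoc]
        refine mul_le_mul_of_nonneg_left ?_ (hW x)
        by_cases hxy : Disjoint (vt x) (vt y)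
        · rw [hpair x hx y hy hxy, sub_self, mul_zero]
          refine sum_nonneg fun i _ => ?_
          split_ifs
          · exact hW y
          · exact le_rfl
        · rw [Finset.not_disjoint_iff] at hxy
          obtain ⟨j, hj, hj'⟩ := hxy
          obtain ⟨i, rfl⟩ := (hmemvt x j).1 hj
          have h2 : ave (fun σ => v x σ * v y σ) ≤ 1 := by
            have h3 : ave (fun σ => v x σ * v y σ) ≤ ave (fun _ : ι → S => (1 : ℝ)) := by
              refine ave_mono' fun σ => ?_
              exact mul_le_one₀ (hvle x σ) (hv0 y σ) (hvle y σ)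
            rwa [ave_const'] at h3
          have h4 : W y * (ave (fun σ => v x σ * v y σ) - ave (v x) * ave (v y)) ≤ W y := by
            have h5 := mul_nonneg (hp0 x hx) (hp0 y hy)
            nlinarith [hW y]
          refine h4.trans ?_
          have h6 := Finset.single_le_sum
            (f := fun i : Fin d => if (x i).1 ∈ vt y then W y else 0)
            (fun i _ => by
              split_ifs
              · exact hW y
              · exact le_rfl) (mem_univ i)
          simp only [hj', if_true] at h6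
          exact h6
      refine (sum_le_sum h1).trans ?_
      rw [← mul_sum, sum_comm]
      refine mul_le_mul_of_nonneg_left ?_ (hW x)
      have h7 : ∀ i : Fin d, ∑ y ∈ F, (if (x i).1 ∈ vt y then W y else 0) ≤ 1 := by
        intro i
        rw [← sum_filter]
        exact hdeg _
      refine (sum_le_sum fun i _ => h7 i).trans ?_
      simp
    have hvar : ave (fun σ => (s σ - μ) ^ 2) ≤ w * d := by
      have h1 : (fun σ => (s σ - μ) ^ 2) = fun σ => s σ * s σ + ((-2 * μ) * s σ + μ * μ) := by
        funext σ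
        ring
      rw [h1, ave_add', ave_add', ave_mul_left', ave_const', hμs, hs2]
      have h2 : ∑ x ∈ F, ∑ y ∈ F, W x * W y * ave (fun σ => v x σ * v y σ) +
          (-2 * μ * μ + μ * μ) = ∑ x ∈ F, ∑ y ∈ F, W x * W y *
            (ave (fun σ => v x σ * v y σ) - ave (v x) * ave (v y)) := by
        have h3 : -2 * μ * μ + μ * μ = -(μ * μ) := by ring
        rw [h3, hμ2, ← sub_eq_add_neg, ← sum_sub_distrib]
        refine sum_congr rfl fun x _ => ?_
        rw [← sum_sub_distrib]
        exact sum_congr rfl fun y _ => by ring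
      rw [h2, hw, sum_mul]
      exact sum_le_sum hcommon
    -- Chebyshev
    have hev : ∀ σ : ι → S, (∃ E : Finset ι, E.card ≤ B ∧
        ∑ x ∈ (Tup d (A \ E)).filter (fun x => ∀ i, L i (x i).1 (σ (x i).1) = some (x i).2),
          W x ≤ C) → μ ^ 2 / 4 ≤ (s σ - μ) ^ 2 := by
      rintro σ ⟨E', hE'c, hE's⟩
      have h1 : s σ ≤ c0 := by
        have h2 : s σ = ∑ x ∈ F.filter (fun x => ∀ i, L i (x i).1 (σ (x i).1) = some (x i).2),
            W x := by
          simp only [s]
          rw [sum_filter]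
          refine sum_congr rfl fun x _ => ?_
          rw [hv01]
          split_ifs <;> simp
        rw [h2]
        have h3 : F.filter (fun x => ∀ i, L i (x i).1 (σ (x i).1) = some (x i).2) ⊆
            ((Tup d (A \ E')).filter
              (fun x => ∀ i, L i (x i).1 (σ (x i).1) = some (x i).2)) ∪
            E'.biUnion (fun j => F.filter fun x => j ∈ vt x) := by
          intro x hx
          rw [mem_filter] at hx
          rw [mem_union, mem_filter, mem_biUnion]
          by_cases hd' : Disjoint (vt x) E'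
          · exact Or.inl ⟨hsub x E' (hFG hx.1) hd', hx.2⟩
          · rw [Finset.not_disjoint_iff] at hd'
            obtain ⟨j, hj, hj'⟩ := hd'
            exact Or.inr ⟨j, hj', mem_filter.2 ⟨hx.1, hj⟩⟩
        refine (sum_le_sum_of_subset_of_nonneg h3 fun x _ _ => hW x).trans ?_
        refine (sum_union_le (fun x _ => hW x)).trans ?_
        refine add_le_add hE's ?_
        refine (sum_biUnion_le' E' (fun j => F.filter fun x => j ∈ vt x) W hW).trans ?_
        refine (sum_le_sum fun j _ => hdeg j).trans ?_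
        rw [sum_const, nsmul_eq_mul, mul_one]
        exact_mod_cast hE'c
      have h2 : 2 * c0 ≤ μ := by
        rw [div_lt_iff₀ hρd] at hw1
        nlinarith
      have h3 : 0 ≤ μ := le_trans (by positivity) h2
      nlinarith
    have h1 : δ * (μ ^ 2 / 4) ≤ w * d := by
      refine le_trans ?_ hvar
      refine le_trans (mul_le_mul_of_nonneg_right hpr (by positivity)) ?_
      rw [pr_eq_ave', mul_comm, ← ave_mul_left']
      refine ave_mono' fun σ => ?_
      split_ifs with hσ
      · rw [mul_one]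
        exact hev σ hσ
      · rw [mul_zero]
        positivity
    have h2 : 0 < w := lt_of_le_of_lt (by positivity) hw1
    have h3 : (ρ1 ^ d * w) ^ 2 ≤ μ ^ 2 := by
      have h4 : 0 ≤ ρ1 ^ d * w := by positivity
      exact pow_le_pow_left₀ h4 hμw 2
    have h5 : δ * (ρ1 ^ (2 * d) * w) ≤ 4 * d := by
      have h6 : δ * ((ρ1 ^ d * w) ^ 2 / 4) ≤ w * d :=
        le_trans (mul_le_mul_of_nonneg_left (by linarith) hδ.le) h1
      have h7 : w * (δ * (ρ1 ^ (2 * d) * w)) ≤ w * (4 * d) := by
        have h8 : ρ1 ^ (2 * d) = ρ1 ^ d * ρ1 ^ d := by rw [two_mul, pow_add]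
        rw [h8]
        nlinarith
      exact le_of_mul_le_mul_left h7 h2
    rw [div_lt_iff₀ (by positivity)] at hw2
    nlinarith
  refine ⟨E, ?_, ?_⟩
  · have h1 : (E.card : ℝ) ≤ 4 / 3 * (d * C') := by
      have h2 : (d : ℝ) * w ≤ d * C' := mul_le_mul_of_nonneg_left main (by positivity)
      linarith
    have h3 : (E.card : ℝ) ≤ ⌈4 / 3 * (d * C')⌉₊ := h1.trans (Nat.le_ceil _)
    exact_mod_cast h3
  · exact (sum_le_sum_of_subset_of_nonneg hsub' fun x _ _ => hW x).trans main

end Pool.Agent.Lib.MP_3e612f_nt.RD
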