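import Pool.Agent.Lib.MP_3e612f_nt.RD.Defs

/-!
The `M`-th power trick (as in `LO/R/BG.lean`, `dg_flp`): it lowers the degree of the phase with values in
`ZMod M` and multiplies the top coefficients of the real phase by `M`.

PROOF. `A σ = av_u ee (φ (flp u σ)) et (P (flp u σ))`. `A σ ^ M` is the average over `X : Fin M → ι → Bool` of the
product over `j`; put `v k j = X j k`, a state `(σ k, v k)` of the new switches. `φ' τ = ∑_j φ (flp (v · j) σ)`,
`P'` the same. For `τ = (σ, v)` and `u`: `(w.pw M).flp u τ` switches `σ k` for the `k` with `u k` and `cst (v k)`, and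
`flp (v · j)` of that is `flp (v · j xor (u k ∧ cst (v k))) σ`. Degree: `LORT.dg_flp` (states with constant `v k`;
a function of `S ⊆ {k : cst (v k)}` occurs `M` times). Top: at labelled places `v k` is constant, so the `M`
alternating sums (`j : Fin M`) are all equal to the product of the signs times `c`. Average: the average over
`(σ, v)` of the norm of the average over `u` (which is the average over the flips of the constant coordinates) is at
least the average over `σ` of `‖A σ‖ ^ M` (for fixed `σ`, averaging over `v`), and `(ave ‖A‖)^M ≤ ave ‖A‖^M`.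
-/

set_option autoImplicit false

namespace Pool.Agent.Lib.MP_3e612f_nt.RD

open Finset
open Pool.Agent.Lib.MP_3e612f_nt.PI (ee)
open Pool.Agent.Lib.MP_3e612f_nt.DI (av pr)
open Pool.Agent.Lib.MP_3e612f_nt.LORT (Dg cst)

/-- the switches of the `M`-th power -/
def Sw.pw {ι S Θ : Type} (w : Sw ι S Θ) (M : ℕ) [NeZero M] : Sw ι (S × (Fin M → Bool)) Θ where
  lab k s := if cst s.2 then w.lab k s.1 else none
  flip k s := if cst s.2 then (w.flip k s.1, s.2) else s
  sg k s := w.sg k (if s.2 0 then w.flip k s.1 else s.1)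
  flip_flip k s := by
    by_cases h : cst s.2
    · simp only [h, if_true, w.flip_flip]
    · simp only [h, if_false]
  lab_flip k s := by
    by_cases h : cst s.2
    · simp only [h, if_true, w.lab_flip]
    · simp only [h, if_false]
  flip_none k s hs := by
    by_cases h : cst s.2
    · simp only [h, if_true] at hs ⊢
      rw [w.flip_none k s.1 hs]
    · simp only [h, if_false]
  sg_flip k s hs := by
    by_cases h : cst s.2
    · simp only [h, if_true] at hs ⊢
      by_cases h0 : s.2 0 = true
      · simp only [h0, if_true, w.flip_flip]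
        rw [w.sg_flip k s.1 hs, neg_neg]
      · simp only [h0]
        exact w.sg_flip k s.1 hs
    · simp only [h, if_false] at hs
      exact absurd rfl hs
  sg_one k s hs := by
    by_cases h : cst s.2
    · simp only [h, if_true] at hs
      by_cases h0 : s.2 0 = true
      · simp only [h0, if_true]
        exact w.sg_one k _ (by rw [w.lab_flip]; exact hs)
      · simp only [h0]
        exact w.sg_one k s.1 hs
    · simp only [h, if_false] at hs
      exact absurd rfl hs

private theorem pw_et_add (x y : UnitAddCircle) : et (x + y) = et x * et y := by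
  unfold et
  rw [AddCircle.toCircle_add]
  rfl

private theorem pw_et_sum {κ : Type} (s : Finset κ) (f : κ → UnitAddCircle) :
    et (∑ j ∈ s, f j) = ∏ j ∈ s, et (f j) := by
  classical
  induction s using Finset.induction_on with
  | empty =>
    rw [Finset.sum_empty, Finset.prod_empty]
    unfold et
    rw [AddCircle.toCircle_zero]
    rfl
  | insert a s ha ih => rw [Finset.sum_insert ha, Finset.prod_insert ha, pw_et_add, ih]

/-- the degree does not grow under the flips -/
private theorem pw_dg {ι G : Type} [DecidableEq ι] [AddCommGroup G] {M : ℕ} {J : Finset ι} {d : ℕ}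
    {ψ : (ι → Bool) → G} (h : Dg J d ψ) (X : ι → Fin M → Bool) (j : Fin M) :
    Dg (J.filter fun b => cst (X b)) d fun u => ψ fun b => LORT.flp u X b j := by
  unfold Dg at h ⊢
  induction h using AddSubgroup.closure_induction with
  | mem ψ hψ =>
    obtain ⟨S, hS, h1, h2⟩ := hψ
    refine AddSubgroup.subset_closure ⟨S ∩ J.filter fun b => cst (X b), inter_subset_right,
      (Finset.card_le_card inter_subset_left).trans h1, ?_⟩
    intro u u' huu
    refine h2 _ _ fun b hb => ?_
    unfold LORT.flp
    by_cases h5 : cst (X b)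
    · rw [if_pos h5, if_pos h5, huu b (mem_inter.2 ⟨hb, mem_filter.2 ⟨hS hb, h5⟩⟩)]
    · rw [if_neg h5, if_neg h5]
  | zero => exact zero_mem _
  | add f g _ _ hf hg => exact add_mem hf hg
  | neg f _ hf => exact neg_mem hf

private theorem pw_dg_sum {ι G : Type} [DecidableEq ι] [AddCommGroup G] {M : ℕ} {J : Finset ι}
    {d : ℕ} {ψ : (ι → Bool) → G} (h : Dg J d ψ) (X : ι → Fin M → Bool) :
    Dg (J.filter fun b => cst (X b)) d fun u => ∑ j, ψ fun b => LORT.flp u X b j := by
  have e : (fun u : ι → Bool => ∑ j, ψ fun b => LORT.flp u X b j) =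
      ∑ j, fun u : ι → Bool => ψ fun b => LORT.flp u X b j := by
    funext u
    rw [Finset.sum_apply]
  rw [e]
  exact AddSubgroup.sum_mem _ fun j _ => pw_dg h X j

/-- the switches of the `M`-th power and the flips -/
private theorem pw_flp {ι S Θ : Type} (w : Sw ι S Θ) {M : ℕ} [NeZero M] (u : ι → Bool)
    (τ : ι → S × (Fin M → Bool)) (j : Fin M) :
    w.flp (fun k => ((w.pw M).flp u τ k).2 j) (fun k => ((w.pw M).flp u τ k).1) =
      w.flp (fun k => LORT.flp u (fun k => (τ k).2) k j) fun k => (τ k).1 := by
  funext k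
  unfold Sw.flp LORT.flp Sw.pw
  by_cases hu : u k = true
  · by_cases hc : cst (τ k).2
    · by_cases hj : (τ k).2 j = true
      · simp [hu, hc, hj, w.flip_flip]
      · simp [hu, hc, hj]
    · simp [hu, hc]
  · by_cases hc : cst (τ k).2
    · simp [hu, hc]
    · simp [hu, hc]

private theorem pw_act {ι S Θ : Type} [Fintype ι] (w : Sw ι S Θ) {M : ℕ} [NeZero M]
    (τ : ι → S × (Fin M → Bool)) :
    (w.pw M).act τ = (w.act fun k => (τ k).1).filter fun k => cst ((fun k => (τ k).2) k) := by
  ext k
  unfold Sw.act Sw.pw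
  simp only [mem_filter, mem_univ, true_and]
  by_cases hc : cst (τ k).2
  · simp [hc]
  · simp [hc]

private theorem pw_flp_xor {ι S Θ : Type} (w : Sw ι S Θ) (x y : ι → Bool) (σ : ι → S) :
    w.flp (fun k => xor (x k) (y k)) σ = w.flp y (w.flp x σ) := by
  funext k
  unfold Sw.flp
  by_cases hx : x k = true
  · by_cases hy : y k = true
    · simp [hx, hy, w.flip_flip]
    · simp [hx, hy]
  · by_cases hy : y k = true
    · simp [hx, hy]
    · simp [hx, hy]

private theorem pw_lab_flp {ι S Θ : Type} (w : Sw ι S Θ) (x : ι → Bool) (σ : ι → S) (k : ι) :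
    w.lab k (w.flp x σ k) = w.lab k (σ k) := by
  unfold Sw.flp
  by_cases hx : x k = true
  · simp [hx, w.lab_flip]
  · simp [hx]

private theorem pw_lab_eq {ι S Θ : Type} (w : Sw ι S Θ) {M : ℕ} [NeZero M] {k : ι}
    {s : S × (Fin M → Bool)} {θ : Θ} (h : (w.pw M).lab k s = some θ) :
    cst s.2 ∧ w.lab k s.1 = some θ := by
  unfold Sw.pw at h
  by_cases hc : cst s.2
  · simp only [hc, if_true] at h
    exact ⟨hc, h⟩
  · simp [hc] at h

private theorem pw_norm_av_le_ave {α : Type} [Fintype α] (f : α → ℂ) :
    ‖av f‖ ≤ ave fun a => ‖f a‖ := by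
  unfold av ave
  rw [norm_mul, norm_inv, Complex.norm_natCast]
  exact mul_le_mul_of_nonneg_left (norm_sum_le _ _) (by positivity)

private theorem pw_ave_mono {α : Type} [Fintype α] {f g : α → ℝ} (h : ∀ a, f a ≤ g a) :
    ave f ≤ ave g := by
  unfold ave
  exact mul_le_mul_of_nonneg_left (Finset.sum_le_sum fun a _ => h a) (by positivity)

private theorem pw_ave_equiv {α β : Type} [Fintype α] [Fintype β] (σ : α ≃ β) (f : β → ℝ) :
    ave (fun a => f (σ a)) = ave f := by
  unfold ave
  rw [Fintype.card_congr σ, Equiv.sum_comp σ f]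

private theorem pw_ave_prod {α β : Type} [Fintype α] [Fintype β] (f : α × β → ℝ) :
    ave f = ave fun a => ave fun b => f (a, b) := by
  unfold ave
  rw [Fintype.card_prod, Fintype.sum_prod_type, ← Finset.mul_sum, Nat.cast_mul, mul_inv, mul_assoc]

private theorem pw_ave_pow {α : Type} [Fintype α] (f : α → ℝ) (hf : ∀ a, 0 ≤ f a) {M : ℕ}
    (hM : M ≠ 0) : ave f ^ M ≤ ave fun a => f a ^ M := by
  rcases isEmpty_or_nonempty α with h | h
  · unfold ave
    simp [hM]
  · have hc : (0 : ℝ) < Fintype.card α := by exact_mod_cast Fintype.card_pos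
    have h1 := Real.pow_arith_mean_le_arith_mean_pow univ (fun _ : α => (Fintype.card α : ℝ)⁻¹) f
      (fun _ _ => by positivity) (by
        rw [Finset.sum_const, card_univ, nsmul_eq_mul, mul_inv_cancel₀ hc.ne']) (fun a _ => hf a) M
    unfold ave
    rw [Finset.mul_sum, Finset.mul_sum]
    exact h1

private theorem pw_av_pow {α : Type} [Fintype α] {M : ℕ} (f : α → ℂ) :
    av f ^ M = av fun v : Fin M → α => ∏ j, f (v j) := by
  unfold av
  rw [mul_pow, Fintype.sum_pow, Fintype.card_fun, Fintype.card_fin, Nat.cast_pow, inv_pow]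

/-- the proportion of the labelled states -/
theorem pw_lab {ι S Θ : Type} [Fintype S] [Nonempty S] (w : Sw ι S Θ) (M : ℕ) [NeZero M] (k : ι)
    (θ : Θ) : (1 / 2 ^ M) * pr (fun s => w.lab k s = some θ) ≤
      pr fun s => (w.pw M).lab k s = some θ := by
  classical
  unfold pr
  have h1 : (univ.filter fun s => w.lab k s = some θ).card ≤
      (univ.filter fun s => (w.pw M).lab k s = some θ).card := by
    refine Finset.card_le_card_of_injOn (fun s => (s, fun _ => false)) ?_ ?_
    · intro s hs
      have h2 : w.lab k s = some θ := by simpa using hs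
      have h3 : cst (fun _ : Fin M => false) := fun _ _ => rfl
      simp only [coe_filter, mem_univ, true_and, Set.mem_ofPred_eq]
      unfold Sw.pw
      simp only [h3, if_true]
      exact h2
    · intro s _ s' _ h
      exact (Prod.ext_iff.1 h).1
  have h2 : (Fintype.card (S × (Fin M → Bool)) : ℝ) = Fintype.card S * 2 ^ M := by
    rw [Fintype.card_prod, Fintype.card_fun, Fintype.card_bool, Fintype.card_fin]
    push_cast
    rfl
  have hS : (0 : ℝ) < Fintype.card S := by exact_mod_cast Fintype.card_pos
  rw [h2, one_div_mul_eq_div, div_div]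
  exact div_le_div_of_nonneg_right (Nat.cast_le.2 (by convert h1)) (by positivity)

/-- **the power trick** -/
theorem pow_step {ι S Θ : Type} [Fintype ι] [DecidableEq ι] [Fintype S] [Nonempty S] (w : Sw ι S Θ)
    {M : ℕ} [NeZero M] {d d' : ℕ} {φ : (ι → S) → ZMod M} {P : (ι → S) → UnitAddCircle}
    {c : (Fin d' → ι × Θ) → UnitAddCircle} (hφ : w.Deg (d + 1) φ) (hP : w.Deg d' P)
    (hc : w.Top P c) :
    ∃ (φ' : (ι → S × (Fin M → Bool)) → ZMod M) (P' : (ι → S × (Fin M → Bool)) → UnitAddCircle),
      (w.pw M).Deg d φ' ∧ (w.pw M).Deg d' P' ∧ (w.pw M).Top P' (fun x => M • c x) ∧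
      ave (fun σ => ‖av fun u : ι → Bool => ee (φ (w.flp u σ)) * et (P (w.flp u σ))‖) ^ M ≤
        ave fun σ => ‖av fun u : ι → Bool =>
          ee (φ' ((w.pw M).flp u σ)) * et (P' ((w.pw M).flp u σ))‖ := by
  classical
  refine ⟨fun τ => ∑ j, φ (w.flp (fun k => (τ k).2 j) fun k => (τ k).1),
    fun τ => ∑ j, P (w.flp (fun k => (τ k).2 j) fun k => (τ k).1), ?_, ?_, ?_, ?_⟩
  · intro τ
    have h1 := LORT.dg_flp (hφ fun k => (τ k).1) fun k => (τ k).2
    rw [pw_act]
    simp only [pw_flp]
    exact h1
  · intro τ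
    have h1 := pw_dg_sum (hP fun k => (τ k).1) fun k => (τ k).2
    rw [pw_act]
    simp only [pw_flp]
    exact h1
  · intro τ x hx hl
    have hl' := fun i => pw_lab_eq w (hl i)
    unfold Sw.alt
    simp only [pw_flp, Finset.smul_sum]
    rw [Finset.sum_comm]
    have h1 : ∀ j : Fin M, ∑ I : Finset (Fin d'), (-1 : ℤ) ^ I.card •
        P (w.flp (fun k => LORT.flp (fun k => decide (k ∈ I.image fun i => (x i).1))
          (fun k => (τ k).2) k j) fun k => (τ k).1) =
        (∏ i, (w.pw M).sg (x i).1 (τ (x i).1)) • c x := by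
      intro j
      have h2 := hc (w.flp (fun k => (τ k).2 j) fun k => (τ k).1) x hx (fun i => by
        rw [pw_lab_flp]
        exact (hl' i).2)
      unfold Sw.alt at h2
      have h3 : ∏ i, w.sg (x i).1 (w.flp (fun k => (τ k).2 j) (fun k => (τ k).1) (x i).1) =
          ∏ i, (w.pw M).sg (x i).1 (τ (x i).1) := by
        refine Finset.prod_congr rfl fun i _ => ?_
        unfold Sw.flp Sw.pw
        simp only [(hl' i).1 j 0]
      rw [← h3, ← h2]
      refine Finset.sum_congr rfl fun I _ => ?_
      congr 2
      rw [← pw_flp_xor]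
      congr 1
      funext k
      unfold LORT.flp
      by_cases hk : cst (τ k).2
      · simp only [hk, if_true]
      · simp only [hk, if_false]
        have h4 : k ∉ I.image fun i => (x i).1 := by
          intro h5
          obtain ⟨i, -, h6⟩ := mem_image.1 h5
          apply hk
          rw [← h6]
          exact (hl' i).1
        simp [h4]
    rw [Finset.sum_congr rfl fun j _ => h1 j, Finset.sum_const, card_univ, Fintype.card_fin]
    exact smul_comm _ _ _
  · have hM : M ≠ 0 := NeZero.ne M
    obtain ⟨F, hF⟩ : ∃ F : (ι → S) → (ι → Fin M → Bool) → ℂ, F = fun σ v =>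
        ∏ j, (ee (φ (w.flp (fun k => v k j) σ)) * et (P (w.flp (fun k => v k j) σ))) := ⟨_, rfl⟩
    have h1 : ∀ (σ : ι → S) (v : ι → Fin M → Bool) (u : ι → Bool),
        ee (∑ j, φ (w.flp (fun k => ((w.pw M).flp u (fun k => (σ k, v k)) k).2 j)
          fun k => ((w.pw M).flp u (fun k => (σ k, v k)) k).1)) *
        et (∑ j, P (w.flp (fun k => ((w.pw M).flp u (fun k => (σ k, v k)) k).2 j)
          fun k => ((w.pw M).flp u (fun k => (σ k, v k)) k).1)) = F σ (LORT.flp u v) := by
      intro σ v u
      simp only [pw_flp]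
      rw [LORT.bg_ee_sum, pw_et_sum, hF, ← Finset.prod_mul_distrib]
    have h2 : ∀ σ : ι → S, ‖av fun u : ι → Bool => ee (φ (w.flp u σ)) * et (P (w.flp u σ))‖ ^ M ≤
        ave fun v : ι → Fin M → Bool => ‖av fun u : ι → Bool => F σ (LORT.flp u v)‖ := by
      intro σ
      refine le_trans (le_of_eq ?_) (pw_norm_av_le_ave _)
      rw [← norm_pow, pw_av_pow]
      congr 1
      have h3 : (av fun v : ι → Fin M → Bool => av fun u : ι → Bool => F σ (LORT.flp u v)) =
          av fun v : ι → Fin M → Bool => F σ v := by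
        rw [DI.av_comm]
        have h4 : ∀ u : ι → Bool, (av fun v : ι → Fin M → Bool => F σ (LORT.flp u v)) =
            av fun v : ι → Fin M → Bool => F σ v := fun u =>
          DI.av_equiv (Function.Involutive.toPerm (LORT.flp u) (LORT.flp_flp u)) (F σ)
        simp only [h4]
        exact DI.av_const _
      rw [h3, hF]
      exact DI.av_equiv (Equiv.piComm fun _ _ => Bool) fun v : ι → Fin M → Bool =>
        ∏ j, (ee (φ (w.flp (fun k => v k j) σ)) * et (P (w.flp (fun k => v k j) σ)))
    refine (pw_ave_pow _ (fun _ => norm_nonneg _) hM).trans ?_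
    refine (pw_ave_mono h2).trans (le_of_eq ?_)
    rw [← pw_ave_equiv (Equiv.arrowProdEquivProdArrow ι (fun _ => S)
      (fun _ => Fin M → Bool)).symm, pw_ave_prod]
    congr 1
    funext σ
    congr 1
    funext v
    congr 2
    funext u
    exact (h1 σ v u).symm

end Pool.Agent.Lib.MP_3e612f_nt.RD
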