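import Pool.Agent.Lib.MP_3e612f_nt.RD.Peel

/-!
The structure theorem for real multilinear forms of large bias.

`struct_ind`: induction on `j`, one `peel` (for the last variable, the first `j` being fixed: for a proportion
`≥ δ / 2` of the first `j` variables the proportion of the last variable is `≥ δ / 2`), then the induction
hypothesis for `Q' = ι × Q`.

`struct_form`: the last variable by `lo_bias` (`B = 0`, `Q = ι`, `vt j = {j}`), then `struct_ind` for `j = d - 1`.
-/

set_option autoImplicit false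

namespace Pool.Agent.Lib.MP_3e612f_nt.RD

open Finset
open Pool.Agent.Lib.MP_3e612f_nt.PI (ee)
open Pool.Agent.Lib.MP_3e612f_nt.DI (av pr)

private theorem str_pr_def {α : Type} [Fintype α] (P : α → Prop) [DecidablePred P] :
    pr P = ((univ.filter P).card : ℝ) / Fintype.card α := by
  unfold pr
  congr!

private theorem str_pr_equiv {α β : Type} [Fintype α] [Fintype β] (e : α ≃ β) (P : β → Prop) :
    pr (fun a => P (e a)) = pr P := by
  classical
  rw [str_pr_def, str_pr_def, Fintype.card_congr e]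
  congr 2
  exact Finset.card_equiv e (by simp)

private theorem str_pr_prod {α β : Type} [Fintype α] [Fintype β] (P : α → β → Prop) :
    pr (fun x : α × β => P x.1 x.2) = ave fun a => pr (P a) := by
  classical
  unfold ave
  rw [str_pr_def, Fintype.card_prod, Finset.card_filter, Fintype.sum_prod_type, Nat.cast_mul,
    div_eq_mul_inv, mul_inv]
  have h : ∀ a, pr (P a) = ((∑ b, if P a b then 1 else 0 : ℕ) : ℝ) * (Fintype.card β : ℝ)⁻¹ := by
    intro a
    rw [str_pr_def, Finset.card_filter, div_eq_mul_inv]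
  rw [Finset.sum_congr rfl fun a _ => h a, ← Finset.sum_mul]
  push_cast
  ring

private theorem str_ave_le {α : Type} [Fintype α] (f : α → ℝ) (hf : ∀ a, f a ≤ 1) {t : ℝ}
    (ht : 0 ≤ t) : ave f ≤ pr (fun a => t ≤ f a) + t := by
  classical
  unfold ave
  rw [str_pr_def, Finset.card_filter]
  rcases Nat.eq_zero_or_pos (Fintype.card α) with h0 | h0
  · rw [h0]
    simp [ht]
  · have h1 : (0 : ℝ) < Fintype.card α := by exact_mod_cast h0
    have h2 : ∑ a, f a ≤ ∑ a, ((if t ≤ f a then (1 : ℝ) else 0) + t) := by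
      refine Finset.sum_le_sum fun a _ => ?_
      by_cases h : t ≤ f a
      · rw [if_pos h]
        linarith [hf a]
      · rw [if_neg h]
        linarith
    rw [Finset.sum_add_distrib, Finset.sum_const, card_univ, nsmul_eq_mul] at h2
    rw [inv_mul_le_iff₀ h1, mul_add, mul_div_cancel₀ _ h1.ne']
    push_cast
    linarith

/-- the last coordinate apart -/
private def sne (X : Type) (j : ℕ) : (Fin j → X) × X ≃ (Fin (j + 1) → X) :=
  (Equiv.prodComm _ _).trans (Fin.snocEquiv (fun _ => X))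

private theorem sne_castSucc {X : Type} {j : ℕ} (p : (Fin j → X) × X) (i : Fin j) :
    sne X j p i.castSucc = p.1 i := by
  simp [sne, Fin.snocEquiv]

private theorem sne_last {X : Type} {j : ℕ} (p : (Fin j → X) × X) :
    sne X j p (Fin.last j) = p.2 := by
  simp [sne, Fin.snocEquiv]

private theorem sne_image {X : Type} [DecidableEq X] {j : ℕ} (p : (Fin j → X) × X) :
    univ.image (sne X j p) = insert p.2 (univ.image p.1) := by
  ext a
  rw [mem_image, mem_insert, mem_image]
  constructor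
  · rintro ⟨i, -, rfl⟩
    induction i using Fin.lastCases with
    | last => left; exact sne_last p
    | cast i => right; exact ⟨i, mem_univ _, (sne_castSucc p i).symm⟩
  · rintro (rfl | ⟨i, -, rfl⟩)
    · exact ⟨Fin.last j, mem_univ _, sne_last p⟩
    · exact ⟨i.castSucc, mem_univ _, sne_castSucc p i⟩

private theorem str_dec {ι : Type} [Fintype ι] {j : ℕ} (z' : Fin j → ι → Bool × Bool)
    (zl : ι → Bool × Bool) (c : (Fin (j + 1) → ι) → UnitAddCircle) :
    ∑ κ : Fin (j + 1) → ι, (∏ i, zz (sne (ι → Bool × Bool) j (z', zl) i (κ i))) • c κ =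
      ∑ i : ι, zz (zl i) • ∑ κ' : Fin j → ι, (∏ i', zz (z' i' (κ' i'))) • c (sne ι j (κ', i)) := by
  rw [← (sne ι j).sum_comp, Fintype.sum_prod_type, Finset.sum_comm]
  refine Finset.sum_congr rfl fun i _ => ?_
  rw [Finset.smul_sum]
  refine Finset.sum_congr rfl fun κ' _ => ?_
  rw [smul_smul, Fin.prod_univ_castSucc, sne_last, sne_last, mul_comm]
  congr 2
  refine Finset.prod_congr rfl fun i' _ => ?_
  rw [sne_castSucc, sne_castSucc]

private theorem st_equiv {ι Q Q' : Type} [DecidableEq ι] [Fintype Q] [Fintype Q'] (e : Q' ≃ Q)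
    {vt : Q → Finset ι} {B : ℕ} {C : ℝ} {a : Q → UnitAddCircle}
    (h : St (fun q => vt (e q)) B C (fun q => a (e q))) : St vt B C a := by
  obtain ⟨E, hE, h1⟩ := h
  refine ⟨E, hE, le_trans (le_of_eq ?_) h1⟩
  rw [Finset.sum_filter, Finset.sum_filter, ← e.sum_comp]

private theorem st_congr {ι Q : Type} [DecidableEq ι] [Fintype Q]
    {vt vt' : Q → Finset ι} {B : ℕ} {C : ℝ} {a a' : Q → UnitAddCircle}
    (h : St vt B C a) (hv : vt = vt') (ha : a = a') : St vt' B C a' := by
  subst hv; subst ha; exact h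

theorem struct_ind (j : ℕ) : ∀ (k B : ℕ), 1 ≤ k → ∀ (C δ : ℝ), 0 ≤ C → 0 < δ →
    ∃ (M B' : ℕ) (C' : ℝ), 1 ≤ M ∧ 0 ≤ C' ∧
    ∀ (ι Q : Type) [Fintype ι] [DecidableEq ι] [Fintype Q] (vt : Q → Finset ι),
      (∀ κ, (vt κ).Nonempty) → (∀ κ, (vt κ).card ≤ k) → ∀ c : (Fin j → ι) → Q → UnitAddCircle,
      δ ≤ pr (fun z : Fin j → ι → Bool × Bool => St vt B C
        (fun q => ∑ κ : Fin j → ι, (∏ i, zz (z i (κ i))) • c κ q)) →
      St (fun x : (Fin j → ι) × Q => univ.image x.1 ∪ vt x.2) B' C' (fun x => M • c x.1 x.2) := by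
  induction j with
  | zero =>
    intro k B hk C δ hC hδ
    refine ⟨1, B, C, le_rfl, hC, fun ι Q _ _ _ vt _ _ c h => ?_⟩
    obtain ⟨z, hz⟩ := Pool.Agent.Lib.MP_3e612f_nt.DI.exists_of_pr_pos (lt_of_lt_of_le hδ h)
    refine st_equiv (Equiv.uniqueProd Q (Fin 0 → ι)).symm ?_
    refine st_congr hz ?_ ?_
    · funext q
      rw [Finset.univ_eq_empty, Finset.image_empty, Finset.empty_union]
      rfl
    · funext q
      rw [Fintype.sum_unique, Finset.univ_eq_empty, Finset.prod_empty, one_smul, one_smul]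
      rfl
  | succ j ih =>
    intro k B hk C δ hC hδ
    obtain ⟨M1, B1, C1, hM1, hC1, h1⟩ := peel k B hk hC (half_pos hδ)
    obtain ⟨M2, B2, C2, hM2, hC2, h2⟩ := ih (k + 1) B1 (by omega) C1 (δ / 2) hC1 (half_pos hδ)
    refine ⟨M2 * M1, B2, C2, Nat.one_le_iff_ne_zero.2 (by positivity), hC2,
      fun ι Q _ _ _ vt hvt hvk c h => ?_⟩
    have h3 : δ / 2 ≤ pr (fun z' : Fin j → ι → Bool × Bool =>
        St (fun x : ι × Q => insert x.1 (vt x.2)) B1 C1 (fun x =>
          ∑ κ' : Fin j → ι, (∏ i', zz (z' i' (κ' i'))) • (M1 • c (sne ι j (κ', x.1)) x.2))) := by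
      rw [← str_pr_equiv (sne _ j)] at h
      rw [str_pr_prod (fun (z' : Fin j → ι → Bool × Bool) (zl : ι → Bool × Bool) => St vt B C (fun q => ∑ κ : Fin (j + 1) → ι,
        (∏ i, zz (sne (ι → Bool × Bool) j (z', zl) i (κ i))) • c κ q))] at h
      have h4 := str_ave_le (fun z' : Fin j → ι → Bool × Bool => pr fun zl : ι → Bool × Bool =>
        St vt B C (fun q => ∑ κ : Fin (j + 1) → ι,
          (∏ i, zz (sne (ι → Bool × Bool) j (z', zl) i (κ i))) • c κ q))
        (fun _ => Pool.Agent.Lib.MP_3e612f_nt.DI.pr_le_one _) (half_pos hδ).le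
      have h5 : pr (fun z' : Fin j → ι → Bool × Bool => δ / 2 ≤ pr fun zl : ι → Bool × Bool =>
        St vt B C (fun q => ∑ κ : Fin (j + 1) → ι,
          (∏ i, zz (sne (ι → Bool × Bool) j (z', zl) i (κ i))) • c κ q)) ≤ pr (fun z' : Fin j → ι → Bool × Bool =>
        St (fun x : ι × Q => insert x.1 (vt x.2)) B1 C1 (fun x =>
          ∑ κ' : Fin j → ι, (∏ i', zz (z' i' (κ' i'))) • (M1 • c (sne ι j (κ', x.1)) x.2))) := by
        apply Pool.Agent.Lib.MP_3e612f_nt.DI.pr_mono
        intro z' hz'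
        have h6 := h1 ι Q vt hvt hvk (fun i q => ∑ κ' : Fin j → ι, (∏ i', zz (z' i' (κ' i'))) •
          c (sne ι j (κ', i)) q) (by
            refine hz'.trans (le_of_eq ?_)
            congr 1
            funext zl
            congr 1
            funext q
            exact str_dec z' zl (fun κ => c κ q))
        refine st_congr h6 rfl ?_
        funext x
        rw [Finset.smul_sum]
        refine Finset.sum_congr rfl fun κ' _ => ?_
        rw [smul_comm]
      linarith
    have h4 := h2 ι (ι × Q) (fun x => insert x.1 (vt x.2)) (fun x => insert_nonempty _ _)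
      (fun x => (card_insert_le _ _).trans (by have := hvk x.2; omega))
      (fun κ' x => M1 • c (sne ι j (κ', x.1)) x.2) h3
    refine st_equiv ((Equiv.prodAssoc _ _ _).symm.trans
      ((sne ι j).prodCongr (Equiv.refl Q))) ?_
    refine st_congr h4 ?_ ?_
    · funext x
      show univ.image x.1 ∪ insert x.2.1 (vt x.2.2) =
        univ.image (sne ι j (x.1, x.2.1)) ∪ vt x.2.2
      rw [sne_image, union_insert, insert_union]
    · funext x
      show M2 • (M1 • c (sne ι j (x.1, x.2.1)) x.2.2) = (M2 * M1) • c (sne ι j (x.1, x.2.1)) x.2.2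
      rw [mul_smul]

/-- **the structure theorem for real multilinear forms of large bias** -/
theorem struct_form (d : ℕ) (hd : 1 ≤ d) {δ : ℝ} (hδ : 0 < δ) :
    ∃ (M B : ℕ) (C : ℝ), 1 ≤ M ∧ 0 ≤ C ∧
    ∀ (ι : Type) [Fintype ι] [DecidableEq ι] (c : (Fin d → ι) → UnitAddCircle),
      δ ≤ ‖av fun z : Fin d → ι → Bool × Bool =>
        et (∑ κ : Fin d → ι, (∏ i, zz (z i (κ i))) • c κ)‖ →
      St (fun κ : Fin d → ι => univ.image κ) B C (fun κ => M • c κ) := by
  obtain ⟨j, rfl⟩ : ∃ j, d = j + 1 := ⟨d - 1, by omega⟩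
  obtain ⟨C0, hC0, h0⟩ := lo_bias (half_pos hδ)
  obtain ⟨M, B, C, hM, hC, h1⟩ := struct_ind j 1 0 le_rfl C0 (δ / 2) hC0 (half_pos hδ)
  refine ⟨M, B, C, hM, hC, fun ι _ _ c h => ?_⟩
  have h2 : δ / 2 ≤ pr (fun z' : Fin j → ι → Bool × Bool => St (fun i : ι => {i}) 0 C0
      (fun i => ∑ κ' : Fin j → ι, (∏ i', zz (z' i' (κ' i'))) • c (sne ι j (κ', i)))) := by
    rw [← Pool.Agent.Lib.MP_3e612f_nt.DI.av_equiv (sne _ j),
      Pool.Agent.Lib.MP_3e612f_nt.DI.av_prod] at h
    have h3 : δ ≤ ave (fun z' : Fin j → ι → Bool × Bool => ‖av fun zl : ι → Bool × Bool =>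
        et (∑ i : ι, zz (zl i) • ∑ κ' : Fin j → ι, (∏ i', zz (z' i' (κ' i'))) •
          c (sne ι j (κ', i)))‖) := by
      refine h.trans ?_
      unfold ave
      rw [av, norm_mul, norm_inv, Complex.norm_natCast]
      refine mul_le_mul_of_nonneg_left ?_ (by positivity)
      refine (norm_sum_le _ _).trans (le_of_eq ?_)
      refine Finset.sum_congr rfl fun z' _ => ?_
      congr 2
      funext zl
      rw [str_dec z' zl c]
    have h4 := str_ave_le (fun z' : Fin j → ι → Bool × Bool => ‖av fun zl : ι → Bool × Bool =>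
        et (∑ i : ι, zz (zl i) • ∑ κ' : Fin j → ι, (∏ i', zz (z' i' (κ' i'))) •
          c (sne ι j (κ', i)))‖) (fun z' => by
        refine Pool.Agent.Lib.MP_3e612f_nt.DI.norm_av_le_of zero_le_one fun zl => ?_
        unfold et
        rw [Circle.norm_coe]) (half_pos hδ).le
    have h5 : pr (fun z' : Fin j → ι → Bool × Bool => δ / 2 ≤ ‖av fun zl : ι → Bool × Bool =>
        et (∑ i : ι, zz (zl i) • ∑ κ' : Fin j → ι, (∏ i', zz (z' i' (κ' i'))) •
          c (sne ι j (κ', i)))‖) ≤
        pr (fun z' : Fin j → ι → Bool × Bool => St (fun i : ι => {i}) 0 C0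
      (fun i => ∑ κ' : Fin j → ι, (∏ i', zz (z' i' (κ' i'))) • c (sne ι j (κ', i)))) := by
      apply Pool.Agent.Lib.MP_3e612f_nt.DI.pr_mono
      intro z' hz'
      refine ⟨∅, by simp, ?_⟩
      refine le_trans (le_of_eq ?_) (h0 ι _ hz')
      refine Finset.sum_congr ?_ fun _ _ => rfl
      simp
    linarith
  have h3 := h1 ι ι (fun i => {i}) (fun i => singleton_nonempty i) (fun i => (card_singleton i).le)
    (fun κ' i => c (sne ι j (κ', i))) h2
  refine st_equiv (sne ι j) ?_
  refine st_congr h3 ?_ rfl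
  funext x
  rw [sne_image]
  ext a
  simp only [mem_union, mem_insert, mem_singleton]
  tauto

end Pool.Agent.Lib.MP_3e612f_nt.RD
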