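import Pool.Agent.Lib.MP_3e612f_nt.RD.Es
import Pool.Agent.Lib.MP_3e612f_nt.RD.Str
import Pool.Agent.Lib.MP_3e612f_nt.RD.Cheb
import Pool.Agent.Lib.MP_3e612f_nt.RD.Pow
import Pool.Agent.Lib.MP_3e612f_nt.RD.Box

/-!
The abstract inverse theorem.

PROOF of `ait0` (no phase with values in `ZMod M`). For every `σ` and every colouring `col : ι → Fin d'` the bound
`box` for `u ↦ P (flp u σ)`, `J = act σ`; the top coefficient at `κ` is `± c (κ, labels)` (`Top`). So the average over
`(σ, col)`, that is over `ι → S × Fin d'`, of the bias is at least `δ ^ (2 ^ d')` =: `δ1` (Jensen), so a proportion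
`≥ δ1 / 2` of the `(σ, col)` has bias `≥ δ1 / 2`, and for them `struct_form` gives `St`. Then `cheb` with
`L i k (s, col) = if col = i then lab k s else none`, `ρ1 = ρ0 / d'`, `W x = ‖M • c x‖²`: a visible tuple `x` is the
tuple `κ i = (x i).1`, which is in the sum of `St` for `c_κ = ± c x`, and different visible `x` have different `κ`.

PROOF of `ait`. Induction on `d` with `pow_step` (`ρ0` becomes `ρ0 / 2 ^ M`, `c` becomes `M • c`, `δ` becomes `δ ^ M`); for
`d = 0` the phase `φ (flp u σ)` does not depend on `u` (`LORT.dg_zero`), so its factor has norm `1`.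
-/

set_option autoImplicit false

namespace Pool.Agent.Lib.MP_3e612f_nt.RD

open Finset
open Pool.Agent.Lib.MP_3e612f_nt.PI (ee)
open Pool.Agent.Lib.MP_3e612f_nt.DI (av pr)
open Pool.Agent.Lib.MP_3e612f_nt.LORT (Dg cst)

private theorem ave_mono' {α : Type} [Fintype α] {f g : α → ℝ} (h : ∀ a, f a ≤ g a) :
    ave f ≤ ave g := by
  unfold ave
  exact mul_le_mul_of_nonneg_left (Finset.sum_le_sum fun a _ => h a) (by positivity)

private theorem ave_pow' {α : Type} [Fintype α] [Nonempty α] {f : α → ℝ} (h : ∀ a, 0 ≤ f a) (n : ℕ) :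
    ave f ^ n ≤ ave fun a => f a ^ n := by
  unfold ave
  have h0 : (Fintype.card α : ℝ) ≠ 0 := by exact_mod_cast Fintype.card_ne_zero
  have h1 := Real.pow_arith_mean_le_arith_mean_pow (univ : Finset α)
    (fun _ : α => (Fintype.card α : ℝ)⁻¹) f (fun _ _ => by positivity)
    (by rw [Finset.sum_const, card_univ, nsmul_eq_mul, mul_inv_cancel₀ h0]) (fun a _ => h a) n
  simpa only [← Finset.mul_sum] using h1

private theorem pr_eq' {α : Type} [Fintype α] (P : α → Prop) [DecidablePred P] :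
    pr P = ((univ.filter P).card : ℝ) / Fintype.card α := by
  unfold pr
  congr!

private theorem ave_pr' {α : Type} [Fintype α] [Nonempty α] {f : α → ℝ} {δ : ℝ} (hδ : 0 < δ)
    (h1 : ∀ a, f a ≤ 1) (h : δ ≤ ave f) : δ / 2 ≤ pr fun a => δ / 2 ≤ f a := by
  classical
  have h0 : (Fintype.card α : ℝ) ≠ 0 := by exact_mod_cast Fintype.card_ne_zero
  have h2 : ave f ≤ ave fun a => (if δ / 2 ≤ f a then 1 else 0) + δ / 2 := by
    refine ave_mono' fun a => ?_
    split_ifs with h3
    · linarith [h1 a]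
    · linarith [not_le.1 h3]
  have h3 : (ave fun a => (if δ / 2 ≤ f a then (1 : ℝ) else 0) + δ / 2) =
      (pr fun a => δ / 2 ≤ f a) + δ / 2 := by
    rw [pr_eq']
    unfold ave
    rw [Finset.sum_add_distrib, Finset.sum_boole, Finset.sum_const, card_univ, nsmul_eq_mul, mul_add,
      inv_mul_cancel_left₀ h0, div_eq_inv_mul ((#{a | δ / 2 ≤ f a} : ℕ) : ℝ)]
  linarith

private theorem ave_fst' {ι S C : Type} [Fintype ι] [DecidableEq ι] [Fintype S] [Fintype C] [Nonempty C]
    (G : (ι → S) → ℝ) : (ave fun τ : ι → S × C => G fun k => (τ k).1) = ave G := by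
  unfold ave
  have h0 : (Fintype.card (ι → C) : ℝ) ≠ 0 := by exact_mod_cast Fintype.card_ne_zero
  let e : (ι → S × C) ≃ (ι → S) × (ι → C) :=
    { toFun := fun τ => (fun k => (τ k).1, fun k => (τ k).2)
      invFun := fun p k => (p.1 k, p.2 k)
      left_inv := fun τ => rfl
      right_inv := fun p => rfl }
  have h1 : ∑ τ : ι → S × C, G (fun k => (τ k).1) = ∑ p : (ι → S) × (ι → C), G p.1 :=
    Equiv.sum_comp e fun p => G p.1
  have h2 : ∑ p : (ι → S) × (ι → C), G p.1 = Fintype.card (ι → C) * ∑ σ, G σ := by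
    rw [Fintype.sum_prod_type]
    simp only [Finset.sum_const, card_univ, nsmul_eq_mul]
    rw [Finset.mul_sum]
  rw [h1, h2, Fintype.card_congr e, Fintype.card_prod, Nat.cast_mul, mul_inv, mul_assoc,
    inv_mul_cancel_left₀ h0]

private theorem pr_col' {S Θ : Type} [Fintype S] [Nonempty S] {d : ℕ} (hd : 1 ≤ d) (f : S → Option Θ)
    (i : Fin d) (θ : Θ) {ρ : ℝ} (h : ρ ≤ pr fun s => f s = some θ) :
    ρ / d ≤ pr fun s : S × Fin d => (if s.2 = i then f s.1 else none) = some θ := by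
  classical
  rw [pr_eq'] at h ⊢
  have h1 : (univ.filter fun s : S × Fin d => (if s.2 = i then f s.1 else none) = some θ) =
      (univ.filter fun s => f s = some θ) ×ˢ {i} := by
    ext ⟨s, j⟩
    simp only [mem_filter, mem_univ, true_and, mem_product, mem_singleton]
    by_cases hj : j = i
    · simp [hj]
    · simp [hj]
  have h2 : ((univ.filter fun s : S × Fin d => (if s.2 = i then f s.1 else none) = some θ).card : ℝ) =
      ((univ.filter fun s => f s = some θ).card : ℝ) := by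
    rw [h1, card_product, card_singleton, mul_one]
  have hd0 : (0 : ℝ) < d := by exact_mod_cast hd
  rw [Fintype.card_prod, Fintype.card_fin, Nat.cast_mul, ← div_div]
  refine div_le_div_of_nonneg_right ?_ hd0.le
  rw [h2]
  exact h

private theorem norm_et' (t : UnitAddCircle) : ‖et t‖ = 1 := by
  unfold et
  exact Circle.norm_coe _

private theorem norm_av_et_le' {α : Type} [Fintype α] (f : α → UnitAddCircle) :
    ‖av fun a => et (f a)‖ ≤ 1 :=
  DI.norm_av_le_of zero_le_one fun _ => (norm_et' _).le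

theorem ait0 (d' : ℕ) (hd' : 1 ≤ d') {δ ρ0 : ℝ} (hδ : 0 < δ) (hρ : 0 < ρ0) :
    ∃ (M' B' : ℕ) (C' : ℝ), 1 ≤ M' ∧ 0 ≤ C' ∧
    ∀ (ι S Θ : Type) [Fintype ι] [DecidableEq ι] [Fintype S] [Nonempty S] [Fintype Θ]
      [DecidableEq Θ] (w : Sw ι S Θ) (A : Finset ι),
      (∀ k ∈ A, ∀ θ, ρ0 ≤ pr fun s => w.lab k s = some θ) →
      ∀ (P : (ι → S) → UnitAddCircle) (c : (Fin d' → ι × Θ) → UnitAddCircle),
        w.Deg d' P → w.Top P c →
        δ ≤ ave (fun σ => ‖av fun u : ι → Bool => et (P (w.flp u σ))‖) →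
        ∃ E : Finset ι, E.card ≤ B' ∧ ∑ x ∈ Tup d' (A \ E), ‖M' • c x‖ ^ 2 ≤ C' := by
  classical
  have hδ1 : 0 < δ ^ 2 ^ d' := pow_pos hδ _
  obtain ⟨M1, B1, C1, hM1, hC1, hst⟩ := struct_form d' hd' (half_pos hδ1)
  have hd0 : (0 : ℝ) < d' := by exact_mod_cast hd'
  obtain ⟨B', C', hC', hch⟩ := cheb d' B1 hd' hC1 (div_pos hρ hd0) (half_pos hδ1)
  refine ⟨M1, B', C', hM1, hC', ?_⟩
  intro ι S Θ _ _ _ _ _ _ w A hA P c hdeg htop hav
  have hne : Nonempty (Fin d') := ⟨⟨0, hd'⟩⟩
  refine hch ι (S × Fin d') Θ (fun i k s => if s.2 = i then w.lab k s.1 else none) A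
    (fun i k hk θ => pr_col' hd' (w.lab k) i θ (hA k hk θ)) (fun x => ‖M1 • c x‖ ^ 2)
    (fun x => sq_nonneg _) ?_ ?_
  · intro x
    have h1 : ‖M1 • c x‖ ≤ 1 / 2 := by
      have := AddCircle.norm_le_half_period (1 : ℝ) (x := M1 • c x) one_ne_zero
      simpa using this
    have h2 : ‖M1 • c x‖ ^ 2 ≤ (1 / 2) ^ 2 := pow_le_pow_left₀ (norm_nonneg _) h1 2
    linarith
  · -- the coefficients for a state and a colouring
    let ct : (ι → S × Fin d') → (Fin d' → ι) → UnitAddCircle := fun τ κ =>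
      if ∀ i, κ i ∈ w.act (fun k => (τ k).1) ∧ (τ (κ i)).2 = i then
        tc (fun u => P (w.flp u fun k => (τ k).1)) κ else 0
    let f : (ι → S × Fin d') → ℝ := fun τ =>
      ‖av fun z : Fin d' → ι → Bool × Bool => et (∑ κ : Fin d' → ι, (∏ i, zz (z i (κ i))) • ct τ κ)‖
    have h1 : δ ^ 2 ^ d' ≤ ave f := by
      calc δ ^ 2 ^ d' ≤ (ave fun σ => ‖av fun u : ι → Bool => et (P (w.flp u σ))‖) ^ 2 ^ d' :=
            pow_le_pow_left₀ hδ.le hav _
        _ ≤ ave fun σ => ‖av fun u : ι → Bool => et (P (w.flp u σ))‖ ^ 2 ^ d' :=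
            ave_pow' (fun _ => norm_nonneg _) _
        _ = ave fun τ : ι → S × Fin d' =>
              ‖av fun u : ι → Bool => et (P (w.flp u fun k => (τ k).1))‖ ^ 2 ^ d' :=
            (ave_fst' (C := Fin d')
              fun σ => ‖av fun u : ι → Bool => et (P (w.flp u σ))‖ ^ 2 ^ d').symm
        _ ≤ ave f := by
            refine ave_mono' fun τ => ?_
            exact box hd' (w.act fun k => (τ k).1) (fun u => P (w.flp u fun k => (τ k).1))
              (hdeg fun k => (τ k).1) fun k => (τ k).2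
    refine (ave_pr' hδ1 (fun τ => norm_av_et_le' _) h1).trans ?_
    refine DI.pr_mono fun τ hτ => ?_
    obtain ⟨E, hE, hsum⟩ := hst ι (ct τ) hτ
    refine ⟨E, hE, le_trans ?_ hsum⟩
    have hvis : ∀ x ∈ (Tup d' (A \ E)).filter (fun x : Fin d' → ι × Θ => ∀ i,
        (if (τ (x i).1).2 = i then w.lab (x i).1 (τ (x i).1).1 else none) = some (x i).2),
        (∀ i, w.lab (x i).1 (τ (x i).1).1 = some (x i).2) ∧ (∀ i, (τ (x i).1).2 = i) := by
      intro x hx
      obtain ⟨-, hx2⟩ := mem_filter.1 hx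
      have h2 : ∀ i, (τ (x i).1).2 = i := by
        intro i
        by_contra h3
        have h4 := hx2 i
        rw [if_neg h3] at h4
        cases h4
      refine ⟨fun i => ?_, h2⟩
      have h4 := hx2 i
      rw [if_pos (h2 i)] at h4
      exact h4
    have hval : ∀ x ∈ (Tup d' (A \ E)).filter (fun x : Fin d' → ι × Θ => ∀ i,
        (if (τ (x i).1).2 = i then w.lab (x i).1 (τ (x i).1).1 else none) = some (x i).2),
        ‖M1 • c x‖ = ‖M1 • ct τ fun i => (x i).1‖ := by
      intro x hx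
      obtain ⟨hl, hc⟩ := hvis x hx
      have hxi : Function.Injective fun i => (x i).1 :=
        (mem_filter.1 (mem_filter.1 hx).1).2.1
      have h2 := htop (fun k => (τ k).1) x hxi hl
      have h3 : ct τ (fun i => (x i).1) = w.alt (fun i => (x i).1) P fun k => (τ k).1 := by
        change (if _ then _ else _) = _
        rw [if_pos]
        · rfl
        · intro i
          refine ⟨?_, hc i⟩
          unfold Sw.act
          rw [mem_filter]
          refine ⟨mem_univ _, ?_⟩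
          rw [hl i]
          rfl
      rw [h3, h2]
      have h4 : (∏ i, w.sg (x i).1 (τ (x i).1).1) = 1 ∨ (∏ i, w.sg (x i).1 (τ (x i).1).1) = -1 := by
        refine Finset.prod_induction _ (fun n : ℤ => n = 1 ∨ n = -1) ?_ (Or.inl rfl) ?_
        · rintro a b (rfl | rfl) (rfl | rfl) <;> simp
        · intro i _
          exact w.sg_one _ _ (by rw [hl i]; simp)
      rcases h4 with h4 | h4
      · rw [h4, one_smul]
      · rw [h4, neg_smul, one_smul, smul_neg, norm_neg]
    have hinj : Set.InjOn (fun x : Fin d' → ι × Θ => fun i => (x i).1)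
        ((Tup d' (A \ E)).filter (fun x : Fin d' → ι × Θ => ∀ i,
        (if (τ (x i).1).2 = i then w.lab (x i).1 (τ (x i).1).1 else none) = some (x i).2)) := by
      intro x hx y hy hxy
      have hl := (hvis x (mem_coe.1 hx)).1
      have hl' := (hvis y (mem_coe.1 hy)).1
      funext i
      have h5 : (x i).1 = (y i).1 := congrFun hxy i
      refine Prod.ext h5 ?_
      have h6 := hl i
      rw [h5, hl' i] at h6
      exact (Option.some.inj h6).symm
    calc ∑ x ∈ (Tup d' (A \ E)).filter (fun x : Fin d' → ι × Θ => ∀ i,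
          (if (τ (x i).1).2 = i then w.lab (x i).1 (τ (x i).1).1 else none) = some (x i).2),
          ‖M1 • c x‖ ^ 2
        = ∑ x ∈ (Tup d' (A \ E)).filter (fun x : Fin d' → ι × Θ => ∀ i,
          (if (τ (x i).1).2 = i then w.lab (x i).1 (τ (x i).1).1 else none) = some (x i).2),
          ‖M1 • ct τ fun i => (x i).1‖ ^ 2 :=
          Finset.sum_congr rfl fun x hx => by rw [hval x hx]
      _ = ∑ κ ∈ ((Tup d' (A \ E)).filter (fun x : Fin d' → ι × Θ => ∀ i,
          (if (τ (x i).1).2 = i then w.lab (x i).1 (τ (x i).1).1 else none) =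
            some (x i).2)).image (fun x : Fin d' → ι × Θ => fun i => (x i).1),
          ‖M1 • ct τ κ‖ ^ 2 := (Finset.sum_image (f := fun κ => ‖M1 • ct τ κ‖ ^ 2) hinj).symm
      _ ≤ _ := by
          refine Finset.sum_le_sum_of_subset_of_nonneg ?_ fun _ _ _ => sq_nonneg _
          intro κ hκ
          obtain ⟨x, hx, rfl⟩ := mem_image.1 hκ
          have h7 := (mem_filter.1 (mem_filter.1 hx).1).2.2
          refine mem_filter.2 ⟨mem_univ _, ?_⟩
          rw [Finset.disjoint_left]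
          intro k hk hkE
          obtain ⟨i, -, rfl⟩ := mem_image.1 hk
          exact (mem_sdiff.1 (h7 i)).2 hkE

/-- **the abstract inverse theorem** -/
theorem ait (d' d M : ℕ) [NeZero M] (hd' : 1 ≤ d') {δ ρ0 : ℝ} (hδ : 0 < δ) (hρ : 0 < ρ0) :
    ∃ (M' B' : ℕ) (C' : ℝ), 1 ≤ M' ∧ 0 ≤ C' ∧
    ∀ (ι S Θ : Type) [Fintype ι] [DecidableEq ι] [Fintype S] [Nonempty S] [Fintype Θ]
      [DecidableEq Θ] (w : Sw ι S Θ) (A : Finset ι),
      (∀ k ∈ A, ∀ θ, ρ0 ≤ pr fun s => w.lab k s = some θ) →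
      ∀ (φ : (ι → S) → ZMod M) (P : (ι → S) → UnitAddCircle)
        (c : (Fin d' → ι × Θ) → UnitAddCircle), w.Deg d φ → w.Deg d' P → w.Top P c →
        δ ≤ ave (fun σ => ‖av fun u : ι → Bool =>
          ee (φ (w.flp u σ)) * et (P (w.flp u σ))‖) →
        ∃ E : Finset ι, E.card ≤ B' ∧ ∑ x ∈ Tup d' (A \ E), ‖M' • c x‖ ^ 2 ≤ C' := by
  induction d generalizing δ ρ0 with
  | zero =>
    obtain ⟨M', B', C', hM', hC', h⟩ := ait0 d' hd' hδ hρ
    refine ⟨M', B', C', hM', hC', ?_⟩
    intro ι S Θ _ _ _ _ _ _ w A hA φ P c hφ hP hc hav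
    refine h ι S Θ w A hA P c hP hc (le_of_le_of_eq hav ?_)
    unfold ave
    congr 1
    refine Finset.sum_congr rfl fun σ _ => ?_
    have h1 : ∀ u : ι → Bool, φ (w.flp u σ) = φ (w.flp (fun _ => false) σ) := fun u =>
      LORT.dg_zero (hφ σ) u fun _ => false
    have h2 : (av fun u : ι → Bool => ee (φ (w.flp u σ)) * et (P (w.flp u σ))) =
        ee (φ (w.flp (fun _ => false) σ)) * av fun u : ι → Bool => et (P (w.flp u σ)) := by
      rw [← DI.av_mul_left]
      congr 1
      funext u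
      rw [h1 u]
    simp only []
    rw [h2, norm_mul, LORT.bg_norm_ee, one_mul]
  | succ d ih =>
    have hM0 : 1 ≤ M := Nat.one_le_iff_ne_zero.2 (NeZero.ne M)
    obtain ⟨M', B', C', hM', hC', h⟩ := ih (pow_pos hδ M) (mul_pos (show (0 : ℝ) < 1 / 2 ^ M by positivity) hρ)
    refine ⟨M' * M, B', C', Nat.one_le_iff_ne_zero.2 (by positivity), hC', ?_⟩
    intro ι S Θ _ _ _ _ _ _ w A hA φ P c hφ hP hc hav
    obtain ⟨φ', P', hφ', hP', hc', hle⟩ := pow_step w hφ hP hc
    obtain ⟨E, hE, hs⟩ := h ι (S × (Fin M → Bool)) Θ (w.pw M) A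
      (fun k hk θ => (mul_le_mul_of_nonneg_left (hA k hk θ) (by positivity)).trans (pw_lab w M k θ))
      φ' P' (fun x => M • c x) hφ' hP' hc' ((pow_le_pow_left₀ hδ.le hav M).trans hle)
    refine ⟨E, hE, le_of_eq_of_le ?_ hs⟩
    refine Finset.sum_congr rfl fun x _ => ?_
    rw [mul_nsmul']

end Pool.Agent.Lib.MP_3e612f_nt.RD
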