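import Pool.Agent.Lib.MP_3e612f_nt.RD.Defs

/-!
Efron - Stein on product spaces and the removal of a factor of small influence.

`efron`. Induction on `B`: `ce (insert i B) f = ce {i} (ce B f)`, `ce {i}` is the orthogonal projection on the
functions which do not depend on the coordinate `i`, and
`f - ce (insert i B) f = (f - ce {i} f) + ce {i} (f - ce B f)` is an orthogonal sum; `ce {i}` is a contraction.

`gamma`. For fixed `σ` let `m = ave_u g(flp u σ)`; `|e(g) - e(m)| ≤ 2 π |g - m|`, Cauchy - Schwarz and
Efron - Stein on the cube `ι → Bool` (`f - ce {k} f = (f - f∘flip_k) / 2`):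
`ave_u |g - m|² ≤ 1/4 ∑_k ave_u (g(flp_k flp_u σ) - g(flp_u σ))²`. The average over `σ` of a function of
`flp u σ` is the average over `σ` (`flp u` is a bijection). `2 π / 2 ≤ 4`.
-/

set_option autoImplicit false

namespace Pool.Agent.Lib.MP_3e612f_nt.RD

open Finset
open Pool.Agent.Lib.MP_3e612f_nt.PI (ee)
open Pool.Agent.Lib.MP_3e612f_nt.DI (av pr)

/-- the average over the coordinates in `B` -/
noncomputable def ce {ι α : Type} [Fintype ι] [DecidableEq ι] [Fintype α] (B : Finset ι)
    (f : (ι → α) → ℝ) (x : ι → α) : ℝ := ave fun y : ι → α => f (B.piecewise y x)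

section ave
variable {α β : Type} [Fintype α] [Fintype β]

private theorem esave_const [Nonempty α] (c : ℝ) : ave (fun _ : α => c) = c := by
  unfold ave
  have h : (Fintype.card α : ℝ) ≠ 0 := by exact_mod_cast Fintype.card_ne_zero
  rw [Finset.sum_const, card_univ, nsmul_eq_mul, inv_mul_cancel_left₀ h]

private theorem esave_add (f g : α → ℝ) : ave (fun a => f a + g a) = ave f + ave g := by
  unfold ave
  rw [Finset.sum_add_distrib, mul_add]

private theorem esave_sub (f g : α → ℝ) : ave (fun a => f a - g a) = ave f - ave g := by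
  unfold ave
  rw [Finset.sum_sub_distrib, mul_sub]

private theorem esave_mul (c : ℝ) (f : α → ℝ) : ave (fun a => c * f a) = c * ave f := by
  unfold ave
  rw [← Finset.mul_sum, mul_left_comm]

private theorem esave_sum {ι : Type} (s : Finset ι) (f : ι → α → ℝ) :
    ave (fun a => ∑ i ∈ s, f i a) = ∑ i ∈ s, ave (f i) := by
  unfold ave
  rw [Finset.sum_comm, Finset.mul_sum]

private theorem esave_mono {f g : α → ℝ} (h : ∀ a, f a ≤ g a) : ave f ≤ ave g := by
  unfold ave
  exact mul_le_mul_of_nonneg_left (Finset.sum_le_sum fun a _ => h a) (by positivity)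

private theorem esave_nonneg {f : α → ℝ} (h : ∀ a, 0 ≤ f a) : 0 ≤ ave f := by
  unfold ave
  exact mul_nonneg (by positivity) (Finset.sum_nonneg fun a _ => h a)

private theorem esave_equiv (σ : α ≃ β) (f : β → ℝ) : ave (fun a => f (σ a)) = ave f := by
  unfold ave
  rw [Fintype.card_congr σ, Equiv.sum_comp σ f]

private theorem esave_prod (f : α × β → ℝ) : ave f = ave fun a => ave fun b => f (a, b) := by
  unfold ave
  rw [Fintype.card_prod, Fintype.sum_prod_type, ← Finset.mul_sum, Nat.cast_mul, mul_inv, mul_assoc]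

private theorem esave_comm (f : α → β → ℝ) :
    (ave fun a => ave fun b => f a b) = ave fun b => ave fun a => f a b := by
  unfold ave
  rw [← Finset.mul_sum, ← Finset.mul_sum, Finset.sum_comm, mul_left_comm]

private theorem esave_sq (f : α → ℝ) : (ave f) ^ 2 ≤ ave fun a => f a ^ 2 := by
  unfold ave
  rcases Nat.eq_zero_or_pos (Fintype.card α) with h0 | h0
  · simp [h0]
  · have h2 : (0 : ℝ) < Fintype.card α := by exact_mod_cast h0
    have h3 : (∑ a, f a) ^ 2 ≤ (Fintype.card α : ℝ) * ∑ a, f a ^ 2 := by
      have := sq_sum_le_card_mul_sum_sq (s := (univ : Finset α)) (f := f)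
      rwa [card_univ] at this
    rw [mul_pow, sq ((Fintype.card α : ℝ)⁻¹), mul_assoc]
    refine mul_le_mul_of_nonneg_left ?_ (by positivity)
    rw [inv_mul_le_iff₀ h2]
    exact h3

private theorem esave_sqrt {f : α → ℝ} : ave f ≤ Real.sqrt (ave fun a => f a ^ 2) :=
  (le_abs_self _).trans (Real.abs_le_sqrt (esave_sq f))

end ave

section
variable {ι α : Type} [Fintype ι] [DecidableEq ι] [Fintype α]

private theorem esave_piecewise [Nonempty α] (B : Finset ι) (f : (ι → α) → ℝ) :
    (ave fun k : ι → α => ave fun k' : ι → α => f (B.piecewise k' k)) = ave f := by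
  let σ : ((ι → α) × (ι → α)) ≃ ((ι → α) × (ι → α)) :=
    { toFun := fun p => (B.piecewise p.2 p.1, B.piecewise p.1 p.2)
      invFun := fun p => (B.piecewise p.2 p.1, B.piecewise p.1 p.2)
      left_inv := by
        rintro ⟨x, u⟩
        ext c <;> by_cases hc : c ∈ B <;> simp [hc]
      right_inv := by
        rintro ⟨x, u⟩
        ext c <;> by_cases hc : c ∈ B <;> simp [hc] }
  have h1 := esave_equiv σ (fun p : (ι → α) × (ι → α) => f p.1)
  rw [esave_prod, esave_prod] at h1
  have h2 : (ave fun a : ι → α => ave fun _ : ι → α => f a) = ave f := by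
    congr 1
    funext a
    exact esave_const _
  rw [← h2]
  exact h1

private theorem ce_ave [Nonempty α] (B : Finset ι) (f : (ι → α) → ℝ) : ave (ce B f) = ave f :=
  esave_piecewise B f

/-- `ce B f` does not depend on the coordinates in `B` -/
private theorem ce_piecewise (B : Finset ι) (f : (ι → α) → ℝ) (x y : ι → α) :
    ce B f (B.piecewise y x) = ce B f x := by
  unfold ce
  congr 1
  funext z
  congr 1
  funext c
  by_cases hc : c ∈ B <;> simp [hc]

private theorem ce_orth [Nonempty α] (B : Finset ι) (f v : (ι → α) → ℝ)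
    (hv : ∀ x y, v (B.piecewise y x) = v x) : ave (fun x => (f x - ce B f x) * v x) = 0 := by
  have h1 : ave (fun x => f x * v x) = ave (fun x => ce B f x * v x) := by
    rw [← esave_piecewise B (fun x => f x * v x)]
    congr 1
    funext x
    have h2 : (fun k' : ι → α => f (B.piecewise k' x) * v (B.piecewise k' x)) =
        fun k' => v x * f (B.piecewise k' x) := by
      funext k'
      rw [hv, mul_comm]
    rw [h2, esave_mul, mul_comm]
    rfl
  have h3 : (fun x => (f x - ce B f x) * v x) = fun x => f x * v x - ce B f x * v x := by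
    funext x; ring
  rw [h3, esave_sub, h1, sub_self]

private theorem ce_pyth [Nonempty α] (B : Finset ι) (f v : (ι → α) → ℝ)
    (hv : ∀ x y, v (B.piecewise y x) = v x) :
    ave (fun x => (f x - ce B f x + v x) ^ 2) =
      ave (fun x => (f x - ce B f x) ^ 2) + ave fun x => v x ^ 2 := by
  have h1 := ce_orth B f v hv
  have h2 : (fun x => (f x - ce B f x + v x) ^ 2) =
      fun x => ((f x - ce B f x) ^ 2 + 2 * ((f x - ce B f x) * v x)) + v x ^ 2 := by
    funext x; ring
  rw [h2, esave_add, esave_add, esave_mul, h1]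
  ring

private theorem ce_sq (B : Finset ι) (f : (ι → α) → ℝ) (x : ι → α) :
    ce B f x ^ 2 ≤ ce B (fun y => f y ^ 2) x := esave_sq _

private theorem ce_sub (B : Finset ι) (f g : (ι → α) → ℝ) (x : ι → α) :
    ce B (fun y => f y - g y) x = ce B f x - ce B g x := esave_sub _ _

private theorem ce_insert [Nonempty α] {i : ι} {B : Finset ι} (hi : i ∉ B) (f : (ι → α) → ℝ) (x : ι → α) :
    ce (insert i B) f x = ce {i} (ce B f) x := by
  unfold ce
  rw [← esave_piecewise B]
  congr 1
  funext y
  congr 1
  funext z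
  congr 1
  funext c
  by_cases hc : c ∈ B
  · simp [hc]
  · by_cases hci : c = i
    · subst hci
      simp [hi]
    · simp [hc, hci]

end

/-- **Efron - Stein** -/
theorem efron {ι α : Type} [Fintype ι] [DecidableEq ι] [Fintype α] [Nonempty α] (B : Finset ι)
    (f : (ι → α) → ℝ) :
    ave (fun x => (f x - ce B f x) ^ 2) ≤ ∑ i ∈ B, ave fun x => (f x - ce {i} f x) ^ 2 := by
  induction B using Finset.induction_on with
  | empty =>
    have h1 : ∀ x, ce (∅ : Finset ι) f x = f x := by
      intro x
      unfold ce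
      simp only [Finset.piecewise_empty]
      exact esave_const _
    simp only [h1, sub_self, Finset.sum_empty]
    simp [ave]
  | insert i B hi ih =>
    rw [Finset.sum_insert hi]
    have h1 : (fun x => (f x - ce (insert i B) f x) ^ 2) =
        fun x => (f x - ce {i} f x + ce {i} (fun y => f y - ce B f y) x) ^ 2 := by
      funext x
      rw [ce_insert hi, ce_sub]
      ring
    rw [h1, ce_pyth {i} f _ (fun x y => ce_piecewise {i} _ x y)]
    have h2 : ave (fun x => ce {i} (fun y => f y - ce B f y) x ^ 2) ≤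
        ave fun x => (f x - ce B f x) ^ 2 := by
      rw [← ce_ave {i} (fun x => (f x - ce B f x) ^ 2)]
      exact esave_mono fun x => ce_sq {i} _ x
    linarith

/-- the same with the change of one coordinate to a fixed value -/
theorem efron_fix {ι α : Type} [Fintype ι] [DecidableEq ι] [Fintype α] [Nonempty α] (B : Finset ι)
    (f : (ι → α) → ℝ) (a : α) :
    ave (fun x => (f x - ce B f x) ^ 2) ≤
      ∑ i ∈ B, ave fun x => (f x - f (Function.update x i a)) ^ 2 := by
  refine (efron B f).trans (Finset.sum_le_sum fun i _ => ?_)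
  have h1 : (fun x => (f x - f (Function.update x i a)) ^ 2) =
      fun x => (f x - ce {i} f x + (ce {i} f x - f (Function.update x i a))) ^ 2 := by
    funext x; ring
  rw [h1, ce_pyth {i} f (fun x => ce {i} f x - f (Function.update x i a))]
  · have := esave_nonneg (f := fun x => (ce {i} f x - f (Function.update x i a)) ^ 2)
      fun x => sq_nonneg _
    linarith
  · intro x y
    rw [ce_piecewise]
    congr 2
    funext c
    by_cases hc : c = i
    · subst hc; simp
    · simp [hc]

section cube
variable {ι : Type} [Fintype ι] [DecidableEq ι]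

private theorem ce_cube (k : ι) (h : (ι → Bool) → ℝ) (u : ι → Bool) :
    ce {k} h u = (h u + h (Function.update u k (!u k))) / 2 := by
  have h1 : ∀ y : ι → Bool, ({k} : Finset ι).piecewise y u = Function.update u k (y k) := by
    intro y
    funext c
    by_cases hc : c = k
    · subst hc; simp
    · simp [hc]
  have h2 : ce {k} h u = ave fun y : ι → Bool => h (Function.update u k (y k)) := by
    unfold ce
    simp only [h1]
  let σ : (ι → Bool) ≃ (ι → Bool) :=
    { toFun := fun y => Function.update y k (!y k)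
      invFun := fun y => Function.update y k (!y k)
      left_inv := by intro y; simp
      right_inv := by intro y; simp }
  have h3 : ce {k} h u = ave fun y : ι → Bool => h (Function.update u k (!y k)) := by
    rw [h2, ← esave_equiv σ (fun y : ι → Bool => h (Function.update u k (y k)))]
    congr 1
    funext y
    simp [σ]
  have h4 : (ave fun y : ι → Bool => h (Function.update u k (y k))) +
      (ave fun y : ι → Bool => h (Function.update u k (!y k))) =
      h u + h (Function.update u k (!u k)) := by
    rw [← esave_add]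
    have h5 : (fun y : ι → Bool => h (Function.update u k (y k)) + h (Function.update u k (!y k))) =
        fun _ => h u + h (Function.update u k (!u k)) := by
      funext y
      by_cases hy : y k = u k
      · rw [hy, Function.update_eq_self]
      · have h6 : y k = !u k := by
          cases h1 : y k <;> cases h2 : u k <;> simp_all
        rw [h6, Bool.not_not, Function.update_eq_self, add_comm]
    rw [h5, esave_const]
  linarith

private theorem efron_cube (h : (ι → Bool) → ℝ) :
    ave (fun u => (h u - ave h) ^ 2) ≤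
      1 / 4 * ∑ k, ave fun u => (h (Function.update u k (!u k)) - h u) ^ 2 := by
  have h1 := efron (univ : Finset ι) h
  have h2 : ∀ u, ce univ h u = ave h := by
    intro u
    unfold ce
    simp only [Finset.piecewise_univ]
  simp only [h2] at h1
  refine h1.trans (le_of_eq ?_)
  rw [Finset.mul_sum]
  refine Finset.sum_congr rfl fun k _ => ?_
  rw [← esave_mul]
  congr 1
  funext u
  rw [ce_cube]
  ring

end cube

private theorem es_norm_et (t : UnitAddCircle) : ‖et t‖ = 1 := by
  unfold et
  exact Circle.norm_coe _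

private theorem es_et_lip (x y : ℝ) :
    ‖et (x : UnitAddCircle) - et (y : UnitAddCircle)‖ ≤ 2 * Real.pi * |x - y| := by
  have h0 : (x : UnitAddCircle) = (y : UnitAddCircle) + ((x - y : ℝ) : UnitAddCircle) := by
    rw [← AddCircle.coe_add]
    congr 1
    ring
  have h1 : et (x : UnitAddCircle) = et (y : UnitAddCircle) * et ((x - y : ℝ) : UnitAddCircle) := by
    rw [h0]
    unfold et
    rw [AddCircle.toCircle_add, Circle.coe_mul]
  rw [h1]
  have h2 : et (y : UnitAddCircle) * et ((x - y : ℝ) : UnitAddCircle) - et (y : UnitAddCircle) =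
      et (y : UnitAddCircle) * (et ((x - y : ℝ) : UnitAddCircle) - 1) := by ring
  rw [h2, norm_mul, es_norm_et, one_mul]
  have h3 : et ((x - y : ℝ) : UnitAddCircle) =
      Complex.exp (Complex.I * ((2 * Real.pi * (x - y) : ℝ) : ℂ)) := by
    unfold et
    rw [AddCircle.toCircle_apply_mk, Circle.coe_exp]
    congr 1
    push_cast
    ring
  rw [h3]
  refine (Real.norm_exp_I_mul_ofReal_sub_one_le).trans (le_of_eq ?_)
  rw [Real.norm_eq_abs, abs_mul, abs_of_pos Real.two_pi_pos]

private theorem es_norm_av {α : Type} [Fintype α] (f : α → ℂ) : ‖av f‖ ≤ ave fun a => ‖f a‖ := by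
  unfold av ave
  rw [norm_mul, norm_inv, Complex.norm_natCast]
  exact mul_le_mul_of_nonneg_left (norm_sum_le _ _) (by positivity)

/-- the poly-phase without the factor of small influence -/
theorem gamma {ι S Θ : Type} [Fintype ι] [DecidableEq ι] [Fintype S] [Nonempty S] (w : Sw ι S Θ)
    {M : ℕ} [NeZero M] (b : (ι → S) → ℂ) (φ : (ι → S) → ZMod M) (g : (ι → S) → ℝ)
    (P : (ι → S) → UnitAddCircle) (hb : ∀ σ, ‖b σ‖ ≤ 1) (hbf : ∀ u σ, b (w.flp u σ) = b σ) :
    ‖av fun σ => b σ * ee (φ σ) * et (g σ : ℝ) * et (P σ)‖ ≤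
      ave (fun σ => ‖av fun u : ι → Bool => ee (φ (w.flp u σ)) * et (P (w.flp u σ))‖) +
      4 * Real.sqrt (ave fun σ => ∑ k, (g (w.flp (fun k' => decide (k' = k)) σ) - g σ) ^ 2) := by
  classical
  have hff : ∀ u σ, w.flp u (w.flp u σ) = σ := by
    intro u σ
    funext c
    unfold Sw.flp
    cases hu : u c <;> simp [w.flip_flip]
  have hfk : ∀ u k σ, w.flp (Function.update u k (!u k)) σ =
      w.flp (fun k' => decide (k' = k)) (w.flp u σ) := by
    intro u k σ
    funext c
    unfold Sw.flp
    by_cases hc : c = k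
    · subst hc
      cases hu : u c <;> simp [w.flip_flip]
    · simp [hc]
  let τ : (ι → Bool) → ((ι → S) ≃ (ι → S)) := fun u =>
    { toFun := w.flp u, invFun := w.flp u, left_inv := hff u, right_inv := hff u }
  have hτ : ∀ u σ, τ u σ = w.flp u σ := fun _ _ => rfl
  set m : (ι → S) → ℝ := fun σ => ave fun u : ι → Bool => g (w.flp u σ) with hm
  set F : (ι → S) → ℂ := fun σ => b σ * ee (φ σ) * et (g σ : ℝ) * et (P σ) with hF
  set A : (ι → S) → (ι → Bool) → ℂ := fun σ u => ee (φ (w.flp u σ)) * et (P (w.flp u σ)) with hA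
  set B : (ι → S) → (ι → Bool) → ℂ := fun σ u =>
    b σ * ee (φ (w.flp u σ)) * (et (g (w.flp u σ) : ℝ) - et (m σ : ℝ)) * et (P (w.flp u σ)) with hB
  have e1 : av F = av fun σ => av fun u : ι → Bool => F (w.flp u σ) := by
    rw [DI.av_comm]
    have h1 : (fun u : ι → Bool => av fun σ => F (w.flp u σ)) = fun _ => av F := by
      funext u
      exact DI.av_equiv (τ u) F
    rw [h1, DI.av_const]
  have e2 : ∀ σ, (av fun u : ι → Bool => F (w.flp u σ)) =
      b σ * et (m σ : ℝ) * av (A σ) + av (B σ) := by
    intro σ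
    rw [← DI.av_mul_left, ← DI.av_add]
    congr 1
    funext u
    simp only [hF, hA, hB, hbf]
    ring
  have e3 : ‖av F‖ ≤ ave (fun σ => ‖av (A σ)‖) + ave fun σ => ave fun u => ‖B σ u‖ := by
    rw [e1]
    refine (es_norm_av _).trans ?_
    rw [← esave_add]
    refine esave_mono fun σ => ?_
    rw [e2]
    refine (norm_add_le _ _).trans (add_le_add ?_ (es_norm_av _))
    rw [norm_mul, norm_mul, es_norm_et, mul_one]
    exact mul_le_of_le_one_left (norm_nonneg _) (hb σ)
  have e4 : ∀ σ u, ‖B σ u‖ ≤ 2 * Real.pi * |g (w.flp u σ) - m σ| := by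
    intro σ u
    simp only [hB]
    rw [norm_mul, norm_mul, norm_mul, es_norm_et, mul_one, LORT.bg_norm_ee, mul_one]
    exact (mul_le_of_le_one_left (norm_nonneg _) (hb σ)).trans (es_et_lip _ _)
  set Z : ℝ := ave fun σ => ∑ k, (g (w.flp (fun k' => decide (k' = k)) σ) - g σ) ^ 2 with hZ
  have e5 : (ave fun σ => ave fun u : ι → Bool => (g (w.flp u σ) - m σ) ^ 2) ≤ 1 / 4 * Z := by
    have h1 : ∀ σ, (ave fun u : ι → Bool => (g (w.flp u σ) - m σ) ^ 2) ≤
        1 / 4 * ∑ k, ave fun u : ι → Bool =>
          (g (w.flp (fun k' => decide (k' = k)) (w.flp u σ)) - g (w.flp u σ)) ^ 2 := by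
      intro σ
      have h2 := efron_cube (fun u => g (w.flp u σ))
      simp only [hfk] at h2
      exact h2
    refine (esave_mono h1).trans (le_of_eq ?_)
    rw [esave_mul]
    congr 1
    rw [hZ, esave_sum, esave_sum]
    refine Finset.sum_congr rfl fun k _ => ?_
    rw [esave_comm]
    have h3 : (fun u : ι → Bool => ave fun σ =>
        (g (w.flp (fun k' => decide (k' = k)) (w.flp u σ)) - g (w.flp u σ)) ^ 2) =
        fun _ => ave fun σ => (g (w.flp (fun k' => decide (k' = k)) σ) - g σ) ^ 2 := by
      funext u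
      exact esave_equiv (τ u) (fun σ => (g (w.flp (fun k' => decide (k' = k)) σ) - g σ) ^ 2)
    rw [h3, esave_const]
  have e6 : (ave fun σ => ave fun u : ι → Bool => |g (w.flp u σ) - m σ|) ≤ Real.sqrt (1 / 4 * Z) := by
    have h1 : ∀ σ, (ave fun u : ι → Bool => |g (w.flp u σ) - m σ|) ≤
        Real.sqrt (ave fun u : ι → Bool => (g (w.flp u σ) - m σ) ^ 2) := by
      intro σ
      refine (esave_sqrt).trans (le_of_eq ?_)
      simp only [sq_abs]
    refine (esave_mono h1).trans ((esave_sqrt).trans (Real.sqrt_le_sqrt ?_))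
    refine le_trans (le_of_eq ?_) e5
    congr 1
    funext σ
    exact Real.sq_sqrt (esave_nonneg fun u => sq_nonneg _)
  have hZ0 : 0 ≤ Z := esave_nonneg fun σ => Finset.sum_nonneg fun k _ => sq_nonneg _
  have e7 : Real.sqrt (1 / 4 * Z) = 1 / 2 * Real.sqrt Z := by
    rw [Real.sqrt_mul (by norm_num)]
    congr 1
    rw [show (1 / 4 : ℝ) = (1 / 2) ^ 2 by norm_num]
    exact Real.sqrt_sq (by norm_num)
  have e8 : (ave fun σ => ave fun u => ‖B σ u‖) ≤ 4 * Real.sqrt Z := by
    have h1 : (ave fun σ => ave fun u => ‖B σ u‖) ≤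
        2 * Real.pi * ave fun σ => ave fun u : ι → Bool => |g (w.flp u σ) - m σ| := by
      rw [← esave_mul]
      refine esave_mono fun σ => ?_
      rw [← esave_mul]
      exact esave_mono fun u => e4 σ u
    have h2 := Real.pi_le_four
    have h3 := Real.sqrt_nonneg Z
    have h4 := Real.pi_pos
    calc _ ≤ _ := h1
      _ ≤ 2 * Real.pi * Real.sqrt (1 / 4 * Z) := mul_le_mul_of_nonneg_left e6 (by positivity)
      _ = Real.pi * Real.sqrt Z := by rw [e7]; ring
      _ ≤ 4 * Real.sqrt Z := mul_le_mul_of_nonneg_right h2 h3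
  exact e3.trans (add_le_add le_rfl e8)

end Pool.Agent.Lib.MP_3e612f_nt.RD
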