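import Pool.Agent.Lib.MP_3e612f_nt.RD.Cls
import Pool.Agent.Lib.MP_3e612f_nt.EM.Law

/-!
The cells: every family of chosen gadgets has the law of the uniform distribution.

PROOF of `law_exists`. For fixed `ω : Fin P → Fin R` (the first components of the states) apply `avg_state`
(`EM/Law.lean`) with `W := g + l`, `h := D`, `T = q ^ D`, `a k = (G.po W1 R P τ k (ω k)).1` (all `k : Fin P`; the windows are
in disjoint cells, because the offsets are at most `W1 - W`): a family `S_ω v c`. `N v σ = S_ω v c` with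
`ω k = (σ k).1`, `c k = (σ k).2`. The average over `σ` is the average over `ω` and `c`. For given `v`, `σ` let `c0` be `c` with
the content of every labelled cell replaced by the first content of its gadget, and `n0 = q ^ K u + S_ω v c0`; switch the
labelled cells one after the other (induction as `Cube_upd` in `EM/Cube.lean`; `T ∣ T q ^ g`,
`T q ^ g * q ^ a = T * q ^ (a + g)`); the content of `n0` by the second property of `avg_state` (the content modulo
`q ^ (g + l)` and the state above it `0` modulo `T`).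
-/

set_option autoImplicit false

namespace Pool.Agent.Lib.MP_3e612f_nt.RD

open Finset
open Pool.Agent.Lib.MP_3e612f_nt.PI (ee mc)
open Pool.Agent.Lib.MP_3e612f_nt.DI (av pr mlt)
open Pool.Agent.Lib.MP_3e612f_nt.EM

/-- several coordinates of the contents are changed -/
private theorem ca_upd {ι : Type} [DecidableEq ι] {Q q W T : ℕ} (a : ι → ℕ) (N : (ι → Fin Q) → ℕ)
    (hN3 : ∀ c i (x : Fin Q), (c i : ℕ) < q ^ W → (x : ℕ) < q ^ W → (c i : ℕ) ≤ x →
      T ∣ (x : ℕ) - c i → N (Function.update c i x) = N c + ((x : ℕ) - c i) * q ^ a i)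
    (c0 c1 : ι → Fin Q) (A : Finset ι) (h : ∀ i ∈ A, (c0 i : ℕ) < q ^ W ∧
      (c1 i : ℕ) < q ^ W ∧ (c0 i : ℕ) ≤ c1 i ∧ T ∣ (c1 i : ℕ) - c0 i) :
    N (A.piecewise c1 c0) = N c0 + ∑ i ∈ A, ((c1 i : ℕ) - c0 i) * q ^ a i := by
  induction A using Finset.induction_on with
  | empty => simp
  | insert j A hj ih =>
    obtain ⟨h1, h2, h3, h4⟩ := h j (mem_insert_self j A)
    have h0 : A.piecewise c1 c0 j = c0 j := piecewise_eq_of_notMem _ _ _ hj
    rw [piecewise_insert, hN3]
    · rw [ih fun i hi => h i (mem_insert_of_mem hi), sum_insert hj, h0]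
      ring
    · rw [h0]
      exact h1
    · exact h2
    · rw [h0]
      exact h3
    · rw [h0]
      exact h4

/-- the window is inside the cell -/
theorem po_cell (G : GP) {W1 R P τ : ℕ} (hW1 : G.W ≤ W1) (ω : Fin R) (k : Fin P) :
    τ + k * W1 ≤ (G.po W1 R P τ k ω).1 ∧ (G.po W1 R P τ k ω).1 + G.W ≤ τ + (k + 1) * W1 := by
  have hmul : ((k : ℕ) + 1) * W1 = k * W1 + W1 := by ring
  unfold GP.po
  split_ifs with h
  · have h1 : ((finProdFinEquiv.symm (⟨ω, h⟩ : Fin (G.O W1 * G.H))).1 : ℕ) < W1 - G.W + 1 :=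
      (finProdFinEquiv.symm (⟨ω, h⟩ : Fin (G.O W1 * G.H))).1.2
    simp only
    constructor
    · omega
    · rw [hmul]
      omega
  · simp only
    constructor
    · omega
    · rw [hmul]
      omega

/-- the windows of different cells are disjoint -/
theorem po_sep (G : GP) {W1 R P τ : ℕ} (hW1 : G.W ≤ W1) (ω : Fin P → Fin R) (i j : Fin P)
    (hij : i ≠ j) : (G.po W1 R P τ i (ω i)).1 + G.W ≤ (G.po W1 R P τ j (ω j)).1 ∨
      (G.po W1 R P τ j (ω j)).1 + G.W ≤ (G.po W1 R P τ i (ω i)).1 := by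
  obtain ⟨h1, h2⟩ := po_cell G (τ := τ) hW1 (ω i) i
  obtain ⟨h3, h4⟩ := po_cell G (τ := τ) hW1 (ω j) j
  rcases lt_or_gt_of_ne (fun h => hij (Fin.ext h) : (i : ℕ) ≠ (j : ℕ)) with h | h
  · left
    have h5 : ((i : ℕ) + 1) * W1 ≤ j * W1 := Nat.mul_le_mul_right _ h
    omega
  · right
    have h5 : ((j : ℕ) + 1) * W1 ≤ i * W1 := Nat.mul_le_mul_right _ h
    omega

/-- the position and the label of a labelled state -/
theorem po_lab (G : GP) {W1 R P τ s : ℕ} {A : Finset (Fin P)} {k : Fin P}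
    {x : Fin R × Fin (G.q ^ G.W)} {θ : Fin (G.O W1) × Fin G.H}
    (h : (G.sw W1 R P τ s A).lab k x = some θ) : G.po W1 R P τ k x.1 = G.pl W1 τ k θ := by
  have h0 : G.lb W1 R P τ s A k x = some θ := h
  unfold GP.lb at h0
  split_ifs at h0 with h1 h2
  have h3 := Option.some.inj h0
  unfold GP.po GP.pl
  rw [dif_pos h1, h3]

/-- the proportion of every label -/
theorem lab_pr (G : GP) {W1 R P τ s : ℕ} (hR : G.O W1 * G.H ≤ R) {A : Finset (Fin P)} {k : Fin P}
    (hk : k ∈ A) (θ : Fin (G.O W1) × Fin G.H) :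
    1 / ((R : ℝ) * (G.q : ℝ) ^ G.W) ≤ pr fun x => (G.sw W1 R P τ s A).lab k x = some θ := by
  classical
  have h1 : ((finProdFinEquiv θ : Fin (G.O W1 * G.H)) : ℕ) < R :=
    lt_of_lt_of_le (finProdFinEquiv θ).2 hR
  set ω : Fin R := ⟨(finProdFinEquiv θ : Fin (G.O W1 * G.H)), h1⟩ with hω
  set x : Fin R × Fin (G.q ^ G.W) := (ω, ⟨G.z s (G.po W1 R P τ k ω),
    G.z_lt0 s (G.po_lt W1 R P τ k ω)⟩) with hx
  have h2 : (G.sw W1 R P τ s A).lab k x = some θ := by
    show G.lb W1 R P τ s A k x = some θ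
    unfold GP.lb
    rw [dif_pos (show ((x.1 : Fin R) : ℕ) < G.O W1 * G.H from (finProdFinEquiv θ).2),
      if_pos ⟨hk, Or.inl rfl⟩]
    congr 1
    rw [Equiv.symm_apply_eq]
  have h3 : (Fintype.card (Fin R × Fin (G.q ^ G.W)) : ℝ) = (R : ℝ) * (G.q : ℝ) ^ G.W := by
    rw [Fintype.card_prod, Fintype.card_fin, Fintype.card_fin]
    push_cast
    rfl
  unfold pr
  rw [h3]
  refine div_le_div_of_nonneg_right ?_ (by positivity)
  rw [Nat.one_le_cast]
  refine Finset.card_pos.2 ⟨x, ?_⟩
  simp only [mem_filter, mem_univ, true_and]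
  exact h2

/-- the averages over the states are averages over the choices and the contents -/
private theorem ca_av {P R Q : ℕ} (f : (Fin P → Fin R × Fin Q) → ℂ) :
    av f = av fun ω : Fin P → Fin R => av fun c : Fin P → Fin Q => f fun k => (ω k, c k) := by
  have h1 := DI.av_equiv (Equiv.arrowProdEquivProdArrow (Fin P) (fun _ => Fin R) (fun _ => Fin Q)).symm f
  rw [← h1, DI.av_prod]
  rfl

private theorem ca_ave_av {α : Type} [Fintype α] (f : α → ℝ) :
    ((ave f : ℝ) : ℂ) = av fun a => (f a : ℂ) := by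
  unfold ave av
  push_cast
  rfl

/-- **the law** -/
theorem law_exists (G : GP) {W1 R P τ K : ℕ} (s u : ℕ) (A : Finset (Fin P)) (hW1 : G.W ≤ W1)
    (hR : 0 < R) (hK : τ + P * W1 ≤ K) :
    ∃ N : ℕ → (Fin P → Fin R × Fin (G.q ^ G.W)) → ℕ, Law G W1 R P τ s K u A N := by
  classical
  haveI : Nonempty (Fin R) := ⟨⟨0, hR⟩⟩
  have hq := G.hq
  have hcell : ∀ (ω : Fin P → Fin R) (k : Fin P),
      (G.po W1 R P τ k (ω k)).1 + ((G.g + G.l) + G.D) ≤ K := by
    intro ω k
    have h1 := (po_cell G (τ := τ) hW1 (ω k) k).2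
    have h2 : ((k : ℕ) + 1) * W1 ≤ P * W1 := Nat.mul_le_mul_right _ k.2
    have h3 : G.W = (G.g + G.l) + G.D := rfl
    omega
  have hS : ∀ ω : Fin P → Fin R, ∃ S : ℕ → (Fin P → Fin (G.q ^ G.W)) → ℕ,
      (∀ v c i, (c i : ℕ) < G.q ^ (G.g + G.l) →
        S v c / G.q ^ (G.po W1 R P τ i (ω i)).1 % G.q ^ (G.g + G.l) = (c i : ℕ) ∧
        (G.q ^ K * u + S v c) / G.q ^ ((G.po W1 R P τ i (ω i)).1 + (G.g + G.l)) % G.T = 0) ∧
      (∀ v c i (x : Fin (G.q ^ G.W)), (c i : ℕ) < G.q ^ (G.g + G.l) →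
        (x : ℕ) < G.q ^ (G.g + G.l) → (c i : ℕ) ≤ x → G.T ∣ (x : ℕ) - c i →
        S v (Function.update c i x) = S v c + ((x : ℕ) - c i) * G.q ^ (G.po W1 R P τ i (ω i)).1) ∧
      ∀ Ψ : ℕ → ℂ, ∑ v ∈ range (G.q ^ K), av (fun c => Ψ (S v c)) =
        ∑ v ∈ range (G.q ^ K), Ψ v := by
    intro ω
    obtain ⟨S, -, h2, h3, h4⟩ := avg_state G.q (G.g + G.l) G.D G.T K hq G.T_pos le_rfl
      (fun k : Fin P => (G.po W1 R P τ k (ω k)).1) (fun i j hij => po_sep G hW1 ω i j hij)
      (hcell ω) u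
    refine ⟨S, h2, h3, fun Ψ => ?_⟩
    have h5 := h4 Ψ
    unfold av
    rw [← Finset.mul_sum, ← h5]
    have h6 : (Fintype.card (Fin P → Fin (G.q ^ G.W)) : ℂ) ≠ 0 := by
      haveI : Nonempty (Fin (G.q ^ G.W)) := ⟨⟨0, Nat.pow_pos (by omega)⟩⟩
      exact_mod_cast Fintype.card_ne_zero
    rw [← mul_assoc]
    have h7 : (((G.q ^ (G.g + G.l + G.D)) ^ Fintype.card (Fin P) : ℕ) : ℂ) =
        (Fintype.card (Fin P → Fin (G.q ^ G.W)) : ℂ) := by
      rw [Fintype.card_fun, Fintype.card_fin, Fintype.card_fin]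
    rw [h7, inv_mul_cancel₀ h6, one_mul]
  choose S hS1 hS2 hS3 using hS
  refine ⟨fun v σ => S (fun k => (σ k).1) v fun k => (σ k).2, ?_, ?_, ?_⟩
  · intro Ψ
    have h1 : ((∑ v ∈ range (G.q ^ K), ave (fun σ : Fin P → Fin R × Fin (G.q ^ G.W) =>
        Ψ (fun k => (σ k).1) (S (fun k => (σ k).1) v fun k => (σ k).2)) : ℝ) : ℂ) =
        ((∑ v ∈ range (G.q ^ K), ave fun ω => Ψ ω v : ℝ) : ℂ) := by
      push_cast
      simp only [ca_ave_av]
      simp only [ca_av (P := P) (R := R) (Q := G.q ^ G.W)]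
      rw [← DI.av_sum, ← DI.av_sum]
      congr 1
      funext ω
      exact hS3 ω fun v => (Ψ ω v : ℂ)
    exact_mod_cast h1
  · intro Ψ
    simp only [ca_av (P := P) (R := R) (Q := G.q ^ G.W)]
    rw [← DI.av_sum]
    have h1 : ∀ ω : Fin P → Fin R, ∑ v ∈ range (G.q ^ K),
        av (fun c : Fin P → Fin (G.q ^ G.W) => Ψ (S ω v c)) = ∑ v ∈ range (G.q ^ K), Ψ v :=
      fun ω => hS3 ω Ψ
    simp only [h1]
    exact DI.av_const _
  · intro v σ
    set ω : Fin P → Fin R := fun k => (σ k).1 with hω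
    set B := (G.sw W1 R P τ s A).act σ with hB
    have hmem : ∀ k, k ∈ B ↔ G.lb W1 R P τ s A k (σ k) ≠ none := by
      intro k
      rw [hB]
      unfold Sw.act
      rw [mem_filter, Option.isSome_iff_ne_none]
      simp only [mem_univ, true_and]
      rfl
    have hz1 : ∀ k, G.z s (G.po W1 R P τ k (ω k)) + G.T * G.q ^ G.g < G.q ^ (G.g + G.l) :=
      fun k => zT_lt G.hG s s (G.po_lt W1 R P τ k (ω k))
    have hz0 : ∀ k, G.z s (G.po W1 R P τ k (ω k)) < G.q ^ (G.g + G.l) := fun k =>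
      lt_of_le_of_lt (Nat.le_add_right _ _) (hz1 k)
    set c0 : Fin P → Fin (G.q ^ G.W) := fun k => if k ∈ B then
      ⟨G.z s (G.po W1 R P τ k (ω k)), G.z_lt0 s (G.po_lt W1 R P τ k (ω k))⟩ else (σ k).2 with hc0
    have hc0B : ∀ k ∈ B, (c0 k : ℕ) = G.z s (G.po W1 R P τ k (ω k)) := by
      intro k hk
      rw [hc0]
      simp only [hk, if_true]
    refine ⟨G.q ^ K * u + S ω v c0, ?_, ?_⟩
    · intro k hk
      have h1 := hS1 ω v c0 k (by rw [hc0B k hk]; exact hz0 k)
      rw [hc0B k hk] at h1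
      obtain ⟨h2, h3⟩ := h1
      have hKk := hcell ω k
      set a := (G.po W1 R P τ k (ω k)).1 with ha
      rw [Nat.mod_mul, Nat.div_div_eq_div_mul, ← pow_add, h3, mul_zero, add_zero,
        Law_div_base hq (by omega)]
      have h4 : G.q ^ (K - a) = G.q ^ (G.g + G.l) * G.q ^ (K - a - (G.g + G.l)) := by
        rw [← pow_add]
        congr 1
        omega
      rw [h4, mul_assoc, Nat.mul_add_mod]
      exact h2
    · intro w
      set c1 : Fin P → Fin (G.q ^ G.W) := fun k => ((G.sw W1 R P τ s A).flp w σ k).2 with hc1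
      have hfst : (fun k => ((G.sw W1 R P τ s A).flp w σ k).1) = ω := by
        funext k
        unfold Sw.flp
        by_cases h : w k = true
        · rw [if_pos h]
          show (if G.lb W1 R P τ s A k (σ k) = none then σ k
            else ((σ k).1, G.oth W1 R P τ s k (σ k))).1 = (σ k).1
          split_ifs <;> rfl
        · rw [if_neg h]
      have hc1B : ∀ k ∈ B, (c1 k : ℕ) = G.z s (G.po W1 R P τ k (ω k)) +
          (if xor (G.bt W1 R P τ s k (σ k)) (w k) = true then 1 else 0) * (G.T * G.q ^ G.g) := by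
        intro k hk
        have h1 := (hmem k).1 hk
        have h2 := (G.lb_some h1).2.2
        rw [hc1]
        unfold Sw.flp
        by_cases h : w k = true
        · simp only [h, if_true]
          show ((if G.lb W1 R P τ s A k (σ k) = none then σ k
            else ((σ k).1, G.oth W1 R P τ s k (σ k))).2 : ℕ) = _
          rw [if_neg h1]
          simp only
          unfold GP.oth GP.bt
          by_cases h3 : ((σ k).2 : ℕ) = G.z s (G.po W1 R P τ k (σ k).1)
          · simp [h3]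
            rfl
          · simp [h3]
            rfl
        · simp only [h]
          unfold GP.bt
          rcases h2 with h3 | h3
          · simp [h3]
            rfl
          · have h4 : ((σ k).2 : ℕ) ≠ G.z s (G.po W1 R P τ k (σ k).1) := by
              rw [h3]
              exact G.z_ne s _
            simp [h4]
            exact h3
      have hc1n : ∀ k, k ∉ B → c1 k = c0 k := by
        intro k hk
        have h1 : G.lb W1 R P τ s A k (σ k) = none := by
          by_contra h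
          exact hk ((hmem k).2 h)
        rw [hc1, hc0]
        simp only [hk, if_false]
        unfold Sw.flp
        by_cases h : w k = true
        · rw [if_pos h]
          show (if G.lb W1 R P τ s A k (σ k) = none then σ k
            else ((σ k).1, G.oth W1 R P τ s k (σ k))).2 = (σ k).2
          rw [if_pos h1]
        · rw [if_neg h]
      have hpw : c1 = B.piecewise c1 c0 := by
        funext k
        by_cases hk : k ∈ B
        · rw [piecewise_eq_of_mem _ _ _ hk]
        · rw [piecewise_eq_of_notMem _ _ _ hk, hc1n k hk]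
      show G.q ^ K * u + S (fun k => ((G.sw W1 R P τ s A).flp w σ k).1) v c1 = _
      rw [hfst, hpw, ca_upd (fun k => (G.po W1 R P τ k (ω k)).1) (S ω v)
        (fun c i x => hS2 ω v c i x) c0 c1 B fun i hi => ?_, add_assoc]
      · congr 2
        refine sum_congr rfl fun k hk => ?_
        rw [hc1B k hk, hc0B k hk, Nat.add_sub_cancel_left, mul_assoc, mul_assoc, ← pow_add]
        congr 3
        exact add_comm _ _
      · rw [hc1B i hi, hc0B i hi, Nat.add_sub_cancel_left]
        refine ⟨hz0 i, ?_, Nat.le_add_right _ _, Dvd.dvd.mul_left (Dvd.intro _ rfl) _⟩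
        have h6 := hz1 i
        have h7 := hz0 i
        split_ifs
        · rw [one_mul]
          exact h6
        · rw [zero_mul, add_zero]
          exact h7

end Pool.Agent.Lib.MP_3e612f_nt.RD
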