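import Pool.Agent.Lib.MP_3e612f_nt.RD.CellA

/-!
Phases as functions of the switches.

PROOF. `ltr_cells` (`EM/Cells.lean`) with `ι = Fin P`, `o k = G.po W1 R P τ k (σ k).1`, `A = act σ`, `n = n0` of `Law`: the
letters of `m * (q ^ K u + N v (flp w σ)) + s` are fixed letters outside the cells together with the blocks of the labelled
cells `k`, which only depend on `w k`. `cell_deg`: the term of `S` is a function of the `w k` for the `k` whose block
meets `S`, at most `|S|` many. `cell_top`: `Cube_one` (`EM/Cube.lean`) with `A = act σ`, `β k` = the bit of `σ k`,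
`β' k` = the opposite bit for the `k` in the tuple and the same bit for the others, `col` = the index in the tuple (anything
outside it); `mlt` is homogeneous in every variable (`β - β'` is the sign `sg`). `cell_frozen`: the
letters outside the cells do not change (`letter_out`; as `frozen_pair`).
-/

set_option autoImplicit false

namespace Pool.Agent.Lib.MP_3e612f_nt.RD

open Finset
open Pool.Agent.Lib.MP_3e612f_nt.PI (ee mc)
open Pool.Agent.Lib.MP_3e612f_nt.DI (av pr mlt)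
open Pool.Agent.Lib.MP_3e612f_nt.EM

private theorem cb_mem_cell {q T l L a : ℕ} {x : Lt (q * T) L} :
    x ∈ cell q T l L a ↔ a ≤ (x.1 : ℕ) ∧ (x.1 : ℕ) < a + l := by
  simp [cell]

private theorem cb_blk_sub {q T l L a U : ℕ} : blk q T l L a U ⊆ cell q T l L a := by
  intro x hx
  have h := (mem_filter.1 hx).2
  exact cb_mem_cell.2 ⟨h.1, h.2.1⟩

private theorem cb_mlt {C X Γ : Type} [Fintype C] [DecidableEq C] [Fintype X] [DecidableEq X]
    [AddCommGroup Γ] (t : Finset X → Γ) (c : C → ℤ) (V : C → X → ℤ) :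
    mlt t (fun j x => c j * V j x) = (∏ j, c j) • mlt t V := by
  unfold mlt
  rw [smul_sum]
  refine sum_congr rfl fun x _ => ?_
  by_cases h : Function.Injective x
  · rw [if_pos h, if_pos h, prod_mul_distrib, mul_smul]
  · rw [if_neg h, if_neg h, smul_zero]

private theorem cb_sep (G : GP) {W1 R P τ : ℕ} (hW1 : G.W ≤ W1)
    (σ : Fin P → Fin R × Fin (G.q ^ G.W)) (i j : Fin P) (hij : i ≠ j) :
    (G.po W1 R P τ i (σ i).1).1 + (G.g + G.l) ≤ (G.po W1 R P τ j (σ j).1).1 ∨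
      (G.po W1 R P τ j (σ j).1).1 + (G.g + G.l) ≤ (G.po W1 R P τ i (σ i).1).1 := by
  have h := po_sep G (τ := τ) hW1 (fun k => (σ k).1) i j hij
  have e : G.W = G.g + G.l + G.D := rfl
  simp only [e] at h
  omega

private theorem cb_act (G : GP) {W1 R P τ s : ℕ} {A : Finset (Fin P)}
    {σ : Fin P → Fin R × Fin (G.q ^ G.W)} {k : Fin P} :
    k ∈ (G.sw W1 R P τ s A).act σ ↔ (G.sw W1 R P τ s A).lab k (σ k) ≠ none := by
  unfold Sw.act
  rw [mem_filter, Option.isSome_iff_ne_none]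
  exact ⟨fun h => h.2, fun h => ⟨mem_univ k, h⟩⟩

private theorem cb_ltr (G : GP) {W1 R P τ s : ℕ} (hW1 : G.W ≤ W1)
    (σ : Fin P → Fin R × Fin (G.q ^ G.W)) (B : Finset (Fin P)) {n0 : ℕ}
    (hn : ∀ k ∈ B, n0 / G.q ^ (G.po W1 R P τ k (σ k).1).1 % (G.q ^ (G.g + G.l) * G.T) =
      G.z s (G.po W1 R P τ k (σ k).1)) {m : ℕ} (hm : m = G.p ∨ m = G.r) (L : ℕ)
    (b : Fin P → ℕ) (hb : ∀ k, b k = 0 ∨ b k = 1) :
    ltr G.q (G.q * G.T) L (m * (n0 + ∑ k ∈ B,
        b k * (G.T * G.q ^ ((G.po W1 R P τ k (σ k).1).1 + G.g))) + s) =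
      ((ltr G.q (G.q * G.T) L (m * n0 + s)).filter fun x =>
        ∀ i ∈ B, x ∉ cell G.q G.T G.l L ((G.po W1 R P τ i (σ i).1).1 + G.g)) ∪
      B.biUnion fun i => blk G.q G.T G.l L ((G.po W1 R P τ i (σ i).1).1 + G.g)
        (uT G.q G.T G.g G.l G.z0 G.x0 s s s m (G.po W1 R P τ i (σ i).1) + b i * (m * G.T)) := by
  convert ltr_cells (L := L) G.hq G.T_pos G.hG s s (hm.imp (fun h => ⟨h, rfl⟩) fun h => ⟨h, rfl⟩)
    (fun k => G.po W1 R P τ k (σ k).1) (fun k => G.po_lt W1 R P τ k (σ k).1)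
    (cb_sep G hW1 σ) B b (fun i _ => hb i) hn

theorem cell_deg (G : GP) {W1 R P τ s K u : ℕ} {A : Finset (Fin P)} (hW1 : G.W ≤ W1)
    {N : ℕ → (Fin P → Fin R × Fin (G.q ^ G.W)) → ℕ} (hN : Law G W1 R P τ s K u A N) {Γ : Type}
    [AddCommGroup Γ] {d L : ℕ} (t : Finset (Lt (G.q * G.T) L) → Γ)
    (ht : ∀ S, d < S.card → t S = 0) {m : ℕ} (hm : m = G.p ∨ m = G.r) (v : ℕ) :
    (G.sw W1 R P τ s A).Deg d fun σ =>
      FP G.q (G.q * G.T) L t (m * (G.q ^ K * u + N v σ) + s) := by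
  classical
  intro σ
  obtain ⟨n0, hn, hw⟩ := hN.2.2 v σ
  have e : (fun w => FP G.q (G.q * G.T) L t
        (m * (G.q ^ K * u + N v ((G.sw W1 R P τ s A).flp w σ)) + s)) =
      ∑ S : Finset (Lt (G.q * G.T) L), fun w => if S ⊆ ltr G.q (G.q * G.T) L
        (m * (G.q ^ K * u + N v ((G.sw W1 R P τ s A).flp w σ)) + s) then t S else 0 := by
    funext w
    rw [Finset.sum_apply]
    unfold FP
    rw [← Finset.sum_filter]
    congr 1
    ext S
    simp
  show LORT.Dg _ d (fun w => FP G.q (G.q * G.T) L t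
        (m * (G.q ^ K * u + N v ((G.sw W1 R P τ s A).flp w σ)) + s))
  rw [e]
  unfold LORT.Dg
  refine AddSubgroup.sum_mem _ fun S _ => ?_
  by_cases hS : d < S.card
  · have e0 : (fun w : Fin P → Bool => if S ⊆ ltr G.q (G.q * G.T) L
        (m * (G.q ^ K * u + N v ((G.sw W1 R P τ s A).flp w σ)) + s) then t S else 0) = 0 := by
      funext w
      rw [ht S hS, ite_self]
      rfl
    rw [e0]
    exact AddSubgroup.zero_mem _
  · refine AddSubgroup.subset_closure ⟨((G.sw W1 R P τ s A).act σ).filter fun k =>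
      ∃ x ∈ S, x ∈ cell G.q G.T G.l L ((G.po W1 R P τ k (σ k).1).1 + G.g), filter_subset _ _, ?_, ?_⟩
    · refine le_trans ?_ (not_lt.1 hS)
      refine Finset.card_le_card_of_forall_subsingleton
        (fun k x => x ∈ cell G.q G.T G.l L ((G.po W1 R P τ k (σ k).1).1 + G.g)) ?_ ?_
      · intro k hk
        exact (mem_filter.1 hk).2
      · intro x _ i hi j hj
        by_contra hij
        have h1 := cb_mem_cell.1 hi.2
        have h2 := cb_mem_cell.1 hj.2
        have h3 := cb_sep G (τ := τ) hW1 σ i j hij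
        omega
    · have key : ∀ w w' : Fin P → Bool, (∀ i ∈ ((G.sw W1 R P τ s A).act σ).filter fun k =>
          ∃ x ∈ S, x ∈ cell G.q G.T G.l L ((G.po W1 R P τ k (σ k).1).1 + G.g), w i = w' i) →
          S ⊆ ltr G.q (G.q * G.T) L
            (m * (G.q ^ K * u + N v ((G.sw W1 R P τ s A).flp w σ)) + s) →
          S ⊆ ltr G.q (G.q * G.T) L
            (m * (G.q ^ K * u + N v ((G.sw W1 R P τ s A).flp w' σ)) + s) := by
        intro w w' hww hSw x hx
        have hx1 := hSw hx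
        have hb : ∀ (w : Fin P → Bool) (k : Fin P),
            (if xor (G.bt W1 R P τ s k (σ k)) (w k) = true then 1 else 0 : ℕ) = 0 ∨
            (if xor (G.bt W1 R P τ s k (σ k)) (w k) = true then 1 else 0 : ℕ) = 1 := by
          intro w k
          split_ifs
          · exact Or.inr rfl
          · exact Or.inl rfl
        rw [hw w, cb_ltr G hW1 σ _ hn hm L
          (fun k => if xor (G.bt W1 R P τ s k (σ k)) (w k) = true then 1 else 0) (hb w),
          mem_union, mem_biUnion] at hx1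
        rw [hw w', cb_ltr G hW1 σ _ hn hm L
          (fun k => if xor (G.bt W1 R P τ s k (σ k)) (w' k) = true then 1 else 0) (hb w'),
          mem_union, mem_biUnion]
        rcases hx1 with h | ⟨k, hk, h⟩
        · exact Or.inl h
        · refine Or.inr ⟨k, hk, ?_⟩
          rwa [← hww k (mem_filter.2 ⟨hk, x, hx, cb_blk_sub h⟩)]
      intro w w' hww
      beta_reduce
      by_cases h : S ⊆ ltr G.q (G.q * G.T) L
          (m * (G.q ^ K * u + N v ((G.sw W1 R P τ s A).flp w σ)) + s)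
      · rw [if_pos h, if_pos (key w w' hww h)]
      · rw [if_neg h, if_neg fun h' => h (key w' w (fun i hi => (hww i hi).symm) h')]

/-- one dilation -/
private theorem cb_one (G : GP) {W1 R P τ s K u : ℕ} {A : Finset (Fin P)} (hW1 : G.W ≤ W1)
    {N : ℕ → (Fin P → Fin R × Fin (G.q ^ G.W)) → ℕ} (hN : Law G W1 R P τ s K u A N) {d L : ℕ}
    (hd : 1 ≤ d) {Γ : Type} [AddCommGroup Γ] (t : Finset (Lt (G.q * G.T) L) → Γ)
    (ht : ∀ S, d < S.card → t S = 0) (v : ℕ) {m : ℕ} (hm : m = G.p ∨ m = G.r)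
    (σ : Fin P → Fin R × Fin (G.q ^ G.W))
    (x : Fin d → Fin P × (Fin (G.O W1) × Fin G.H)) (hx : Function.Injective fun i => (x i).1)
    (hl : ∀ i, (G.sw W1 R P τ s A).lab (x i).1 (σ (x i).1) = some (x i).2) :
    ∑ I : Finset (Fin d), (-1 : ℤ) ^ I.card • FP G.q (G.q * G.T) L t (m * (G.q ^ K * u + N v
      ((G.sw W1 R P τ s A).flp (fun k => decide (k ∈ I.image fun i => (x i).1)) σ)) + s) =
      (∏ i, (G.sw W1 R P τ s A).sg (x i).1 (σ (x i).1)) •
        mlt t fun j y => G.v L s m (G.pl W1 τ (x j).1 (x j).2) y := by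
  classical
  obtain ⟨n0, hn, hw⟩ := hN.2.2 v σ
  obtain ⟨col, hcol⟩ : ∃ col : Fin P → Fin d, ∀ j, col (x j).1 = j := by
    refine ⟨fun k => if h : ∃ j, (x j).1 = k then h.choose else ⟨0, hd⟩, fun j => ?_⟩
    have h : ∃ j', (x j').1 = (x j).1 := ⟨j, rfl⟩
    simp only [h, dif_pos]
    exact hx h.choose_spec
  obtain ⟨β, hβ⟩ : ∃ β : Fin P → ℕ, β = fun k =>
    if G.bt W1 R P τ s k (σ k) = true then 1 else 0 := ⟨_, rfl⟩
  obtain ⟨β', hβ'⟩ : ∃ β' : Fin P → ℕ, β' = fun k =>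
    if xor (G.bt W1 R P τ s k (σ k)) (decide (∃ j, (x j).1 = k)) = true then 1 else 0 := ⟨_, rfl⟩
  have hβ1 : ∀ k, β k = 0 ∨ β k = 1 := by
    intro k
    rw [hβ]
    by_cases h : G.bt W1 R P τ s k (σ k) = true <;> simp [h]
  have hβ1' : ∀ k, β' k = 0 ∨ β' k = 1 := by
    intro k
    rw [hβ']
    by_cases h : xor (G.bt W1 R P τ s k (σ k)) (decide (∃ j, (x j).1 = k)) = true <;> simp [h]
  have hsw : ∀ (I : Finset (Fin d)) (k : Fin P),
      (if xor (G.bt W1 R P τ s k (σ k)) (decide (k ∈ I.image fun i => (x i).1)) = true then 1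
        else 0 : ℕ) = if col k ∈ I then β' k else β k := by
    intro I k
    by_cases hk : ∃ j, (x j).1 = k
    · obtain ⟨j, rfl⟩ := hk
      have h1 : ((x j).1 ∈ I.image fun i => (x i).1) ↔ j ∈ I := by
        rw [mem_image]
        constructor
        · rintro ⟨i, hi, h⟩
          rwa [← hx h]
        · intro h
          exact ⟨j, h, rfl⟩
      have h2 : ∃ j', (x j').1 = (x j).1 := ⟨j, rfl⟩
      rw [hcol, hβ, hβ']
      by_cases hj : j ∈ I
      · simp only [h1, hj, h2, decide_true, if_true]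
      · simp only [h1, hj, decide_false, Bool.xor_false, if_false]
    · have h1 : ¬ (k ∈ I.image fun i => (x i).1) := by
        rw [mem_image]
        rintro ⟨i, _, h⟩
        exact hk ⟨i, h⟩
      rw [hβ, hβ']
      simp only [h1, hk, decide_false, Bool.xor_false, ite_self]
  have h1 : ∀ I : Finset (Fin d), G.q ^ K * u + N v
      ((G.sw W1 R P τ s A).flp (fun k => decide (k ∈ I.image fun i => (x i).1)) σ) =
      n0 + ∑ k ∈ (G.sw W1 R P τ s A).act σ, (if col k ∈ I then β' k else β k) *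
        (G.T * G.q ^ ((G.po W1 R P τ k (σ k).1).1 + G.g)) := by
    intro I
    rw [hw]
    congr 1
    refine sum_congr rfl fun k _ => ?_
    rw [← hsw I k]
  simp only [h1]
  rw [Cube_one G.hq G.T_pos G.hG (s := s) (s' := s)
    (hm.imp (fun h => ⟨h, rfl⟩) fun h => ⟨h, rfl⟩) L t ht
    (fun k => G.po W1 R P τ k (σ k).1) (fun k => G.po_lt W1 R P τ k (σ k).1)
    (cb_sep G hW1 σ) col _ β β' hβ1 hβ1' hn, ← cb_mlt]
  congr 1
  funext j y
  have hact : (x j).1 ∈ (G.sw W1 R P τ s A).act σ := by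
    rw [cb_act, hl j]
    exact Option.some_ne_none _
  rw [sum_eq_single (x j).1]
  · rw [if_pos ⟨hact, hcol j⟩, po_lab G (hl j)]
    congr 1
    have h2 : ∃ j', (x j').1 = (x j).1 := ⟨j, rfl⟩
    rw [hβ, hβ']
    show _ = if (((σ (x j).1).2 : ℕ) = G.z s (G.po W1 R P τ (x j).1 (σ (x j).1).1)) then (-1 : ℤ)
      else 1
    unfold GP.bt
    by_cases h3 : ((σ (x j).1).2 : ℕ) = G.z s (G.po W1 R P τ (x j).1 (σ (x j).1).1)
    · simp [h3, h2]
    · simp [h3, h2]
  · intro i _ hi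
    by_cases h3 : i ∈ (G.sw W1 R P τ s A).act σ ∧ col i = j
    · rw [if_pos h3]
      have h4 : ¬ ∃ j', (x j').1 = i := by
        rintro ⟨j', rfl⟩
        rw [hcol] at h3
        rw [h3.2] at hi
        exact hi rfl
      have h5 : β i = β' i := by
        rw [hβ, hβ']
        simp only [h4, decide_false, Bool.xor_false]
      rw [h5, sub_self, zero_mul]
    · rw [if_neg h3, zero_mul]
  · exact fun h => absurd (mem_univ _) h

theorem cell_top (G : GP) {W1 R P τ s K u : ℕ} {A : Finset (Fin P)} (hW1 : G.W ≤ W1)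
    {N : ℕ → (Fin P → Fin R × Fin (G.q ^ G.W)) → ℕ} (hN : Law G W1 R P τ s K u A N) {d L : ℕ}
    (hd : 1 ≤ d) (t : Finset (Lt (G.q * G.T) L) → UnitAddCircle)
    (ht : ∀ S, d < S.card → t S = 0) (ε : ℤ) (v : ℕ) :
    (G.sw W1 R P τ s A).Top (fun σ =>
      FP G.q (G.q * G.T) L t (G.p * (G.q ^ K * u + N v σ) + s) +
        ε • FP G.q (G.q * G.T) L t (G.r * (G.q ^ K * u + N v σ) + s))
      fun x : Fin d → Fin P × _ => G.form L s ε t fun i => G.pl W1 τ (x i).1 (x i).2 := by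
  intro σ x hx hl
  have hp := cb_one G hW1 hN hd t ht v (Or.inl rfl) σ x hx hl
  have hr := cb_one G hW1 hN hd t ht v (Or.inr rfl) σ x hx hl
  unfold Sw.alt GP.form
  simp only [smul_add, sum_add_distrib]
  rw [hp, smul_comm _ ε, ← hr, smul_sum]
  congr 1
  refine sum_congr rfl fun I _ => ?_
  rw [smul_comm]

theorem cell_frozen (G : GP) {W1 R P τ s K u : ℕ} {A : Finset (Fin P)} (hW1 : G.W ≤ W1)
    {N : ℕ → (Fin P → Fin R × Fin (G.q ^ G.W)) → ℕ} (hN : Law G W1 R P τ s K u A N)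
    {I : Finset ℕ} {β : ℕ → ℂ} (hβ : DepL G.q (G.q * G.T) I β)
    (hI : ∀ i ∈ I, ∀ k ∈ A, i < τ + (k : ℕ) * W1 ∨ τ + ((k : ℕ) + 1) * W1 ≤ i) {m : ℕ}
    (hm : m = G.p ∨ m = G.r) (v : ℕ) (w : Fin P → Bool)
    (σ : Fin P → Fin R × Fin (G.q ^ G.W)) :
    β (m * (G.q ^ K * u + N v ((G.sw W1 R P τ s A).flp w σ)) + s) =
      β (m * (G.q ^ K * u + N v σ) + s) := by
  classical
  obtain ⟨n0, hn, hw⟩ := hN.2.2 v σ
  have hid : (G.sw W1 R P τ s A).flp (fun _ => false) σ = σ := by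
    funext k
    unfold Sw.flp
    simp
  have hb : ∀ (w : Fin P → Bool) (k : Fin P),
      (if xor (G.bt W1 R P τ s k (σ k)) (w k) = true then 1 else 0 : ℕ) = 0 ∨
      (if xor (G.bt W1 R P τ s k (σ k)) (w k) = true then 1 else 0 : ℕ) = 1 := by
    intro w k
    split_ifs
    · exact Or.inr rfl
    · exact Or.inl rfl
  have key : ∀ (w : Fin P → Bool), ∀ i ∈ I,
      (m * (G.q ^ K * u + N v ((G.sw W1 R P τ s A).flp w σ)) + s) / G.q ^ i % (G.q * G.T) =
        (m * n0 + s) / G.q ^ i % (G.q * G.T) := by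
    intro w i hi
    rw [hw w]
    refine letter_out G.hq G.T_pos G.hG s s (hm.imp (fun h => ⟨h, rfl⟩) fun h => ⟨h, rfl⟩)
      (fun k => G.po W1 R P τ k (σ k).1) (fun k => G.po_lt W1 R P τ k (σ k).1)
      (cb_sep G hW1 σ) _ (fun k => if xor (G.bt W1 R P τ s k (σ k)) (w k) = true then 1 else 0)
      (fun k _ => hb w k) hn fun k hk => ?_
    have h1 : k ∈ A := (G.lb_some ((cb_act G).1 hk)).2.1
    have h2 := hI i hi k h1
    have h3 := po_cell G (τ := τ) hW1 (σ k).1 k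
    have e : G.W = G.g + G.l + G.D := rfl
    simp only [e] at h3
    omega
  refine hβ _ _ fun i hi => ?_
  rw [key w i hi]
  have h := key (fun _ => false) i hi
  rw [hid] at h
  exact h.symm

end Pool.Agent.Lib.MP_3e612f_nt.RD
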