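import Pool.Agent.Lib.MP_3e612f_nt.RD.CellA

/-!
A real function of bounded influence hardly changes when sparse cells are switched.

PROOF of `cell_var`. Fix `k ∈ A` (for the others the switch is the identity). For a labelled `σ k` the switch replaces
`n = q ^ K u + N v σ` by `n' = n ± T q ^ (a + g)`, `(a, _) = o = G.po W1 R P τ k (σ k).1`. Put `Ψ ω (v) = ` the square of
`g (m n' + s) - g (m n + s)` for `n = q ^ K u + v` if `ω k < O W1 * H` and the content of `n` at `a` is one of the two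
contents of the gadget, `0` otherwise; first part of `Law`: the average over `v`, `σ` is the average over `v`, `ω`; the
proportion of every choice `ω k = θ` is `1 / R`, and there are `O W1 * H` of them. `m n' + s` and `m n + s` differ only in the
digits in `[a + g, a + g + l)` (`carryT`, `uT_top`: no carry), so both become the same number when these digits are
zeroed: `zero_block` for both; `n ↦ m n + s` modulo `q ^ L` is at most `q ^ (K - L)` to one (`K - L` truncated) on the block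
`q ^ K u + [0, q ^ K)`, because `m` is prime to `q`; the same for `n'`. Divide by `q ^ K`; `L ≤ K + w1`. Sum over `k` (the
blocks `[a + g, a + g + l)` of different cells are disjoint) and `θ`: `≤ c1 C / R`.
-/

set_option autoImplicit false

namespace Pool.Agent.Lib.MP_3e612f_nt.RD

open Finset
open Pool.Agent.Lib.MP_3e612f_nt.PI (ee mc)
open Pool.Agent.Lib.MP_3e612f_nt.DI (av pr mlt)
open Pool.Agent.Lib.MP_3e612f_nt.EM

/-- the number without the digits in `[a, a + j)` -/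
private def xj (q a j m : ℕ) : ℕ := m % q ^ a + m / q ^ (a + j) * q ^ (a + j)

private theorem xj_eq {q : ℕ} (a j m : ℕ) :
    m = xj q a j m + m / q ^ a % q ^ j * q ^ a := by
  unfold xj
  have h1 := Nat.mod_add_div m (q ^ a)
  have h2 := Nat.mod_add_div (m / q ^ a) (q ^ j)
  have h3 : m / q ^ a / q ^ j = m / q ^ (a + j) := by rw [Nat.div_div_eq_div_mul, pow_add]
  rw [h3] at h2
  have h4 : m = m % q ^ a + q ^ a * (m / q ^ a % q ^ j + q ^ j * (m / q ^ (a + j))) := by
    rw [h2, h1]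
  calc m = m % q ^ a + q ^ a * (m / q ^ a % q ^ j + q ^ j * (m / q ^ (a + j))) := h4
    _ = _ := by rw [pow_add]; ring

private theorem xj_zero {q : ℕ} (a m : ℕ) : xj q a 0 m = m := by
  unfold xj
  rw [add_zero, mul_comm, Nat.mod_add_div]

private theorem xj_sub {q : ℕ} (a l m : ℕ) : m - m / q ^ a % q ^ l * q ^ a = xj q a l m := by
  have h := xj_eq (q := q) a l m
  omega

private theorem xj_div {q : ℕ} (hq : 2 ≤ q) (a j m : ℕ) :
    xj q a j m / q ^ (a + j) = m / q ^ (a + j) := by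
  unfold xj
  have h1 : m % q ^ a < q ^ (a + j) :=
    lt_of_lt_of_le (Nat.mod_lt _ (Nat.pow_pos (by omega)))
      (Nat.pow_le_pow_right (by omega) (by omega))
  rw [Nat.add_mul_div_right _ _ (Nat.pow_pos (by omega)), Nat.div_eq_of_lt h1, zero_add]

private theorem zd_xj {q : ℕ} (hq : 2 ≤ q) (a j m : ℕ) :
    zd q (a + j) (xj q a j m) = xj q a (j + 1) m := by
  unfold zd
  rw [xj_div hq]
  have h1 := xj_eq (q := q) a j m
  have h2 := xj_eq (q := q) a (j + 1) m
  have h3 : m / q ^ a % q ^ (j + 1) = m / q ^ a % q ^ j + q ^ j * (m / q ^ (a + j) % q) := by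
    rw [pow_succ, Nat.mod_mul, Nat.div_div_eq_div_mul, ← pow_add]
  have h4 : m / q ^ a % q ^ (j + 1) * q ^ a =
      m / q ^ a % q ^ j * q ^ a + m / q ^ (a + j) % q * q ^ (a + j) := by
    rw [h3, pow_add]
    ring
  omega

/-- compatibility with reduction modulo `q ^ L` -/
private theorem zd_mod {q : ℕ} (hq : 2 ≤ q) (i L x : ℕ) :
    zd q i x % q ^ L = zd q i (x % q ^ L) % q ^ L := by
  have hx := Nat.mod_add_div x (q ^ L)
  unfold zd
  rcases Nat.lt_or_ge i L with hi | hi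
  · obtain ⟨e, he⟩ := Nat.exists_eq_add_of_lt hi
    have hL : q ^ L = q ^ i * (q * q ^ e) := by
      rw [he, pow_add, pow_add, pow_one]
      ring
    have h1 : x % q ^ L / q ^ i % q = x / q ^ i % q := by
      rw [hL, Nat.mod_mul_right_div_self, Nat.mod_mul_right_mod]
    rw [h1]
    have h2 : x / q ^ i % q * q ^ i ≤ x % q ^ L := by
      rw [← h1]
      calc x % q ^ L / q ^ i % q * q ^ i ≤ x % q ^ L / q ^ i * q ^ i :=
            Nat.mul_le_mul_right _ (Nat.mod_le _ _)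
        _ ≤ x % q ^ L := Nat.div_mul_le_self _ _
    have h3 : x - x / q ^ i % q * q ^ i = (x % q ^ L - x / q ^ i % q * q ^ i) +
        q ^ L * (x / q ^ L) := by omega
    rw [h3, Nat.add_mul_mod_self_left]
  · have h1 : x % q ^ L / q ^ i = 0 := Nat.div_eq_of_lt (lt_of_lt_of_le
      (Nat.mod_lt _ (Nat.pow_pos (by omega))) (Nat.pow_le_pow_right (by omega) hi))
    rw [h1, Nat.zero_mod, zero_mul, Nat.sub_zero, Nat.mod_mod]
    have h2 : x / q ^ i % q * q ^ i ≤ x :=
      (Nat.mul_le_mul_right _ (Nat.mod_le _ _)).trans (Nat.div_mul_le_self _ _)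
    obtain ⟨e, he⟩ := Nat.exists_eq_add_of_le hi
    have h3 : x = (x - x / q ^ i % q * q ^ i) + q ^ L * (x / q ^ i % q * q ^ e) := by
      have h4 : q ^ L * (x / q ^ i % q * q ^ e) = x / q ^ i % q * q ^ i := by
        rw [he, pow_add]
        ring
      omega
    conv_rhs => rw [h3]
    rw [Nat.add_mul_mod_self_left]

private theorem g_mod {q L : ℕ} (hq : 2 ≤ q) {C : ℝ} {g : ℕ → ℝ} (hg : Infl q L C g) (i x : ℕ) :
    g x - g (zd q i x) = g (x % q ^ L) - g (zd q i (x % q ^ L)) := by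
  rw [hg.1 x, ← hg.1 (zd q i x), zd_mod hq, hg.1 (zd q i (x % q ^ L))]

/-- zeroing the digits of a block of `x` costs at most the influences -/
theorem zero_block {q L : ℕ} (hq : 2 ≤ q) {C : ℝ} {g : ℕ → ℝ} (hg : Infl q L C g) (a l : ℕ)
    (S : Finset ℕ) (f : ℕ → ℕ) (D : ℕ) (hD : ∀ y, (S.filter fun n => f n % q ^ L = y).card ≤ D) :
    ∑ n ∈ S, (g (f n) - g (f n - f n / q ^ a % q ^ l * q ^ a)) ^ 2 ≤
      l * q ^ l * D * ∑ i ∈ Ico a (a + l), ∑ x ∈ range (q ^ L), (g x - g (zd q i x)) ^ 2 := by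
  have hqL : 0 < q ^ L := Nat.pow_pos (by omega)
  -- telescoping
  have h1 : ∀ n, (g (f n) - g (f n - f n / q ^ a % q ^ l * q ^ a)) ^ 2 ≤
      l * ∑ j ∈ range l, (g (xj q a j (f n)) - g (zd q (a + j) (xj q a j (f n)))) ^ 2 := by
    intro n
    have h2 : g (f n) - g (f n - f n / q ^ a % q ^ l * q ^ a) =
        ∑ j ∈ range l, (g (xj q a j (f n)) - g (zd q (a + j) (xj q a j (f n)))) := by
      simp only [zd_xj hq]
      rw [Finset.sum_range_sub' (fun j => g (xj q a j (f n))), xj_zero, xj_sub]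
    rw [h2]
    have h3 := sq_sum_le_card_mul_sum_sq (s := range l)
      (f := fun j => g (xj q a j (f n)) - g (zd q (a + j) (xj q a j (f n))))
    rw [card_range] at h3
    exact h3
  -- the fibres
  have h4 : ∀ j ≤ l, ∀ y, (S.filter fun n => xj q a j (f n) % q ^ L = y).card ≤ q ^ l * D := by
    intro j hj y
    have h5 : (S.filter fun n => xj q a j (f n) % q ^ L = y) ⊆
        (range (q ^ l)).biUnion fun b => S.filter fun n => f n % q ^ L =
          (y + b % q ^ j * q ^ a) % q ^ L := by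
      intro n hn
      rw [mem_filter] at hn
      rw [mem_biUnion]
      refine ⟨f n / q ^ a % q ^ l, mem_range.2 (Nat.mod_lt _ (Nat.pow_pos (by omega))),
        mem_filter.2 ⟨hn.1, ?_⟩⟩
      have h6 := xj_eq (q := q) a j (f n)
      have h7 : f n / q ^ a % q ^ l % q ^ j = f n / q ^ a % q ^ j :=
        Nat.mod_mod_of_dvd _ (pow_dvd_pow q hj)
      rw [h7, ← hn.2, Nat.mod_add_mod, ← h6]
    refine (Finset.card_le_card h5).trans (Finset.card_biUnion_le.trans ?_)
    refine (Finset.sum_le_sum fun b _ => hD _).trans ?_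
    rw [Finset.sum_const, card_range, smul_eq_mul]
  have h8 : ∀ j ∈ range l, ∑ n ∈ S,
      (g (xj q a j (f n)) - g (zd q (a + j) (xj q a j (f n)))) ^ 2 ≤
      (q ^ l * D : ℕ) * ∑ x ∈ range (q ^ L), (g x - g (zd q (a + j) x)) ^ 2 := by
    intro j hj
    rw [mem_range] at hj
    have h9 : ∑ n ∈ S, (g (xj q a j (f n)) - g (zd q (a + j) (xj q a j (f n)))) ^ 2 =
        ∑ y ∈ range (q ^ L), ∑ n ∈ S.filter (fun n => xj q a j (f n) % q ^ L = y),
          (g y - g (zd q (a + j) y)) ^ 2 := by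
      rw [← Finset.sum_fiberwise_of_maps_to (s := S) (t := range (q ^ L))
        (g := fun n => xj q a j (f n) % q ^ L) (fun n _ => mem_range.2 (Nat.mod_lt _ hqL))]
      refine Finset.sum_congr rfl fun y _ => Finset.sum_congr rfl fun n hn => ?_
      rw [g_mod hq hg, (mem_filter.1 hn).2]
    rw [h9, Finset.mul_sum]
    refine Finset.sum_le_sum fun y _ => ?_
    rw [Finset.sum_const, nsmul_eq_mul]
    exact mul_le_mul_of_nonneg_right (by exact_mod_cast h4 j hj.le y) (sq_nonneg _)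
  have h10 : ∑ i ∈ Ico a (a + l), ∑ x ∈ range (q ^ L), (g x - g (zd q i x)) ^ 2 =
      ∑ j ∈ range l, ∑ x ∈ range (q ^ L), (g x - g (zd q (a + j) x)) ^ 2 := by
    rw [Finset.sum_Ico_eq_sum_range, Nat.add_sub_cancel_left]
  rw [h10]
  calc ∑ n ∈ S, (g (f n) - g (f n - f n / q ^ a % q ^ l * q ^ a)) ^ 2
      ≤ ∑ n ∈ S, l * ∑ j ∈ range l,
        (g (xj q a j (f n)) - g (zd q (a + j) (xj q a j (f n)))) ^ 2 :=
        Finset.sum_le_sum fun n _ => h1 n
    _ = l * ∑ j ∈ range l, ∑ n ∈ S,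
        (g (xj q a j (f n)) - g (zd q (a + j) (xj q a j (f n)))) ^ 2 := by
        rw [← Finset.mul_sum, Finset.sum_comm]
    _ ≤ l * ∑ j ∈ range l, ((q ^ l * D : ℕ) : ℝ) *
        ∑ x ∈ range (q ^ L), (g x - g (zd q (a + j) x)) ^ 2 :=
        mul_le_mul_of_nonneg_left (Finset.sum_le_sum h8) (by positivity)
    _ = l * q ^ l * D * ∑ j ∈ range l,
        ∑ x ∈ range (q ^ L), (g x - g (zd q (a + j) x)) ^ 2 := by
        rw [← Finset.mul_sum]
        push_cast
        ring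


/-! ### The pair of numbers which differ by a switch -/

/-- the square of the variation under the switch at `a` -/
private def eg (G : GP) (g : ℕ → ℝ) (m s a n : ℕ) : ℝ :=
  (g (m * (n + G.T * G.q ^ (a + G.g)) + s) - g (m * n + s)) ^ 2

/-- the variation as a function of the number; `n` has the first or the second content -/
private noncomputable def psi (G : GP) (g : ℕ → ℝ) (m s : ℕ) (o : ℕ × ℕ) (n : ℕ) : ℝ :=
  (if n / G.q ^ o.1 % (G.q ^ (G.g + G.l) * G.T) = G.z s o then eg G g m s o.1 n else 0) +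
  (if G.T * G.q ^ (o.1 + G.g) ≤ n ∧
      (n - G.T * G.q ^ (o.1 + G.g)) / G.q ^ o.1 % (G.q ^ (G.g + G.l) * G.T) = G.z s o then
    eg G g m s o.1 (n - G.T * G.q ^ (o.1 + G.g)) else 0)

private theorem eg_nonneg (G : GP) (g : ℕ → ℝ) (m s a n : ℕ) : 0 ≤ eg G g m s a n := sq_nonneg _

private theorem psi_nonneg (G : GP) (g : ℕ → ℝ) (m s : ℕ) (o : ℕ × ℕ) (n : ℕ) :
    0 ≤ psi G g m s o n := by
  unfold psi
  apply add_nonneg
  · split_ifs
    · exact eg_nonneg _ _ _ _ _ _
    · exact le_rfl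
  · split_ifs
    · exact eg_nonneg _ _ _ _ _ _
    · exact le_rfl

/-- both numbers become the same number -/
private theorem zero_both {q A l X m T : ℕ} (hq : 2 ≤ q)
    (h : X / q ^ A % q ^ l + m * T < q ^ l) :
    (X + m * (T * q ^ A)) - (X + m * (T * q ^ A)) / q ^ A % q ^ l * q ^ A =
      X - X / q ^ A % q ^ l * q ^ A := by
  have hA : 0 < q ^ A := Nat.pow_pos (by omega)
  have h1 : (X + m * (T * q ^ A)) / q ^ A = X / q ^ A + m * T := by
    rw [show X + m * (T * q ^ A) = X + q ^ A * (m * T) by ring, Nat.add_mul_div_left _ _ hA]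
  have h2 : (X / q ^ A + m * T) % q ^ l = X / q ^ A % q ^ l + m * T := by
    rw [← Nat.mod_add_mod]
    exact Nat.mod_eq_of_lt h
  rw [h1, h2]
  have h3 : (X / q ^ A % q ^ l + m * T) * q ^ A = X / q ^ A % q ^ l * q ^ A + m * (T * q ^ A) := by
    ring
  rw [h3]
  omega

private theorem zero_both' (G : GP) {m s : ℕ} (hm : m = G.p ∨ m = G.r) {o : ℕ × ℕ}
    (ho : o.2 < G.H) {n : ℕ}
    (hn : n / G.q ^ o.1 % (G.q ^ (G.g + G.l) * G.T) = G.z s o) :
    (m * (n + G.T * G.q ^ (o.1 + G.g)) + s) -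
      (m * (n + G.T * G.q ^ (o.1 + G.g)) + s) / G.q ^ (o.1 + G.g) % G.q ^ G.l *
        G.q ^ (o.1 + G.g) =
      (m * n + s) - (m * n + s) / G.q ^ (o.1 + G.g) % G.q ^ G.l * G.q ^ (o.1 + G.g) := by
  have hq0 : 0 < G.q := by have := G.hq; omega
  have htu : (m = G.p ∧ s = s) ∨ (m = G.r ∧ s = s) := by
    rcases hm with h | h
    · exact Or.inl ⟨h, rfl⟩
    · exact Or.inr ⟨h, rfl⟩
  have h1 := carryT hq0 G.hG s s htu o hn
  have h2 := uT_top hq0 G.hG s s htu ho
  have h3 : (m * n + s) / G.q ^ (o.1 + G.g) % G.q ^ G.l =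
      uT G.q G.T G.g G.l G.z0 G.x0 s s s m o % G.q ^ G.l := by
    rw [← h1, Nat.mod_mul_right_mod]
  have h4 := zero_both (T := G.T) (m := m) G.hq (by rw [h3]; exact h2)
  have h5 : m * (n + G.T * G.q ^ (o.1 + G.g)) + s =
      (m * n + s) + m * (G.T * G.q ^ (o.1 + G.g)) := by ring
  rw [h5]
  exact h4

private theorem eg_le (G : GP) (g : ℕ → ℝ) {m s : ℕ} (hm : m = G.p ∨ m = G.r) {o : ℕ × ℕ}
    (ho : o.2 < G.H) {n : ℕ}
    (hn : n / G.q ^ o.1 % (G.q ^ (G.g + G.l) * G.T) = G.z s o) :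
    eg G g m s o.1 n ≤
      2 * (g (m * (n + G.T * G.q ^ (o.1 + G.g)) + s) -
        g ((m * (n + G.T * G.q ^ (o.1 + G.g)) + s) -
          (m * (n + G.T * G.q ^ (o.1 + G.g)) + s) / G.q ^ (o.1 + G.g) % G.q ^ G.l *
            G.q ^ (o.1 + G.g))) ^ 2 +
      2 * (g (m * n + s) - g ((m * n + s) - (m * n + s) / G.q ^ (o.1 + G.g) % G.q ^ G.l *
        G.q ^ (o.1 + G.g))) ^ 2 := by
  rw [zero_both' G hm ho hn]
  unfold eg
  generalize g (m * (n + G.T * G.q ^ (o.1 + G.g)) + s) = x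
  generalize g (m * n + s) = y
  generalize g ((m * n + s) - (m * n + s) / G.q ^ (o.1 + G.g) % G.q ^ G.l *
        G.q ^ (o.1 + G.g)) = z
  nlinarith [sq_nonneg (x - z + (y - z))]

/-- the fibres modulo `q ^ L` -/
private theorem fib {q K L : ℕ} (hq : 2 ≤ q) (S : Finset ℕ) (hS : S ⊆ range (q ^ K)) (f : ℕ → ℕ)
    (hf : ∀ v ∈ S, ∀ v' ∈ S, f v % q ^ L = f v' % q ^ L → v % q ^ L = v' % q ^ L) (y : ℕ) :
    (S.filter fun v => f v % q ^ L = y).card ≤ q ^ (K - L) := by
  have h1 := Finset.card_le_card_of_injOn (s := S.filter fun v => f v % q ^ L = y)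
    (t := range (q ^ (K - L))) (fun v => v / q ^ L) (by
      intro v hv
      have h2 := mem_range.1 (hS (mem_filter.1 hv).1)
      rw [Finset.mem_coe, mem_range]
      apply Nat.div_lt_of_lt_mul
      refine lt_of_lt_of_le h2 ?_
      rw [← pow_add]
      exact Nat.pow_le_pow_right (by omega) (by omega)) (by
      intro v hv v' hv' h
      have h2 := mem_filter.1 (Finset.mem_coe.1 hv)
      have h3 := mem_filter.1 (Finset.mem_coe.1 hv')
      have h4 := hf v h2.1 v' h3.1 (by rw [h2.2, h3.2])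
      have h5 : v / q ^ L = v' / q ^ L := h
      rw [← Nat.mod_add_div v (q ^ L), ← Nat.mod_add_div v' (q ^ L), h4, h5])
  rwa [card_range] at h1

private theorem gp_cop (G : GP) {m : ℕ} (hm : m = G.p ∨ m = G.r) (L : ℕ) :
    Nat.gcd (G.q ^ L) m = 1 := by
  rcases hm with rfl | rfl
  · exact (G.hpq.symm.pow_left L)
  · exact (G.hrq.symm.pow_left L)

private theorem mod_cancel {Q m c t v v' s : ℕ} (hc : Nat.gcd Q m = 1)
    {x x' : ℕ} (hx : x + t = v + c) (hx' : x' + t = v' + c)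
    (h : (m * x + s) % Q = (m * x' + s) % Q) : v % Q = v' % Q := by
  have h2 : m * x + s ≡ m * x' + s [MOD Q] := h
  have h3 : m * x ≡ m * x' [MOD Q] := Nat.ModEq.add_right_cancel' s h2
  have h4 : x ≡ x' [MOD Q] := Nat.ModEq.cancel_left_of_coprime hc h3
  have h5 : x + t ≡ x' + t [MOD Q] := h4.add_right t
  rw [hx, hx'] at h5
  exact Nat.ModEq.add_right_cancel' c h5

private theorem psi_sum (G : GP) {K L u m s : ℕ} (hm : m = G.p ∨ m = G.r) {o : ℕ × ℕ}
    (ho : o.2 < G.H) {C : ℝ} {g : ℕ → ℝ} (hg : Infl G.q L C g) :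
    ∑ v ∈ range (G.q ^ K), psi G g m s o (G.q ^ K * u + v) ≤
      8 * (G.l * G.q ^ G.l * (G.q ^ (K - L) : ℕ) *
        ∑ i ∈ Ico (o.1 + G.g) (o.1 + G.g + G.l), ∑ x ∈ range (G.q ^ L),
          (g x - g (zd G.q i x)) ^ 2) := by
  have hcop := gp_cop G hm L
  unfold psi
  rw [Finset.sum_add_distrib, ← Finset.sum_filter, ← Finset.sum_filter]
  obtain ⟨B, hB⟩ : ∃ B, B = (G.l : ℝ) * G.q ^ G.l * (G.q ^ (K - L) : ℕ) *
        ∑ i ∈ Ico (o.1 + G.g) (o.1 + G.g + G.l), ∑ x ∈ range (G.q ^ L),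
          (g x - g (zd G.q i x)) ^ 2 := ⟨_, rfl⟩
  have hzb : ∀ (S : Finset ℕ) (f : ℕ → ℕ), S ⊆ range (G.q ^ K) →
      (∀ v ∈ S, ∀ v' ∈ S, f v % G.q ^ L = f v' % G.q ^ L → v % G.q ^ L = v' % G.q ^ L) →
      ∑ n ∈ S, (g (f n) - g (f n - f n / G.q ^ (o.1 + G.g) % G.q ^ G.l * G.q ^ (o.1 + G.g))) ^ 2 ≤
        B := by
    intro S f hS hf
    rw [hB]
    exact zero_block G.hq hg _ _ S f _ (fib G.hq S hS f hf)
  have hfst : ∑ v ∈ (range (G.q ^ K)).filter (fun v => (G.q ^ K * u + v) / G.q ^ o.1 %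
      (G.q ^ (G.g + G.l) * G.T) = G.z s o), eg G g m s o.1 (G.q ^ K * u + v) ≤ 4 * B := by
    refine (Finset.sum_le_sum fun v hv => eg_le G g hm ho (mem_filter.1 hv).2).trans ?_
    rw [Finset.sum_add_distrib, ← Finset.mul_sum, ← Finset.mul_sum]
    have h1 := hzb ((range (G.q ^ K)).filter (fun v => (G.q ^ K * u + v) / G.q ^ o.1 %
      (G.q ^ (G.g + G.l) * G.T) = G.z s o))
      (fun v => m * (G.q ^ K * u + v + G.T * G.q ^ (o.1 + G.g)) + s) (Finset.filter_subset _ _) (by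
        intro v _ v' _ h
        exact mod_cancel hcop (t := 0)
          (c := G.q ^ K * u + G.T * G.q ^ (o.1 + G.g)) (by ring) (by ring) h)
    have h2 := hzb ((range (G.q ^ K)).filter (fun v => (G.q ^ K * u + v) / G.q ^ o.1 %
      (G.q ^ (G.g + G.l) * G.T) = G.z s o))
      (fun v => m * (G.q ^ K * u + v) + s) (Finset.filter_subset _ _) (by
        intro v _ v' _ h
        exact mod_cancel hcop (t := 0)
          (c := G.q ^ K * u) (by ring) (by ring) h)
    linarith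
  have hsnd : ∑ v ∈ (range (G.q ^ K)).filter (fun v => G.T * G.q ^ (o.1 + G.g) ≤ G.q ^ K * u + v ∧
      (G.q ^ K * u + v - G.T * G.q ^ (o.1 + G.g)) / G.q ^ o.1 %
      (G.q ^ (G.g + G.l) * G.T) = G.z s o),
      eg G g m s o.1 (G.q ^ K * u + v - G.T * G.q ^ (o.1 + G.g)) ≤ 4 * B := by
    refine (Finset.sum_le_sum fun v hv => eg_le G g hm ho (mem_filter.1 hv).2.2).trans ?_
    rw [Finset.sum_add_distrib, ← Finset.mul_sum, ← Finset.mul_sum]
    have h1 := hzb ((range (G.q ^ K)).filter (fun v => G.T * G.q ^ (o.1 + G.g) ≤ G.q ^ K * u + v ∧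
      (G.q ^ K * u + v - G.T * G.q ^ (o.1 + G.g)) / G.q ^ o.1 %
      (G.q ^ (G.g + G.l) * G.T) = G.z s o))
      (fun v => m * (G.q ^ K * u + v - G.T * G.q ^ (o.1 + G.g) + G.T * G.q ^ (o.1 + G.g)) + s)
      (Finset.filter_subset _ _) (by
        intro v hv v' hv' h
        have h3 := (mem_filter.1 hv).2.1
        have h4 := (mem_filter.1 hv').2.1
        exact mod_cancel hcop (t := 0)
          (c := G.q ^ K * u) (by omega) (by omega) h)
    have h2 := hzb ((range (G.q ^ K)).filter (fun v => G.T * G.q ^ (o.1 + G.g) ≤ G.q ^ K * u + v ∧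
      (G.q ^ K * u + v - G.T * G.q ^ (o.1 + G.g)) / G.q ^ o.1 %
      (G.q ^ (G.g + G.l) * G.T) = G.z s o))
      (fun v => m * (G.q ^ K * u + v - G.T * G.q ^ (o.1 + G.g)) + s) (Finset.filter_subset _ _) (by
        intro v hv v' hv' h
        have h3 := (mem_filter.1 hv).2.1
        have h4 := (mem_filter.1 hv').2.1
        exact mod_cancel hcop (t := G.T * G.q ^ (o.1 + G.g))
          (c := G.q ^ K * u) (by omega) (by omega) h)
    linarith
  rw [← hB]
  linarith


/-- a switch does not change the contents of the other windows -/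
private theorem content_one (G : GP) (s : ℕ) {o : ℕ × ℕ} (ho : o.2 < G.H) {β : ℕ}
    (hβ : β = 0 ∨ β = 1) {n : ℕ} (hn : n / G.q ^ o.1 % (G.q ^ (G.g + G.l) * G.T) = G.z s o) {a : ℕ}
    (h : o.1 + (G.g + G.l) ≤ a ∨ a + (G.g + G.l) ≤ o.1) :
    (n + β * (G.T * G.q ^ (o.1 + G.g))) / G.q ^ a % (G.q ^ (G.g + G.l) * G.T) =
      n / G.q ^ a % (G.q ^ (G.g + G.l) * G.T) := by
  have hq0 : 0 < G.q := by have := G.hq; omega
  rcases hβ with rfl | rfl
  · simp
  rw [one_mul]
  rcases h with h | h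
  · congr 1
    have h2 := zT_lt G.hG s s ho
    have h3 := carry_high (q := G.q) (T := G.T) (l := G.g + G.l) (A := o.1) (t := G.q ^ G.g)
      (m := n) hq0 hn
      (by
        have h4 : G.z s o < G.q ^ (G.g + G.l) := lt_of_le_of_lt (Nat.le_add_right _ _) h2
        rw [Nat.mod_eq_of_lt h4, mul_comm (G.q ^ G.g) G.T]
        exact h2) h
    rw [← h3]
    congr 1
    rw [pow_add]
    ring
  · obtain ⟨e, he⟩ := Nat.exists_eq_add_of_le h
    have e1 : G.T * G.q ^ (o.1 + G.g) = G.q ^ a * (G.q ^ (G.g + G.l) * G.T * G.q ^ (e + G.g)) := by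
      rw [he]
      simp only [pow_add]
      ring
    rw [e1, Nat.add_mul_div_left _ _ (Nat.pow_pos hq0), Nat.add_mul_mod_self_left]

private theorem content_sum {ι : Type} [DecidableEq ι] (G : GP) (s : ℕ) (o : ι → ℕ × ℕ)
    (A : Finset ι) (ho : ∀ i ∈ A, (o i).2 < G.H)
    (hsep : ∀ i ∈ A, ∀ j ∈ A, i ≠ j →
      (o i).1 + (G.g + G.l) ≤ (o j).1 ∨ (o j).1 + (G.g + G.l) ≤ (o i).1) {n : ℕ}
    (hn : ∀ i ∈ A, n / G.q ^ (o i).1 % (G.q ^ (G.g + G.l) * G.T) = G.z s (o i)) (β : ι → ℕ)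
    (hβ : ∀ i, β i = 0 ∨ β i = 1) (B : Finset ι) (hB : B ⊆ A) :
    ∀ k ∈ A, k ∉ B → (n + ∑ i ∈ B, β i * (G.T * G.q ^ ((o i).1 + G.g))) / G.q ^ (o k).1 %
      (G.q ^ (G.g + G.l) * G.T) = G.z s (o k) := by
  induction B using Finset.induction_on with
  | empty =>
    intro k hk _
    rw [Finset.sum_empty, add_zero]
    exact hn k hk
  | insert j B hj ih =>
    intro k hk hkB
    have hjA : j ∈ A := hB (Finset.mem_insert_self j B)
    have hBA : B ⊆ A := (Finset.subset_insert j B).trans hB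
    have h1 := ih hBA j hjA hj
    have h2 := ih hBA k hk fun h => hkB (Finset.mem_insert_of_mem h)
    have hjk : j ≠ k := fun h => hkB (h ▸ Finset.mem_insert_self j B)
    have h3 := content_one G s (ho j hjA) (hβ j) h1 (hsep j hjA k hk hjk)
    rw [← h2, ← h3, Finset.sum_insert hj]
    congr 2
    ring

/-- the variation of one cell -/
private theorem cell_one (G : GP) {W1 R P τ s K u : ℕ} {A : Finset (Fin P)} (hW1 : G.W ≤ W1)
    {N : ℕ → (Fin P → Fin R × Fin (G.q ^ G.W)) → ℕ} (hN : Law G W1 R P τ s K u A N) (g : ℕ → ℝ)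
    (m v : ℕ) (σ : Fin P → Fin R × Fin (G.q ^ G.W)) (k : Fin P) :
    (g (m * (G.q ^ K * u + N v ((G.sw W1 R P τ s A).flp (fun k' => decide (k' = k)) σ)) + s) -
      g (m * (G.q ^ K * u + N v σ) + s)) ^ 2 ≤
      if ((σ k).1 : ℕ) < G.O W1 * G.H then
        psi G g m s (G.po W1 R P τ k (σ k).1) (G.q ^ K * u + N v σ) else 0 := by
  classical
  by_cases hlab : (G.sw W1 R P τ s A).lab k (σ k) = none
  · have h1 : (G.sw W1 R P τ s A).flp (fun k' => decide (k' = k)) σ = σ := by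
      funext k'
      unfold Sw.flp
      by_cases hk : k' = k
      · subst hk
        simp only [decide_true, if_true]
        exact (G.sw W1 R P τ s A).flip_none k' (σ k') hlab
      · simp [hk]
    rw [h1, sub_self]
    split_ifs
    · simpa using psi_nonneg G g m s _ _
    · simp
  · have hlt : ((σ k).1 : ℕ) < G.O W1 * G.H := (G.lb_some hlab).1
    rw [if_pos hlt]
    have hact : ∀ k', k' ∈ (G.sw W1 R P τ s A).act σ ↔
        (G.sw W1 R P τ s A).lab k' (σ k') ≠ none := by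
      intro k'
      rw [Sw.act, mem_filter, Option.isSome_iff_ne_none]
      simp
    have hk : k ∈ (G.sw W1 R P τ s A).act σ := (hact k).2 hlab
    obtain ⟨n0, hn0, hn⟩ := hN.2.2 v σ
    obtain ⟨β, hβ⟩ : ∃ β : Fin P → ℕ, ∀ k', β k' =
        if G.bt W1 R P τ s k' (σ k') = true then 1 else 0 := ⟨_, fun _ => rfl⟩
    have hβ01 : ∀ k', β k' = 0 ∨ β k' = 1 := by
      intro k'
      rw [hβ]
      split_ifs
      · exact Or.inr rfl
      · exact Or.inl rfl
    obtain ⟨n1, hn1⟩ : ∃ n1, n1 = n0 + ∑ k' ∈ ((G.sw W1 R P τ s A).act σ).erase k,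
        β k' * (G.T * G.q ^ ((G.po W1 R P τ k' (σ k').1).1 + G.g)) := ⟨_, rfl⟩
    have hcont : n1 / G.q ^ (G.po W1 R P τ k (σ k).1).1 % (G.q ^ (G.g + G.l) * G.T) =
        G.z s (G.po W1 R P τ k (σ k).1) := by
      rw [hn1]
      refine content_sum G s (fun k' => G.po W1 R P τ k' (σ k').1) ((G.sw W1 R P τ s A).act σ)
        (fun i _ => G.po_lt W1 R P τ i (σ i).1) ?_ hn0 β hβ01 _ (Finset.erase_subset _ _) k hk
        (Finset.notMem_erase _ _)
      intro i _ j _ hij
      have h := po_sep G (R := R) (P := P) (τ := τ) hW1 (fun k' => (σ k').1) i j hij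
      have hW : G.g + G.l ≤ G.W := Nat.le_add_right _ _
      omega
    -- the two numbers
    have e1 : G.q ^ K * u + N v σ = n1 +
        β k * (G.T * G.q ^ ((G.po W1 R P τ k (σ k).1).1 + G.g)) := by
      have h := hn fun _ => false
      have h1 : (G.sw W1 R P τ s A).flp (fun _ => false) σ = σ := by
        funext k'
        simp [Sw.flp]
      rw [h1, ← Finset.add_sum_erase _ _ hk] at h
      rw [h, hn1, hβ k, Bool.xor_false]
      have h2 : ∑ x ∈ ((G.sw W1 R P τ s A).act σ).erase k,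
          (if (G.bt W1 R P τ s x (σ x) ^^ false) = true then 1 else 0) *
            (G.T * G.q ^ ((G.po W1 R P τ x (σ x).1).1 + G.g)) =
          ∑ k' ∈ ((G.sw W1 R P τ s A).act σ).erase k,
            β k' * (G.T * G.q ^ ((G.po W1 R P τ k' (σ k').1).1 + G.g)) := by
        refine Finset.sum_congr rfl fun x _ => ?_
        rw [Bool.xor_false, hβ x]
      rw [h2]
      ring
    have e2 : G.q ^ K * u + N v ((G.sw W1 R P τ s A).flp (fun k' => decide (k' = k)) σ) = n1 +
        (1 - β k) * (G.T * G.q ^ ((G.po W1 R P τ k (σ k).1).1 + G.g)) := by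
      have h := hn fun k' => decide (k' = k)
      rw [← Finset.add_sum_erase _ _ hk] at h
      rw [h, hn1, hβ k]
      have h2 : ∑ x ∈ ((G.sw W1 R P τ s A).act σ).erase k,
          (if (G.bt W1 R P τ s x (σ x) ^^ decide (x = k)) = true then 1 else 0) *
            (G.T * G.q ^ ((G.po W1 R P τ x (σ x).1).1 + G.g)) =
          ∑ k' ∈ ((G.sw W1 R P τ s A).act σ).erase k,
            β k' * (G.T * G.q ^ ((G.po W1 R P τ k' (σ k').1).1 + G.g)) := by
        refine Finset.sum_congr rfl fun x hx => ?_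
        have hxk : x ≠ k := Finset.ne_of_mem_erase hx
        rw [decide_eq_false hxk, Bool.xor_false, hβ x]
      rw [h2]
      have h3 : (if (G.bt W1 R P τ s k (σ k) ^^ decide (k = k)) = true then 1 else 0) =
          1 - (if G.bt W1 R P τ s k (σ k) = true then 1 else 0) := by
        cases G.bt W1 R P τ s k (σ k) <;> simp
      rw [h3]
      ring
    rw [e1, e2]
    unfold psi
    rcases hβ01 k with h0 | h0
    · rw [h0]
      simp only [zero_mul, add_zero, Nat.sub_zero, one_mul]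
      rw [if_pos hcont]
      refine le_add_of_le_of_nonneg le_rfl ?_
      split_ifs
      · exact eg_nonneg _ _ _ _ _ _
      · exact le_rfl
    · rw [h0]
      simp only [one_mul, Nat.sub_self, zero_mul, add_zero]
      rw [Nat.add_sub_cancel, if_pos (⟨Nat.le_add_left _ _, hcont⟩ : _ ∧ _)]
      refine le_add_of_nonneg_of_le ?_ (le_of_eq ?_)
      · split_ifs
        · exact eg_nonneg _ _ _ _ _ _
        · exact le_rfl
      · unfold eg
        ring

/-- one coordinate of a product -/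
private theorem ave_coord {P R : ℕ} (k : Fin P) (h : Fin R → ℝ) :
    ave (fun ω : Fin P → Fin R => h (ω k)) = ave h ∨ R = 0 := by
  rcases Nat.eq_zero_or_pos R with hR | hR
  · exact Or.inr hR
  left
  have : Nonempty (Fin R) := ⟨⟨0, hR⟩⟩
  have hc : ∀ {α : Type} [Fintype α] (f : α → ℝ), ((ave f : ℝ) : ℂ) = av fun a => (f a : ℂ) := by
    intro α _ f
    unfold ave av
    push_cast
    rfl
  have h1 := DI.av_comp_inj (E := Fin R) (fun _ : Unit => k) (fun _ _ _ => rfl)
    (fun x => ((h (x ()) : ℝ) : ℂ))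
  have h2 := DI.av_equiv (Equiv.funUnique Unit (Fin R)) fun θ => ((h θ : ℝ) : ℂ)
  have h3 : (((ave fun ω : Fin P → Fin R => h (ω k)) : ℝ) : ℂ) = ((ave h : ℝ) : ℂ) := by
    rw [hc, hc]
    exact h1.trans h2
  exact_mod_cast h3

private theorem ave_mono {α : Type} [Fintype α] {f g : α → ℝ} (h : ∀ a, f a ≤ g a) :
    ave f ≤ ave g := by
  unfold ave
  exact mul_le_mul_of_nonneg_left (Finset.sum_le_sum fun a _ => h a) (by positivity)

private theorem ave_sum {α ι : Type} [Fintype α] (s : Finset ι) (f : ι → α → ℝ) :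
    ave (fun a => ∑ i ∈ s, f i a) = ∑ i ∈ s, ave (f i) := by
  unfold ave
  rw [Finset.sum_comm, Finset.mul_sum]

/-- **the variation under switches of sparse cells** -/
theorem cell_var (G : GP) {W1 : ℕ} (hW1 : G.W ≤ W1) (w1 : ℕ) : ∃ c1 : ℝ, 0 ≤ c1 ∧
    ∀ (R P τ s K u L : ℕ) (A : Finset (Fin P)) (N : ℕ → (Fin P → Fin R × Fin (G.q ^ G.W)) → ℕ),
      G.O W1 * G.H ≤ R → τ + P * W1 ≤ K → L ≤ K + w1 → Law G W1 R P τ s K u A N →
      ∀ (C : ℝ) (g : ℕ → ℝ), Infl G.q L C g → ∀ m : ℕ, m = G.p ∨ m = G.r →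
        ∑ v ∈ range (G.q ^ K), ave (fun σ => ∑ k : Fin P,
          (g (m * (G.q ^ K * u + N v ((G.sw W1 R P τ s A).flp (fun k' => decide (k' = k)) σ)) + s) -
            g (m * (G.q ^ K * u + N v σ) + s)) ^ 2) ≤ c1 * C / R * (G.q : ℝ) ^ K := by
  classical
  have hq := G.hq
  refine ⟨8 * (G.l * G.q ^ G.l) * (G.O W1 * G.H) * (G.q : ℝ) ^ w1, by positivity, ?_⟩
  intro R P τ s K u L A N hR _ hL hN C g hg m hm
  have hRpos : 0 < R := by
    have h1 : 0 < G.O W1 * G.H := Nat.mul_pos (Nat.succ_pos _) G.hH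
    omega
  have hR0 : (0 : ℝ) < R := by exact_mod_cast hRpos
  obtain ⟨I, hI⟩ : ∃ I : ℕ → ℝ, ∀ i, I i = ∑ x ∈ range (G.q ^ L), (g x - g (zd G.q i x)) ^ 2 :=
    ⟨_, fun _ => rfl⟩
  have hI0 : ∀ i, 0 ≤ I i := by
    intro i
    rw [hI]
    exact Finset.sum_nonneg fun _ _ => sq_nonneg _
  have hIL : ∀ i, L ≤ i → I i = 0 := by
    intro i hi
    rw [hI]
    refine Finset.sum_eq_zero fun x hx => ?_
    have h1 : x / G.q ^ i = 0 := Nat.div_eq_of_lt (lt_of_lt_of_le (mem_range.1 hx)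
      (Nat.pow_le_pow_right (by omega) hi))
    unfold zd
    rw [h1]
    simp
  have hItot : ∀ n, ∑ i ∈ range n, I i ≤ C * (G.q : ℝ) ^ L := by
    intro n
    have h1 : ∑ i ∈ range n, I i ≤ ∑ i ∈ range L, I i := by
      have h2 : ∑ i ∈ range n, I i = ∑ i ∈ (range n).filter (fun i => i < L), I i := by
        rw [Finset.sum_filter]
        refine Finset.sum_congr rfl fun i _ => ?_
        split_ifs with h3
        · rfl
        · exact hIL i (by omega)
      rw [h2]
      refine Finset.sum_le_sum_of_subset_of_nonneg ?_ fun i _ _ => hI0 i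
      intro i hi
      exact mem_range.2 (mem_filter.1 hi).2
    refine h1.trans ?_
    have h2 := hg.2
    simp only [← hI] at h2
    exact h2
  -- the bound for one cell and one choice
  obtain ⟨c, hc⟩ : ∃ c : ℝ, c = 8 * (G.l * G.q ^ G.l * (G.q ^ (K - L) : ℕ)) := ⟨_, rfl⟩
  have hc0 : 0 ≤ c := by rw [hc]; positivity
  have hone : ∀ (k : Fin P) (θ : Fin R),
      ∑ v ∈ range (G.q ^ K), psi G g m s (G.po W1 R P τ k θ) (G.q ^ K * u + v) ≤
        c * ∑ i ∈ Ico (τ + k * W1) (τ + (k + 1) * W1), I i := by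
    intro k θ
    have h1 := psi_sum G (K := K) (u := u) (s := s) hm (G.po_lt W1 R P τ k θ) hg
    simp only [← hI] at h1
    refine h1.trans ?_
    have h2 : ∑ i ∈ Ico ((G.po W1 R P τ k θ).1 + G.g) ((G.po W1 R P τ k θ).1 + G.g + G.l), I i ≤
        ∑ i ∈ Ico (τ + k * W1) (τ + (k + 1) * W1), I i := by
      refine Finset.sum_le_sum_of_subset_of_nonneg ?_ fun i _ _ => hI0 i
      intro i hi
      rw [mem_Ico] at hi ⊢
      have h3 := po_cell G (R := R) (P := P) (τ := τ) hW1 θ k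
      have hW : G.g + G.l ≤ G.W := Nat.le_add_right _ _
      omega
    rw [hc, ← mul_assoc]
    exact mul_le_mul_of_nonneg_left h2 (by positivity)
  -- all cells
  have hcells : ∑ k : Fin P, ∑ i ∈ Ico (τ + (k : ℕ) * W1) (τ + ((k : ℕ) + 1) * W1), I i ≤
      C * (G.q : ℝ) ^ L := by
    refine le_trans ?_ (hItot (τ + P * W1))
    rw [Fin.sum_univ_eq_sum_range
      (fun k => ∑ i ∈ Ico (τ + k * W1) (τ + (k + 1) * W1), I i) P]
    have h1 : ∀ n, ∑ k ∈ range n, ∑ i ∈ Ico (τ + k * W1) (τ + (k + 1) * W1), I i =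
        ∑ i ∈ Ico τ (τ + n * W1), I i := by
      intro n
      induction n with
      | zero => simp
      | succ n ih =>
        rw [Finset.sum_range_succ, ih, Finset.sum_Ico_consecutive]
        · omega
        · have : (n + 1) * W1 = n * W1 + W1 := by ring
          omega
    rw [h1]
    refine Finset.sum_le_sum_of_subset_of_nonneg ?_ fun i _ _ => hI0 i
    intro i hi
    exact mem_range.2 (mem_Ico.1 hi).2
  -- the average
  have hlaw := hN.1 fun ω n => ∑ k : Fin P, if ((ω k : Fin R) : ℕ) < G.O W1 * G.H then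
    psi G g m s (G.po W1 R P τ k (ω k)) (G.q ^ K * u + n) else 0
  have hstep1 : ∑ v ∈ range (G.q ^ K), ave (fun σ => ∑ k : Fin P,
      (g (m * (G.q ^ K * u + N v ((G.sw W1 R P τ s A).flp (fun k' => decide (k' = k)) σ)) + s) -
        g (m * (G.q ^ K * u + N v σ) + s)) ^ 2) ≤
      ∑ v ∈ range (G.q ^ K), ave fun ω : Fin P → Fin R => ∑ k : Fin P,
        if ((ω k : Fin R) : ℕ) < G.O W1 * G.H then
          psi G g m s (G.po W1 R P τ k (ω k)) (G.q ^ K * u + v) else 0 := by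
    rw [← hlaw]
    refine Finset.sum_le_sum fun v _ => ave_mono fun σ => Finset.sum_le_sum fun k _ => ?_
    exact cell_one G hW1 hN g m v σ k
  refine hstep1.trans ?_
  have hstep2 : ∑ v ∈ range (G.q ^ K), ave (fun ω : Fin P → Fin R => ∑ k : Fin P,
        if ((ω k : Fin R) : ℕ) < G.O W1 * G.H then
          psi G g m s (G.po W1 R P τ k (ω k)) (G.q ^ K * u + v) else 0) =
      ∑ k : Fin P, (R : ℝ)⁻¹ * ∑ θ : Fin R, if (θ : ℕ) < G.O W1 * G.H then
        ∑ v ∈ range (G.q ^ K), psi G g m s (G.po W1 R P τ k θ) (G.q ^ K * u + v) else 0 := by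
    have h1 : ∀ v, ave (fun ω : Fin P → Fin R => ∑ k : Fin P,
        if ((ω k : Fin R) : ℕ) < G.O W1 * G.H then
          psi G g m s (G.po W1 R P τ k (ω k)) (G.q ^ K * u + v) else 0) =
        ∑ k : Fin P, (R : ℝ)⁻¹ * ∑ θ : Fin R, if (θ : ℕ) < G.O W1 * G.H then
          psi G g m s (G.po W1 R P τ k θ) (G.q ^ K * u + v) else 0 := by
      intro v
      rw [ave_sum]
      refine Finset.sum_congr rfl fun k _ => ?_
      have h2 := (ave_coord k fun θ : Fin R => if (θ : ℕ) < G.O W1 * G.H then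
          psi G g m s (G.po W1 R P τ k θ) (G.q ^ K * u + v) else 0).resolve_right hRpos.ne'
      rw [h2]
      unfold ave
      rw [Fintype.card_fin]
    simp only [h1]
    rw [Finset.sum_comm]
    refine Finset.sum_congr rfl fun k _ => ?_
    rw [← Finset.mul_sum, Finset.sum_comm]
    congr 1
    refine Finset.sum_congr rfl fun θ _ => ?_
    split_ifs
    · rfl
    · simp
  rw [hstep2]
  have hstep3 : ∀ k : Fin P, ∑ θ : Fin R, (if (θ : ℕ) < G.O W1 * G.H then
        ∑ v ∈ range (G.q ^ K), psi G g m s (G.po W1 R P τ k θ) (G.q ^ K * u + v) else 0) ≤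
      (G.O W1 * G.H : ℕ) * (c * ∑ i ∈ Ico (τ + (k : ℕ) * W1) (τ + ((k : ℕ) + 1) * W1), I i) := by
    intro k
    rw [← Finset.sum_filter]
    refine (Finset.sum_le_sum fun θ _ => hone k θ).trans ?_
    rw [Finset.sum_const, nsmul_eq_mul]
    refine mul_le_mul_of_nonneg_right ?_ (mul_nonneg hc0 (Finset.sum_nonneg fun i _ => hI0 i))
    have h1 : (univ.filter fun θ : Fin R => (θ : ℕ) < G.O W1 * G.H).card ≤ G.O W1 * G.H := by
      have h2 := Finset.card_le_card_of_injOn
        (s := univ.filter fun θ : Fin R => (θ : ℕ) < G.O W1 * G.H)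
        (t := range (G.O W1 * G.H)) (fun θ => (θ : ℕ)) (by
          intro θ hθ
          rw [Finset.mem_coe, mem_range]
          exact (mem_filter.1 (Finset.mem_coe.1 hθ)).2)
        (fun θ _ θ' _ h => Fin.ext h)
      rwa [card_range] at h2
    exact_mod_cast h1
  have hstep4 : ∑ k : Fin P, (R : ℝ)⁻¹ * ∑ θ : Fin R, (if (θ : ℕ) < G.O W1 * G.H then
        ∑ v ∈ range (G.q ^ K), psi G g m s (G.po W1 R P τ k θ) (G.q ^ K * u + v) else 0) ≤
      (R : ℝ)⁻¹ * ((G.O W1 * G.H : ℕ) * (c * (C * (G.q : ℝ) ^ L))) := by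
    rw [← Finset.mul_sum]
    refine mul_le_mul_of_nonneg_left ?_ (by positivity)
    refine (Finset.sum_le_sum fun k _ => hstep3 k).trans ?_
    rw [← Finset.mul_sum, ← Finset.mul_sum]
    exact mul_le_mul_of_nonneg_left (mul_le_mul_of_nonneg_left hcells hc0) (by positivity)
  refine hstep4.trans ?_
  -- the powers
  have hC0 : 0 ≤ C := by
    have h1 := hItot 0
    rw [Finset.sum_range_zero] at h1
    have h2 : (0 : ℝ) < (G.q : ℝ) ^ L := by positivity
    exact nonneg_of_mul_nonneg_left h1 h2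
  have hpow : ((G.q ^ (K - L) : ℕ) : ℝ) * (G.q : ℝ) ^ L ≤ (G.q : ℝ) ^ w1 * (G.q : ℝ) ^ K := by
    have h1 : G.q ^ (K - L) * G.q ^ L ≤ G.q ^ w1 * G.q ^ K := by
      rw [← pow_add, ← pow_add]
      exact Nat.pow_le_pow_right (by omega) (by omega)
    exact_mod_cast h1
  have hfin : (R : ℝ)⁻¹ * ((G.O W1 * G.H : ℕ) * (c * (C * (G.q : ℝ) ^ L))) =
      (R : ℝ)⁻¹ * (8 * (G.l * G.q ^ G.l) * (G.O W1 * G.H) * C) *
        (((G.q ^ (K - L) : ℕ) : ℝ) * (G.q : ℝ) ^ L) := by
    rw [hc]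
    push_cast
    ring
  rw [hfin]
  calc (R : ℝ)⁻¹ * (8 * (G.l * G.q ^ G.l) * (G.O W1 * G.H) * C) *
        (((G.q ^ (K - L) : ℕ) : ℝ) * (G.q : ℝ) ^ L)
      ≤ (R : ℝ)⁻¹ * (8 * (G.l * G.q ^ G.l) * (G.O W1 * G.H) * C) *
        ((G.q : ℝ) ^ w1 * (G.q : ℝ) ^ K) := mul_le_mul_of_nonneg_left hpow (by positivity)
    _ = _ := by
      rw [div_eq_mul_inv]
      ring

end Pool.Agent.Lib.MP_3e612f_nt.RD
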