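import Pool.Agent.Lib.MP_3e612f_nt.RD.CellB
import Pool.Agent.Lib.MP_3e612f_nt.RD.CellC
import Pool.Agent.Lib.MP_3e612f_nt.RD.Ait
import Pool.Agent.Lib.MP_3e612f_nt.RD.Es

/-!
A large pair correlation bounds the top form at the gadgets.

PROOF of `gad_bound`. `c1` from `cell_var`; `R ≥ O W1 * H` with `4 √(4 c1 C / R) ≤ δ / 2`; `M', B', C'` from `ait` for `δ / 2`
and `ρ0 = 1 / (R q ^ W)` (`lab_pr`). Given the data let `N` be from `law_exists`,
`f v σ = b σ * ee (φ' σ) * et (g' σ) * et (P' σ)` the summand at `q ^ K u + N v σ`; `∑_v av_σ (f v σ)` is the sum over the block.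
`gamma` (`Es.lean`) for every `v`; Cauchy - Schwarz in `v` for the square roots and `cell_var` for `g1`, `g1'`
(`(x + y)² ≤ 2 x² + 2 y²`): the sum over `v` of the second terms is at most `δ / 2 q ^ K`. So for some `v` the first term
(the average over `σ` of the norm of the average over the switches) is `≥ δ / 2`. `ait` with `cell_deg` (for `φ` and `φ'`: the
class of the phases of degree `≤ d` is `IsPL`, unfold it; the sum of two functions with `Deg` has `Deg`), `cell_deg`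
for `P'` (degree `≤ d'`; also `ε •`), `cell_top`, `cell_frozen`.
-/

set_option autoImplicit false

namespace Pool.Agent.Lib.MP_3e612f_nt.RD

open Finset
open Pool.Agent.Lib.MP_3e612f_nt.PI (ee mc)
open Pool.Agent.Lib.MP_3e612f_nt.DI (av pr mlt)
open Pool.Agent.Lib.MP_3e612f_nt.EM

section cd
variable {α : Type} [Fintype α]

private theorem cdave_add (f g : α → ℝ) : ave (fun a => f a + g a) = ave f + ave g := by
  unfold ave
  rw [Finset.sum_add_distrib, mul_add]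

private theorem cdave_mul (c : ℝ) (f : α → ℝ) : ave (fun a => c * f a) = c * ave f := by
  unfold ave
  rw [← Finset.mul_sum, mul_left_comm]

private theorem cdave_mono {f g : α → ℝ} (h : ∀ a, f a ≤ g a) : ave f ≤ ave g := by
  unfold ave
  exact mul_le_mul_of_nonneg_left (Finset.sum_le_sum fun a _ => h a) (by positivity)

private theorem cdave_nonneg {f : α → ℝ} (h : ∀ a, 0 ≤ f a) : 0 ≤ ave f := by
  unfold ave
  exact mul_nonneg (by positivity) (Finset.sum_nonneg fun a _ => h a)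

end cd

/-- Cauchy - Schwarz for square roots -/
private theorem cd_sqrt_sum {n : ℕ} (x : ℕ → ℝ) (hx : ∀ v, 0 ≤ x v) :
    ∑ v ∈ range n, Real.sqrt (x v) ≤ Real.sqrt (n * ∑ v ∈ range n, x v) := by
  refine Real.le_sqrt_of_sq_le ?_
  have h1 := Finset.sum_mul_sq_le_sq_mul_sq (range n) (fun _ => (1 : ℝ)) fun v => Real.sqrt (x v)
  simp only [one_mul, one_pow, sum_const, card_range, nsmul_eq_mul, mul_one,
    Real.sq_sqrt (hx _)] at h1
  exact h1

private theorem Sw.Deg.add {ι S Θ : Type} [Fintype ι] {w : Sw ι S Θ} {G : Type} [AddCommGroup G]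
    {d : ℕ} {φ ψ : (ι → S) → G} (h : w.Deg d φ) (h' : w.Deg d ψ) :
    w.Deg d fun σ => φ σ + ψ σ :=
  fun σ => AddSubgroup.add_mem _ (h σ) (h' σ)

private theorem Sw.Deg.zsmul {ι S Θ : Type} [Fintype ι] {w : Sw ι S Θ} {G : Type} [AddCommGroup G]
    {d : ℕ} {φ : (ι → S) → G} (h : w.Deg d φ) (ε : ℤ) :
    w.Deg d fun σ => ε • φ σ :=
  fun σ => AddSubgroup.zsmul_mem _ (h σ) ε

/-- **a large pair correlation bounds the top form at the gadgets** -/
theorem gad_bound (G : GP) {W1 : ℕ} (hW1 : G.W ≤ W1) (d : ℕ) {d' : ℕ} (hd' : 1 ≤ d') (M : ℕ)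
    [NeZero M] (w1 : ℕ) {C δ : ℝ} (hC : 0 ≤ C) (hδ : 0 < δ) :
    ∃ (M' B' : ℕ) (C' : ℝ), 1 ≤ M' ∧ 0 ≤ C' ∧
    ∀ (P τ s K u L : ℕ) (A : Finset (Fin P)), τ + P * W1 ≤ K → L ≤ K + w1 →
    ∀ (I : Finset ℕ) (β β' : ℕ → ℂ) (φ φ' : ℕ → ZMod M) (g1 g1' : ℕ → ℝ)
      (t : Finset (Lt (G.q * G.T) L) → UnitAddCircle) (ε : ℤ),
      (∀ i ∈ I, ∀ k ∈ A, i < τ + (k : ℕ) * W1 ∨ τ + ((k : ℕ) + 1) * W1 ≤ i) →
      (∀ n, ‖β n‖ ≤ 1) → (∀ n, ‖β' n‖ ≤ 1) → DepL G.q (G.q * G.T) I β →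
      DepL G.q (G.q * G.T) I β' → IsPL G.q (G.q * G.T) d L φ → IsPL G.q (G.q * G.T) d L φ' →
      Infl G.q L C g1 → Infl G.q L C g1' → (∀ S, d' < S.card → t S = 0) →
      δ * (G.q : ℝ) ^ K ≤ ‖∑ v ∈ range (G.q ^ K),
        (β (G.p * (G.q ^ K * u + v) + s) * β' (G.r * (G.q ^ K * u + v) + s)) *
        ee (φ (G.p * (G.q ^ K * u + v) + s) + φ' (G.r * (G.q ^ K * u + v) + s)) *
        et ((g1 (G.p * (G.q ^ K * u + v) + s) + g1' (G.r * (G.q ^ K * u + v) + s) : ℝ)) *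
        et (FP G.q (G.q * G.T) L t (G.p * (G.q ^ K * u + v) + s) +
          ε • FP G.q (G.q * G.T) L t (G.r * (G.q ^ K * u + v) + s))‖ →
      ∃ E : Finset (Fin P), E.card ≤ B' ∧
        ∑ x ∈ Tup (Θ := Fin (G.O W1) × Fin G.H) d' (A \ E),
          ‖M' • G.form L s ε t (fun i => G.pl W1 τ (x i).1 (x i).2)‖ ^ 2 ≤ C' := by
  obtain ⟨c1, hc1, hvar⟩ := cell_var G hW1 w1
  have hq0 : 0 < G.q := by have := G.hq; omega
  -- the number of choices
  obtain ⟨R0, hR0⟩ := exists_nat_ge (256 * (c1 * C) / δ ^ 2)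
  set R : ℕ := max (max R0 (G.O W1 * G.H)) 1 with hRdef
  have hRO : G.O W1 * G.H ≤ R := (le_max_right _ _).trans (le_max_left _ _)
  have hR1 : 0 < R := lt_of_lt_of_le Nat.one_pos (le_max_right _ _)
  have hRR : 256 * (c1 * C) / δ ^ 2 ≤ (R : ℝ) := by
    refine hR0.trans ?_
    have : R0 ≤ R := (le_max_left _ _).trans (le_max_left _ _)
    exact_mod_cast this
  have hRpos : (0 : ℝ) < R := by exact_mod_cast hR1
  have hqpos : (0 : ℝ) < (G.q : ℝ) := by exact_mod_cast hq0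
  have : Nonempty (Fin R × Fin (G.q ^ G.W)) := ⟨(⟨0, hR1⟩, ⟨0, Nat.pow_pos hq0⟩)⟩
  have hρ : (0 : ℝ) < 1 / ((R : ℝ) * (G.q : ℝ) ^ G.W) := by positivity
  obtain ⟨M', B', C', hM', hC', hait⟩ := ait d' d M hd' (half_pos hδ) hρ
  refine ⟨M', B', C', hM', hC', ?_⟩
  intro P τ s K u L A hK hL I β β' φ φ' g1 g1' t ε hI hβ hβ' hdβ hdβ' hφ hφ' hg hg' ht hbig
  obtain ⟨N, hN⟩ := law_exists G s u A hW1 hR1 hK
  set w := G.sw W1 R P τ s A with hw
  -- the functions of the states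
  set b : ℕ → (Fin P → Fin R × Fin (G.q ^ G.W)) → ℂ := fun v σ =>
    β (G.p * (G.q ^ K * u + N v σ) + s) * β' (G.r * (G.q ^ K * u + N v σ) + s) with hb
  set ph : ℕ → (Fin P → Fin R × Fin (G.q ^ G.W)) → ZMod M := fun v σ =>
    φ (G.p * (G.q ^ K * u + N v σ) + s) + φ' (G.r * (G.q ^ K * u + N v σ) + s) with hph
  set gg : ℕ → (Fin P → Fin R × Fin (G.q ^ G.W)) → ℝ := fun v σ =>
    g1 (G.p * (G.q ^ K * u + N v σ) + s) + g1' (G.r * (G.q ^ K * u + N v σ) + s) with hgg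
  set PP : ℕ → (Fin P → Fin R × Fin (G.q ^ G.W)) → UnitAddCircle := fun v σ =>
    FP G.q (G.q * G.T) L t (G.p * (G.q ^ K * u + N v σ) + s) +
      ε • FP G.q (G.q * G.T) L t (G.r * (G.q ^ K * u + N v σ) + s) with hPP
  have hbn : ∀ v σ, ‖b v σ‖ ≤ 1 := by
    intro v σ
    simp only [hb]
    rw [norm_mul]
    exact mul_le_one₀ (hβ _) (norm_nonneg _) (hβ' _)
  have hbf : ∀ v (x : Fin P → Bool) σ, b v (w.flp x σ) = b v σ := by
    intro v x σ
    simp only [hb]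
    rw [cell_frozen G hW1 hN hdβ hI (Or.inl rfl) v x σ, cell_frozen G hW1 hN hdβ' hI (Or.inr rfl) v x σ]
  -- the sum over the block
  have hsum : (∑ v ∈ range (G.q ^ K),
        (β (G.p * (G.q ^ K * u + v) + s) * β' (G.r * (G.q ^ K * u + v) + s)) *
        ee (φ (G.p * (G.q ^ K * u + v) + s) + φ' (G.r * (G.q ^ K * u + v) + s)) *
        et ((g1 (G.p * (G.q ^ K * u + v) + s) + g1' (G.r * (G.q ^ K * u + v) + s) : ℝ)) *
        et (FP G.q (G.q * G.T) L t (G.p * (G.q ^ K * u + v) + s) +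
          ε • FP G.q (G.q * G.T) L t (G.r * (G.q ^ K * u + v) + s))) =
      ∑ v ∈ range (G.q ^ K), av fun σ => b v σ * ee (ph v σ) * et (gg v σ : ℝ) * et (PP v σ) :=
    (hN.2.1 fun v =>
      (β (G.p * (G.q ^ K * u + v) + s) * β' (G.r * (G.q ^ K * u + v) + s)) *
        ee (φ (G.p * (G.q ^ K * u + v) + s) + φ' (G.r * (G.q ^ K * u + v) + s)) *
        et ((g1 (G.p * (G.q ^ K * u + v) + s) + g1' (G.r * (G.q ^ K * u + v) + s) : ℝ)) *
        et (FP G.q (G.q * G.T) L t (G.p * (G.q ^ K * u + v) + s) +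
          ε • FP G.q (G.q * G.T) L t (G.r * (G.q ^ K * u + v) + s))).symm
  rw [hsum] at hbig
  set X : ℕ → ℝ := fun v => ave fun σ => ∑ k : Fin P,
    (gg v (w.flp (fun k' => decide (k' = k)) σ) - gg v σ) ^ 2 with hX
  have hX0 : ∀ v, 0 ≤ X v := fun v =>
    cdave_nonneg fun σ => Finset.sum_nonneg fun k _ => sq_nonneg _
  set Y : ℕ → ℝ := fun v => ave (fun σ => ‖av fun x : Fin P → Bool =>
    ee (ph v (w.flp x σ)) * et (PP v (w.flp x σ))‖) with hY
  have h1 : δ * (G.q : ℝ) ^ K ≤ ∑ v ∈ range (G.q ^ K), (Y v + 4 * Real.sqrt (X v)) := by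
    refine hbig.trans ((norm_sum_le _ _).trans (Finset.sum_le_sum fun v _ => ?_))
    exact gamma w (b v) (ph v) (gg v) (PP v) (hbn v) (hbf v)
  -- the variation
  have h2 : ∑ v ∈ range (G.q ^ K), X v ≤ 4 * (c1 * C / R) * (G.q : ℝ) ^ K := by
    have e1 := hvar R P τ s K u L A N hRO hK hL hN C g1 hg G.p (Or.inl rfl)
    have e2 := hvar R P τ s K u L A N hRO hK hL hN C g1' hg' G.r (Or.inr rfl)
    have e3 : ∀ v, X v ≤ 2 * ave (fun σ => ∑ k : Fin P,
          (g1 (G.p * (G.q ^ K * u + N v (w.flp (fun k' => decide (k' = k)) σ)) + s) -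
            g1 (G.p * (G.q ^ K * u + N v σ) + s)) ^ 2) +
        2 * ave (fun σ => ∑ k : Fin P,
          (g1' (G.r * (G.q ^ K * u + N v (w.flp (fun k' => decide (k' = k)) σ)) + s) -
            g1' (G.r * (G.q ^ K * u + N v σ) + s)) ^ 2) := by
      intro v
      rw [← cdave_mul, ← cdave_mul, ← cdave_add]
      refine cdave_mono fun σ => ?_
      rw [Finset.mul_sum, Finset.mul_sum, ← Finset.sum_add_distrib]
      refine Finset.sum_le_sum fun k _ => ?_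
      simp only [hgg]
      have key : ∀ a a' b b' : ℝ, (a + b - (a' + b')) ^ 2 ≤ 2 * (a - a') ^ 2 + 2 * (b - b') ^ 2 := by
        intro a a' b b'
        nlinarith [sq_nonneg ((a - a') - (b - b'))]
      exact key _ _ _ _
    calc ∑ v ∈ range (G.q ^ K), X v ≤ _ := Finset.sum_le_sum fun v _ => e3 v
      _ ≤ _ := by
        rw [Finset.sum_add_distrib, ← Finset.mul_sum, ← Finset.mul_sum]
        linarith
  have h3 : ∑ v ∈ range (G.q ^ K), 4 * Real.sqrt (X v) ≤ δ / 2 * (G.q : ℝ) ^ K := by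
    rw [← Finset.mul_sum]
    have e1 := cd_sqrt_sum (n := G.q ^ K) X hX0
    have e2 : Real.sqrt (((G.q ^ K : ℕ) : ℝ) * ∑ v ∈ range (G.q ^ K), X v) ≤
        δ / 8 * (G.q : ℝ) ^ K := by
      refine Real.sqrt_le_iff.2 ⟨by positivity, ?_⟩
      have e3 : (((G.q ^ K : ℕ) : ℝ)) * ∑ v ∈ range (G.q ^ K), X v ≤
          (G.q : ℝ) ^ K * (4 * (c1 * C / R) * (G.q : ℝ) ^ K) := by
        push_cast
        exact mul_le_mul_of_nonneg_left h2 (by positivity)
      refine e3.trans ?_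
      have e4 : 256 * (c1 * C / R) ≤ δ ^ 2 := by
        rw [div_le_iff₀ (by positivity)] at hRR
        rw [mul_div_assoc', div_le_iff₀ hRpos]
        linarith
      have e5 : (0 : ℝ) ≤ (G.q : ℝ) ^ K * (G.q : ℝ) ^ K := by positivity
      nlinarith
    linarith
  have h4 : δ / 2 * (G.q : ℝ) ^ K ≤ ∑ v ∈ range (G.q ^ K), Y v := by
    rw [Finset.sum_add_distrib] at h1
    linarith
  obtain ⟨v, -, hv⟩ : ∃ v ∈ range (G.q ^ K), δ / 2 ≤ Y v := by
    by_contra hcon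
    push Not at hcon
    have h5 : ∑ v ∈ range (G.q ^ K), Y v < ∑ v ∈ range (G.q ^ K), δ / 2 :=
      Finset.sum_lt_sum_of_nonempty ⟨0, mem_range.2 (Nat.pow_pos hq0)⟩ hcon
    rw [Finset.sum_const, card_range, nsmul_eq_mul] at h5
    push_cast at h5
    linarith
  obtain ⟨tφ, htφ, hφe⟩ := hφ
  obtain ⟨tφ', htφ', hφe'⟩ := hφ'
  have hdeg : w.Deg d (ph v) := by
    have e1 := Sw.Deg.add (cell_deg G hW1 hN tφ htφ (Or.inl rfl) v)
      (cell_deg G hW1 hN tφ' htφ' (Or.inr rfl) v)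
    refine (iff_of_eq (congrArg (w.Deg d) ?_)).2 e1
    funext σ
    simp only [hph, hφe, hφe']
  have hdegP : w.Deg d' (PP v) :=
    Sw.Deg.add (cell_deg G hW1 hN t ht (Or.inl rfl) v)
      (Sw.Deg.zsmul (cell_deg G hW1 hN t ht (Or.inr rfl) v) ε)
  exact hait (Fin P) (Fin R × Fin (G.q ^ G.W)) (Fin (G.O W1) × Fin G.H) w A
    (fun k hk θ => lab_pr G hRO hk θ) (ph v) (PP v)
    (fun x => G.form L s ε t fun i => G.pl W1 τ (x i).1 (x i).2) hdeg hdegP
    (cell_top G hW1 hN hd' t ht ε v) hv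

end Pool.Agent.Lib.MP_3e612f_nt.RD
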