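import Pool.Agent.Lib.MP_3e612f_nt.RD.Defs
import Pool.Agent.Lib.MP_3e612f_nt.EM.Near
import Pool.Agent.Lib.MP_3e612f_nt.EM.Cube
import Pool.Agent.Lib.MP_3e612f_nt.LO.D.Defs

/-!
# Real digit polynomials: the classes of functions and the gadgets

`Infl q L C g`: the real function `g` of the digits below `L` has total influence at most `C`.
`Rc q d d' D M B C L F`: `F = β * ee φ * et g * et h`, `β` frozen on at most `B` positions, `φ` a phase of
degree `≤ d` with values in `ZMod M`, `g` a real function of influence at most `C`, `h` a phase of degree `≤ d'` with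
values in `ℝ/ℤ`; windows of length `D + 1` (level `q ^ D`).
-/

set_option autoImplicit false

namespace Pool.Agent.Lib.MP_3e612f_nt.RD

open Finset
open Pool.Agent.Lib.MP_3e612f_nt.PI (ee mc)
open Pool.Agent.Lib.MP_3e612f_nt.DI (av pr mlt)
open Pool.Agent.Lib.MP_3e612f_nt.EM

/-- the number `m` without its digit at `i` -/
def zd (q i m : ℕ) : ℕ := m - m / q ^ i % q * q ^ i

/-- `g` depends on the digits below `L` and its total influence is at most `C` -/
def Infl (q L : ℕ) (C : ℝ) (g : ℕ → ℝ) : Prop :=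
  (∀ m, g (m % q ^ L) = g m) ∧
    ∑ i ∈ range L, ∑ m ∈ range (q ^ L), (g m - g (zd q i m)) ^ 2 ≤ C * (q : ℝ) ^ L

/-- the class of functions -/
def Rc (q d d' D M B : ℕ) [NeZero M] (C : ℝ) (L : ℕ) (F : ℕ → ℂ) : Prop :=
  ∃ (I : Finset ℕ) (β : ℕ → ℂ) (φ : ℕ → ZMod M) (g : ℕ → ℝ) (h : ℕ → UnitAddCircle),
    I.card ≤ B ∧ (∀ n, ‖β n‖ ≤ 1) ∧ DepL q (q * q ^ D) I β ∧ IsPL q (q * q ^ D) d L φ ∧
    Infl q L C g ∧ IsPL q (q * q ^ D) d' L h ∧ ∀ n, F n = β n * ee (φ n) * et (g n : ℝ) * et (h n)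

/-- orthogonality for the class -/
def RO (q d d' : ℕ) : Prop :=
  ∀ (D M B w0 : ℕ) [NeZero M] (C : ℝ), 0 ≤ C → ∀ ε : ℝ, 0 < ε → ∃ N0 : ℕ, ∀ N ≥ N0,
    ∀ K1 L s : ℕ, N ≤ q ^ K1 → q ^ K1 ≤ q * N → L ≤ K1 + w0 → ∀ F : ℕ → ℂ,
      Rc q d d' D M B C L F → ‖∑ n ∈ Icc 1 N, mc n * F (n + s)‖ ≤ ε * N

/-! ### Elementary properties -/

theorem et_add (x y : UnitAddCircle) : et (x + y) = et x * et y := by
  unfold et
  rw [AddCircle.toCircle_add]
  simp

theorem et_zero : et 0 = 1 := by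
  unfold et
  simp

theorem norm_et (x : UnitAddCircle) : ‖et x‖ = 1 := by
  unfold et
  simp

theorem et_neg (x : UnitAddCircle) : et (-x) = (starRingEnd ℂ) (et x) := by
  unfold et
  rw [AddCircle.toCircle_neg, Circle.coe_inv_eq_conj]

theorem Infl.add {q L : ℕ} {C C' : ℝ} {g g' : ℕ → ℝ} (h : Infl q L C g) (h' : Infl q L C' g') :
    Infl q L (2 * (C + C')) fun m => g m + g' m := by
  refine ⟨fun m => by simp only [h.1 m, h'.1 m], ?_⟩
  have h1 : ∀ i m, (g m + g' m - (g (zd q i m) + g' (zd q i m))) ^ 2 ≤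
      2 * (g m - g (zd q i m)) ^ 2 + 2 * (g' m - g' (zd q i m)) ^ 2 := by
    intro i m
    nlinarith [sq_nonneg ((g m - g (zd q i m)) - (g' m - g' (zd q i m)))]
  refine (Finset.sum_le_sum fun i _ => Finset.sum_le_sum fun m _ => h1 i m).trans ?_
  simp only [Finset.sum_add_distrib, ← Finset.mul_sum]
  have := h.2
  have := h'.2
  linarith

theorem Infl.neg {q L : ℕ} {C : ℝ} {g : ℕ → ℝ} (h : Infl q L C g) :
    Infl q L C fun m => - g m := by
  refine ⟨fun m => by simp only [h.1 m], ?_⟩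
  refine le_trans (le_of_eq ?_) h.2
  refine Finset.sum_congr rfl fun i _ => Finset.sum_congr rfl fun m _ => ?_
  ring

theorem Infl.mono {q L : ℕ} {C C' : ℝ} {g : ℕ → ℝ} (h : Infl q L C g) (hC : C ≤ C') :
    Infl q L C' g :=
  ⟨h.1, h.2.trans (mul_le_mul_of_nonneg_right hC (by positivity))⟩

theorem infl_zero {q L : ℕ} : Infl q L 0 fun _ => 0 := by
  refine ⟨fun _ => rfl, ?_⟩
  simp

section
variable {q d d' D M B : ℕ} [NeZero M] {C : ℝ} {L : ℕ} {F : ℕ → ℂ}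

theorem Rc.norm (h : Rc q d d' D M B C L F) (n : ℕ) : ‖F n‖ ≤ 1 := by
  obtain ⟨I, β, φ, g, h, -, hβ, -, -, -, -, hF⟩ := h
  rw [hF n, norm_mul, norm_mul, norm_mul, PI.Kat_norm_ee, norm_et, norm_et, mul_one, mul_one,
    mul_one]
  exact hβ n

theorem Rc.conj (h : Rc q d d' D M B C L F) :
    Rc q d d' D M B C L fun n => (starRingEnd ℂ) (F n) := by
  obtain ⟨I, β, φ, g, h, hI, hβ, hdep, hφ, hg, hh, hF⟩ := h
  refine ⟨I, fun n => (starRingEnd ℂ) (β n), fun n => - φ n, fun n => - g n, fun n => - h n, hI,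
    fun n => ?_, fun n n' hn => ?_, hφ.neg, hg.neg, hh.neg, fun n => ?_⟩
  · rw [RCLike.norm_conj]
    exact hβ n
  · simp only [hdep n n' hn]
  · simp only [hF n, map_mul, PI.Kat_ee_neg, et_neg]
    rw [← et_neg (g n : UnitAddCircle)]
    rfl

end

/-! ### Gadgets -/

/-- the parameters of the gadgets: `p`, `r` distinct primes, prime to `q`; level `T = q ^ D` -/
structure GP where
  /-- the base -/
  q : ℕ
  /-- the level -/
  D : ℕ
  /-- the guard -/
  g : ℕ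
  /-- the length of a block -/
  l : ℕ
  /-- the number of labels -/
  H : ℕ
  /-- the first prime -/
  p : ℕ
  /-- the second prime -/
  r : ℕ
  /-- the guard content -/
  z0 : ℕ → ℕ → ℕ
  /-- the first content -/
  x0 : ℕ → ℕ → ℕ
  hq : 2 ≤ q
  hp : p.Prime
  hr : r.Prime
  hpr : p ≠ r
  hpq : p.Coprime q
  hrq : r.Coprime q
  hH : 0 < H
  hG : GadT q (q ^ D) g l H p r z0 x0

namespace GP
variable (G : GP)

/-- the level -/
abbrev T : ℕ := G.q ^ G.D

/-- the length of the window of a gadget, with the state above it -/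
abbrev W : ℕ := G.g + G.l + G.D

/-- the first content of the gadget `o`; the second is `z s o + T * q ^ g` -/
def z (s : ℕ) (o : ℕ × ℕ) : ℕ := zT G.q G.T G.g G.l G.z0 G.x0 s s o

/-- the change of the letters of `t * n + s` when the gadget `o` is switched on -/
def v (L s t : ℕ) (o : ℕ × ℕ) (x : Lt (G.q * G.T) L) : ℤ :=
  gv G.q G.T G.g G.l L G.z0 G.x0 s s s t o x

/-- the top form of `h (p n + s) + ε • h (r n + s)` at the gadgets `o i` -/
def form {d : ℕ} (L s : ℕ) (ε : ℤ) (t : Finset (Lt (G.q * G.T) L) → UnitAddCircle)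
    (o : Fin d → ℕ × ℕ) : UnitAddCircle :=
  mlt t (fun j x => G.v L s G.p (o j) x) + ε • mlt t fun j x => G.v L s G.r (o j) x

/-- the number of the offsets in a cell of length `W1` -/
abbrev O (W1 : ℕ) : ℕ := W1 - G.W + 1

/-- the gadget chosen by `ω` in the cell `k` of length `W1` (cells start at `τ`); the default has the offset
and the label `0` -/
def po (W1 R P τ : ℕ) (k : Fin P) (ω : Fin R) : ℕ × ℕ :=
  if h : (ω : ℕ) < G.O W1 * G.H then
    (τ + k * W1 + (finProdFinEquiv.symm (⟨ω, h⟩ : Fin (G.O W1 * G.H))).1,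
      (finProdFinEquiv.symm (⟨ω, h⟩ : Fin (G.O W1 * G.H))).2)
  else (τ + k * W1, 0)

/-- the gadget of the cell `k` with the label `θ` -/
def pl (W1 τ : ℕ) {P : ℕ} (k : Fin P) (θ : Fin (G.O W1) × Fin G.H) : ℕ × ℕ :=
  (τ + k * W1 + θ.1, θ.2)

theorem z_lt (s : ℕ) {o : ℕ × ℕ} (ho : o.2 < G.H) :
    G.z s o + G.T * G.q ^ G.g < G.q ^ G.W := by
  refine lt_of_lt_of_le (zT_lt G.hG s s ho) (Nat.pow_le_pow_right ?_ ?_)
  · have := G.hq
    omega
  · show G.g + G.l ≤ G.g + G.l + G.D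
    omega

theorem po_lt (W1 R P τ : ℕ) (k : Fin P) (ω : Fin R) : (G.po W1 R P τ k ω).2 < G.H := by
  unfold po
  split_ifs with h
  · exact (finProdFinEquiv.symm (⟨ω, h⟩ : Fin (G.O W1 * G.H))).2.2
  · exact G.hH

theorem T_pos : 0 < G.T := Nat.pow_pos (by have := G.hq; omega)

theorem step_pos : 0 < G.T * G.q ^ G.g :=
  Nat.mul_pos G.T_pos (Nat.pow_pos (by have := G.hq; omega))

theorem z_lt0 (s : ℕ) {o : ℕ × ℕ} (ho : o.2 < G.H) : G.z s o < G.q ^ G.W :=
  lt_of_le_of_lt (Nat.le_add_right _ _) (G.z_lt s ho)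

/-- the content is one of the two contents of the gadget -/
def two (W1 R P τ s : ℕ) (k : Fin P) (x : Fin R × Fin (G.q ^ G.W)) : Prop :=
  (x.2 : ℕ) = G.z s (G.po W1 R P τ k x.1) ∨
    (x.2 : ℕ) = G.z s (G.po W1 R P τ k x.1) + G.T * G.q ^ G.g

instance (W1 R P τ s : ℕ) (k : Fin P) (x : Fin R × Fin (G.q ^ G.W)) :
    Decidable (G.two W1 R P τ s k x) := by
  unfold two
  infer_instance

/-- the label of a state of the cell `k` -/
def lb (W1 R P τ s : ℕ) (A : Finset (Fin P)) (k : Fin P) (x : Fin R × Fin (G.q ^ G.W)) :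
    Option (Fin (G.O W1) × Fin G.H) :=
  if h : (x.1 : ℕ) < G.O W1 * G.H then
    (if k ∈ A ∧ G.two W1 R P τ s k x then
      some (finProdFinEquiv.symm (⟨x.1, h⟩ : Fin (G.O W1 * G.H))) else none)
  else none

/-- the other content -/
def oth (W1 R P τ s : ℕ) (k : Fin P) (x : Fin R × Fin (G.q ^ G.W)) : Fin (G.q ^ G.W) :=
  if (x.2 : ℕ) = G.z s (G.po W1 R P τ k x.1) then
    ⟨G.z s (G.po W1 R P τ k x.1) + G.T * G.q ^ G.g, G.z_lt s (G.po_lt W1 R P τ k x.1)⟩
  else ⟨G.z s (G.po W1 R P τ k x.1), G.z_lt0 s (G.po_lt W1 R P τ k x.1)⟩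

variable {W1 R P τ s : ℕ} {A : Finset (Fin P)} {k : Fin P}

theorem z_ne (s : ℕ) (o : ℕ × ℕ) : G.z s o + G.T * G.q ^ G.g ≠ G.z s o :=
  (Nat.lt_add_of_pos_right G.step_pos).ne'

theorem two_oth (x : Fin R × Fin (G.q ^ G.W)) :
    G.two W1 R P τ s k (x.1, G.oth W1 R P τ s k x) := by
  unfold two oth
  by_cases h : (x.2 : ℕ) = G.z s (G.po W1 R P τ k x.1)
  · right
    simp only [h, if_true]
  · left
    simp only [h, if_false]

theorem oth_oth {x : Fin R × Fin (G.q ^ G.W)} (h : G.two W1 R P τ s k x) :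
    G.oth W1 R P τ s k (x.1, G.oth W1 R P τ s k x) = x.2 := by
  rcases h with h | h
  · have h1 : G.oth W1 R P τ s k x = ⟨G.z s (G.po W1 R P τ k x.1) + G.T * G.q ^ G.g,
        G.z_lt s (G.po_lt W1 R P τ k x.1)⟩ := if_pos h
    rw [h1]
    unfold oth
    rw [if_neg (G.z_ne s (G.po W1 R P τ k x.1))]
    exact Fin.ext h.symm
  · have h1 : G.oth W1 R P τ s k x = ⟨G.z s (G.po W1 R P τ k x.1),
        G.z_lt0 s (G.po_lt W1 R P τ k x.1)⟩ := if_neg (by rw [h]; exact G.z_ne s _)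
    rw [h1]
    unfold oth
    rw [if_pos rfl]
    exact Fin.ext h.symm

theorem lb_some {x : Fin R × Fin (G.q ^ G.W)} (h : G.lb W1 R P τ s A k x ≠ none) :
    (x.1 : ℕ) < G.O W1 * G.H ∧ k ∈ A ∧ G.two W1 R P τ s k x := by
  unfold lb at h
  split_ifs at h with h1 h2
  · exact ⟨h1, h2.1, h2.2⟩
  · exact absurd rfl h
  · exact absurd rfl h

theorem lb_oth {x : Fin R × Fin (G.q ^ G.W)} (h : G.lb W1 R P τ s A k x ≠ none) :
    G.lb W1 R P τ s A k (x.1, G.oth W1 R P τ s k x) = G.lb W1 R P τ s A k x := by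
  obtain ⟨h1, h2, h3⟩ := G.lb_some h
  unfold lb
  rw [dif_pos h1, dif_pos h1, if_pos ⟨h2, G.two_oth x⟩, if_pos ⟨h2, h3⟩]

variable (W1 R P τ s A) in
/-- the switches of the cells `k ∈ A`; a state is a pair (choice of the gadget, content of its window) -/
def sw : Sw (Fin P) (Fin R × Fin (G.q ^ G.W)) (Fin (G.O W1) × Fin G.H) where
  lab k x := G.lb W1 R P τ s A k x
  flip k x := if G.lb W1 R P τ s A k x = none then x else (x.1, G.oth W1 R P τ s k x)
  sg k x := if (x.2 : ℕ) = G.z s (G.po W1 R P τ k x.1) then -1 else 1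
  flip_flip k x := by
    by_cases h : G.lb W1 R P τ s A k x = none
    · rw [if_pos h, if_pos h]
    · rw [if_neg h, if_neg (by rw [G.lb_oth h]; exact h), G.oth_oth (G.lb_some h).2.2]
  lab_flip k x := by
    by_cases h : G.lb W1 R P τ s A k x = none
    · rw [if_pos h]
    · rw [if_neg h, G.lb_oth h]
  flip_none k x h := if_pos h
  sg_flip k x h := by
    rw [if_neg h]
    rcases (G.lb_some h).2.2 with h1 | h1
    · have h2 : G.oth W1 R P τ s k x = ⟨G.z s (G.po W1 R P τ k x.1) + G.T * G.q ^ G.g,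
          G.z_lt s (G.po_lt W1 R P τ k x.1)⟩ := if_pos h1
      rw [h2, if_pos h1, if_neg (G.z_ne s (G.po W1 R P τ k x.1)), neg_neg]
    · have h2 : G.oth W1 R P τ s k x = ⟨G.z s (G.po W1 R P τ k x.1),
          G.z_lt0 s (G.po_lt W1 R P τ k x.1)⟩ := if_neg (by rw [h1]; exact G.z_ne s _)
      rw [h2, if_pos rfl, if_neg (by rw [h1]; exact G.z_ne s _)]
  sg_one k x _ := by
    by_cases h : (x.2 : ℕ) = G.z s (G.po W1 R P τ k x.1)
    · rw [if_pos h]
      exact Or.inr rfl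
    · rw [if_neg h]
      exact Or.inl rfl

/-- the gadget is switched on -/
def bt (W1 R P τ s : ℕ) (k : Fin P) (x : Fin R × Fin (G.q ^ G.W)) : Bool :=
  decide ((x.2 : ℕ) ≠ G.z s (G.po W1 R P τ k x.1))

end GP

/-- `N` is a family of numbers, one for every `v` and every vector of states, with the law of the uniform
distribution on `[0, q ^ K)` (also for every fixed choice of the gadgets); switching a labelled cell adds or
subtracts `T * q ^ (a + g)` -/
def Law (G : GP) (W1 R P τ s K u : ℕ) (A : Finset (Fin P))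
    (N : ℕ → (Fin P → Fin R × Fin (G.q ^ G.W)) → ℕ) : Prop :=
  (∀ Ψ : (Fin P → Fin R) → ℕ → ℝ, ∑ v ∈ range (G.q ^ K), ave (fun σ =>
      Ψ (fun k => (σ k).1) (N v σ)) = ∑ v ∈ range (G.q ^ K), ave fun ω => Ψ ω v) ∧
  (∀ Ψ : ℕ → ℂ, ∑ v ∈ range (G.q ^ K), av (fun σ => Ψ (N v σ)) = ∑ v ∈ range (G.q ^ K), Ψ v) ∧
  ∀ v σ, ∃ n0 : ℕ, (∀ k ∈ (G.sw W1 R P τ s A).act σ,
      n0 / G.q ^ (G.po W1 R P τ k (σ k).1).1 % (G.q ^ (G.g + G.l) * G.T) =
        G.z s (G.po W1 R P τ k (σ k).1)) ∧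
    ∀ w : Fin P → Bool, G.q ^ K * u + N v ((G.sw W1 R P τ s A).flp w σ) =
      n0 + ∑ k ∈ (G.sw W1 R P τ s A).act σ,
        (if xor (G.bt W1 R P τ s k (σ k)) (w k) = true then 1 else 0) *
          (G.T * G.q ^ ((G.po W1 R P τ k (σ k).1).1 + G.g))

end Pool.Agent.Lib.MP_3e612f_nt.RD
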