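import Pool.Agent.Lib.MP_3e612f_nt.RD.CellD
import Pool.Agent.Lib.MP_3e612f_nt.RD.Let
import Pool.Agent.Lib.MP_3e612f_nt.PI.Blk
import Pool.Agent.Lib.MP_3e612f_nt.PI.ExK

/-!
A large pair correlation gives the structure of the top coefficients.

PROOF. `G, b, κ` from `exists_GP`; `W1 = d' W + 1`. `PI.exists_K` for `δ / 8`: `w, N1`; `K` with `q ^ K ≤ δ / 8 * N`,
`K1 ≤ K + w`, so `L ≤ K + (w + w0)`. `gad_bound` for `δ / 4`, `w1 = w + w0` gives `M', B', C'`, then `let_bound` for `2 B` gives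
`M3, B3, C3`. If a correlation over `[1, N']`, `N' ≤ N`, is larger than `δ N`, then by `PI.block_sum` (`τ = δ / 4`) there is a `u` for
which the sum over the block `q ^ K u + [0, q ^ K)` has norm `> δ / 4 * q ^ K`. For the product with `F` (`ε = 1`): `β' = β`,
`φ' = φ`, `g1' = g1`; for the product with `conj F` (`ε = -1`): `β' = conj β`, `φ' = - φ`, `g1' = - g1`. For every
`τ < W1` and `A` apply `gad_bound` with `P = (K - τ) / W1` (`N` large, so `τ ≤ K`), `I`.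
-/

set_option autoImplicit false

namespace Pool.Agent.Lib.MP_3e612f_nt.RD

open Finset
open Pool.Agent.Lib.MP_3e612f_nt.PI (ee mc)
open Pool.Agent.Lib.MP_3e612f_nt.DI (av pr mlt)
open Pool.Agent.Lib.MP_3e612f_nt.EM

/-- a large sum over `[1, N']` gives a large sum over a block -/
private theorem corr_block {H : ℕ → ℂ} (hH : ∀ n, ‖H n‖ ≤ 1) {q K N N' : ℕ} (hq : 1 ≤ q) {δ : ℝ}
    (hδ : 0 < δ) (hN : 1 ≤ N) (hN' : N' ≤ N) (hK : (q : ℝ) ^ K ≤ δ / 8 * N)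
    (h : δ * N < ‖∑ n ∈ Icc 1 N', H n‖) :
    ∃ u : ℕ, δ / 4 * (q : ℝ) ^ K ≤ ‖∑ v ∈ range (q ^ K), H (q ^ K * u + v)‖ := by
  by_contra hc
  push Not at hc
  have hQ : 1 ≤ q ^ K := Nat.one_le_pow _ _ hq
  have h1 := PI.block_sum H hH hQ (τ := δ / 4) (by positivity)
    (fun u => by
      have := (hc u).le
      push_cast
      linarith) N'
  have h2 : (N' : ℝ) ≤ N := by exact_mod_cast hN'
  have h3 : (1 : ℝ) ≤ N := by exact_mod_cast hN
  push_cast at h1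
  nlinarith [h1, h, hK, h2, h3]

/-- **a large pair correlation gives the structure of the top coefficients** -/
theorem corr_struct {q : ℕ} (hq : 2 ≤ q) (d : ℕ) {d' : ℕ} (hd' : 1 ≤ d') (D M B w0 : ℕ) [NeZero M]
    {C : ℝ} (hC : 0 ≤ C) {p r : ℕ} (hp : p.Prime) (hr : r.Prime) (hpr : p ≠ r) (hpq : p.Coprime q)
    (hrq : r.Coprime q) {δ : ℝ} (hδ : 0 < δ) :
    ∃ (W M3 B3 N0 : ℕ) (C3 : ℝ), D < W ∧ 1 ≤ M3 ∧ 0 ≤ C3 ∧
    ∀ N ≥ N0, ∀ K1 L : ℕ, N ≤ q ^ K1 → q ^ K1 ≤ q * N → L ≤ K1 + w0 →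
    ∀ (I : Finset ℕ) (β : ℕ → ℂ) (φ : ℕ → ZMod M) (g : ℕ → ℝ)
      (t : Finset (Lt (q * q ^ D) L) → UnitAddCircle),
      I.card ≤ B → (∀ n, ‖β n‖ ≤ 1) → DepL q (q * q ^ D) I β → IsPL q (q * q ^ D) d L φ →
      Infl q L C g → (∀ S, d' < S.card → t S = 0) →
    ∀ F : ℕ → ℂ, (∀ n, F n = β n * ee (φ n) * et (g n : ℝ) * et (FP q (q * q ^ D) L t n)) →
      (∀ s : ℕ, ∀ N' ≤ N, ‖∑ n ∈ Icc 1 N', F (p * n + s) * F (r * n + s)‖ ≤ δ * N ∧
        ‖∑ n ∈ Icc 1 N', F (p * n + s) * (starRingEnd ℂ) (F (r * n + s))‖ ≤ δ * N) ∨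
      TopS q D L d' W M3 B3 C3 t := by
  obtain ⟨G, b, κ, hGq, hGD, hGp, hGr, hb1, hb2, hb3, hκ, hκ2, hH, hH2, hl⟩ :=
    exists_GP hq hp hr hpr hpq hrq D
  subst hGq hGD hGp hGr
  obtain ⟨w, N1, hN1⟩ := PI.exists_K G.q hq (δ := δ / 8) (by positivity)
  have hWd : G.W ≤ d' * G.W := Nat.le_mul_of_pos_left _ hd'
  have hWle : G.W ≤ d' * G.W + 1 := hWd.trans (Nat.le_succ _)
  obtain ⟨M', B', C', hM', hC', hgad⟩ := gad_bound G (W1 := d' * G.W + 1) hWle d hd' M (w + w0)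
    (C := C) (δ := δ / 4) hC (by positivity)
  obtain ⟨M3, B3, C3, hM3, hC3, hlet⟩ := let_bound G hb1 hb2 hb3 hκ hκ2 hH hH2 hl hd' B (w + w0)
    M' B' C' hM' hC'
  refine ⟨d' * G.W + 1, M3, B3, max (max N1 1) (G.q ^ (d' * G.W + 1 + w)), C3, ?_, hM3, hC3, ?_⟩
  · have h1 : G.D ≤ G.W := by
      show G.D ≤ G.g + G.l + G.D
      omega
    exact Nat.lt_succ_of_le (h1.trans hWd)
  intro N hN K1 L hK1 hK1' hL I β φ g t hI hβ hdep hφ hg ht F hF
  have hNN1 : N1 ≤ N := ((le_max_left _ _).trans (le_max_left _ _)).trans hN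
  have hN1' : 1 ≤ N := ((le_max_right _ _).trans (le_max_left _ _)).trans hN
  have hNq : G.q ^ (d' * G.W + 1 + w) ≤ N := (le_max_right _ _).trans hN
  obtain ⟨K, hK, hK1w⟩ := hN1 N hNN1 K1 hK1'
  have hKW : d' * G.W + 1 ≤ K := by
    have h1 : G.q ^ (d' * G.W + 1 + w) ≤ G.q ^ K1 := hNq.trans hK1
    have h2 := (Nat.pow_le_pow_iff_right (by omega : 1 < G.q)).1 h1
    omega
  have hLK : L ≤ K + (w + w0) := by omega
  -- one sign
  have main : ∀ (ε : ℤ) (β' : ℕ → ℂ) (φ' : ℕ → ZMod M) (g' : ℕ → ℝ), ε = 1 ∨ ε = -1 →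
      (∀ n, ‖β' n‖ ≤ 1) → DepL G.q (G.q * G.q ^ G.D) I β' →
      IsPL G.q (G.q * G.q ^ G.D) d L φ' → Infl G.q L C g' →
      ∀ (s N' : ℕ), N' ≤ N →
      δ * N < ‖∑ n ∈ Icc 1 N', F (G.p * n + s) * (β' (G.r * n + s) * ee (φ' (G.r * n + s)) *
        et (g' (G.r * n + s) : ℝ) * et (ε • FP G.q (G.q * G.q ^ G.D) L t (G.r * n + s)))‖ →
      TopS G.q G.D L d' (d' * G.W + 1) M3 B3 C3 t := by
    intro ε β' φ' g' hε hβ' hdep' hφ' hg' s N' hN' hbig
    have hn1 : ∀ n, ‖F n‖ ≤ 1 := by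
      intro n
      rw [hF n, norm_mul, norm_mul, norm_mul, PI.Kat_norm_ee, norm_et, norm_et, mul_one, mul_one,
        mul_one]
      exact hβ n
    have hn2 : ∀ n, ‖β' n * ee (φ' n) * et (g' n : ℝ) *
        et (ε • FP G.q (G.q * G.q ^ G.D) L t n)‖ ≤ 1 := by
      intro n
      rw [norm_mul, norm_mul, norm_mul, PI.Kat_norm_ee, norm_et, norm_et, mul_one, mul_one,
        mul_one]
      exact hβ' n
    obtain ⟨u, hu⟩ := corr_block (H := fun n => F (G.p * n + s) * (β' (G.r * n + s) *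
        ee (φ' (G.r * n + s)) * et (g' (G.r * n + s) : ℝ) *
        et (ε • FP G.q (G.q * G.q ^ G.D) L t (G.r * n + s))))
      (fun n => by
        rw [norm_mul]
        exact mul_le_one₀ (hn1 _) (norm_nonneg _) (hn2 _)) (by omega) hδ hN1' hN' hK hbig
    refine hlet K L s ε t I hε hLK hI ?_
    intro τ hτ P hP A hA
    have hPK : τ + P * (d' * G.W + 1) ≤ K := by
      have h1 : P * (d' * G.W + 1) ≤ K - τ := by
        rw [hP]
        exact Nat.div_mul_le_self _ _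
      omega
    refine hgad P τ s K u L A hPK hLK I β β' φ φ' g g' t ε hA hβ hβ' hdep hdep' hφ hφ' hg hg' ht ?_
    refine hu.trans (le_of_eq ?_)
    congr 1
    refine Finset.sum_congr rfl fun v _ => ?_
    rw [hF, PI.Kat_ee_add, AddCircle.coe_add, et_add, et_add]
    ring
  by_cases hs : ∀ s : ℕ, ∀ N' ≤ N, ‖∑ n ∈ Icc 1 N', F (G.p * n + s) * F (G.r * n + s)‖ ≤ δ * N ∧
        ‖∑ n ∈ Icc 1 N', F (G.p * n + s) * (starRingEnd ℂ) (F (G.r * n + s))‖ ≤ δ * N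
  · exact Or.inl hs
  · right
    push Not at hs
    obtain ⟨s, N', hN', hs⟩ := hs
    by_cases h1 : ‖∑ n ∈ Icc 1 N', F (G.p * n + s) * F (G.r * n + s)‖ ≤ δ * N
    · have h2 := hs h1
      refine main (-1) (fun n => (starRingEnd ℂ) (β n)) (fun n => - φ n) (fun n => - g n)
        (Or.inr rfl) (fun n => ?_) (fun n n' hn => ?_) hφ.neg hg.neg s N' hN' ?_
      · rw [RCLike.norm_conj]
        exact hβ n
      · simp only [hdep n n' hn]
      · refine lt_of_lt_of_eq h2 ?_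
        congr 1
        refine Finset.sum_congr rfl fun n _ => ?_
        congr 1
        rw [hF (G.r * n + s), map_mul, map_mul, map_mul, PI.Kat_ee_neg, neg_one_zsmul, et_neg,
          ← et_neg (g (G.r * n + s) : UnitAddCircle)]
        rfl
    · push Not at h1
      refine main 1 β φ g (Or.inl rfl) hβ hdep hφ hg s N' hN' ?_
      refine lt_of_lt_of_eq h1 ?_
      congr 1
      refine Finset.sum_congr rfl fun n _ => ?_
      congr 1
      rw [hF (G.r * n + s), one_zsmul]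

end Pool.Agent.Lib.MP_3e612f_nt.RD
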