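import Pool.Agent.Lib.MP_3e612f_nt.RD.DecB
import Pool.Agent.Lib.MP_3e612f_nt.DI.FRed

/-!
The structured functions are bounded combinations of functions of smaller degree.

PROOF of `decomp`. `T = q ^ D`, `tT = rwc (dl0 q T T L) t` (`EM/Rew.lean`): `FP t = FP tT` (`FP_level` with `T' = T`), `tT S = 0` for
`|S| > d'`, and for a tuple `y` of `d'` different letters without the position `0`: `tT (image y) = mlt t (dl (y j))` (`rwc_top`, `dl0_eq`).
`Z` from `TopS`; `E` = the letters at the positions in `Z ∪ {0} ∪ [L - D - 1, L)`; `|E| ≤ (B3 + D + 2) q T`.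
Classes of the sets `S`: (a) `S ∩ E ≠ ∅`; (b) `S ∩ E = ∅` and (`|S| < d'` or two letters of `S` at distance `< W`); (c)
`S ∩ E = ∅`, `|S| = d'`, letters pairwise at distance `≥ W`.
(c): `round1` for every `tT S`: `tT S = a S / M3 + x S`, `∑ x S² ≤ C3`. The part `a` is a phase of degree `≤ d' ≤ d` with values in
`ZMod M3`; together with `φ` it is a phase with values in `ZMod (M * M3)` (`DI.embM` and `DI.ee_embM`, as in `EM/Dich.lean`). The part
`x`: `cen_low`, `infl_cen` (`Spr` holds: `W > D`, the windows are inside `[0, L)` because of `E`): a real function of influence `≤ c C3`,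
and a phase of degree `≤ d' - 1` with values in `ℝ/ℤ`.
(b): `isPL_near` (`EM/Near.lean`): degree `≤ d' - 1` at the level `T q ^ W = q ^ (D + W)`.
(a): `cond_E`: `1 = ∑_{ω ⊆ E} 1[ltr n ∩ E = ω]`, at most `2 ^ |E|` terms, the indicator is frozen at the positions of `E`.
Everything at the level `q ^ (D + W)` (`isPL_level`, `depL_level`).
-/

set_option autoImplicit false

namespace Pool.Agent.Lib.MP_3e612f_nt.RD

open Finset
open Pool.Agent.Lib.MP_3e612f_nt.PI (ee mc)
open Pool.Agent.Lib.MP_3e612f_nt.DI (av pr mlt)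
open Pool.Agent.Lib.MP_3e612f_nt.EM

/-! ### Auxiliary lemmas -/

/-- a set of `d` elements as the image of an injective tuple -/
private theorem dec_enum {X : Type} [DecidableEq X] {d : ℕ} {S : Finset X} (hS : S.card = d) :
    ∃ y : Fin d → X, Function.Injective y ∧ univ.image y = S := by
  refine ⟨fun j => ((S.equivFinOfCardEq hS).symm j : X), fun i j h => ?_, ?_⟩
  · exact (S.equivFinOfCardEq hS).symm.injective (Subtype.ext h)
  · ext x
    rw [mem_image]
    constructor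
    · rintro ⟨j, _, rfl⟩
      exact ((S.equivFinOfCardEq hS).symm j).2
    · intro hx
      exact ⟨S.equivFinOfCardEq hS ⟨x, hx⟩, mem_univ _, by rw [Equiv.symm_apply_apply]⟩

/-- the leading coefficients of the rewritten phase -/
private theorem dec_top {q D L d : ℕ} {t : Finset (Lt (q * q ^ D) L) → UnitAddCircle}
    (ht : ∀ S, d < S.card → t S = 0) {y : Fin d → Lt (q * q ^ D) L} (hy : Function.Injective y)
    (hy0 : ∀ j, ((y j).1 : ℕ) ≠ 0) :
    rwc (dl0 q (q ^ D) (q ^ D) L) t (univ.image y) =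
      mlt t fun j => dl q (q ^ D) (q ^ D) L (y j) := by
  rw [rwc_top _ (fun S hS => ht S (by rwa [Fintype.card_fin] at hS)) hy]
  congr 1
  funext j x
  exact dl0_eq (hy0 j) x

/-- a sum over sets is at most the sum over the tuples which enumerate them -/
private theorem dec_fib {X : Type} [Fintype X] [DecidableEq X] {d : ℕ} (A : Finset (Fin d → X))
    (G : (Fin d → X) → ℝ) (hG : ∀ y, 0 ≤ G y) (x : Finset X → ℝ)
    (h : ∀ S, x S ≠ 0 → ∃ y ∈ A, univ.image y = S ∧ x S ^ 2 ≤ G y) :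
    ∑ S, x S ^ 2 ≤ ∑ y ∈ A, G y := by
  rw [← Finset.sum_fiberwise A (fun y : Fin d → X => univ.image y) G]
  refine sum_le_sum fun S _ => ?_
  by_cases h0 : x S = 0
  · rw [h0, zero_pow two_ne_zero]
    exact sum_nonneg fun y _ => hG y
  · obtain ⟨y, hy, hyS, hle⟩ := h S h0
    exact hle.trans (single_le_sum (f := G) (fun y _ => hG y) (mem_filter.2 ⟨hy, hyS⟩))

open Classical in
/-- the sum of the squares of the real parts -/
private theorem dec_sq {q D L d W M3 : ℕ} {C3 : ℝ}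
    {t : Finset (Lt (q * q ^ D) L) → UnitAddCircle} (ht : ∀ S, d < S.card → t S = 0)
    (Z : Finset ℕ)
    (hZ : ∑ y ∈ univ.filter (fun y : Fin d → Lt (q * q ^ D) L => (∀ i, ((y i).1 : ℕ) ∉ Z) ∧
      ∀ i j, i ≠ j → FarL W (y i) (y j)),
        ‖M3 • mlt t (fun j => dl q (q ^ D) (q ^ D) L (y j))‖ ^ 2 ≤ C3)
    (x : Finset (Lt (q * q ^ D) L) → ℝ)
    (hx : ∀ S, x S ≠ 0 → S.card = d ∧ (∀ u ∈ S, ∀ v ∈ S, u ≠ v → FarL W u v) ∧
      ∀ u ∈ S, (u.1 : ℕ) ≠ 0 ∧ (u.1 : ℕ) ∉ Z)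
    (hx' : ∀ S, x S ≠ 0 → |x S| ≤ ‖M3 • rwc (dl0 q (q ^ D) (q ^ D) L) t S‖) :
    ∑ S, x S ^ 2 ≤ C3 := by
  refine le_trans (dec_fib _ (fun y : Fin d → Lt (q * q ^ D) L =>
    ‖M3 • mlt t (fun j => dl q (q ^ D) (q ^ D) L (y j))‖ ^ 2) (fun y => sq_nonneg _) x
    fun S h => ?_) hZ
  obtain ⟨hS, hfar, hpos⟩ := hx S h
  obtain ⟨y, hy, hyS⟩ := dec_enum hS
  have hmem : ∀ j, y j ∈ S := fun j => hyS ▸ mem_image_of_mem y (mem_univ j)
  have h1 := hx' S h
  have e : rwc (dl0 q (q ^ D) (q ^ D) L) t S = mlt t fun j => dl q (q ^ D) (q ^ D) L (y j) := by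
    have e1 := dec_top ht hy fun j => (hpos _ (hmem j)).1
    rw [← e1]
    congr 1
    exact hyS.symm
  rw [e] at h1
  refine ⟨y, mem_filter.2 ⟨mem_univ _, fun i => (hpos _ (hmem i)).2,
    fun i j hij => hfar _ (hmem i) _ (hmem j) (hy.ne hij)⟩, hyS, ?_⟩
  rw [← sq_abs]
  exact pow_le_pow_left₀ (abs_nonneg _) h1 2

/-- the exceptional letters -/
private def dec_E (m D L : ℕ) (Z : Finset ℕ) : Finset (Lt m L) :=
  univ.filter fun x => (x.1 : ℕ) ∈ Z ∨ (x.1 : ℕ) = 0 ∨ L ≤ (x.1 : ℕ) + D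

private theorem dec_pos (m D L : ℕ) (Z : Finset ℕ) :
    ((dec_E m D L Z).image fun x => (x.1 : ℕ)).card ≤ Z.card + (1 + D) := by
  have h1 : (dec_E m D L Z).image (fun x => (x.1 : ℕ)) ⊆ Z ∪ ({0} ∪ Ico (L - D) L) := by
    intro i hi
    obtain ⟨x, hx, rfl⟩ := ph_mem_posn.1 hi
    have h2 := (mem_filter.1 hx).2
    have h3 := x.1.2
    rw [mem_union, mem_union, mem_singleton, mem_Ico]
    rcases h2 with h2 | h2 | h2
    · exact Or.inl h2
    · exact Or.inr (Or.inl h2)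
    · exact Or.inr (Or.inr ⟨by omega, h3⟩)
  refine (card_le_card h1).trans ((card_union_le _ _).trans (Nat.add_le_add_left ?_ _))
  refine (card_union_le _ _).trans ?_
  rw [card_singleton, Nat.card_Ico]
  omega

private theorem dec_card {m L : ℕ} (E : Finset (Lt m L)) :
    E.card ≤ (E.image fun x => (x.1 : ℕ)).card * m := by
  classical
  have h1 : E.card ≤ ((E.image fun x => (x.1 : ℕ)) ×ˢ (univ : Finset (Fin m))).card := by
    refine Finset.card_le_card_of_injOn (fun x => ((x.1 : ℕ), x.2)) ?_ ?_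
    · intro x hx
      exact mem_coe.2 (mem_product.2 ⟨ph_mem_posn.2 ⟨x, hx, rfl⟩, mem_univ _⟩)
    · intro x _ y _ h
      have h2 := (Prod.mk.injEq _ _ _ _).mp h
      exact Prod.ext (Fin.ext h2.1) h2.2
  rwa [card_product, card_univ, Fintype.card_fin] at h1

/-- **the structured functions** -/
theorem decomp {q : ℕ} (hq : 2 ≤ q) {d d' : ℕ} (hd' : 1 ≤ d') (hdd : d' ≤ d)
    (D M B W M3 B3 : ℕ) [NeZero M] (hW : D < W) (hM3 : 1 ≤ M3) {C C3 : ℝ} (hC : 0 ≤ C)
    (hC3 : 0 ≤ C3) :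
    ∃ (Kc D2 M2 B2 : ℕ) (_ : NeZero M2) (C2 : ℝ), 0 ≤ C2 ∧
    ∀ (L : ℕ) (I : Finset ℕ) (β : ℕ → ℂ) (φ : ℕ → ZMod M) (g : ℕ → ℝ)
      (t : Finset (Lt (q * q ^ D) L) → UnitAddCircle),
      I.card ≤ B → (∀ n, ‖β n‖ ≤ 1) → DepL q (q * q ^ D) I β → IsPL q (q * q ^ D) d L φ →
      Infl q L C g → (∀ S, d' < S.card → t S = 0) → TopS q D L d' W M3 B3 C3 t →
      ∃ (ι : Type) (_ : Fintype ι) (F1 : ι → ℕ → ℂ), Fintype.card ι ≤ Kc ∧
        (∀ i, Rc q d (d' - 1) D2 M2 B2 C2 L (F1 i)) ∧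
        ∀ n, β n * ee (φ n) * et (g n : ℝ) * et (FP q (q * q ^ D) L t n) = ∑ i, F1 i n := by
  classical
  have hNM3 : NeZero M3 := ⟨by omega⟩
  have hq0 : 0 < q := by omega
  have hqD : 0 < q ^ D := pow_pos hq0 D
  have hqDW : 0 < q ^ (D + W) := pow_pos hq0 _
  have hdvd : q ^ D ∣ q ^ (D + W) := Nat.pow_dvd_pow q (Nat.le_add_right _ _)
  have hM1 : M ∣ M * M3 := Dvd.intro _ rfl
  have hM2 : M3 ∣ M * M3 := Dvd.intro_left _ rfl
  have hNM2 : NeZero (M * M3) := ⟨Nat.mul_ne_zero (NeZero.ne M) (NeZero.ne M3)⟩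
  obtain ⟨c, hc, hinf⟩ := infl_cen hq D hd'
  refine ⟨2 ^ ((B3 + (1 + D)) * (q * q ^ D)), D + W, M * M3, B + (B3 + (1 + D)), hNM2,
    2 * (C + c * C3), by positivity, ?_⟩
  rintro L I β φ g t hI hβ hdep hφ hg ht ⟨Z, hZ, hZs⟩
  obtain ⟨tT, htT⟩ : ∃ tT, tT = rwc (dl0 q (q ^ D) (q ^ D) L) t := ⟨_, rfl⟩
  have hFP : ∀ n, FP q (q * q ^ D) L t n = FP q (q * q ^ D) L tT n := fun n => by
    rw [htT]
    exact FP_level hq0 hqD dvd_rfl t n
  have htT0 : ∀ S, d' < S.card → tT S = 0 := fun S hS => by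
    rw [htT]
    exact rwc_deg _ ht hS
  obtain ⟨E, hE⟩ : ∃ E, E = dec_E (q * q ^ D) D L Z := ⟨_, rfl⟩
  have hEp : (E.image fun x => (x.1 : ℕ)).card ≤ B3 + (1 + D) := by
    rw [hE]
    exact (dec_pos _ D L Z).trans (Nat.add_le_add_right hZ _)
  have hEc : E.card ≤ (B3 + (1 + D)) * (q * q ^ D) :=
    (dec_card E).trans (Nat.mul_le_mul_right _ hEp)
  have hEn : ∀ u, u ∉ E → (u.1 : ℕ) ∉ Z ∧ (u.1 : ℕ) ≠ 0 ∧ (u.1 : ℕ) + D < L := by
    intro u hu
    rw [hE] at hu
    unfold dec_E at hu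
    rw [mem_filter] at hu
    push Not at hu
    exact hu (mem_univ _)
  choose a0 x0 hx0 hax using fun S => round1 (M3 := M3) (tT S)
  obtain ⟨P, hP⟩ : ∃ P : Finset (Lt (q * q ^ D) L) → Prop, P = fun S => Disjoint S E ∧
    S.card = d' ∧ ∀ u ∈ S, ∀ v ∈ S, u ≠ v → FarL W u v := ⟨_, rfl⟩
  have hP1 : ∀ S, P S → Disjoint S E ∧ S.card = d' ∧ ∀ u ∈ S, ∀ v ∈ S, u ≠ v → FarL W u v := by
    intro S h
    rw [hP] at h
    exact h
  obtain ⟨ta, hta⟩ : ∃ ta : Finset (Lt (q * q ^ D) L) → UnitAddCircle,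
    ta = fun S => if Disjoint S E then 0 else tT S := ⟨_, rfl⟩
  obtain ⟨tb, htb⟩ : ∃ tb : Finset (Lt (q * q ^ D) L) → UnitAddCircle,
    tb = fun S => if Disjoint S E ∧ ¬ P S then tT S else 0 := ⟨_, rfl⟩
  obtain ⟨a, ha⟩ : ∃ a : Finset (Lt (q * q ^ D) L) → ZMod M3,
    a = fun S => if P S then a0 S else 0 := ⟨_, rfl⟩
  obtain ⟨x, hx⟩ : ∃ x : Finset (Lt (q * q ^ D) L) → ℝ,
    x = fun S => if P S then x0 S else 0 := ⟨_, rfl⟩
  have hxP : ∀ S, x S ≠ 0 → P S := by
    intro S hS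
    by_contra h
    refine hS ?_
    rw [hx]
    exact if_neg h
  have haP : ∀ S, a S ≠ 0 → P S := by
    intro S hS
    by_contra h
    refine hS ?_
    rw [ha]
    exact if_neg h
  have hdec : ∀ S, tT S = ta S + (tb S + (ZMod.toAddCircle (a S) + ((x S : ℝ) : UnitAddCircle))) := by
    intro S
    rw [hta, htb, ha, hx]
    beta_reduce
    by_cases h1 : Disjoint S E
    · by_cases h2 : P S
      · rw [if_pos h1, if_neg (fun h => h.2 h2), if_pos h2, if_pos h2, zero_add, zero_add]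
        exact hax S
      · rw [if_pos h1, if_pos ⟨h1, h2⟩, if_neg h2, if_neg h2, map_zero, zero_add,
          AddCircle.coe_zero, add_zero, add_zero]
    · have h2 : ¬ P S := fun h => h1 (hP1 S h).1
      rw [if_neg h1, if_neg (fun h => h1 h.1), if_neg h2, if_neg h2, map_zero,
        AddCircle.coe_zero, add_zero, add_zero, add_zero]
  -- the real part
  have hsq : ∑ S, x S ^ 2 ≤ C3 := by
    refine dec_sq ht Z hZs x (fun S hS => ?_) fun S hS => ?_
    · obtain ⟨h1, h2, h3⟩ := hP1 S (hxP S hS)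
      refine ⟨h2, h3, fun u hu => ?_⟩
      have h4 := hEn u fun h => (Finset.disjoint_left.1 h1) hu h
      exact ⟨h4.2.1, h4.1⟩
    · have h1 : x S = x0 S := by
        rw [hx]
        exact if_pos (hxP S hS)
      rw [h1, ← htT]
      exact hx0 S
  have hxS : ∀ S, ¬ Spr d' S → x S = 0 := by
    intro S hS
    by_contra h
    obtain ⟨h1, h2, h3⟩ := hP1 S (hxP S h)
    refine hS ⟨h2, fun u hu v hv huv => ?_, fun u hu => ?_⟩
    · have h4 := h3 u hu v hv huv
      unfold FarL at h4 ⊢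
      omega
    · exact (hEn u fun h => (Finset.disjoint_left.1 h1) hu h).2.2
  have hxi := (hinf L x hxS).mono (C' := c * C3) (mul_le_mul_of_nonneg_left hsq hc)
  obtain ⟨f0, hf0, hf0e⟩ := cen_low hd' x fun S hS => by
    by_contra h
    exact hS (hP1 S (hxP S h)).2.1
  -- the near sets
  have hb : IsPL q (q * (q ^ D * q ^ W)) (d' - 1) L (FP q (q * q ^ D) L tb) := by
    refine isPL_near hq hd' hqD W tb fun S hS => ?_
    have h1 : Disjoint S E ∧ ¬ P S := by
      by_contra h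
      refine hS ?_
      rw [htb]
      exact if_neg h
    have h2 : tb S = tT S := by
      rw [htb]
      exact if_pos h1
    rw [h2] at hS
    have h3 : S.card ≤ d' := not_lt.1 fun h => hS (htT0 S h)
    rcases Nat.lt_or_ge S.card d' with h4 | h4
    · exact Or.inl h4
    · refine Or.inr ⟨h3, ?_⟩
      by_contra h5
      push Not at h5
      refine h1.2 ?_
      rw [hP]
      exact ⟨h1.1, le_antisymm h3 h4, h5⟩
  rw [← pow_add] at hb
  -- the exceptional sets
  have haE : ∀ ω : Finset (Lt (q * q ^ D) L), ∃ f : ℕ → UnitAddCircle,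
      IsPL q (q * q ^ D) (d' - 1) L f ∧
      ∀ n, ltr q (q * q ^ D) L n ∩ E = ω → FP q (q * q ^ D) L ta n = f n := by
    intro ω
    refine cond_E hd' E ta (fun S hS => ?_) (fun S hS => ?_) ω
    · rw [hta]
      beta_reduce
      rw [htT0 S hS, ite_self]
    · rw [hta]
      exact if_pos hS
  choose fa hfa hfae using haE
  -- the phase with values in `ZMod M3`
  have haL : IsPL q (q * q ^ D) d L (FP q (q * q ^ D) L a) := by
    refine isPL_FP fun S hS => ?_
    by_contra h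
    have := (hP1 S (haP S h)).2.1
    omega
  refine ⟨{ω // ω ∈ E.powerset}, inferInstance, fun ω n =>
    (β n * if ltr q (q * q ^ D) L n ∩ E = ω.1 then 1 else 0) *
      ee (DI.embM hM1 (φ n) + DI.embM hM2 (FP q (q * q ^ D) L a n)) *
      et ((g n + ∑ S, x S * cp S n : ℝ)) *
      et (fa ω.1 n + (FP q (q * q ^ D) L tb n + f0 n)), ?_, fun ω => ?_, fun n => ?_⟩
  · rw [Fintype.card_coe, card_powerset]
    exact Nat.pow_le_pow_right (by omega) hEc
  · refine ⟨I ∪ E.image fun x => (x.1 : ℕ), _, _, _, _, ?_, fun n => ?_, ?_, ?_,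
      hg.add hxi, ?_, fun n => rfl⟩
    · have := card_union_le I (E.image fun x => (x.1 : ℕ))
      omega
    · rw [norm_mul]
      refine mul_le_one₀ (hβ n) (norm_nonneg _) ?_
      split_ifs
      · rw [norm_one]
      · rw [norm_zero]
        exact zero_le_one
    · have hd1 : DepL q (q * q ^ (D + W)) (I ∪ E.image fun x => (x.1 : ℕ)) β :=
        DepL.mono (Nat.mul_dvd_mul_left q hdvd) subset_union_left hdep
      have hd2 : DepL q (q * q ^ (D + W)) (I ∪ E.image fun x => (x.1 : ℕ))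
          (fun n => ltr q (q * q ^ D) L n ∩ E) := by
        refine DepL.mono (m := q * q ^ D) (Nat.mul_dvd_mul_left q hdvd)
          subset_union_right ?_
        intro n n' hn
        ext x
        rw [mem_inter, mem_inter, mem_ltr, mem_ltr]
        refine and_congr_left fun hx => ?_
        rw [hn x.1 (ph_mem_posn.2 ⟨x, hx, rfl⟩)]
      intro n n' hn
      have h1 := hd1 n n' hn
      have h2 := hd2 n n' hn
      beta_reduce at h2 ⊢
      rw [h1, h2]
    · exact isPL_level hq0 hqDW hdvd ((hφ.map (DI.embM hM1)).add (haL.map (DI.embM hM2)))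
    · exact (isPL_level hq0 hqDW hdvd (hfa ω.1)).add (hb.add (isPL_level hq0 hqDW hdvd hf0))
  · -- the expansion
    have hmem : ltr q (q * q ^ D) L n ∩ E ∈ E.powerset := mem_powerset.2 inter_subset_right
    rw [Finset.sum_eq_single (⟨_, hmem⟩ : {ω // ω ∈ E.powerset})]
    · beta_reduce
      rw [if_pos rfl, ← hfae _ n rfl]
      have h1 : FP q (q * q ^ D) L t n = FP q (q * q ^ D) L ta n + (FP q (q * q ^ D) L tb n +
          (ZMod.toAddCircle (FP q (q * q ^ D) L a n) +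
            (((∑ S, x S * cp S n : ℝ) : UnitAddCircle) + f0 n))) := by
        rw [hFP n, ← hf0e n, ← FP_map, ← FP_add, ← FP_add, ← FP_add]
        congr 1
        funext S
        exact hdec S
      rw [h1, PI.Kat_ee_add, DI.ee_embM, DI.ee_embM, ee_et (FP q (q * q ^ D) L a n),
        AddCircle.coe_add]
      simp only [et_add]
      ring
    · intro ω _ hω
      beta_reduce
      rw [if_neg fun h => hω (Subtype.ext h.symm)]
      ring
    · intro h
      exact absurd (mem_univ _) h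

end Pool.Agent.Lib.MP_3e612f_nt.RD
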