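import Pool.Agent.Lib.MP_3e612f_nt.RD.NearO

/-!
Centered digit polynomials have bounded influence.

`cen x n = ∑_S x S ∏_{y ∈ S} (1[y ∈ ltr n] - κ)`, `κ = 1 / (q T)`, `x` supported on the far sets of `d` letters with windows
inside `[0, L)`.

PROOF of `near_orth`. `E` = average over `m < q ^ L`. For sets `R`, `R'` of letters (windows inside `[0, L)`, the letters of `R` pairwise
at distance `≥ D + 1`, the same for `R'`) `E ∏_R ∏_R' = 0` if some `y ∈ R` has a window `[y.1, y.1 + D]` which is disjoint from all windows of `R'`: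
that factor has mean `0` and is independent of the others (functions of disjoint sets of digits; use
`finFunctionFinEquiv` or induction). All products are bounded by `1`. So `E (∑_R x R ∏_R)² ≤ ∑_{R ~ R'} |x R x R'| ≤ c ∑ x R²`, where
`R ~ R'` means that every window of `R` meets one of `R'` and conversely: for given `R` there are at most `(e (2 D + 1) q T) ^ e`
such `R'` with `e` elements.
PROOF of `infl_cen`. For the digit `i` the factor of `y` changes only if `y.1 ≤ i ≤ y.1 + D`, exactly one factor of each `S`;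
`cen x m - cen x (zd q i m) = ∑_y (1[y ∈ ltr m] - 1[y ∈ ltr (zd q i m)]) ∑_{S ∋ y} x S ∏_{S \ y}`, at most `(D + 1) q T`
letters `y`; `near_orth` for `S \ y`; sum over `i`.
-/

set_option autoImplicit false

namespace Pool.Agent.Lib.MP_3e612f_nt.RD

open Finset
open Pool.Agent.Lib.MP_3e612f_nt.PI (ee mc)
open Pool.Agent.Lib.MP_3e612f_nt.DI (av pr mlt)
open Pool.Agent.Lib.MP_3e612f_nt.EM

/-- `n` without its digit at `i` -/
private theorem ic_zd {q : ℕ} (i m : ℕ) :
    zd q i m = m / q ^ (i + 1) * q ^ (i + 1) + m % q ^ i := by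
  have h1 := Nat.mod_pow_succ (x := m) (b := q) (k := i)
  have h2 := Nat.div_add_mod m (q ^ (i + 1))
  rw [h1] at h2
  unfold zd
  refine Nat.sub_eq_of_eq_add ?_
  rw [mul_comm (m / q ^ (i + 1)) (q ^ (i + 1)), mul_comm (m / q ^ i % q) (q ^ i), add_assoc]
  exact h2.symm

private theorem ic_div {q : ℕ} (hq : 0 < q) {i j : ℕ} (m : ℕ) (h : i < j) :
    zd q i m / q ^ j = m / q ^ j := by
  obtain ⟨k, rfl⟩ := Nat.exists_eq_add_of_le (Nat.succ_le_of_lt h)
  have h1 : m % q ^ i < q ^ (i + 1) :=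
    (Nat.mod_lt _ (Nat.pow_pos hq)).trans_le (Nat.pow_le_pow_right hq (Nat.le_succ i))
  have h2 : zd q i m / q ^ (i + 1) = m / q ^ (i + 1) := by
    rw [ic_zd, mul_comm, Nat.mul_add_div (Nat.pow_pos hq), Nat.div_eq_of_lt h1, add_zero]
  rw [pow_add, ← Nat.div_div_eq_div_mul, ← Nat.div_div_eq_div_mul, h2]

private theorem ic_mod {q : ℕ} {i j : ℕ} (m : ℕ) (h : j ≤ i) :
    zd q i m % q ^ j = m % q ^ j := by
  have h1 : zd q i m % q ^ i = m % q ^ i := by
    rw [ic_zd, pow_succ, ← mul_assoc, mul_comm _ q, ← mul_assoc, Nat.mul_add_mod_self_right,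
      Nat.mod_mod]
  have h2 := Nat.mod_mod_of_dvd (zd q i m) (Nat.pow_dvd_pow q h)
  have h3 := Nat.mod_mod_of_dvd m (Nat.pow_dvd_pow q h)
  rw [← h2, h1, h3]

/-- the window of `y` does not see the digit `i` -/
private theorem ic_mem {q D L : ℕ} (hq : 0 < q) {i : ℕ} (m : ℕ) {y : Lt (q * q ^ D) L}
    (h : ¬ ((y.1 : ℕ) ≤ i ∧ i ≤ (y.1 : ℕ) + D)) :
    y ∈ ltr q (q * q ^ D) L (zd q i m) ↔ y ∈ ltr q (q * q ^ D) L m := by
  rw [mem_ltr, mem_ltr]
  rcases Nat.lt_or_ge i y.1 with h1 | h1
  · rw [ic_div hq m h1]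
  · have h2 : (y.1 : ℕ) + D + 1 ≤ i := by
      by_contra h3
      exact h ⟨h1, by omega⟩
    have h3 : ∀ n : ℕ, n / q ^ (y.1 : ℕ) % (q * q ^ D) =
        n % q ^ ((y.1 : ℕ) + D + 1) / q ^ (y.1 : ℕ) := by
      intro n
      rw [← Nat.mod_mul_right_div_self]
      congr 2
      ring
    rw [h3, h3, ic_mod m h2]

/-- the windows inside `[0, L)` -/
private theorem ic_per {q D L : ℕ} (m : ℕ) {y : Lt (q * q ^ D) L} (h : (y.1 : ℕ) + D < L) :
    y ∈ ltr q (q * q ^ D) L (m % q ^ L) ↔ y ∈ ltr q (q * q ^ D) L m := by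
  rw [mem_ltr, mem_ltr]
  have h3 : ∀ n : ℕ, n / q ^ (y.1 : ℕ) % (q * q ^ D) =
      n % q ^ ((y.1 : ℕ) + D + 1) / q ^ (y.1 : ℕ) := by
    intro n
    rw [← Nat.mod_mul_right_div_self]
    congr 2
    ring
  rw [h3, h3, Nat.mod_mod_of_dvd m (Nat.pow_dvd_pow q (by omega))]

/-- the letters whose windows see the digit `i` -/
private def icW (q D L i : ℕ) : Finset (Lt (q * q ^ D) L) :=
  univ.filter fun y => (y.1 : ℕ) ≤ i ∧ i ≤ (y.1 : ℕ) + D

private theorem ic_W {q D L i : ℕ} : (icW q D L i).card ≤ (D + 1) * (q * q ^ D) := by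
  have h1 : (icW q D L i).card ≤ (Icc (i - D) i ×ˢ (univ : Finset (Fin (q * q ^ D)))).card := by
    refine card_le_card_of_injOn (fun y => ((y.1 : ℕ), y.2)) ?_ ?_
    · intro y hy
      have h2 := (mem_filter.1 hy).2
      rw [mem_coe, mem_product, mem_Icc]
      refine ⟨⟨?_, h2.1⟩, mem_univ _⟩
      show i - D ≤ (y.1 : ℕ)
      omega
    · intro y _ y' _ h
      rw [Prod.mk.injEq] at h
      exact Prod.ext (Fin.ext h.1) h.2
  refine h1.trans ?_
  rw [card_product, Nat.card_Icc, card_univ, Fintype.card_fin]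
  exact Nat.mul_le_mul_right _ (by omega)

/-- a change of one digit changes only one factor -/
private theorem ic_diff {q D L d : ℕ} (hq : 0 < q) {S : Finset (Lt (q * q ^ D) L)}
    (hS : Spr d S) (i m : ℕ) : cp S m - cp S (zd q i m) =
      ∑ y ∈ icW q D L i, ((if y ∈ ltr q (q * q ^ D) L m then (1 : ℝ) else 0) -
        (if y ∈ ltr q (q * q ^ D) L (zd q i m) then 1 else 0)) *
          if y ∈ S then cp (S.erase y) m else 0 := by
  by_cases hex : ∃ y ∈ S, y ∈ icW q D L i
  · obtain ⟨y, hy, hyW⟩ := hex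
    have huniq : ∀ z ∈ S, z ∈ icW q D L i → z = y := by
      intro z hz hzW
      by_contra hne
      have h1 := hS.2.1 z hz y hy hne
      have h2 := (mem_filter.1 hyW).2
      have h3 := (mem_filter.1 hzW).2
      unfold FarL at h1
      omega
    rw [Finset.sum_eq_single y]
    · rw [if_pos hy]
      have h1 : ∀ n, cp S n = ((if y ∈ ltr q (q * q ^ D) L n then 1 else 0) -
          1 / ((q : ℝ) * (q : ℝ) ^ D)) * cp (S.erase y) n := by
        intro n
        unfold cp
        exact (Finset.mul_prod_erase S _ hy).symm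
      have h2 : cp (S.erase y) (zd q i m) = cp (S.erase y) m := by
        unfold cp
        refine Finset.prod_congr rfl fun z hz => ?_
        have h3 : ¬ ((z.1 : ℕ) ≤ i ∧ i ≤ (z.1 : ℕ) + D) := by
          intro h4
          exact (Finset.ne_of_mem_erase hz) (huniq z (Finset.mem_of_mem_erase hz)
            (mem_filter.2 ⟨mem_univ _, h4⟩))
        simp only [ic_mem hq m h3]
      rw [h1 m, h1 (zd q i m), h2]
      ring
    · intro z hzW hne
      have h1 : z ∉ S := fun hz => hne (huniq z hz hzW)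
      rw [if_neg h1, mul_zero]
    · intro h
      exact absurd hyW h
  · push Not at hex
    have h1 : cp S (zd q i m) = cp S m := by
      unfold cp
      refine Finset.prod_congr rfl fun z hz => ?_
      have h3 : ¬ ((z.1 : ℕ) ≤ i ∧ i ≤ (z.1 : ℕ) + D) := fun h4 =>
        hex z hz (mem_filter.2 ⟨mem_univ _, h4⟩)
      simp only [ic_mem hq m h3]
    rw [h1, sub_self]
    symm
    refine Finset.sum_eq_zero fun y hy => ?_
    have h2 : y ∉ S := fun h => hex y h hy
    rw [if_neg h2, mul_zero]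

/-- the coefficients of the sets with a letter `y` removed -/
private theorem ic_rem {α : Type} [Fintype α] [DecidableEq α] (y : α) (F : Finset α → ℝ) :
    ∑ S : Finset α, (if y ∈ S then F (S.erase y) else 0) =
      ∑ R : Finset α, if y ∈ R then 0 else F R := by
  rw [← Finset.sum_filter, ← Finset.sum_filter_not_add_sum_filter univ (fun R : Finset α => y ∈ R)
    (fun R => if y ∈ R then 0 else F R)]
  have h1 : ∑ R ∈ univ.filter (fun R : Finset α => y ∈ R), (if y ∈ R then 0 else F R) = 0 :=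
    Finset.sum_eq_zero fun R hR => if_pos (mem_filter.1 hR).2
  rw [h1, add_zero]
  refine Finset.sum_bij' (fun S _ => S.erase y) (fun R _ => insert y R) ?_ ?_ ?_ ?_ ?_
  · intro S _
    rw [mem_filter]
    exact ⟨mem_univ _, Finset.notMem_erase y S⟩
  · intro R _
    rw [mem_filter]
    exact ⟨mem_univ _, Finset.mem_insert_self y R⟩
  · intro S hS
    exact Finset.insert_erase (mem_filter.1 hS).2
  · intro R hR
    exact Finset.erase_insert (mem_filter.1 hR).2
  · intro S _
    rw [if_neg (Finset.notMem_erase y S)]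

/-- **centered digit polynomials have bounded influence** -/
theorem infl_cen {q : ℕ} (hq : 2 ≤ q) (D : ℕ) {d : ℕ} (hd : 1 ≤ d) : ∃ c : ℝ, 0 ≤ c ∧ ∀ (L : ℕ)
    (x : Finset (Lt (q * q ^ D) L) → ℝ), (∀ S, ¬ Spr d S → x S = 0) →
      Infl q L (c * ∑ S, x S ^ 2) fun n => ∑ S, x S * cp S n := by
  classical
  obtain ⟨c, hc, hno⟩ := near_orth hq D (d - 1)
  have hq0 : 0 < q := by omega
  obtain ⟨Y, hY⟩ : ∃ Y : ℝ, Y = ((D + 1) * (q * q ^ D) : ℕ) := ⟨_, rfl⟩
  have hY0 : 0 ≤ Y := by rw [hY]; positivity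
  refine ⟨Y * ((D + 1) * (c * d)), by positivity, fun L x hx => ⟨fun m => ?_, ?_⟩⟩
  · -- periodicity
    refine Finset.sum_congr rfl fun S _ => ?_
    by_cases hS : Spr d S
    · congr 1
      unfold cp
      refine Finset.prod_congr rfl fun y hy => ?_
      simp only [ic_per m (hS.2.2 y hy)]
    · rw [hx S hS, zero_mul, zero_mul]
  -- the derived coefficients
  let xy : Lt (q * q ^ D) L → Finset (Lt (q * q ^ D) L) → ℝ :=
    fun y R => if y ∈ R then 0 else x (insert y R)
  let hh : Lt (q * q ^ D) L → ℕ → ℝ := fun y m => ∑ R, xy y R * cp R m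
  have hxy : ∀ y R, ¬ Spr (d - 1) R → xy y R = 0 := by
    intro y R hR
    simp only [xy]
    by_cases hy : y ∈ R
    · rw [if_pos hy]
    · rw [if_neg hy]
      apply hx
      rintro ⟨h1, h2, h3⟩
      apply hR
      rw [Finset.card_insert_of_notMem hy] at h1
      exact ⟨by omega, fun a ha b hb hab => h2 a (Finset.mem_insert_of_mem ha) b
        (Finset.mem_insert_of_mem hb) hab, fun a ha => h3 a (Finset.mem_insert_of_mem ha)⟩
  have hhS : ∀ y m, ∑ S, x S * (if y ∈ S then cp (S.erase y) m else 0) = hh y m := by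
    intro y m
    have h1 := ic_rem y fun R => x (insert y R) * cp R m
    have h2 : ∀ S : Finset (Lt (q * q ^ D) L), x S * (if y ∈ S then cp (S.erase y) m else 0) =
        if y ∈ S then x (insert y (S.erase y)) * cp (S.erase y) m else 0 := by
      intro S
      by_cases h : y ∈ S
      · rw [if_pos h, if_pos h, Finset.insert_erase h]
      · rw [if_neg h, if_neg h, mul_zero]
    rw [Finset.sum_congr rfl fun S _ => h2 S, h1]
    refine Finset.sum_congr rfl fun R _ => ?_
    simp only [xy]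
    by_cases h : y ∈ R
    · rw [if_pos h, if_pos h, zero_mul]
    · rw [if_neg h, if_neg h]
  have hxS : ∀ y, ∑ R, xy y R ^ 2 = ∑ S, if y ∈ S then x S ^ 2 else 0 := by
    intro y
    have h1 := ic_rem y fun R => x (insert y R) ^ 2
    have h2 : ∀ S : Finset (Lt (q * q ^ D) L), (if y ∈ S then x S ^ 2 else 0) =
        if y ∈ S then x (insert y (S.erase y)) ^ 2 else 0 := by
      intro S
      by_cases h : y ∈ S
      · rw [if_pos h, if_pos h, Finset.insert_erase h]
      · rw [if_neg h, if_neg h]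
    rw [Finset.sum_congr rfl fun S _ => h2 S, h1]
    refine Finset.sum_congr rfl fun R _ => ?_
    simp only [xy]
    by_cases h : y ∈ R
    · rw [if_pos h, if_pos h]
      norm_num
    · rw [if_neg h, if_neg h]
  -- one digit
  have hone : ∀ i m, (∑ S, x S * cp S m - ∑ S, x S * cp S (zd q i m)) ^ 2 ≤
      Y * ∑ y ∈ icW q D L i, hh y m ^ 2 := by
    intro i m
    have h1 : ∑ S, x S * cp S m - ∑ S, x S * cp S (zd q i m) =
        ∑ y ∈ icW q D L i, ((if y ∈ ltr q (q * q ^ D) L m then (1 : ℝ) else 0) -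
          (if y ∈ ltr q (q * q ^ D) L (zd q i m) then 1 else 0)) * hh y m := by
      rw [← Finset.sum_sub_distrib]
      have h2 : ∀ S : Finset (Lt (q * q ^ D) L), x S * cp S m - x S * cp S (zd q i m) =
          ∑ y ∈ icW q D L i, ((if y ∈ ltr q (q * q ^ D) L m then (1 : ℝ) else 0) -
            (if y ∈ ltr q (q * q ^ D) L (zd q i m) then 1 else 0)) *
              (x S * (if y ∈ S then cp (S.erase y) m else 0)) := by
        intro S
        by_cases hS : Spr d S
        · rw [← mul_sub, ic_diff hq0 hS, Finset.mul_sum]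
          exact Finset.sum_congr rfl fun y _ => by ring
        · simp only [hx S hS, zero_mul, mul_zero, sub_zero, Finset.sum_const_zero]
      rw [Finset.sum_congr rfl fun S _ => h2 S, Finset.sum_comm]
      refine Finset.sum_congr rfl fun y _ => ?_
      rw [← Finset.mul_sum, hhS]
    rw [h1]
    refine (sq_sum_le_card_mul_sum_sq (s := icW q D L i)).trans ?_
    have h3 : ((icW q D L i).card : ℝ) ≤ Y := by
      rw [hY]
      exact_mod_cast ic_W
    refine mul_le_mul h3 (Finset.sum_le_sum fun y _ => ?_)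
      (Finset.sum_nonneg fun _ _ => sq_nonneg _) hY0
    rw [mul_pow]
    have h4 : ((if y ∈ ltr q (q * q ^ D) L m then (1 : ℝ) else 0) -
        (if y ∈ ltr q (q * q ^ D) L (zd q i m) then 1 else 0)) ^ 2 ≤ 1 := by
      split_ifs <;> norm_num
    calc _ ≤ 1 * hh y m ^ 2 := mul_le_mul_of_nonneg_right h4 (sq_nonneg _)
      _ = _ := one_mul _
  have hqL : (0 : ℝ) ≤ (q : ℝ) ^ L := by positivity
  have hmean : ∀ y, ∑ m ∈ range (q ^ L), hh y m ^ 2 ≤
      c * (∑ S, if y ∈ S then x S ^ 2 else 0) * (q : ℝ) ^ L := by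
    intro y
    have h1 := hno L (xy y) (hxy y)
    rw [hxS] at h1
    exact h1
  have hF0 : ∀ y, 0 ≤ ∑ S, (if y ∈ S then x S ^ 2 else 0) := fun y =>
    Finset.sum_nonneg fun S _ => by split_ifs <;> positivity
  -- the number of the digits seen by a letter
  have hcount : ∀ y : Lt (q * q ^ D) L,
      ((range L).filter fun i => (y.1 : ℕ) ≤ i ∧ i ≤ (y.1 : ℕ) + D).card ≤ D + 1 := by
    intro y
    have h1 : ((range L).filter fun i => (y.1 : ℕ) ≤ i ∧ i ≤ (y.1 : ℕ) + D) ⊆
        Icc (y.1 : ℕ) ((y.1 : ℕ) + D) := by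
      intro i hi
      exact mem_Icc.2 (mem_filter.1 hi).2
    refine (card_le_card h1).trans ?_
    rw [Nat.card_Icc]
    omega
  calc ∑ i ∈ range L, ∑ m ∈ range (q ^ L),
        (∑ S, x S * cp S m - ∑ S, x S * cp S (zd q i m)) ^ 2
      ≤ ∑ i ∈ range L, ∑ m ∈ range (q ^ L), Y * ∑ y ∈ icW q D L i, hh y m ^ 2 :=
        Finset.sum_le_sum fun i _ => Finset.sum_le_sum fun m _ => hone i m
    _ = Y * ∑ i ∈ range L, ∑ y ∈ icW q D L i, ∑ m ∈ range (q ^ L), hh y m ^ 2 := by
        rw [Finset.mul_sum]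
        refine Finset.sum_congr rfl fun i _ => ?_
        rw [← Finset.mul_sum, Finset.sum_comm]
    _ ≤ Y * ∑ i ∈ range L, ∑ y ∈ icW q D L i,
          c * (∑ S, if y ∈ S then x S ^ 2 else 0) * (q : ℝ) ^ L :=
        mul_le_mul_of_nonneg_left (Finset.sum_le_sum fun i _ => Finset.sum_le_sum fun y _ =>
          hmean y) hY0
    _ = Y * ∑ y : Lt (q * q ^ D) L,
          (((range L).filter fun i => (y.1 : ℕ) ≤ i ∧ i ≤ (y.1 : ℕ) + D).card : ℝ) *
          (c * (∑ S, if y ∈ S then x S ^ 2 else 0) * (q : ℝ) ^ L) := by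
        congr 1
        simp only [icW, Finset.sum_filter]
        rw [Finset.sum_comm]
        refine Finset.sum_congr rfl fun y _ => ?_
        rw [← Finset.sum_filter, Finset.sum_const, nsmul_eq_mul]
    _ ≤ Y * ∑ y : Lt (q * q ^ D) L, ((D : ℝ) + 1) *
          (c * (∑ S, if y ∈ S then x S ^ 2 else 0) * (q : ℝ) ^ L) := by
        refine mul_le_mul_of_nonneg_left (Finset.sum_le_sum fun y _ => ?_) hY0
        refine mul_le_mul_of_nonneg_right ?_ (mul_nonneg (mul_nonneg hc (hF0 y)) hqL)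
        exact_mod_cast hcount y
    _ = Y * (((D : ℝ) + 1) * (c * (∑ y : Lt (q * q ^ D) L,
          ∑ S, if y ∈ S then x S ^ 2 else 0)) * (q : ℝ) ^ L) := by
        congr 1
        rw [← Finset.mul_sum, ← Finset.sum_mul, ← Finset.mul_sum]
        ring
    _ = Y * (((D : ℝ) + 1) * (c * (d * ∑ S, x S ^ 2)) * (q : ℝ) ^ L) := by
        congr 4
        rw [Finset.sum_comm, Finset.mul_sum]
        refine Finset.sum_congr rfl fun S _ => ?_
        rw [Finset.sum_ite_mem, Finset.univ_inter, Finset.sum_const, nsmul_eq_mul]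
        by_cases hS : Spr d S
        · rw [hS.1]
        · rw [hx S hS]
          ring
    _ = Y * (((D : ℝ) + 1) * (c * d)) * (∑ S, x S ^ 2) * (q : ℝ) ^ L := by ring

end Pool.Agent.Lib.MP_3e612f_nt.RD
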