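import Pool.Agent.Lib.MP_3e612f_nt.RD.DecA

/-!
Expansion of the letter products, conditioning on the letters of a set, rounding.

`cen_low`: `∏_{y ∈ S} 1[y ∈ ltr n] = cp S n + ` (a combination of `1[S' ⊆ ltr n]`, `S' ⊂ S` proper).
`cond_E`: for `ω = ltr n ∩ E`: `∑_{S ⊆ ltr n, S ∩ E ≠ ∅} t S = ∑_{S'' ⊆ ltr n \ E} ∑_{∅ ≠ S0 ⊆ ω} t (S'' ∪ S0)`, of degree
`≤ d - 1` in the letters outside `E`.
`round1`: `t = a / M3 + x` with `a : ZMod M3`, `x` real, `|x| ≤ ‖M3 • t‖`.
-/

set_option autoImplicit false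

namespace Pool.Agent.Lib.MP_3e612f_nt.RD

open Finset
open Pool.Agent.Lib.MP_3e612f_nt.PI (ee mc)
open Pool.Agent.Lib.MP_3e612f_nt.DI (av pr mlt)
open Pool.Agent.Lib.MP_3e612f_nt.EM

private theorem cl_coe_sum {ι : Type} (s : Finset ι) (f : ι → ℝ) :
    ((∑ i ∈ s, f i : ℝ) : UnitAddCircle) = ∑ i ∈ s, ((f i : ℝ) : UnitAddCircle) := by
  classical
  induction s using Finset.induction_on with
  | empty => simp
  | insert a s ha ih => rw [Finset.sum_insert ha, Finset.sum_insert ha, AddCircle.coe_add, ih]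

private theorem cl_cp {q D L : ℕ} (S : Finset (Lt (q * q ^ D) L)) (n : ℕ) :
    cp S n = ∑ S' ∈ S.powerset, (if S' ⊆ ltr q (q * q ^ D) L n then 1 else 0) *
      (-(1 / ((q : ℝ) * (q : ℝ) ^ D))) ^ (S \ S').card := by
  unfold cp
  have h1 : ∀ y ∈ S, ((if y ∈ ltr q (q * q ^ D) L n then (1 : ℝ) else 0) -
      1 / ((q : ℝ) * (q : ℝ) ^ D)) = (if y ∈ ltr q (q * q ^ D) L n then (1 : ℝ) else 0) +
      -(1 / ((q : ℝ) * (q : ℝ) ^ D)) := fun y _ => sub_eq_add_neg _ _
  rw [Finset.prod_congr rfl h1, Finset.prod_add]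
  refine Finset.sum_congr rfl fun S' _ => ?_
  rw [Finset.prod_const]
  congr 1
  rw [Finset.prod_ite_zero]
  simp only [Finset.prod_const_one]
  exact if_congr Iff.rfl rfl rfl

private theorem cl_real {q D L : ℕ} (x : Finset (Lt (q * q ^ D) L) → ℝ) (n : ℕ) :
    (∑ S, x S * cp S n) = (∑ S ∈ (ltr q (q * q ^ D) L n).powerset, x S) +
      ∑ S' ∈ (ltr q (q * q ^ D) L n).powerset, ∑ S, if S' ⊂ S then
        x S * (-(1 / ((q : ℝ) * (q : ℝ) ^ D))) ^ (S \ S').card else 0 := by
  classical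
  have h0 : (ltr q (q * q ^ D) L n).powerset =
      univ.filter fun S => S ⊆ ltr q (q * q ^ D) L n := by
    ext S
    simp
  have h1 : ∀ S : Finset (Lt (q * q ^ D) L), x S * cp S n =
      (if S ⊆ ltr q (q * q ^ D) L n then x S else 0) +
      ∑ S' ∈ (ltr q (q * q ^ D) L n).powerset, if S' ⊂ S then
        x S * (-(1 / ((q : ℝ) * (q : ℝ) ^ D))) ^ (S \ S').card else 0 := by
    intro S
    have h2 : S.powerset.erase S = univ.filter fun S' => S' ⊂ S := by
      ext S'
      simp only [Finset.mem_erase, Finset.mem_powerset, Finset.mem_filter, Finset.mem_univ,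
        true_and]
      rw [Finset.ssubset_iff_subset_ne]
      tauto
    rw [cl_cp, ← Finset.add_sum_erase S.powerset _ (Finset.mem_powerset_self S), h2, h0,
      Finset.sum_filter, Finset.sum_filter, mul_add, Finset.mul_sum]
    congr 1
    · by_cases h : S ⊆ ltr q (q * q ^ D) L n
      · simp [h]
      · simp [h]
    · refine Finset.sum_congr rfl fun S' _ => ?_
      by_cases h : S' ⊂ S <;> by_cases h' : S' ⊆ ltr q (q * q ^ D) L n <;> simp [h, h']
  rw [Finset.sum_congr rfl fun S _ => h1 S, Finset.sum_add_distrib]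
  congr 1
  · rw [← Finset.sum_filter, h0]
  · rw [Finset.sum_comm]

/-- a real digit polynomial and its centered form differ by a polynomial of smaller degree -/
theorem cen_low {q D L d : ℕ} (hd : 1 ≤ d) (x : Finset (Lt (q * q ^ D) L) → ℝ)
    (hx : ∀ S, S.card ≠ d → x S = 0) :
    ∃ f : ℕ → UnitAddCircle, IsPL q (q * q ^ D) (d - 1) L f ∧
      ∀ n, FP q (q * q ^ D) L (fun S => ((x S : ℝ) : UnitAddCircle)) n =
        ((∑ S, x S * cp S n : ℝ) : UnitAddCircle) + f n := by
  classical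
  refine ⟨FP q (q * q ^ D) L fun S' => ((-∑ S, if S' ⊂ S then
    x S * (-(1 / ((q : ℝ) * (q : ℝ) ^ D))) ^ (S \ S').card else 0 : ℝ) : UnitAddCircle),
    ⟨_, fun S' hS' => ?_, fun n => rfl⟩, fun n => ?_⟩
  · rw [Finset.sum_eq_zero, neg_zero, AddCircle.coe_zero]
    intro S _
    split_ifs with h
    · have h1 := Finset.card_lt_card h
      rw [hx S (by omega), zero_mul]
    · rfl
  · unfold FP
    rw [cl_real, ← cl_coe_sum, ← cl_coe_sum, ← AddCircle.coe_add, Finset.sum_neg_distrib,
      add_neg_cancel_right]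

/-- the sets which meet `E`, for given letters in `E` -/
theorem cond_E {q m L d : ℕ} (hd : 1 ≤ d) {Γ : Type} [AddCommGroup Γ] (E : Finset (Lt m L))
    (t : Finset (Lt m L) → Γ) (ht : ∀ S, d < S.card → t S = 0) (hE : ∀ S, Disjoint S E → t S = 0)
    (ω : Finset (Lt m L)) :
    ∃ f : ℕ → Γ, IsPL q m (d - 1) L f ∧ ∀ n, ltr q m L n ∩ E = ω → FP q m L t n = f n := by
  classical
  refine ⟨FP q m L fun S' => if Disjoint S' E then ∑ S0 ∈ (ω ∩ E).powerset, t (S' ∪ S0) else 0,
    ⟨_, fun S' hS' => ?_, fun n => rfl⟩, fun n hn => ?_⟩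
  · split_ifs with h
    · refine Finset.sum_eq_zero fun S0 hS0 => ?_
      rw [Finset.mem_powerset, Finset.subset_inter_iff] at hS0
      rcases Finset.eq_empty_or_nonempty S0 with h0 | h0
      · rw [h0, Finset.union_empty]
        exact hE S' h
      · refine ht _ ?_
        rw [Finset.card_union_of_disjoint (h.mono_right hS0.2)]
        have := h0.card_pos
        omega
    · rfl
  · unfold FP
    have hω : ω ∩ E = ω := by
      rw [← hn, Finset.inter_assoc, Finset.inter_self]
    rw [hω, ← Finset.sum_filter, ← Finset.sum_product']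
    refine Finset.sum_bij' (fun S _ => (S \ E, S ∩ E)) (fun p _ => p.1 ∪ p.2) ?_ ?_ ?_ ?_ ?_
    · intro S hS
      rw [Finset.mem_powerset] at hS
      rw [Finset.mem_product, Finset.mem_filter, Finset.mem_powerset, Finset.mem_powerset]
      refine ⟨⟨Finset.sdiff_subset.trans hS, Finset.sdiff_disjoint⟩, ?_⟩
      rw [← hn]
      exact Finset.inter_subset_inter_right hS
    · intro p hp
      rw [Finset.mem_product, Finset.mem_filter, Finset.mem_powerset, Finset.mem_powerset] at hp
      rw [Finset.mem_powerset]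
      refine Finset.union_subset hp.1.1 (hp.2.trans ?_)
      rw [← hn]
      exact Finset.inter_subset_left
    · intro S _
      exact Finset.sdiff_union_inter S E
    · intro p hp
      rw [Finset.mem_product, Finset.mem_filter, Finset.mem_powerset, Finset.mem_powerset] at hp
      have h2 : p.2 ⊆ E := by
        refine hp.2.trans ?_
        rw [← hn]
        exact Finset.inter_subset_right
      ext1
      · change (p.1 ∪ p.2) \ E = p.1
        rw [Finset.union_sdiff_distrib, Finset.sdiff_eq_self_of_disjoint hp.1.2,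
          Finset.sdiff_eq_empty_iff_subset.2 h2, Finset.union_empty]
      · change (p.1 ∪ p.2) ∩ E = p.2
        rw [Finset.union_inter_distrib_right, Finset.disjoint_iff_inter_eq_empty.1 hp.1.2,
          Finset.empty_union, Finset.inter_eq_left.2 h2]
    · intro S _
      change t S = t ((S \ E) ∪ (S ∩ E))
      rw [Finset.sdiff_union_inter]

/-- rounding -/
theorem round1 {M3 : ℕ} [NeZero M3] (t : UnitAddCircle) :
    ∃ (a : ZMod M3) (x : ℝ), |x| ≤ ‖M3 • t‖ ∧ t = ZMod.toAddCircle a + (x : UnitAddCircle) := by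
  induction t using QuotientAddGroup.induction_on with
  | H u =>
    have hM : (0 : ℝ) < M3 := by exact_mod_cast Nat.pos_of_ne_zero (NeZero.ne M3)
    refine ⟨((round ((M3 : ℝ) * u) : ℤ) : ZMod M3), u - (round ((M3 : ℝ) * u) : ℝ) / M3, ?_, ?_⟩
    · have h1 : M3 • ((u : ℝ) : UnitAddCircle) = (((M3 : ℝ) * u : ℝ) : UnitAddCircle) := by
        rw [← AddCircle.coe_nsmul, nsmul_eq_mul]
      have h2 : |u - (round ((M3 : ℝ) * u) : ℝ) / M3| =
          |(M3 : ℝ) * u - (round ((M3 : ℝ) * u) : ℝ)| / M3 := by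
        have h3 : u - (round ((M3 : ℝ) * u) : ℝ) / M3 =
            ((M3 : ℝ) * u - (round ((M3 : ℝ) * u) : ℝ)) / M3 := by
          field_simp
        rw [h3, abs_div, abs_of_pos hM]
      rw [h2]
      change _ ≤ ‖M3 • ((u : ℝ) : UnitAddCircle)‖
      rw [h1, UnitAddCircle.norm_eq]
      refine div_le_self (abs_nonneg _) ?_
      exact_mod_cast Nat.one_le_iff_ne_zero.2 (NeZero.ne M3)
    · rw [ZMod.toAddCircle_intCast, ← AddCircle.coe_add]
      change ((u : ℝ) : UnitAddCircle) = _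
      congr 1
      ring

theorem ee_et {M : ℕ} [NeZero M] (a : ZMod M) : ee a = et (ZMod.toAddCircle a) := by
  rfl

end Pool.Agent.Lib.MP_3e612f_nt.RD
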