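import Pool.Agent.Lib.MP_3e612f_nt.DI.Av
import Pool.Agent.Lib.MP_3e612f_nt.LO.R.BG

/-!
# Real digit polynomials: definitions for the abstract inverse theorem

`et t = exp (2 π i t)` for `t ∈ ℝ/ℤ`. `zz : Bool × Bool → {-1, 0, 1}`. `St vt B C a`: off a set of at most `B`
vertices the sum of the squares of the norms of the entries of the array `a` is at most `C`. `Sw`: product
spaces with switches.
-/

set_option autoImplicit false

namespace Pool.Agent.Lib.MP_3e612f_nt.RD

open Finset
open Pool.Agent.Lib.MP_3e612f_nt.PI (ee)
open Pool.Agent.Lib.MP_3e612f_nt.DI (av pr)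
open Pool.Agent.Lib.MP_3e612f_nt.LORT (Dg cst)

/-- `exp (2 π i t)` -/
noncomputable def et (t : UnitAddCircle) : ℂ := (AddCircle.toCircle t : ℂ)

/-- the average of a real function on a finite type -/
noncomputable def ave {α : Type} [Fintype α] (f : α → ℝ) : ℝ :=
  (Fintype.card α : ℝ)⁻¹ * ∑ a, f a

/-- the difference of two bits: `1`, `0`, `-1` with the proportions `1/4`, `1/2`, `1/4` -/
def zz (b : Bool × Bool) : ℤ := (if b.2 then 1 else 0) - if b.1 then 1 else 0

/-- off a set of at most `B` vertices the sum of the squares of the norms is at most `C`; `vt κ` is the set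
of the vertices of the index `κ` -/
def St {ι Q : Type} [DecidableEq ι] [Fintype Q] (vt : Q → Finset ι) (B : ℕ) (C : ℝ)
    (a : Q → UnitAddCircle) : Prop :=
  ∃ E : Finset ι, E.card ≤ B ∧ ∑ κ ∈ univ.filter (fun κ => Disjoint (vt κ) E), ‖a κ‖ ^ 2 ≤ C

/-- switches: every coordinate `k` has states `s : S`, some of them have a label; `flip k` is an involution
which preserves the labels, changes the sign `sg` of the labelled states and fixes the other states -/
structure Sw (ι S Θ : Type) where
  /-- the label of a state -/
  lab : ι → S → Option Θ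
  /-- the switch -/
  flip : ι → S → S
  /-- the sign of a labelled state -/
  sg : ι → S → ℤ
  flip_flip : ∀ k s, flip k (flip k s) = s
  lab_flip : ∀ k s, lab k (flip k s) = lab k s
  flip_none : ∀ k s, lab k s = none → flip k s = s
  sg_flip : ∀ k s, lab k s ≠ none → sg k (flip k s) = - sg k s
  sg_one : ∀ k s, lab k s ≠ none → sg k s = 1 ∨ sg k s = -1

namespace Sw
variable {ι S Θ : Type} (w : Sw ι S Θ)

/-- the coordinates `k` with `u k` are switched -/
def flp (u : ι → Bool) (σ : ι → S) : ι → S := fun k => if u k then w.flip k (σ k) else σ k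

/-- the coordinates with a label -/
def act [Fintype ι] (σ : ι → S) : Finset ι := univ.filter fun k => (w.lab k (σ k)).isSome

/-- as a function of the switches, `φ` is a sum of functions of at most `d` switches of labelled
coordinates -/
def Deg [Fintype ι] {G : Type} [AddCommGroup G] (d : ℕ) (φ : (ι → S) → G) : Prop :=
  ∀ σ, Dg (w.act σ) d fun u => φ (w.flp u σ)

/-- the alternating sum over the switches at the places `κ` -/
def alt [DecidableEq ι] {G : Type} [AddCommGroup G] {d : ℕ} (κ : Fin d → ι) (P : (ι → S) → G)
    (σ : ι → S) : G :=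
  ∑ I : Finset (Fin d), (-1 : ℤ) ^ I.card • P (w.flp (fun k => decide (k ∈ I.image κ)) σ)

/-- the alternating sums over `d` labelled coordinates are `c` of the coordinates and their labels, up to
the signs of the states -/
def Top [Fintype ι] [DecidableEq ι] {G : Type} [AddCommGroup G] {d : ℕ} (P : (ι → S) → G)
    (c : (Fin d → ι × Θ) → G) : Prop :=
  ∀ (σ : ι → S) (x : Fin d → ι × Θ), Function.Injective (fun i => (x i).1) →
    (∀ i, w.lab (x i).1 (σ (x i).1) = some (x i).2) →
    w.alt (fun i => (x i).1) P σ = (∏ i, w.sg (x i).1 (σ (x i).1)) • c x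

end Sw

/-- the tuples of pairs (place, label) with different places in `A` -/
def Tup {ι Θ : Type} [Fintype ι] [DecidableEq ι] [Fintype Θ] [DecidableEq Θ] (d : ℕ) (A : Finset ι) :
    Finset (Fin d → ι × Θ) :=
  univ.filter fun x => Function.Injective (fun i => (x i).1) ∧ ∀ i, (x i).1 ∈ A

end Pool.Agent.Lib.MP_3e612f_nt.RD
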