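import Pool.Agent.Lib.MP_3e612f_nt.RD.Usd
import Pool.Agent.Lib.MP_3e612f_nt.DI.U.Ent

/-!
The universal system of the real digit polynomials has zero topological entropy.

PROOF of `gx_entropy`. `Dynamics.coverEntropy_closure` reduces to `GX` (forward invariant; `coverEntropy_le_zero` in
`Cov.lean` as in `DI.UXD_entropy`, with a pseudometric of the product). Given the neighbourhood `U` of the diagonal there are
`w`, `K`, `δ > 0` such that `(x, y) ∈ U` if `dist (x i k) (y i k) < δ` for all `i < w`, `k < K`. Let `x ∈ GX`; by `DI.trunc_phd`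
`x i = phd q D d (k + 1) F (i + s)` for `i < q ^ k`, with `s < q ^ k`. Only the values `F j z`, `j ∈ [0, k]^d`,
`z ∈ [0, q ^ (D + 1))^d` are used, `c = ((k + 1) q ^ (D + 1)) ^ d` many. Let `Q ≥ 4 c / δ` (for instance `Q = ⌈4 / δ⌉ * c`), and let the colour
of `x` be `s` and the rounded values `⌊Q F j z κ⌋ ∈ [0, Q)`, `κ < K` (representatives in `[0, 1)`). If `x`, `y` have the same colour, then
`dist (x i κ) (y i κ) ≤ (k + 1) ^ d / Q < δ` for `i < q ^ k`, `κ < K` (the sum has `(k + 1) ^ d` terms). The number of colours is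
`q ^ k * Q ^ (K c)`, its logarithm is `k log q + K c log Q = O((k + 1) ^ (d + 1))` with a constant which depends on `δ`, `K`, `q`, `D`, `d`
(`log Q ≤ log ⌈4 / δ⌉ + d log ((k + 1) q ^ (D + 1)) ≤ C (k + 1)`). `DI.UXD_growth` with `m = w`, `e = d + 1`.
-/

set_option autoImplicit false

namespace Pool.Agent.Lib.MP_3e612f_nt.RD

open Finset
open Pool.Agent.Lib.MP_3e612f_nt.PI (ee mc wd)
open Pool.Agent.Lib.MP_3e612f_nt.DI (phd IsPhd trunc_phd)

/-! ### Auxiliary lemmas -/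

private theorem ent_rep (x : UnitAddCircle) :
    ∃ r : ℝ, 0 ≤ r ∧ r < 1 ∧ (r : UnitAddCircle) = x := by
  obtain ⟨r, rfl⟩ := QuotientAddGroup.mk_surjective x
  refine ⟨Int.fract r, Int.fract_nonneg r, Int.fract_lt_one r, ?_⟩
  have h : ((⌊r⌋ : ℝ) : UnitAddCircle) = 0 :=
    (AddCircle.coe_eq_zero_iff _).2 ⟨⌊r⌋, by simp⟩
  have h1 : ((r - (⌊r⌋ : ℝ) : ℝ) : UnitAddCircle) = (r : UnitAddCircle) := by
    rw [AddCircle.coe_sub, h, sub_zero]
  exact h1

/-- rounding to `Q` values -/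
private theorem ent_rd {Q : ℕ} (hQ : 0 < Q) :
    ∃ f : UnitAddCircle → Fin Q, ∀ x y, f x = f y → dist x y ≤ 1 / Q := by
  choose r h0 h1 hr using ent_rep
  have hQ' : (0 : ℝ) < Q := by exact_mod_cast hQ
  have hlt : ∀ x, ⌊(Q : ℝ) * r x⌋₊ < Q := fun x => by
    rw [Nat.floor_lt (mul_nonneg hQ'.le (h0 x))]
    nlinarith [h1 x]
  refine ⟨fun x => ⟨⌊(Q : ℝ) * r x⌋₊, hlt x⟩, fun x y h => ?_⟩
  have e : ⌊(Q : ℝ) * r x⌋₊ = ⌊(Q : ℝ) * r y⌋₊ := congrArg Fin.val h
  have a1 := Nat.floor_le (mul_nonneg hQ'.le (h0 x))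
  have a2 := Nat.lt_floor_add_one ((Q : ℝ) * r x)
  have b1 := Nat.floor_le (mul_nonneg hQ'.le (h0 y))
  have b2 := Nat.lt_floor_add_one ((Q : ℝ) * r y)
  rw [e] at a1 a2
  have h3 : |r x - r y| ≤ 1 / Q := by
    rw [le_div_iff₀ hQ', ← abs_of_pos hQ', ← abs_mul, abs_le]
    constructor
    · linarith
    · linarith
  have h4 : dist x y = ‖((r x - r y : ℝ) : UnitAddCircle)‖ := by
    rw [AddCircle.coe_sub, hr, hr, dist_eq_norm]
  rw [h4, UnitAddCircle.norm_eq]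
  refine le_trans ?_ h3
  have h5 := round_le (r x - r y) 0
  simpa using h5

private theorem ent_unif {A : Type} [UniformSpace A] {U : Set ((ℕ → A) × (ℕ → A))}
    (hU : U ∈ uniformity (ℕ → A)) : ∃ m : ℕ, ∃ V ∈ uniformity A, ∀ x y : ℕ → A,
      (∀ i < m, (x i, y i) ∈ V) → (x, y) ∈ U := by
  rw [Pi.uniformity, Filter.mem_iInf'] at hU
  obtain ⟨I, hI, V, hV, -, hUV, -⟩ := hU
  obtain ⟨m, hm⟩ := hI.bddAbove
  have h1 : ∀ i, ∃ W ∈ uniformity A,
      (fun p : (ℕ → A) × (ℕ → A) => (p.1 i, p.2 i)) ⁻¹' W ⊆ V i := fun i => by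
    obtain ⟨W, hW, hWV⟩ := hV i
    exact ⟨W, hW, hWV⟩
  choose W hW hWV using h1
  refine ⟨m + 1, ⋂ i ∈ range (m + 1), W i, (Filter.biInter_finset_mem _).2 fun i _ => hW i,
    fun x y hxy => ?_⟩
  rw [hUV]
  refine Set.mem_iInter₂.2 fun i hi => hWV i ?_
  have h2 : i < m + 1 := Nat.lt_succ_of_le (hm hi)
  exact Set.mem_iInter₂.1 (hxy i h2) i (mem_range.2 h2)

/-- the points of the set are determined on `[0, q ^ k)` by truncated data -/
private theorem ent_key {q : ℕ} (hq : 2 ≤ q) (D d k : ℕ) (x : ℕ → ℕ → UnitAddCircle) :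
    ∃ (s : Fin (q ^ k)) (F : (Fin d → ℕ) → (Fin d → ℕ) → ℕ → UnitAddCircle),
      x ∈ GX q D d → ∀ i < q ^ k, x i = phd q D d (k + 1) F (i + s) := by
  have hk : 0 < q ^ k := Nat.pow_pos (by omega)
  by_cases hx : x ∈ GX q D d
  · obtain ⟨L, s, F, h⟩ := hx
    obtain ⟨F', s', hs', h'⟩ := trunc_phd hq D d k (q ^ k) le_rfl L s F
    exact ⟨⟨s', hs'⟩, F', fun _ i hi => by rw [h i, h' i hi.le]⟩
  · exact ⟨⟨0, hk⟩, fun _ _ _ => 0, fun h => absurd h hx⟩

private theorem ent_log {q : ℕ} (hq : 2 ≤ q) (A B K d k : ℕ) (hA : 1 ≤ A) :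
    Real.log ((q : ℝ) ^ k * ((((A * (k + 1) ^ d : ℕ) : ℝ) ^ K) ^ B) ^ ((k + 1) ^ d)) ≤
      (Real.log q + K * B * (Real.log A + d)) * ((k : ℝ) + 1) ^ (d + 1) := by
  have hq' : (0 : ℝ) < q := by exact_mod_cast (by omega : 0 < q)
  have hA' : (1 : ℝ) ≤ A := by exact_mod_cast hA
  have hk1 : (1 : ℝ) ≤ (k : ℝ) + 1 := by
    have : (0 : ℝ) ≤ k := Nat.cast_nonneg k
    linarith
  have hQ : (0 : ℝ) < ((A * (k + 1) ^ d : ℕ) : ℝ) := by
    have : 0 < A * (k + 1) ^ d := Nat.mul_pos (by omega) (Nat.pow_pos (by omega))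
    exact_mod_cast this
  have hlq : 0 ≤ Real.log q := Real.log_nonneg (by exact_mod_cast (by omega : 1 ≤ q))
  have hlA : 0 ≤ Real.log A := Real.log_nonneg hA'
  have h1 : Real.log ((A * (k + 1) ^ d : ℕ) : ℝ) ≤ (Real.log A + d) * ((k : ℝ) + 1) := by
    push_cast
    rw [Real.log_mul (by linarith) (by positivity), Real.log_pow, add_mul]
    have h2 : Real.log ((k : ℝ) + 1) ≤ (k : ℝ) + 1 := (Real.log_le_sub_one_of_pos (by linarith)).trans
      (by linarith)
    have h3 : Real.log A ≤ Real.log A * ((k : ℝ) + 1) := le_mul_of_one_le_right hlA hk1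
    have h4 : (d : ℝ) * Real.log ((k : ℝ) + 1) ≤ d * ((k : ℝ) + 1) :=
      mul_le_mul_of_nonneg_left h2 (Nat.cast_nonneg _)
    linarith
  rw [Real.log_mul (by positivity) (by positivity), Real.log_pow, Real.log_pow, Real.log_pow,
    Real.log_pow]
  have h5 : (k : ℝ) * Real.log q ≤ Real.log q * ((k : ℝ) + 1) ^ (d + 1) := by
    rw [mul_comm]
    refine mul_le_mul_of_nonneg_left ?_ hlq
    have h6 : (k : ℝ) + 1 ≤ ((k : ℝ) + 1) ^ (d + 1) := le_self_pow₀ hk1 (by omega)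
    linarith
  have h7 : (((k + 1) ^ d : ℕ) : ℝ) * ((B : ℝ) * ((K : ℝ) *
      Real.log ((A * (k + 1) ^ d : ℕ) : ℝ))) ≤
      K * B * (Real.log A + d) * ((k : ℝ) + 1) ^ (d + 1) := by
    have h8 : (((k + 1) ^ d : ℕ) : ℝ) = ((k : ℝ) + 1) ^ d := by push_cast; rfl
    rw [h8]
    have h9 : ((k : ℝ) + 1) ^ d * ((B : ℝ) * ((K : ℝ) * Real.log ((A * (k + 1) ^ d : ℕ) : ℝ))) ≤
        ((k : ℝ) + 1) ^ d * ((B : ℝ) * ((K : ℝ) * ((Real.log A + d) * ((k : ℝ) + 1)))) := by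
      gcongr
    refine h9.trans (le_of_eq ?_)
    ring
  linarith

/-- colours with few values: two points with the same colour are close on a long interval -/
theorem gx_words {q : ℕ} (hq : 2 ≤ q) (D d K : ℕ) {δ : ℝ} (hδ : 0 < δ) :
    ∃ C : ℝ, 0 ≤ C ∧ ∀ k : ℕ, ∃ (M : ℕ) (c : (ℕ → ℕ → UnitAddCircle) → Fin M),
      Real.log M ≤ C * ((k : ℝ) + 1) ^ (d + 1) ∧
      ∀ x ∈ GX q D d, ∀ y ∈ GX q D d, c x = c y →
        ∀ i < q ^ k, ∀ κ < K, dist (x i κ) (y i κ) < δ := by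
  classical
  obtain ⟨A, hA⟩ := exists_nat_gt (1 / δ)
  have hA0 : (0 : ℝ) < A := lt_trans (by positivity) hA
  have hA1 : 1 ≤ A := by
    have : 0 < A := by exact_mod_cast hA0
    omega
  have hlq : 0 ≤ Real.log q := Real.log_nonneg (by exact_mod_cast (by omega : 1 ≤ q))
  have hlA : 0 ≤ Real.log A := Real.log_nonneg (by exact_mod_cast hA1)
  refine ⟨Real.log q + K * ((q ^ (D + 1)) ^ d : ℕ) * (Real.log A + d), by positivity, fun k => ?_⟩
  obtain ⟨Q, hQ⟩ : ∃ Q, Q = A * (k + 1) ^ d := ⟨_, rfl⟩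
  have hQ0 : 0 < Q := by
    rw [hQ]
    exact Nat.mul_pos (by omega) (Nat.pow_pos (by omega))
  obtain ⟨f, hf⟩ := ent_rd hQ0
  choose s F hF using ent_key hq D d k
  refine ⟨Fintype.card (Fin (q ^ k) × ((Fin d → Fin (k + 1)) → (Fin d → Fin (q ^ (D + 1))) →
    Fin K → Fin Q)), fun x => Fintype.equivFin _ (s x, fun j z κ =>
      f (F x (fun a => j a) (fun a => z a) κ)), ?_, ?_⟩
  · rw [Fintype.card_prod, Fintype.card_fun, Fintype.card_fun, Fintype.card_fun, Fintype.card_fun,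
      Fintype.card_fun, Fintype.card_fin, Fintype.card_fin, Fintype.card_fin, Fintype.card_fin,
      Fintype.card_fin, Fintype.card_fin]
    have h1 := ent_log hq A ((q ^ (D + 1)) ^ d) K d k hA1
    rw [← hQ] at h1
    refine le_trans (le_of_eq ?_) h1
    push_cast
    rfl
  · intro x hx y hy hxy i hi κ hκ
    have h1 := (Fintype.equivFin _).injective hxy
    have hs : s x = s y := congrArg Prod.fst h1
    have hfF : ∀ (j : Fin d → ℕ) (z : Fin d → ℕ), (∀ a, j a < k + 1) →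
        (∀ a, z a < q ^ (D + 1)) → dist (F x j z κ) (F y j z κ) ≤ 1 / Q := by
      intro j z hj hz
      refine hf _ _ ?_
      have h2 := congrFun (congrFun (congrFun (congrArg Prod.snd h1)
        (fun a => (⟨j a, hj a⟩ : Fin (k + 1)))) (fun a => (⟨z a, hz a⟩ : Fin (q ^ (D + 1)))))
        (⟨κ, hκ⟩ : Fin K)
      exact h2
    have hwd : ∀ a m, wd q D a m < q ^ (D + 1) := fun a m =>
      Nat.mod_lt _ (Nat.pow_pos (by omega))
    rw [hF x hx i hi, hF y hy i hi, ← hs]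
    unfold phd
    rw [Finset.sum_apply, Finset.sum_apply]
    have h3 : dist (∑ j ∈ Fintype.piFinset (fun _ : Fin d => range (k + 1)),
          F x j (fun a => wd q D (j a) (i + s x)) κ)
        (∑ j ∈ Fintype.piFinset (fun _ : Fin d => range (k + 1)),
          F y j (fun a => wd q D (j a) (i + s x)) κ) ≤
        ∑ j ∈ Fintype.piFinset (fun _ : Fin d => range (k + 1)), (1 / Q : ℝ) := by
      refine (dist_sum_sum_le _ _ _).trans (sum_le_sum fun j hj => ?_)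
      rw [Fintype.mem_piFinset] at hj
      exact hfF j _ (fun a => mem_range.1 (hj a)) fun a => hwd _ _
    refine lt_of_le_of_lt h3 ?_
    rw [sum_const, Fintype.card_piFinset, prod_const, card_univ, Fintype.card_fin, card_range,
      nsmul_eq_mul, hQ]
    push_cast
    have hk : (0 : ℝ) < ((k : ℝ) + 1) ^ d := by positivity
    have h4 : ((k : ℝ) + 1) ^ d * (1 / (A * ((k : ℝ) + 1) ^ d)) = 1 / A := by
      field_simp
    rw [h4]
    rw [one_div, inv_lt_comm₀ hA0 hδ, ← one_div]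
    exact hA

/-- **zero entropy** -/
theorem gx_entropy {q : ℕ} (hq : 2 ≤ q) (D d : ℕ) :
    Dynamics.coverEntropy (fun (x : ℕ → ℕ → UnitAddCircle) i => x (i + 1))
      (closure (GX q D d)) = 0 := by
  have hcont : Continuous (fun (x : ℕ → ℕ → UnitAddCircle) i => x (i + 1)) :=
    continuous_pi fun i => continuous_apply (i + 1)
  apply le_antisymm
  · rw [Dynamics.coverEntropy_closure hcont]
    have hmaps : Set.MapsTo (fun (x : ℕ → ℕ → UnitAddCircle) i => x (i + 1)) (GX q D d)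
        (GX q D d) := by
      rintro x ⟨L, s, F, h⟩
      refine ⟨L, s + 1, F, fun n => ?_⟩
      show x (n + 1) = _
      rw [h (n + 1)]
      congr 1
      omega
    let _ : PseudoMetricSpace (ℕ → ℕ → UnitAddCircle) :=
      UniformSpace.pseudoMetricSpace (ℕ → ℕ → UnitAddCircle)
    refine coverEntropy_le_zero hmaps ?_
    intro ε hε δ hδ
    obtain ⟨w, V, hV, hwV⟩ := ent_unif (A := ℕ → UnitAddCircle) (U := {p | dist p.1 p.2 < ε})
      (Metric.dist_mem_uniformity hε)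
    obtain ⟨K, V', hV', hKV⟩ := ent_unif (A := UnitAddCircle) hV
    obtain ⟨δ', hδ', hV''⟩ := Metric.mem_uniformity_dist.1 hV'
    obtain ⟨C, hC, hw⟩ := gx_words hq D d K hδ'
    obtain ⟨k, hk1, hk2⟩ := DI.UXD_growth hC hδ q w (d + 1) hq
    obtain ⟨M, c, hM, hc⟩ := hw k
    refine ⟨q ^ k - w, by omega, M, hM.trans (by rw [mul_comm]; exact hk2), c, ?_⟩
    intro x hx y hy hxy j hj
    apply hwV
    intro i hi
    apply hKV
    intro κ hκ
    apply hV''
    rw [PS.SubD2_iterate, PS.SubD2_iterate]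
    exact hc x hx y hy hxy (i + j) (by omega) κ hκ
  · exact Dynamics.coverEntropy_nonneg _ (gx_nonempty q D d).closure

end Pool.Agent.Lib.MP_3e612f_nt.RD
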