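import Pool.Agent.Lib.MP_3e612f_nt.RD.Defs

/-!
Maximal families of small degree.

`max_fam`. `F ⊆ G` maximal (finite set) with all degrees `deg_F j = ∑_{κ ∈ F, j ∈ vt κ} W κ ≤ 1` (the empty family
is one). If `κ ∈ G`, `κ ∉ F`, then `insert κ F` violates the condition at some `j ∈ vt κ`, so
`deg_F j > 1 - W κ ≥ 3/4`. `E` = the set of the `j` with `deg_F j > 3/4`; `3/4 |E| ≤ ∑_j deg_F j ≤ k W(F)`; the
`κ ∈ G` without vertices in `E` are in `F`.

-/

set_option autoImplicit false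

namespace Pool.Agent.Lib.MP_3e612f_nt.RD

open Finset
open Pool.Agent.Lib.MP_3e612f_nt.PI (ee)
open Pool.Agent.Lib.MP_3e612f_nt.DI (av pr)

/-- a maximal family of degrees at most `1` -/
theorem max_fam {ι Q : Type} [Fintype ι] [DecidableEq ι] [DecidableEq Q] (vt : Q → Finset ι) (k : ℕ)
    (hk : ∀ κ, (vt κ).card ≤ k) (W : Q → ℝ) (hW : ∀ κ, 0 ≤ W κ) (hW4 : ∀ κ, W κ ≤ 1 / 4)
    (G : Finset Q) :
    ∃ F ⊆ G, (∀ j, ∑ κ ∈ F.filter (fun κ => j ∈ vt κ), W κ ≤ 1) ∧
      ∃ E : Finset ι, (E.card : ℝ) * (3 / 4) ≤ k * ∑ κ ∈ F, W κ ∧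
        ∀ κ ∈ G, Disjoint (vt κ) E → κ ∈ F := by
  classical
  set deg : Finset Q → ι → ℝ := fun F j => ∑ κ ∈ F.filter (fun κ => j ∈ vt κ), W κ with hdeg
  obtain ⟨F, hF, hmax⟩ := Finset.exists_max_image
    (G.powerset.filter fun F => ∀ j, deg F j ≤ 1) (fun F => F.card)
    ⟨∅, by simp [hdeg]⟩
  rw [mem_filter, mem_powerset] at hF
  refine ⟨F, hF.1, hF.2, univ.filter (fun j => 3 / 4 < deg F j), ?_, ?_⟩
  · have h1 : ((univ.filter (fun j => 3 / 4 < deg F j)).card : ℝ) * (3 / 4)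
        ≤ ∑ j ∈ univ.filter (fun j => 3 / 4 < deg F j), deg F j := by
      have := Finset.card_nsmul_le_sum (univ.filter (fun j => 3 / 4 < deg F j)) (deg F) (3 / 4)
        (fun j hj => (mem_filter.1 hj).2.le)
      simpa [nsmul_eq_mul] using this
    have h0 : ∀ j, 0 ≤ deg F j := fun j => sum_nonneg fun κ _ => hW κ
    have h2 : ∑ j ∈ univ.filter (fun j => 3 / 4 < deg F j), deg F j ≤ ∑ j, deg F j :=
      sum_le_sum_of_subset_of_nonneg (filter_subset _ _) fun j _ _ => h0 j
    have h3 : ∑ j, deg F j = ∑ κ ∈ F, ((vt κ).card : ℝ) * W κ := by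
      simp only [hdeg, sum_filter]
      rw [sum_comm]
      refine sum_congr rfl fun κ _ => ?_
      rw [← sum_filter, sum_const, nsmul_eq_mul]
      congr 2
      congr 1
      ext j
      simp
    have h4 : ∑ κ ∈ F, ((vt κ).card : ℝ) * W κ ≤ k * ∑ κ ∈ F, W κ := by
      rw [mul_sum]
      refine sum_le_sum fun κ _ => mul_le_mul_of_nonneg_right ?_ (hW κ)
      exact_mod_cast hk κ
    linarith
  · intro κ hκ hd
    by_contra hn
    have hins : insert κ F ∈ G.powerset.filter fun F => ∀ j, deg F j ≤ 1 := by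
      rw [mem_filter, mem_powerset]
      refine ⟨insert_subset hκ hF.1, fun j => ?_⟩
      simp only [hdeg, filter_insert]
      split_ifs with hj
      · rw [sum_insert (by simp [hn])]
        have hjE : j ∉ univ.filter (fun j => 3 / 4 < deg F j) := fun h =>
          (Finset.disjoint_left.1 hd) hj h
        have h5 : deg F j ≤ 3 / 4 := by
          by_contra h
          exact hjE (mem_filter.2 ⟨mem_univ _, not_le.1 h⟩)
        have := hW4 κ
        simp only [hdeg] at h5
        linarith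
      · exact hF.2 j
    have := hmax _ hins
    rw [card_insert_of_notMem hn] at this
    omega

end Pool.Agent.Lib.MP_3e612f_nt.RD
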