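import Pool.Agent.Lib.MP_3e612f_nt.RD.Cls

/-!
Trigonometric polynomials are dense in the continuous functions on `(ℝ/ℤ)^(ℕ × ℕ)`.

PROOF. Stone - Weierstrass (`ContinuousMap.starSubalgebra_topologicalClosure_eq_top_of_separatesPoints`): the characters
`x ↦ et (∑_{i < I, k < I} c i k • x i k)`, `c : ℕ → ℕ → ℤ`, form a submonoid of `C(ℕ → ℕ → ℝ/ℤ, ℂ)` closed under `star`, and they separate
the points (`et` is injective: `AddCircle.injective_toCircle`). See `prodB`, `prodA`, `prodA_dense` in `LO/R/Lus.lean` for the same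
argument. An element of the span is a finite sum; take the maximum of the `I` and put `c i k = 0` for larger `i`, `k`.
-/

set_option autoImplicit false

namespace Pool.Agent.Lib.MP_3e612f_nt.RD

open Finset

/-- the index of a character: integers which vanish outside a square -/
private def Sq (I : ℕ) (c : ℕ → ℕ → ℤ) : Prop := ∀ i k, I ≤ i ∨ I ≤ k → c i k = 0

/-- the sum over a larger square -/
private theorem sq_sum {I J : ℕ} (h : I ≤ J) {c : ℕ → ℕ → ℤ} (hc : Sq I c)
    (x : ℕ → ℕ → UnitAddCircle) : ∑ i ∈ range J, ∑ k ∈ range J, c i k • x i k =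
      ∑ i ∈ range I, ∑ k ∈ range I, c i k • x i k := by
  have h1 : ∀ i, ∑ k ∈ range J, c i k • x i k = ∑ k ∈ range I, c i k • x i k := by
    intro i
    refine (Finset.sum_subset (range_subset_range.2 h) fun k _ hk => ?_).symm
    rw [mem_range, not_lt] at hk
    rw [hc i k (Or.inr hk), zero_smul]
  simp only [h1]
  refine (Finset.sum_subset (range_subset_range.2 h) fun i _ hi => ?_).symm
  rw [mem_range, not_lt] at hi
  refine Finset.sum_eq_zero fun k _ => ?_
  rw [hc i k (Or.inl hi), zero_smul]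

private theorem sq_mono {I J : ℕ} (h : I ≤ J) {c : ℕ → ℕ → ℤ} (hc : Sq I c) : Sq J c := by
  intro i k hik
  refine hc i k ?_
  rcases hik with h1 | h1
  · exact Or.inl (h.trans h1)
  · exact Or.inr (h.trans h1)

/-- the characters -/
private def chars : Submonoid C(ℕ → ℕ → UnitAddCircle, ℂ) where
  carrier := {F | ∃ (I : ℕ) (c : ℕ → ℕ → ℤ), Sq I c ∧
    ∀ x, F x = et (∑ i ∈ range I, ∑ k ∈ range I, c i k • x i k)}
  one_mem' := ⟨0, fun _ _ => 0, fun _ _ _ => rfl, fun x => by
    rw [range_zero, sum_empty, et_zero]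
    rfl⟩
  mul_mem' := by
    rintro F F' ⟨I, c, h1, h2⟩ ⟨I', c', h1', h2'⟩
    refine ⟨max I I', fun i k => c i k + c' i k, fun i k hik => ?_, fun x => ?_⟩
    · beta_reduce
      rw [sq_mono (le_max_left I I') h1 i k hik, sq_mono (le_max_right I I') h1' i k hik, add_zero]
    · rw [ContinuousMap.mul_apply, h2, h2', ← sq_sum (le_max_left I I') h1,
        ← sq_sum (le_max_right I I') h1', ← et_add, ← Finset.sum_add_distrib]
      congr 1
      refine Finset.sum_congr rfl fun i _ => ?_
      rw [← Finset.sum_add_distrib]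
      exact Finset.sum_congr rfl fun k _ => (add_smul _ _ _).symm

private theorem chars_star {F : C(ℕ → ℕ → UnitAddCircle, ℂ)} (hF : F ∈ chars) :
    star F ∈ chars := by
  obtain ⟨I, c, h1, h2⟩ := hF
  refine ⟨I, fun i k => -c i k, fun i k hik => by beta_reduce; rw [h1 i k hik, neg_zero],
    fun x => ?_⟩
  have e : ∑ i ∈ range I, ∑ k ∈ range I, (-c i k) • x i k =
      -∑ i ∈ range I, ∑ k ∈ range I, c i k • x i k := by
    rw [← Finset.sum_neg_distrib]
    refine Finset.sum_congr rfl fun i _ => ?_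
    rw [← Finset.sum_neg_distrib]
    exact Finset.sum_congr rfl fun k _ => neg_smul _ _
  rw [ContinuousMap.star_apply, h2, e, et_neg]
  rfl

/-- the star algebra of the trigonometric polynomials -/
private noncomputable def trigs : StarSubalgebra ℂ C(ℕ → ℕ → UnitAddCircle, ℂ) where
  toSubalgebra := Algebra.adjoin ℂ (chars : Set C(ℕ → ℕ → UnitAddCircle, ℂ))
  star_mem' := by
    intro F hF
    refine Algebra.adjoin_induction (p := fun F _ => star F ∈
      (Algebra.adjoin ℂ (chars : Set C(ℕ → ℕ → UnitAddCircle, ℂ)) : Subalgebra ℂ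
        C(ℕ → ℕ → UnitAddCircle, ℂ)))
      (fun G hG => Algebra.subset_adjoin (chars_star hG)) (fun r => ?_) (fun G G' _ _ h h' => ?_)
      (fun G G' _ _ h h' => ?_) hF
    · rw [← algebraMap_star_comm]
      exact Subalgebra.algebraMap_mem _ _
    · rw [star_add]
      exact add_mem h h'
    · rw [star_mul]
      exact mul_mem h' h

private theorem et_cont : Continuous et :=
  continuous_subtype_val.comp AddCircle.continuous_toCircle

private theorem et_inj {x y : UnitAddCircle} (h : et x = et y) : x = y :=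
  AddCircle.injective_toCircle one_ne_zero (Subtype.ext h)

private theorem trigs_sep : trigs.SeparatesPoints := by
  intro x x' hne
  obtain ⟨i, k, hik⟩ : ∃ i k, x i k ≠ x' i k := by
    by_contra h
    push Not at h
    exact hne (funext fun i => funext fun k => h i k)
  have hc : Continuous fun y : ℕ → ℕ → UnitAddCircle => et (y i k) :=
    et_cont.comp ((continuous_apply k).comp (continuous_apply i))
  refine ⟨_, ⟨⟨fun y => et (y i k), hc⟩, Algebra.subset_adjoin ⟨max i k + 1,
    fun i' k' => if i' = i ∧ k' = k then 1 else 0, fun i' k' h => ?_, fun y => ?_⟩, rfl⟩,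
    fun h => hik (et_inj h)⟩
  · refine if_neg ?_
    rintro ⟨rfl, rfl⟩
    have h1 := le_max_left i' k'
    have h2 := le_max_right i' k'
    rcases h with h | h <;> omega
  · show et (y i k) = _
    congr 1
    rw [Finset.sum_eq_single i]
    · rw [Finset.sum_eq_single k]
      · beta_reduce
        rw [if_pos ⟨rfl, rfl⟩, one_smul]
      · intro k' _ hk'
        beta_reduce
        rw [if_neg (fun h => hk' h.2), zero_smul]
      · intro h
        exact absurd (mem_range.2 (Nat.lt_succ_of_le (le_max_right i k))) h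
    · intro i' _ hi'
      refine Finset.sum_eq_zero fun k' _ => ?_
      beta_reduce
      rw [if_neg (fun h => hi' h.1), zero_smul]
    · intro h
      exact absurd (mem_range.2 (Nat.lt_succ_of_le (le_max_left i k))) h

/-- a linear combination of characters -/
private theorem span_form {F : C(ℕ → ℕ → UnitAddCircle, ℂ)}
    (hF : F ∈ Submodule.span ℂ (chars : Set C(ℕ → ℕ → UnitAddCircle, ℂ))) :
    ∃ (I R : ℕ) (a : ℕ → ℂ) (c : ℕ → ℕ → ℕ → ℤ), (∀ r, Sq I (c r)) ∧
      ∀ x, F x = ∑ r ∈ range R, a r * et (∑ i ∈ range I, ∑ k ∈ range I, c r i k • x i k) := by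
  induction hF using Submodule.span_induction with
  | mem F hF =>
    obtain ⟨I, c, h1, h2⟩ := hF
    refine ⟨I, 1, fun _ => 1, fun _ => c, fun _ => h1, fun x => ?_⟩
    rw [h2, sum_range_one, one_mul]
  | zero =>
    refine ⟨0, 0, fun _ => 0, fun _ _ _ => 0, fun _ _ _ _ => rfl, fun x => ?_⟩
    rw [sum_range_zero]
    rfl
  | add F F' _ _ h h' =>
    obtain ⟨I, R, a, c, h1, h2⟩ := h
    obtain ⟨I', R', a', c', h1', h2'⟩ := h'
    refine ⟨max I I', R + R', fun r => if r < R then a r else a' (r - R),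
      fun r => if r < R then c r else c' (r - R), fun r => ?_, fun x => ?_⟩
    · beta_reduce
      by_cases hr : r < R
      · rw [if_pos hr]
        exact sq_mono (le_max_left I I') (h1 r)
      · rw [if_neg hr]
        exact sq_mono (le_max_right I I') (h1' _)
    · rw [ContinuousMap.add_apply, h2, h2', Finset.sum_range_add]
      congr 1
      · refine Finset.sum_congr rfl fun r hr => ?_
        beta_reduce
        rw [if_pos (mem_range.1 hr), if_pos (mem_range.1 hr), sq_sum (le_max_left I I') (h1 r)]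
      · refine Finset.sum_congr rfl fun r hr => ?_
        have h3 : ¬ R + r < R := by omega
        beta_reduce
        rw [if_neg h3, if_neg h3, Nat.add_sub_cancel_left, sq_sum (le_max_right I I') (h1' r)]
  | smul b F _ h =>
    obtain ⟨I, R, a, c, h1, h2⟩ := h
    refine ⟨I, R, fun r => b * a r, c, h1, fun x => ?_⟩
    rw [ContinuousMap.smul_apply, h2, smul_eq_mul, Finset.mul_sum]
    exact Finset.sum_congr rfl fun r _ => (mul_assoc _ _ _).symm

/-- **approximation by trigonometric polynomials** -/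
theorem trig_dense (f : (ℕ → ℕ → UnitAddCircle) → ℂ) (hf : Continuous f) {ε : ℝ} (hε : 0 < ε) :
    ∃ (I R : ℕ) (a : ℕ → ℂ) (c : ℕ → ℕ → ℕ → ℤ), ∀ x : ℕ → ℕ → UnitAddCircle,
      ‖f x - ∑ r ∈ range R, a r * et (∑ i ∈ range I, ∑ k ∈ range I, c r i k • x i k)‖ ≤ ε := by
  have htop := ContinuousMap.starSubalgebra_topologicalClosure_eq_top_of_separatesPoints
    trigs trigs_sep
  obtain ⟨f', hf'⟩ : ∃ f' : C(ℕ → ℕ → UnitAddCircle, ℂ), f' = ⟨f, hf⟩ := ⟨_, rfl⟩
  have h1 : f' ∈ trigs.topologicalClosure := by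
    rw [htop]
    exact trivial
  have h2 : f' ∈ closure ((trigs : StarSubalgebra ℂ C(ℕ → ℕ → UnitAddCircle, ℂ)) :
    Set C(ℕ → ℕ → UnitAddCircle, ℂ)) := h1
  obtain ⟨F, hF, hFd⟩ := Metric.mem_closure_iff.1 h2 ε hε
  have h3 : F ∈ Submodule.span ℂ (chars : Set C(ℕ → ℕ → UnitAddCircle, ℂ)) := by
    have h4 : F ∈ Subalgebra.toSubmodule
      (Algebra.adjoin ℂ (chars : Set C(ℕ → ℕ → UnitAddCircle, ℂ))) := hF
    rw [Algebra.adjoin_eq_span, Submonoid.closure_eq] at h4
    exact h4
  obtain ⟨I, R, a, c, -, h5⟩ := span_form h3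
  refine ⟨I, R, a, c, fun x => ?_⟩
  rw [← h5 x]
  have h6 : f x = f' x := by rw [hf']; rfl
  rw [h6, ← dist_eq_norm]
  exact (ContinuousMap.dist_apply_le_dist x).trans hFd.le

end Pool.Agent.Lib.MP_3e612f_nt.RD
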