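import Pool.Agent.Lib.MP_3e612f_nt.RD.Bas
import Pool.Agent.Lib.MP_3e612f_nt.RD.Corr
import Pool.Agent.Lib.MP_3e612f_nt.RD.Dec
import Pool.Agent.Lib.MP_3e612f_nt.RD.GlobS
import Pool.Agent.Lib.MP_3e612f_nt.EM.Glob
import Pool.Agent.Lib.MP_3e612f_nt.LO.D.Tr
import Pool.Agent.Lib.MP_3e612f_nt.RD.All

/-!
The theorem for all real digit polynomials.

PROOF of `rstep`. As `glob_step` (`EM/GlobC.lean`): `PB.katai_fin` (`A = 1`, `P0 = q`) gives `P`, `δ`; `corr_struct` for all pairs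
`p < r` of `P` (all prime to `q`); if for all pairs the correlations with `F` and `conj F` are at most `δ N` (apply with
`N' = N / r`; split the real and imaginary parts, perhaps with `δ / 2`), Katai applies to `Re F (n + s)`, `Im F (n + s)`; otherwise
`TopS` holds and `decomp` gives at most `Kc` functions in the class of degree `d' - 1`: `RO q d (d' - 1)` for `ε / (Kc + 1)`.
PROOF of `rall`. `RO q d d` by induction from `rbase` (`lpo_all`), for `C = 0`, `M = 1`, `φ = 0`, `g = 0`. `truncT` (`EM/GlobA.lean`):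
`h` may be replaced on `[s, s + N]` by a phase with windows at the positions `< K1 + 1`, `K1 = Nat.clog q N` (as `glob_trunc`).
-/

set_option autoImplicit false

namespace Pool.Agent.Lib.MP_3e612f_nt.RD

open Finset
open Pool.Agent.Lib.MP_3e612f_nt.PI (ee mc)
open Pool.Agent.Lib.MP_3e612f_nt.DI (av pr mlt)
open Pool.Agent.Lib.MP_3e612f_nt.EM

/-- the step -/
theorem rstep {q : ℕ} (hq : 2 ≤ q) {d d' : ℕ} (hd' : 1 ≤ d') (hdd : d' ≤ d)
    (h : RO q d (d' - 1)) : RO q d d' :=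
  rstep_aux hq hd' hdd h

/-- **Davenport - Hua for real digit polynomials** -/
theorem rall {q : ℕ} (hq : 2 ≤ q) {d : ℕ} (hd : 1 ≤ d) (D B : ℕ) {ε : ℝ} (hε : 0 < ε) :
    ∃ N0 : ℕ, ∀ N ≥ N0, ∀ (L s : ℕ) (I : Finset ℕ) (β : ℕ → ℂ) (h : ℕ → UnitAddCircle),
      I.card ≤ B → (∀ n, ‖β n‖ ≤ 1) → DepL q (q * q ^ D) I β → IsPL q (q * q ^ D) d L h →
      ‖∑ n ∈ Icc 1 N, mc n * (β (n + s) * et (h (n + s)))‖ ≤ ε * N := by
  exact rall_of_step hq (fun d' h1 h2 h => rstep hq h1 h2 h) D B hε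

end Pool.Agent.Lib.MP_3e612f_nt.RD
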