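import Pool.Agent.Lib.MP_3e612f_nt.RD.Glob
import Pool.Agent.Lib.MP_3e612f_nt.DI.U.Ph
import Pool.Agent.Lib.MP_3e612f_nt.EM.FinA

/-!
Sums of shifted real phases.

PROOF of `rshift`. Choose `R` with `q ^ R ≥ 8 I / ε` (and `R ≥ 1`). The `n ∈ [1, N]` with `(n + s) % q ^ R + I > q ^ R` are
at most `I (N / q ^ R + 2)` many (`LOD.base_count`, with `h = N + 1`), at most `ε / 4 N` for large `N`. For the others let
`v = (n + s) % q ^ R`, `v + I ≤ q ^ R`: by `DI.shift_lowd` (`K = R`, `j = i < I`) there are `f i` with `IsPhd q D d (f i)` and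
`phd q D d L (F i) (m + i) = f i m` for all `m` with `m % q ^ R = v`; the sum over `i` is `IsPhd` (`DI.IsPhd.sum`), so
`IsPL q (q * q ^ D) d L'` for some `L'` (`isPL_phm`, `phd` is `phm` with `m = q ^ (D + 1)`). The indicator `β` of `m % q ^ R = v` is
frozen, `DepL q (q * q ^ D) (range R) β` (the windows at the positions `< R` determine the digits below `R`). `rall` for each
`v < q ^ R` with `B = R` and `ε / (2 q ^ R)`.
-/

set_option autoImplicit false

namespace Pool.Agent.Lib.MP_3e612f_nt.RD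

open Finset
open Pool.Agent.Lib.MP_3e612f_nt.PI (ee mc wd)
open Pool.Agent.Lib.MP_3e612f_nt.DI (phd IsPhd shift_lowd)
open Pool.Agent.Lib.MP_3e612f_nt.EM

private theorem sh_pl {G : Type} [AddCommGroup G] {q D d : ℕ} (hq : 2 ≤ q) {f : ℕ → G}
    (hf : IsPhd q D d f) : ∃ L, IsPL q (q * q ^ D) d L f := by
  obtain ⟨L, F, rfl⟩ := hf
  have hm : 0 < q * q ^ D := Nat.mul_pos (by omega) (Nat.pow_pos (by omega))
  refine ⟨L, (isPL_phm hm F).congr fun n => ?_⟩
  unfold phd phm wd
  rw [pow_succ']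

private theorem sh_dep {q D R v : ℕ} : DepL q (q * q ^ D) (range R)
    (fun n => if n % q ^ R = v then (1 : ℂ) else 0) := by
  intro n n' h
  have h1 : n % q ^ R = n' % q ^ R := by
    rw [PI.WordsA_dig, PI.WordsA_dig]
    refine Finset.sum_congr rfl fun i hi => ?_
    have h2 := h i hi
    have h3 : n / q ^ i % q = n' / q ^ i % q := by
      have h4 : n / q ^ i % (q * q ^ D) % q = n / q ^ i % q :=
        Nat.mod_mod_of_dvd _ (dvd_mul_right q _)
      have h5 : n' / q ^ i % (q * q ^ D) % q = n' / q ^ i % q :=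
        Nat.mod_mod_of_dvd _ (dvd_mul_right q _)
      rw [← h4, ← h5, h2]
    rw [h3]
  show (if n % q ^ R = v then (1 : ℂ) else 0) = if n' % q ^ R = v then (1 : ℂ) else 0
  rw [h1]

private theorem sh_mc (n : ℕ) : ‖mc n‖ ≤ 1 := by
  unfold mc
  rw [Complex.norm_intCast]
  have h := ArithmeticFunction.abs_moebius_le_one (n := n)
  exact_mod_cast h

/-- **sums of shifted phases** -/
theorem rshift {q : ℕ} (hq : 2 ≤ q) {d : ℕ} (hd : 1 ≤ d) (D I : ℕ) {ε : ℝ} (hε : 0 < ε) :
    ∃ N0 : ℕ, ∀ N ≥ N0, ∀ (L s : ℕ) (F : ℕ → (Fin d → ℕ) → (Fin d → ℕ) → UnitAddCircle),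
      ‖∑ n ∈ Icc 1 N, mc n * et (∑ i ∈ range I, phd q D d L (F i) (n + s + i))‖ ≤ ε * N := by
  classical
  have hq1 : (1 : ℝ) < q := by exact_mod_cast (by omega : 1 < q)
  obtain ⟨R, hR⟩ := pow_unbounded_of_one_lt (8 * I / ε) hq1
  obtain ⟨E, hE⟩ : ∃ E : ℕ, E = q ^ R := ⟨_, rfl⟩
  have hE0 : 0 < E := by rw [hE]; exact Nat.pow_pos (by omega)
  have hER : (0 : ℝ) < E := by exact_mod_cast hE0
  have hE8 : 8 * I / ε < E := by
    rw [hE]; push_cast; exact hR
  obtain ⟨N1, hN1⟩ := rall hq hd D R (ε := ε / (2 * E)) (by positivity)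
  obtain ⟨N2, hN2⟩ := exists_nat_ge (1 + 16 * I / ε)
  refine ⟨max N1 N2, fun N hN L s F => ?_⟩
  have hNN1 : N1 ≤ N := (le_max_left _ _).trans hN
  have hNN2 : N2 ≤ N := (le_max_right _ _).trans hN
  -- the phases for the residues
  have hv : ∀ v, v + I ≤ E → ∃ (L' : ℕ) (h : ℕ → UnitAddCircle), IsPL q (q * q ^ D) d L' h ∧
      ∀ m, m % E = v → ∑ i ∈ range I, phd q D d L (F i) (m + i) = h m := by
    intro v hvI
    have h1 : ∀ i, i ∈ range I → ∃ f : ℕ → UnitAddCircle, IsPhd q D d f ∧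
        ∀ n, n % q ^ R = v → phd q D d L (F i) (n + i) = f n := by
      intro i hi
      rw [mem_range] at hi
      exact shift_lowd hq D d L R v i (by rw [← hE]; omega) (F i)
    choose! f hf using h1
    obtain ⟨L', hL'⟩ := sh_pl hq (DI.IsPhd.sum (range I) fun i hi => (hf i hi).1)
    refine ⟨L', fun n => ∑ i ∈ range I, f i n, hL', fun m hm => ?_⟩
    refine Finset.sum_congr rfl fun i hi => ?_
    rw [hE] at hm
    exact (hf i hi).2 m hm
  -- the sum over one residue class
  let G : ℕ → ℂ := fun n => mc n * et (∑ i ∈ range I, phd q D d L (F i) (n + s + i))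
  have hG : ∀ n, ‖G n‖ ≤ 1 := by
    intro n
    simp only [G]
    rw [norm_mul, norm_et, mul_one]
    exact sh_mc n
  have hcls : ∀ v, v + I ≤ E →
      ‖∑ n ∈ (Icc 1 N).filter (fun n => (n + s) % E = v), G n‖ ≤ ε / (2 * E) * N := by
    intro v hvI
    obtain ⟨L', h, hL', hh⟩ := hv v hvI
    have h1 := hN1 N hNN1 L' s (range R) (fun n => if n % q ^ R = v then (1 : ℂ) else 0) h
      (by rw [card_range]) (fun n => by
        show ‖(if n % q ^ R = v then (1 : ℂ) else 0)‖ ≤ 1
        split_ifs <;> simp) sh_dep hL'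
    refine le_trans (le_of_eq ?_) h1
    congr 1
    rw [Finset.sum_filter]
    refine Finset.sum_congr rfl fun n _ => ?_
    by_cases hn : (n + s) % E = v
    · rw [if_pos hn, if_pos (by rw [← hE]; exact hn), one_mul, ← hh _ hn]
    · rw [if_neg hn, if_neg (by rw [← hE]; exact hn), zero_mul, mul_zero]
  -- splitting
  have hsplit : ∑ n ∈ Icc 1 N, G n =
      ∑ n ∈ (Icc 1 N).filter (fun n => ¬ ((n + s) % E + I ≤ E)), G n +
        ∑ v ∈ (range E).filter (fun v => v + I ≤ E),
          ∑ n ∈ (Icc 1 N).filter (fun n => (n + s) % E = v), G n := by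
    rw [← Finset.sum_filter_add_sum_filter_not (Icc 1 N) (fun n => (n + s) % E + I ≤ E), add_comm]
    congr 1
    rw [← Finset.sum_fiberwise_of_maps_to (s := (Icc 1 N).filter (fun n => (n + s) % E + I ≤ E))
      (t := (range E).filter (fun v => v + I ≤ E)) (g := fun n => (n + s) % E)]
    · refine Finset.sum_congr rfl fun v hv' => ?_
      rw [mem_filter] at hv'
      refine Finset.sum_congr ?_ fun _ _ => rfl
      ext n
      simp only [mem_filter]
      constructor
      · rintro ⟨⟨h1, _⟩, h3⟩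
        exact ⟨h1, h3⟩
      · rintro ⟨h1, h3⟩
        exact ⟨⟨h1, by rw [h3]; exact hv'.2⟩, h3⟩
    · intro n hn
      rw [mem_filter] at hn ⊢
      exact ⟨mem_range.2 (Nat.mod_lt _ hE0), hn.2⟩
  have hbad : ‖∑ n ∈ (Icc 1 N).filter (fun n => ¬ ((n + s) % E + I ≤ E)), G n‖ ≤ ε / 4 * N := by
    have h1 : ‖∑ n ∈ (Icc 1 N).filter (fun n => ¬ ((n + s) % E + I ≤ E)), G n‖ ≤
        (((Icc 1 N).filter (fun n => ¬ ((n + s) % E + I ≤ E))).card : ℝ) := by
      refine (norm_sum_le _ _).trans ?_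
      calc _ ≤ ∑ _n ∈ (Icc 1 N).filter (fun n => ¬ ((n + s) % E + I ≤ E)), (1 : ℝ) :=
            Finset.sum_le_sum fun n _ => hG n
        _ = _ := by rw [Finset.sum_const, nsmul_eq_mul, mul_one]
    have h2 : ((Icc 1 N).filter (fun n => ¬ ((n + s) % E + I ≤ E))).card ≤
        I * ((N + 1) / E + 2) := by
      refine (card_le_card ?_).trans (LOD.base_count hE0 (N + 1) s I)
      refine filter_subset_filter _ fun n hn => ?_
      rw [mem_Icc] at hn
      rw [mem_range]
      omega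
    have h3 : (((Icc 1 N).filter (fun n => ¬ ((n + s) % E + I ≤ E))).card : ℝ) ≤
        I * ((N + 1) / E + 2) := by
      have h4 : ((((N + 1) / E : ℕ)) : ℝ) ≤ ((N : ℝ) + 1) / E := by
        have := @Nat.cast_div_le ℝ _ _ _ (N + 1) E
        push_cast at this
        exact this
      calc _ ≤ ((I * ((N + 1) / E + 2) : ℕ) : ℝ) := by exact_mod_cast h2
        _ = (I : ℝ) * ((((N + 1) / E : ℕ) : ℝ) + 2) := by push_cast; ring
        _ ≤ _ := by gcongr
    have h5 : (I : ℝ) * ((N + 1) / E) ≤ ε / 8 * (N + 1) := by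
      have h6 : (I : ℝ) / E ≤ ε / 8 := by
        rw [div_lt_iff₀ hε] at hE8
        rw [div_le_div_iff₀ hER (by norm_num)]
        linarith
      calc (I : ℝ) * ((N + 1) / E) = (I : ℝ) / E * (N + 1) := by ring
        _ ≤ _ := by gcongr
    have h7 : 1 + 16 * I / ε ≤ N := hN2.trans (by exact_mod_cast hNN2)
    have h8 : ε * (1 + 16 * I / ε) ≤ ε * N := mul_le_mul_of_nonneg_left h7 hε.le
    have h9 : ε * (1 + 16 * I / ε) = ε + 16 * I := by field_simp
    refine h1.trans (h3.trans ?_)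
    rw [mul_add]
    linarith
  have hgood : ‖∑ v ∈ (range E).filter (fun v => v + I ≤ E),
      ∑ n ∈ (Icc 1 N).filter (fun n => (n + s) % E = v), G n‖ ≤ ε / 2 * N := by
    refine (norm_sum_le _ _).trans ?_
    calc _ ≤ ∑ _v ∈ (range E).filter (fun v => v + I ≤ E), ε / (2 * E) * N :=
          Finset.sum_le_sum fun v hv' => hcls v (mem_filter.1 hv').2
      _ = (((range E).filter (fun v => v + I ≤ E)).card : ℝ) * (ε / (2 * E) * N) := by
          rw [Finset.sum_const, nsmul_eq_mul]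
      _ ≤ (E : ℝ) * (ε / (2 * E) * N) := by
          refine mul_le_mul_of_nonneg_right ?_ (by positivity)
          have := card_filter_le (range E) (fun v => v + I ≤ E)
          rw [card_range] at this
          exact_mod_cast this
      _ = _ := by field_simp
  show ‖∑ n ∈ Icc 1 N, G n‖ ≤ ε * N
  rw [hsplit]
  refine (norm_add_le _ _).trans ?_
  have h10 : (0 : ℝ) ≤ ε * N := by positivity
  linarith

end Pool.Agent.Lib.MP_3e612f_nt.RD
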