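import Pool.Agent.Lib.MP_3e612f_nt.RD.Sh
import Pool.Agent.Lib.MP_3e612f_nt.RD.Four

/-!
The universal system of the real digit polynomials: Moebius disjointness, uniformly in the points.

PROOF of `gx_ms`. `trig_dense` for `ε / 2`: the sum for `f` is at most `ε / 2 N` plus the sum over `r` of `|a r|` times the sum
for one character; for `x ∈ GX`, `x n = phd q D d L F (n + s)`: `∑_{i, k < I} c r i k • x (n + i) k` is
`∑_{i < I} phd q D d L (F' i) (n + s + i)` with `F' i j w = ∑_{k < I} c r i k • F j w k` (`phd` is additive); `rshift` for every `r` with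
`ε / (2 (∑ |a r| + 1))`. This proves the bound for `x ∈ GX`; for fixed `N` the set of `x` with the bound is closed
(the left side is a continuous function of `x`), so it contains `closure GX`.
-/

set_option autoImplicit false

namespace Pool.Agent.Lib.MP_3e612f_nt.RD

open Finset
open Pool.Agent.Lib.MP_3e612f_nt.PI (ee mc wd)
open Pool.Agent.Lib.MP_3e612f_nt.DI (phd IsPhd shift_lowd)
open Pool.Agent.Lib.MP_3e612f_nt.EM

/-- the digit polynomials of degree `≤ d` with values in `(ℝ/ℤ)^ℕ`, windows of `D + 1` digits -/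
def GX (q D d : ℕ) : Set (ℕ → ℕ → UnitAddCircle) :=
  {x | ∃ (L s : ℕ) (F : (Fin d → ℕ) → (Fin d → ℕ) → ℕ → UnitAddCircle),
    ∀ n, x n = phd q D d L F (n + s)}

theorem gx_nonempty (q D d : ℕ) : (GX q D d).Nonempty :=
  ⟨fun n => phd q D d 0 (fun _ _ => 0) (n + 0), 0, 0, fun _ _ => 0, fun _ => rfl⟩

/-- the closure is shift invariant -/
theorem gx_shift (q D d : ℕ) : Set.MapsTo (fun (x : ℕ → ℕ → UnitAddCircle) i => x (i + 1))
    (closure (GX q D d)) (closure (GX q D d)) := by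
  refine Set.MapsTo.closure ?_ (continuous_pi fun i => continuous_apply (i + 1))
  rintro x ⟨L, s, F, hx⟩
  refine ⟨L, s + 1, F, fun n => ?_⟩
  show x (n + 1) = _
  rw [hx (n + 1)]
  congr 1
  omega

/-- integer combinations of the coordinates of a phase -/
private theorem usd_phd (q D d L I : ℕ) (F : (Fin d → ℕ) → (Fin d → ℕ) → ℕ → UnitAddCircle)
    (c : ℕ → ℤ) (m : ℕ) :
    ∑ k ∈ range I, c k • phd q D d L F m k =
      phd q D d L (fun j w => ∑ k ∈ range I, c k • F j w k) m := by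
  unfold phd
  rw [Finset.sum_comm]
  refine Finset.sum_congr rfl fun k _ => ?_
  rw [Finset.sum_apply, Finset.smul_sum]

private theorem usd_gx {q : ℕ} (hq : 2 ≤ q) {d : ℕ} (hd : 1 ≤ d) (D : ℕ)
    (f : (ℕ → ℕ → UnitAddCircle) → ℂ) (hf : Continuous f) {ε : ℝ} (hε : 0 < ε) :
    ∃ N0 : ℕ, ∀ N ≥ N0, ∀ x ∈ GX q D d,
      ‖∑ n ∈ Icc 1 N, mc n * f (fun i => x (i + n))‖ ≤ ε * N := by
  obtain ⟨I, R, a, c, htd⟩ := trig_dense f hf (half_pos hε)
  obtain ⟨A, hA⟩ : ∃ A : ℝ, A = ∑ r ∈ range R, ‖a r‖ := ⟨_, rfl⟩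
  have hA0 : 0 ≤ A := by
    rw [hA]
    exact Finset.sum_nonneg fun _ _ => norm_nonneg _
  obtain ⟨N0, hN0⟩ := rshift hq hd D I (ε := ε / (2 * (A + 1))) (by positivity)
  refine ⟨N0, fun N hN x hx => ?_⟩
  obtain ⟨L, s, F, hx⟩ := hx
  have e1 : ∑ n ∈ Icc 1 N, mc n * f (fun i => x (i + n)) =
      ∑ n ∈ Icc 1 N, mc n * (f (fun i => x (i + n)) - ∑ r ∈ range R, a r *
        et (∑ i ∈ range I, ∑ k ∈ range I, c r i k • x (i + n) k)) +
      ∑ r ∈ range R, a r * ∑ n ∈ Icc 1 N, mc n *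
        et (∑ i ∈ range I, phd q D d L (fun j w => ∑ k ∈ range I, c r i k • F j w k)
          (n + s + i)) := by
    have e2 : ∑ r ∈ range R, a r * ∑ n ∈ Icc 1 N, mc n *
        et (∑ i ∈ range I, phd q D d L (fun j w => ∑ k ∈ range I, c r i k • F j w k)
          (n + s + i)) = ∑ n ∈ Icc 1 N, mc n * ∑ r ∈ range R, a r *
        et (∑ i ∈ range I, ∑ k ∈ range I, c r i k • x (i + n) k) := by
      simp only [Finset.mul_sum]
      rw [Finset.sum_comm]
      refine Finset.sum_congr rfl fun n _ => Finset.sum_congr rfl fun r _ => ?_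
      have e3 : ∑ i ∈ range I, phd q D d L (fun j w => ∑ k ∈ range I, c r i k • F j w k)
          (n + s + i) = ∑ i ∈ range I, ∑ k ∈ range I, c r i k • x (i + n) k := by
        refine Finset.sum_congr rfl fun i _ => ?_
        rw [← usd_phd]
        refine Finset.sum_congr rfl fun k _ => ?_
        rw [hx (i + n), show n + s + i = i + n + s by omega]
      rw [e3]
      ring
    rw [e2, ← Finset.sum_add_distrib]
    exact Finset.sum_congr rfl fun n _ => by ring
  rw [e1]
  have hN : ∀ r, ‖∑ n ∈ Icc 1 N, mc n *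
        et (∑ i ∈ range I, phd q D d L (fun j w => ∑ k ∈ range I, c r i k • F j w k)
          (n + s + i))‖ ≤ ε / (2 * (A + 1)) * N := fun r =>
    hN0 N hN L s fun i j w => ∑ k ∈ range I, c r i k • F j w k
  refine (norm_add_le _ _).trans ?_
  have h1 : ‖∑ n ∈ Icc 1 N, mc n * (f (fun i => x (i + n)) - ∑ r ∈ range R, a r *
        et (∑ i ∈ range I, ∑ k ∈ range I, c r i k • x (i + n) k))‖ ≤ ε / 2 * N := by
    refine (norm_sum_le _ _).trans ((Finset.sum_le_card_nsmul _ _ (ε / 2) fun n _ => ?_).trans ?_)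
    · rw [norm_mul]
      exact (mul_le_of_le_one_left (norm_nonneg _) (LOD.base_norm_mc _)).trans
        (htd fun i => x (i + n))
    · rw [Nat.card_Icc, Nat.add_sub_cancel, nsmul_eq_mul]
      exact le_of_eq (mul_comm _ _)
  have h2 : ‖∑ r ∈ range R, a r * ∑ n ∈ Icc 1 N, mc n *
        et (∑ i ∈ range I, phd q D d L (fun j w => ∑ k ∈ range I, c r i k • F j w k)
          (n + s + i))‖ ≤ ε / 2 * N := by
    have h3 : ∀ r ∈ range R, ‖a r * ∑ n ∈ Icc 1 N, mc n *
        et (∑ i ∈ range I, phd q D d L (fun j w => ∑ k ∈ range I, c r i k • F j w k)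
          (n + s + i))‖ ≤ ‖a r‖ * (ε / (2 * (A + 1)) * N) := by
      intro r _
      rw [norm_mul]
      exact mul_le_mul_of_nonneg_left (hN r) (norm_nonneg _)
    refine (norm_sum_le _ _).trans ((Finset.sum_le_sum h3).trans ?_)
    rw [← Finset.sum_mul, ← hA]
    have h4 : A * (ε / (2 * (A + 1)) * N) = ε / 2 * N * (A / (A + 1)) := by
      field_simp
    rw [h4]
    refine mul_le_of_le_one_right (by positivity) ?_
    rw [div_le_one (by positivity)]
    linarith
  linarith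

/-- **Moebius disjointness** -/
theorem gx_ms {q : ℕ} (hq : 2 ≤ q) {d : ℕ} (hd : 1 ≤ d) (D : ℕ)
    (f : (ℕ → ℕ → UnitAddCircle) → ℂ) (hf : Continuous f) {ε : ℝ} (hε : 0 < ε) :
    ∃ N0 : ℕ, ∀ N ≥ N0, ∀ x ∈ closure (GX q D d),
      ‖∑ n ∈ Icc 1 N, mc n * f (fun i => x (i + n))‖ ≤ ε * N := by
  obtain ⟨N0, hN0⟩ := usd_gx hq hd D f hf hε
  refine ⟨N0, fun N hN x hx => ?_⟩
  have hcl : IsClosed {x : ℕ → ℕ → UnitAddCircle |
      ‖∑ n ∈ Icc 1 N, mc n * f (fun i => x (i + n))‖ ≤ ε * N} := by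
    refine isClosed_le (continuous_norm.comp (continuous_finsetSum _ fun n _ =>
      continuous_const.mul (hf.comp (continuous_pi fun i => continuous_apply (i + n)))))
      continuous_const
  exact closure_minimal (fun y hy => hN0 N hN y hy) hcl hx

end Pool.Agent.Lib.MP_3e612f_nt.RD
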