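import Pool.Agent.Lib.MP_3e612f_nt.RD.LoA

/-!
Littlewood - Offord in `ℝ/ℤ`.

`lo_bias`. `av_z et (∑ z_i t_i) = ∏ (1 + cos 2 π t_i) / 2 = ∏ cos² (π t_i)` and `cos² (π t) ≤ 1 - ‖t‖²` (even
`1 - 4 ‖t‖²`), so `∑ ‖t_i‖² ≤ log (1 / δ)`.

`lo_circle`. `R = ⌊1 / (2 τ)⌋`. Fejer: `‖x‖ ≤ τ` implies `|∑_{r < R} e(r x)|² ≥ (4 / π²) R²` (or with any other
constant instead of `4 / π²`, e.g. for `R = ⌊1 / (8 τ)⌋` the real parts are at least `1/2`). Hence
`η ≤ C R⁻² ∑_{r, r' < R} ∏_i cos² (π (r - r') t_i)`, so for `R ≥ R0` a positive proportion `η'` of the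
`1 ≤ k < R` satisfies `∏_i cos² (π k t_i) ≥ η'`, so `∑_i ‖k t_i‖² ≤ C`. Sum over these `k` and use `lo_dens`
for every `t_i`: `∑_i min (1, R² ‖M t_i‖²) ≤ C'`. Multiply by `τ²`.
-/

set_option autoImplicit false

namespace Pool.Agent.Lib.MP_3e612f_nt.RD

open Finset
open Pool.Agent.Lib.MP_3e612f_nt.PI (ee)
open Pool.Agent.Lib.MP_3e612f_nt.DI (av pr)

/-! ### Auxiliary lemmas -/

private theorem lc_add (a b : UnitAddCircle) : et (a + b) = et a * et b := by
  unfold et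
  rw [AddCircle.toCircle_add, Circle.coe_mul]

private theorem lc_zero : et 0 = 1 := by
  unfold et
  rw [AddCircle.toCircle_zero, Circle.coe_one]

private theorem lc_sum {ι : Type} (s : Finset ι) (f : ι → UnitAddCircle) :
    et (∑ i ∈ s, f i) = ∏ i ∈ s, et (f i) := by
  classical
  induction s using Finset.induction_on with
  | empty => rw [sum_empty, prod_empty, lc_zero]
  | insert i s hi ih => rw [sum_insert hi, prod_insert hi, lc_add, ih]

private theorem lc_norm (a : UnitAddCircle) : ‖et a‖ = 1 := Circle.norm_coe _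

private theorem lc_neg (a : UnitAddCircle) : et (-a) = (starRingEnd ℂ) (et a) := by
  unfold et
  rw [AddCircle.toCircle_neg, Circle.coe_inv_eq_conj]

private theorem lc_sub (a b : UnitAddCircle) : et (a - b) = et a * (starRingEnd ℂ) (et b) := by
  rw [sub_eq_add_neg, lc_add, lc_neg]

private theorem lc_rep (t : UnitAddCircle) :
    ∃ x : ℝ, |x| = ‖t‖ ∧ |x| ≤ 1 / 2 ∧ (et t).re = Real.cos (2 * Real.pi * x) := by
  obtain ⟨z, rfl⟩ := QuotientAddGroup.mk_surjective t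
  refine ⟨z - round z, (UnitAddCircle.norm_eq (x := z)).symm, abs_sub_round z, ?_⟩
  have h1 : et (z : UnitAddCircle) = Complex.exp (((2 * Real.pi * z : ℝ) : ℂ) * Complex.I) := by
    unfold et
    rw [AddCircle.toCircle_apply_mk, Circle.coe_exp]
    simp
  have h2 : (et (z : UnitAddCircle)).re = Real.cos (2 * Real.pi * z) := by
    rw [h1, Complex.exp_ofReal_mul_I_re]
  have h3 : 2 * Real.pi * (z - round z) = 2 * Real.pi * z - round z * (2 * Real.pi) := by ring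
  rw [h3, Real.cos_sub_int_mul_two_pi]
  exact h2

/-- the bias of one variable -/
private noncomputable def cf (t : UnitAddCircle) : ℝ := (1 + (et t).re) / 2

private theorem cf_nonneg (t : UnitAddCircle) : 0 ≤ cf t := by
  have h1 := (abs_le.1 ((Complex.abs_re_le_norm (et t)).trans (lc_norm t).le)).1
  unfold cf
  linarith

private theorem cf_le_one (t : UnitAddCircle) : cf t ≤ 1 := by
  have h1 := (abs_le.1 ((Complex.abs_re_le_norm (et t)).trans (lc_norm t).le)).2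
  unfold cf
  linarith

private theorem cf_neg (t : UnitAddCircle) : cf (-t) = cf t := by
  unfold cf
  rw [lc_neg, Complex.conj_re]

private theorem cf_le (t : UnitAddCircle) : cf t ≤ 1 - 4 * ‖t‖ ^ 2 := by
  obtain ⟨x, hx, hx2, hc⟩ := lc_rep t
  have hpi := Real.pi_pos
  have h1 : |2 * Real.pi * x| ≤ Real.pi := by
    rw [abs_mul, abs_of_pos (by positivity : 0 < 2 * Real.pi)]
    nlinarith
  have h3 : Real.cos (2 * Real.pi * x) ≤ 1 - 8 * x ^ 2 := by
    have h4 := Real.cos_le_one_sub_mul_cos_sq h1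
    have h5 : 2 / Real.pi ^ 2 * (2 * Real.pi * x) ^ 2 = 8 * x ^ 2 := by
      field_simp
      ring
    rw [h5] at h4
    exact h4
  unfold cf
  rw [hc, ← hx, sq_abs]
  linarith

private theorem lc_av (t : UnitAddCircle) :
    av (fun b : Bool × Bool => et (zz b • t)) = (cf t : ℂ) := by
  have h1 : et t + et (-t) = ((2 * (et t).re : ℝ) : ℂ) := by
    rw [lc_neg, Complex.add_conj]
  unfold av
  rw [Fintype.sum_prod_type, Fintype.sum_bool, Fintype.sum_bool, Fintype.sum_bool]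
  have h2 : (Fintype.card (Bool × Bool) : ℂ) = 4 := by
    simp
  rw [h2]
  have e1 : zz (true, true) = 0 := by simp [zz]
  have e2 : zz (true, false) = -1 := by simp [zz]
  have e3 : zz (false, true) = 1 := by simp [zz]
  have e4 : zz (false, false) = 0 := by simp [zz]
  rw [e1, e2, e3, e4, zero_smul, one_smul, neg_one_smul, lc_zero]
  have h3 : (1 : ℂ) + et (-t) + (et t + 1) = 2 + (et t + et (-t)) := by ring
  rw [h3, h1]
  unfold cf
  push_cast
  ring

private theorem lc_pi {ι E : Type} [Fintype ι] [DecidableEq ι] [Fintype E] (f : ι → E → ℂ) :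
    av (fun z : ι → E => ∏ i, f i (z i)) = ∏ i, av (f i) := by
  unfold av
  rw [Finset.prod_mul_distrib, Finset.prod_const, card_univ, Finset.prod_univ_sum,
    Fintype.piFinset_univ, Fintype.card_fun, Nat.cast_pow, inv_pow]

private theorem lc_bias {ι : Type} [Fintype ι] [DecidableEq ι] (t : ι → UnitAddCircle) (k : ℤ) :
    av (fun z : ι → Bool × Bool => et (k • ∑ i, zz (z i) • t i)) =
      ((∏ i, cf (k • t i) : ℝ) : ℂ) := by
  have h1 : ∀ z : ι → Bool × Bool, et (k • ∑ i, zz (z i) • t i) =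
      ∏ i, et (zz (z i) • (k • t i)) := by
    intro z
    rw [smul_sum, lc_sum]
    exact prod_congr rfl fun i _ => by rw [smul_comm]
  simp only [h1]
  rw [lc_pi fun i b => et (zz b • (k • t i)), Complex.ofReal_prod]
  exact prod_congr rfl fun i _ => lc_av _

private theorem lc_log {δ : ℝ} (hδ : 0 < δ) {ι : Type} [Fintype ι] (t : ι → UnitAddCircle)
    (h : δ ≤ ∏ i, cf (t i)) : ∑ i, ‖t i‖ ^ 2 ≤ |Real.log δ| := by
  have h1 : ∏ i, cf (t i) ≤ Real.exp (-4 * ∑ i, ‖t i‖ ^ 2) := by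
    rw [Finset.mul_sum, Real.exp_sum]
    refine prod_le_prod (fun i _ => cf_nonneg _) fun i _ => (cf_le _).trans ?_
    have := Real.add_one_le_exp (-4 * ‖t i‖ ^ 2)
    linarith
  have h2 := Real.log_le_log hδ (h.trans h1)
  rw [Real.log_exp] at h2
  have h3 := neg_abs_le (Real.log δ)
  have h4 : 0 ≤ ∑ i, ‖t i‖ ^ 2 := sum_nonneg fun i _ => by positivity
  linarith

/-- large bias of a linear form -/
theorem lo_bias {δ : ℝ} (hδ : 0 < δ) : ∃ C : ℝ, 0 ≤ C ∧ ∀ (ι : Type) [Fintype ι] [DecidableEq ι]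
    (t : ι → UnitAddCircle),
    δ ≤ ‖av fun z : ι → Bool × Bool => et (∑ i, zz (z i) • t i)‖ → ∑ i, ‖t i‖ ^ 2 ≤ C := by
  refine ⟨|Real.log δ|, abs_nonneg _, fun ι _ _ t h => lc_log hδ t ?_⟩
  have h1 := lc_bias t 1
  simp only [one_smul] at h1
  rw [h1, Complex.norm_real, Real.norm_of_nonneg (prod_nonneg fun i _ => cf_nonneg _)] at h
  exact h

/-- the Fejer sum at a small point -/
private theorem lc_fejer {R : ℕ} {τ : ℝ} (hR : R * τ ≤ 1 / 8) {x : UnitAddCircle}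
    (hx : ‖x‖ ≤ τ) : (R : ℝ) ^ 2 / 4 ≤ ‖∑ r ∈ range R, et (r • x)‖ ^ 2 := by
  have h1 : ∀ r ∈ range R, (1 : ℝ) / 2 ≤ (et (r • x)).re := by
    intro r hr
    obtain ⟨y, hy, -, hc⟩ := lc_rep (r • x)
    have h2 : |y| ≤ 1 / 8 := by
      rw [hy]
      refine norm_nsmul_le.trans (le_trans ?_ hR)
      have h3 : (r : ℝ) ≤ R := by exact_mod_cast (mem_range.1 hr).le
      exact mul_le_mul h3 hx (norm_nonneg _) (Nat.cast_nonneg _)
    have h4 := Real.one_sub_sq_div_two_le_cos (x := 2 * Real.pi * y)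
    rw [hc]
    refine le_trans ?_ h4
    have h5 : (2 * Real.pi * y) ^ 2 ≤ 1 := by
      rw [sq_le_one_iff_abs_le_one, abs_mul, abs_of_pos (by positivity : 0 < 2 * Real.pi)]
      have h6 := Real.pi_le_four
      have h7 := abs_nonneg y
      have h8 := Real.pi_pos
      nlinarith
    linarith
  have h2 : (R : ℝ) / 2 ≤ ‖∑ r ∈ range R, et (r • x)‖ := by
    refine le_trans ?_ (Complex.re_le_norm _)
    rw [Complex.re_sum]
    have h3 := card_nsmul_le_sum (range R) (fun r => (et (r • x)).re) (1 / 2) h1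
    rw [card_range, nsmul_eq_mul] at h3
    linarith
  have h3 : (0 : ℝ) ≤ (R : ℝ) / 2 := by positivity
  calc (R : ℝ) ^ 2 / 4 = ((R : ℝ) / 2) ^ 2 := by ring
    _ ≤ _ := pow_le_pow_left₀ h3 h2 2

/-- the differences of `r, r' < R` -/
private theorem lc_diff {g : ℕ → ℝ} (hg : ∀ k, 0 ≤ g k) (R r : ℕ) (hr : r < R) :
    ∑ r' ∈ range R, g (Int.natAbs ((r : ℤ) - r')) ≤ 2 * ∑ k ∈ range R, g k := by
  classical
  have hmaps : ∀ r' ∈ range R, Int.natAbs ((r : ℤ) - r') ∈ range R := by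
    intro r' hr'
    rw [mem_range] at hr' ⊢
    omega
  rw [← sum_fiberwise_of_maps_to hmaps, mul_sum]
  refine sum_le_sum fun k _ => ?_
  have h1 : ∑ r' ∈ (range R).filter (fun r' : ℕ => Int.natAbs ((r : ℤ) - (r' : ℤ)) = k),
      g (Int.natAbs ((r : ℤ) - r')) =
      (((range R).filter fun r' : ℕ => Int.natAbs ((r : ℤ) - (r' : ℤ)) = k).card : ℝ) * g k := by
    rw [sum_congr rfl fun r' hr' => by rw [(mem_filter.1 hr').2], sum_const, nsmul_eq_mul]
  rw [h1]
  refine mul_le_mul_of_nonneg_right ?_ (hg k)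
  have h2 : (range R).filter (fun r' : ℕ => Int.natAbs ((r : ℤ) - (r' : ℤ)) = k) ⊆ {r + k, r - k} := by
    intro r' hr'
    rw [mem_filter] at hr'
    rw [mem_insert, mem_singleton]
    have := hr'.2
    omega
  have h3 := (card_le_card h2).trans card_le_two
  exact_mod_cast h3

/-- **Littlewood - Offord in the circle** -/
theorem lo_circle {η : ℝ} (hη : 0 < η) : ∃ (M : ℕ) (C c0 : ℝ), 1 ≤ M ∧ 0 < C ∧ 0 < c0 ∧
    ∀ (ι : Type) [Fintype ι] [DecidableEq ι] (t : ι → UnitAddCircle) (τ : ℝ), 0 < τ → τ ≤ c0 →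
      η ≤ pr (fun z : ι → Bool × Bool => ‖∑ i, zz (z i) • t i‖ ≤ τ) →
      ∑ i, min (τ ^ 2) (‖M • t i‖ ^ 2) ≤ C * τ ^ 2 := by
  classical
  obtain ⟨M, R0, c, hM, hc, hdens⟩ := lo_dens (η := η / 32) (by positivity)
  have hC1 : 0 ≤ |Real.log (η / 32)| := abs_nonneg _
  refine ⟨M, 256 * (|Real.log (η / 32)| / c) + 1, 1 / (16 * (R0 + 16 / η + 1)), hM,
    by positivity, by positivity, fun ι _ _ t τ hτ hτ0 h => ?_⟩
  have hb : (0 : ℝ) < R0 + 16 / η + 1 := by positivity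
  have hτ1 : R0 + 16 / η + 1 ≤ 1 / (16 * τ) := by
    rw [le_div_iff₀ (by positivity)]
    rw [le_div_iff₀ (by positivity)] at hτ0
    linarith
  obtain ⟨R, hR⟩ : ∃ R, R = ⌊1 / (8 * τ)⌋₊ := ⟨_, rfl⟩
  have hR1 : (R : ℝ) ≤ 1 / (8 * τ) := by
    rw [hR]
    exact Nat.floor_le (by positivity)
  have hR2 : 1 / (8 * τ) < R + 1 := by
    rw [hR]
    exact Nat.lt_floor_add_one _
  have h8 : 1 / (8 * τ) = 1 / (16 * τ) + 1 / (16 * τ) := by
    field_simp
    norm_num
  have hη16 : 0 < 16 / η := by positivity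
  have hR00 : (0 : ℝ) ≤ R0 := Nat.cast_nonneg _
  have hR3 : 1 / (16 * τ) ≤ R := by linarith
  have hR4 : (R0 : ℝ) ≤ R := by linarith
  have hR5 : 16 / η ≤ R := by linarith
  have hRpos : (0 : ℝ) < R := lt_of_lt_of_le hη16 hR5
  have hRτ : R * τ ≤ 1 / 8 := by
    rw [le_div_iff₀ (by positivity)] at hR1
    linarith
  -- the Fejer sum
  obtain ⟨g, hgdef⟩ : ∃ g : ℕ → ℝ, g = fun k => ∏ i, cf (k • t i) := ⟨_, rfl⟩
  have hg0 : ∀ k, 0 ≤ g k := fun k => by
    rw [hgdef]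
    exact prod_nonneg fun i _ => cf_nonneg _
  have hg1 : ∀ k, g k ≤ 1 := fun k => by
    rw [hgdef]
    exact prod_le_one (fun i _ => cf_nonneg _) fun i _ => cf_le_one _
  have hgz : ∀ k : ℤ, ∏ i, cf (k • t i) = g k.natAbs := by
    intro k
    rw [hgdef]
    rcases Int.natAbs_eq k with hk | hk
    · conv_lhs => rw [hk]
      exact prod_congr rfl fun i _ => by rw [natCast_zsmul]
    · conv_lhs => rw [hk]
      exact prod_congr rfl fun i _ => by rw [neg_smul, cf_neg, natCast_zsmul]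
  have hav : (av fun z : ι → Bool × Bool =>
      ((‖∑ r ∈ range R, et (r • ∑ i, zz (z i) • t i)‖ ^ 2 : ℝ) : ℂ)).re =
      ∑ r ∈ range R, ∑ r' ∈ range R, g (Int.natAbs ((r : ℤ) - r')) := by
    have h1 : ∀ x : UnitAddCircle, ((‖∑ r ∈ range R, et (r • x)‖ ^ 2 : ℝ) : ℂ) =
        ∑ r ∈ range R, ∑ r' ∈ range R, et (((r : ℤ) - r') • x) := by
      intro x
      rw [← Complex.normSq_eq_norm_sq, ← Complex.mul_conj, map_sum, sum_mul_sum]
      refine sum_congr rfl fun r _ => sum_congr rfl fun r' _ => ?_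
      rw [sub_smul, natCast_zsmul, natCast_zsmul, lc_sub]
    simp only [h1]
    rw [DI.av_sum, Complex.re_sum]
    refine sum_congr rfl fun r _ => ?_
    rw [DI.av_sum, Complex.re_sum]
    refine sum_congr rfl fun r' _ => ?_
    rw [lc_bias, Complex.ofReal_re, hgz]
  have hlow : η * ((R : ℝ) ^ 2 / 4) ≤
      ∑ r ∈ range R, ∑ r' ∈ range R, g (Int.natAbs ((r : ℤ) - r')) := by
    rw [← hav]
    have h1 : pr (fun z : ι → Bool × Bool => ‖∑ i, zz (z i) • t i‖ ≤ τ) ≤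
        pr (fun z : ι → Bool × Bool => (R : ℝ) ^ 2 / 4 ≤
          ‖∑ r ∈ range R, et (r • ∑ i, zz (z i) • t i)‖ ^ 2) :=
      DI.pr_mono fun z hz => lc_fejer hRτ hz
    have h2 := DI.pr_markov (f := fun z : ι → Bool × Bool =>
      ‖∑ r ∈ range R, et (r • ∑ i, zz (z i) • t i)‖ ^ 2) (fun z => by positivity)
      (t := (R : ℝ) ^ 2 / 4) (by positivity)
    have h3 := (h.trans h1).trans h2
    rwa [le_div_iff₀ (by positivity)] at h3
  have hup : ∑ r ∈ range R, ∑ r' ∈ range R, g (Int.natAbs ((r : ℤ) - r')) ≤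
      R * (2 * ∑ k ∈ range R, g k) := by
    have h1 := sum_le_card_nsmul (range R)
      (fun r => ∑ r' ∈ range R, g (Int.natAbs ((r : ℤ) - r'))) (2 * ∑ k ∈ range R, g k)
      fun r hr => lc_diff hg0 R r (mem_range.1 hr)
    rwa [card_range, nsmul_eq_mul] at h1
  have hsum : η * R / 8 ≤ ∑ k ∈ range R, g k := by
    have h1 := hlow.trans hup
    have h2 : R * (η * R / 8) ≤ R * ∑ k ∈ range R, g k := by nlinarith
    exact le_of_mul_le_mul_left h2 hRpos
  -- the set `U`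
  obtain ⟨U, hU⟩ : ∃ U, U = (Ico 1 R).filter fun k => η / 32 ≤ g k := ⟨_, rfl⟩
  have hUsub : U ⊆ Ico 1 R := by
    rw [hU]
    exact filter_subset _ _
  have hUcard : η / 32 * R ≤ (U.card : ℝ) := by
    have hRnat : 0 < R := by exact_mod_cast hRpos
    have h1 : ∑ k ∈ range R, g k ≤ 1 + (U.card + R * (η / 32)) := by
      rw [range_eq_Ico, sum_eq_sum_Ico_succ_bot hRnat]
      refine add_le_add (hg1 0) ?_
      rw [← sum_filter_add_sum_filter_not (Ico (0 + 1) R) fun k => η / 32 ≤ g k]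
      refine add_le_add ?_ ?_
      · have h2 := sum_le_card_nsmul U g 1 fun k _ => hg1 k
        rw [nsmul_eq_mul, mul_one, hU] at h2
        rw [hU]
        exact h2
      · have h2 := sum_le_card_nsmul ((Ico (0 + 1) R).filter fun k => ¬ η / 32 ≤ g k) g (η / 32)
          fun k hk => (not_le.1 (mem_filter.1 hk).2).le
        refine h2.trans ?_
        rw [nsmul_eq_mul]
        refine mul_le_mul_of_nonneg_right ?_ (by positivity)
        have h3 : ((Ico (0 + 1) R).filter fun k => ¬ η / 32 ≤ g k).card ≤ R := by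
          refine (card_filter_le _ _).trans ?_
          rw [Nat.card_Ico]
          omega
        exact_mod_cast h3
    have h4 : 16 ≤ η * R := by
      rw [div_le_iff₀ hη] at hR5
      linarith
    linarith
  have hR0 : R0 ≤ R := by exact_mod_cast hR4
  -- sum over `U`
  have hfin : ∑ i, c * R * min 1 ((R : ℝ) ^ 2 * ‖M • t i‖ ^ 2) ≤
      R * |Real.log (η / 32)| := by
    refine (sum_le_sum fun i _ => hdens R hR0 U hUsub hUcard (t i)).trans ?_
    rw [sum_comm]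
    have h1 : ∀ k ∈ U, ∑ i, ‖k • t i‖ ^ 2 ≤ |Real.log (η / 32)| := by
      intro k hk
      rw [hU, mem_filter, hgdef] at hk
      exact lc_log (by positivity) _ hk.2
    refine (sum_le_card_nsmul U _ _ h1).trans ?_
    rw [nsmul_eq_mul]
    refine mul_le_mul_of_nonneg_right ?_ hC1
    have h2 := card_le_card hUsub
    rw [Nat.card_Ico] at h2
    have h3 : U.card ≤ R := by omega
    exact_mod_cast h3
  have hfin2 : ∑ i, min 1 ((R : ℝ) ^ 2 * ‖M • t i‖ ^ 2) ≤ |Real.log (η / 32)| / c := by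
    rw [← mul_sum] at hfin
    rw [le_div_iff₀ hc]
    have h1 : R * ((∑ i, min 1 ((R : ℝ) ^ 2 * ‖M • t i‖ ^ 2)) * c) ≤
        R * |Real.log (η / 32)| := by
      calc R * ((∑ i, min 1 ((R : ℝ) ^ 2 * ‖M • t i‖ ^ 2)) * c)
          = c * R * ∑ i, min 1 ((R : ℝ) ^ 2 * ‖M • t i‖ ^ 2) := by ring
        _ ≤ _ := hfin
    exact le_of_mul_le_mul_left h1 hRpos
  have hterm : ∀ i, min (τ ^ 2) (‖M • t i‖ ^ 2) ≤
      256 * τ ^ 2 * min 1 ((R : ℝ) ^ 2 * ‖M • t i‖ ^ 2) := by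
    intro i
    rw [mul_min_of_nonneg _ _ (by positivity : (0 : ℝ) ≤ 256 * τ ^ 2)]
    refine le_min ?_ ?_
    · refine (min_le_left _ _).trans ?_
      nlinarith [sq_nonneg τ]
    · refine (min_le_right _ _).trans ?_
      have h1 : 1 ≤ 256 * τ ^ 2 * (R : ℝ) ^ 2 := by
        have h2 : 1 ≤ 16 * τ * R := by
          rw [div_le_iff₀ (by positivity)] at hR3
          linarith
        nlinarith
      calc ‖M • t i‖ ^ 2 = 1 * ‖M • t i‖ ^ 2 := (one_mul _).symm
        _ ≤ (256 * τ ^ 2 * (R : ℝ) ^ 2) * ‖M • t i‖ ^ 2 :=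
            mul_le_mul_of_nonneg_right h1 (by positivity)
        _ = 256 * τ ^ 2 * ((R : ℝ) ^ 2 * ‖M • t i‖ ^ 2) := by ring
  calc ∑ i, min (τ ^ 2) (‖M • t i‖ ^ 2)
      ≤ ∑ i, 256 * τ ^ 2 * min 1 ((R : ℝ) ^ 2 * ‖M • t i‖ ^ 2) := sum_le_sum fun i _ => hterm i
    _ = 256 * τ ^ 2 * ∑ i, min 1 ((R : ℝ) ^ 2 * ‖M • t i‖ ^ 2) := (mul_sum _ _ _).symm
    _ ≤ 256 * τ ^ 2 * (|Real.log (η / 32)| / c) := by gcongr
    _ ≤ (256 * (|Real.log (η / 32)| / c) + 1) * τ ^ 2 := by nlinarith [sq_nonneg τ]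

end Pool.Agent.Lib.MP_3e612f_nt.RD
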