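import Pool.Agent.Lib.MP_3e612f_nt.RD.Defs

/-!
Dense sets of multiples of a point of the circle.

`lo_dens`. `𝓡 ⊆ [1, R)`, `|𝓡| ≥ η R`, `R ≥ R0`. With `S = ⌈8 / η⌉` there is (Dirichlet) `1 ≤ s ≤ S` with
`β = ‖s θ‖ ≤ 1 / S`. In a residue class modulo `s` the points `k θ` are `x_0 + j β` (or `x_0 - j β`),
`j ≤ R / s`; at most `(β R / s + 2) (2 κ / β + 1)` of them have `‖k θ‖ ≤ κ` (`β > 0`; each of the integers near
`[x_0, x_0 + β R / s]` is near at most `2 κ / β + 1` points). In all at most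
`2 κ R + R β + 4 κ s / β + 2 s` of the `k < R`, which is at most `η R / 2` for
`κ = c min (1, R β)`, `c = c(η)`. So `∑_{k ∈ 𝓡} ‖k θ‖² ≥ (η R / 2) κ²`; and `‖M θ‖ ≤ (M / s) β` for `M = S!`.
-/

set_option autoImplicit false

namespace Pool.Agent.Lib.MP_3e612f_nt.RD

open Finset
open Pool.Agent.Lib.MP_3e612f_nt.PI (ee)
open Pool.Agent.Lib.MP_3e612f_nt.DI (av pr)

/-- multiples of a small element -/
private theorem lo_nsmul {x : UnitAddCircle} {n : ℕ} (h : n * ‖x‖ ≤ 1 / 2) :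
    ‖n • x‖ = n * ‖x‖ := by
  obtain ⟨y, hy, hyx⟩ : ∃ y : ℝ, (y : UnitAddCircle) = x ∧ |y| = ‖x‖ := by
    obtain ⟨z, rfl⟩ := QuotientAddGroup.mk_surjective x
    refine ⟨z - round z, ?_, ?_⟩
    · rw [AddCircle.coe_sub]
      have : ((round z : ℝ) : UnitAddCircle) = 0 := by
        rw [AddCircle.coe_eq_zero_iff]
        exact ⟨round z, by simp⟩
      rw [this, sub_zero]
    · exact (UnitAddCircle.norm_eq (x := z)).symm
  have h1 : n • x = ((n * y : ℝ) : UnitAddCircle) := by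
    rw [← hy, ← AddCircle.coe_nsmul, nsmul_eq_mul]
  have h2 : |(n : ℝ) * y| = n * ‖x‖ := by
    rw [abs_mul, Nat.abs_cast, hyx]
  rw [h1, (AddCircle.norm_coe_eq_abs_iff (p := 1) (x := n * y) one_ne_zero).2, h2]
  rw [h2, abs_one]
  exact h

/-- few multiples are small -/
private theorem lo_few {θ : UnitAddCircle} {R s t L : ℕ} {κ : ℝ}
    (h1 : 2 * κ < t * ‖s • θ‖) (h2 : L * t * ‖s • θ‖ ≤ 1 / 2) :
    L * ((range R).filter fun k => ‖k • θ‖ ≤ κ).card ≤ R + L * t * s := by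
  classical
  set A := (range R).filter fun k => ‖k • θ‖ ≤ κ with hA
  have hinj : Set.InjOn (fun p : ℕ × ℕ => p.2 + p.1 * t * s)
      ((range L ×ˢ A : Finset (ℕ × ℕ)) : Set (ℕ × ℕ)) := by
    have key : ∀ i ∈ range L, ∀ i' ∈ range L, ∀ k ∈ A, ∀ k' ∈ A, i < i' →
        k + i * t * s = k' + i' * t * s → False := by
      intro i _ i' hi' k hk k' hk' hlt he
      obtain ⟨d, hd⟩ : ∃ d, i' = i + d := ⟨i' - i, by omega⟩
      have hd1 : 1 ≤ d := by omega
      have hdL : d ≤ L := by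
        have := mem_range.1 hi'
        omega
      have h3 : k = k' + d * t * s := by
        have : k + i * t * s = k' + (i * t * s + d * t * s) := by rw [he, hd]; ring
        omega
      have h4 : (d * t) • (s • θ) = k • θ - k' • θ := by
        rw [h3, add_nsmul, add_sub_cancel_left]
        exact (mul_smul (d * t) s θ).symm
      have hβ := norm_nonneg (s • θ)
      have h5 : ((d * t : ℕ) : ℝ) * ‖s • θ‖ ≤ 1 / 2 := by
        refine le_trans ?_ h2
        refine mul_le_mul_of_nonneg_right ?_ hβ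
        push_cast
        refine mul_le_mul_of_nonneg_right ?_ (Nat.cast_nonneg t)
        exact_mod_cast hdL
      have h6 := lo_nsmul h5
      rw [h4] at h6
      have h7 := norm_sub_le (k • θ) (k' • θ)
      have h8 : ‖k • θ‖ ≤ κ := (mem_filter.1 hk).2
      have h9 : ‖k' • θ‖ ≤ κ := (mem_filter.1 hk').2
      have h10 : (t : ℝ) * ‖s • θ‖ ≤ ((d * t : ℕ) : ℝ) * ‖s • θ‖ := by
        refine mul_le_mul_of_nonneg_right ?_ hβ
        have : 1 * t ≤ d * t := Nat.mul_le_mul_right t hd1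
        rw [one_mul] at this
        exact_mod_cast this
      linarith
    rintro ⟨i, k⟩ hp ⟨i', k'⟩ hp' he
    rw [mem_coe, mem_product] at hp hp'
    dsimp only at hp hp' he
    rcases lt_trichotomy i i' with h | h | h
    · exact (key i hp.1 i' hp'.1 k hp.2 k' hp'.2 h he).elim
    · subst h
      rw [Nat.add_right_cancel he]
    · exact (key i' hp'.1 i hp.1 k' hp'.2 k hp.2 h he.symm).elim
  have hmaps : ∀ p ∈ range L ×ˢ A, (fun p : ℕ × ℕ => p.2 + p.1 * t * s) p ∈
      range (R + L * t * s) := by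
    rintro ⟨i, k⟩ hp
    rw [mem_product] at hp
    have h3 := mem_range.1 hp.1
    have h4 := mem_range.1 (mem_filter.1 hp.2).1
    rw [mem_range]
    dsimp only at h3 h4 ⊢
    have h5 : i * t * s ≤ L * t * s :=
      Nat.mul_le_mul_right s (Nat.mul_le_mul_right t h3.le)
    omega
  have h3 := card_le_card_of_injOn _ hmaps hinj
  rw [card_product, card_range, card_range] at h3
  exact h3

/-- dense sets of multiples -/
theorem lo_dens {η : ℝ} (hη : 0 < η) : ∃ (M R0 : ℕ) (c : ℝ), 1 ≤ M ∧ 0 < c ∧ ∀ R ≥ R0,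
    ∀ U ⊆ Ico 1 R, η * R ≤ (U.card : ℝ) → ∀ θ : UnitAddCircle,
      c * R * min 1 ((R : ℝ) ^ 2 * ‖M • θ‖ ^ 2) ≤ ∑ k ∈ U, ‖k • θ‖ ^ 2 := by
  classical
  obtain ⟨L, hL⟩ := exists_nat_ge (4 / η)
  have hLpos : (0 : ℝ) < L := lt_of_lt_of_le (by positivity) hL
  have hL1 : 1 ≤ L := by exact_mod_cast hLpos
  obtain ⟨S, hS⟩ : ∃ S, S = 4 * L := ⟨_, rfl⟩
  have hS1 : 1 ≤ S := by omega
  have hSpos : (0 : ℝ) < S := by exact_mod_cast hS1
  have hM1 : 1 ≤ S.factorial := Nat.factorial_pos S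
  have hMpos : (0 : ℝ) < S.factorial := by exact_mod_cast hM1
  refine ⟨S.factorial, 2 * L * S, η / 2 * (1 / (8 * L * S)) ^ 2 / (S.factorial : ℝ) ^ 2, hM1,
    by positivity, fun R hR U hU hUc θ => ?_⟩
  have hRpos : (0 : ℝ) < R := by
    have : 0 < 2 * L * S := by positivity
    exact_mod_cast lt_of_lt_of_le this hR
  obtain ⟨s, hs, hsθ⟩ := AddCircle.exists_norm_nsmul_le θ (n := S) hS1
  obtain ⟨hs1, hs2⟩ := Set.mem_Icc.1 hs
  obtain ⟨β, hβ⟩ : ∃ β, β = ‖s • θ‖ := ⟨_, rfl⟩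
  have hβ0 : 0 ≤ β := by rw [hβ]; exact norm_nonneg _
  have hβ1 : β ≤ 1 / (4 * L) := by
    rw [hβ]
    refine hsθ.trans ?_
    apply one_div_le_one_div_of_le (by positivity)
    rw [hS]; push_cast; linarith
  -- the multiple by `M`
  have hM : ‖S.factorial • θ‖ ≤ S.factorial * β := by
    obtain ⟨r, hr⟩ := Nat.dvd_factorial hs1 hs2
    have h1 : S.factorial • θ = r • (s • θ) := by rw [hr, mul_comm, mul_smul]
    rw [h1, hβ]
    refine (norm_nsmul_le).trans ?_
    refine mul_le_mul_of_nonneg_right ?_ (norm_nonneg _)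
    have : r ≤ S.factorial := by
      rw [hr]; exact Nat.le_mul_of_pos_left r hs1
    exact_mod_cast this
  have hsum0 : 0 ≤ ∑ k ∈ U, ‖k • θ‖ ^ 2 := sum_nonneg fun _ _ => by positivity
  rcases hβ0.eq_or_lt with h0 | hβpos
  · rw [← h0, mul_zero] at hM
    have h1 : ‖S.factorial • θ‖ = 0 := le_antisymm hM (norm_nonneg _)
    rw [h1]
    simp only [ne_eq, OfNat.ofNat_ne_zero, not_false_eq_true, zero_pow, mul_zero]
    rw [min_eq_right zero_le_one, mul_zero]
    exact hsum0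
  -- the threshold
  obtain ⟨κ, hκ⟩ : ∃ κ, κ = 1 / (8 * L * S) * min 1 (R * β) := ⟨_, rfl⟩
  have hmin0 : 0 < min 1 (R * β) := lt_min one_pos (by positivity)
  have hκ0 : 0 < κ := by rw [hκ]; positivity
  have hκ1 : κ ≤ 1 / (8 * L) := by
    rw [hκ]
    calc 1 / (8 * L * S) * min 1 (R * β) ≤ 1 / (8 * L * S) * 1 := by gcongr; exact min_le_left _ _
      _ ≤ 1 / (8 * L) := by
          rw [mul_one]
          apply one_div_le_one_div_of_le (by positivity)
          have : (1 : ℝ) ≤ S := by exact_mod_cast hS1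
          nlinarith
  have hκ2 : 4 * L * S * κ ≤ R * β := by
    have h1 : κ ≤ 1 / (8 * L * S) * (R * β) := by
      rw [hκ]; gcongr; exact min_le_right _ _
    calc 4 * L * S * κ ≤ 4 * L * S * (1 / (8 * L * S) * (R * β)) := by gcongr
      _ = R * β / 2 := by field_simp; norm_num
      _ ≤ R * β := by have : 0 < R * β := by positivity
                      linarith
  obtain ⟨t, ht⟩ : ∃ t, t = ⌊2 * κ / β⌋₊ + 1 := ⟨_, rfl⟩
  have ht1 : 2 * κ / β < t := by
    rw [ht]; push_cast; exact Nat.lt_floor_add_one _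
  have ht2 : (t : ℝ) ≤ 2 * κ / β + 1 := by
    rw [ht]; push_cast
    have := Nat.floor_le (a := 2 * κ / β) (by positivity)
    linarith
  have ht3 : 2 * κ < t * β := by rwa [div_lt_iff₀ hβpos] at ht1
  have ht4 : t * β ≤ 2 * κ + β := by
    have := mul_le_mul_of_nonneg_right ht2 hβ0
    rwa [add_mul, div_mul_cancel₀ _ hβpos.ne', one_mul] at this
  have h2 : L * t * ‖s • θ‖ ≤ 1 / 2 := by
    rw [← hβ]
    have h3 : L * (2 * κ + β) ≤ 1 / 2 := by
      have h4 : L * κ ≤ 1 / 8 := by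
        have := mul_le_mul_of_nonneg_left hκ1 hLpos.le
        calc L * κ ≤ L * (1 / (8 * L)) := this
          _ = 1 / 8 := by field_simp
      have h5 : L * β ≤ 1 / 4 := by
        have := mul_le_mul_of_nonneg_left hβ1 hLpos.le
        calc L * β ≤ L * (1 / (4 * L)) := this
          _ = 1 / 4 := by field_simp
      linarith
    calc (L : ℝ) * t * β = L * (t * β) := by ring
      _ ≤ L * (2 * κ + β) := by gcongr
      _ ≤ 1 / 2 := h3
  have hfew := lo_few (R := R) (L := L) (hβ ▸ ht3) h2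
  obtain ⟨A, hA⟩ : ∃ A, A = (range R).filter fun k => ‖k • θ‖ ≤ κ := ⟨_, rfl⟩
  rw [← hA] at hfew
  have hAc : (A.card : ℝ) ≤ η * R / 2 := by
    have h3 : (L : ℝ) * A.card ≤ R + L * t * s := by exact_mod_cast hfew
    have h4 : (L : ℝ) * t * s ≤ R := by
      have h5 : (L : ℝ) * t * S ≤ R := by
        have h6 : (L : ℝ) * t * S * β ≤ R * β := by
          have h7 : (L : ℝ) * t * S * β ≤ L * S * (2 * κ + β) := by
            calc (L : ℝ) * t * S * β = L * S * (t * β) := by ring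
              _ ≤ _ := by gcongr
          have h8 : (L : ℝ) * S * β * 2 ≤ R * β := by
            have h9 : ((2 * L * S : ℕ) : ℝ) ≤ R := by exact_mod_cast hR
            push_cast at h9
            calc (L : ℝ) * S * β * 2 = 2 * L * S * β := by ring
              _ ≤ _ := by gcongr
          nlinarith
        exact le_of_mul_le_mul_right h6 hβpos
      refine le_trans ?_ h5
      gcongr
    have h5 : (L : ℝ) * A.card ≤ 2 * R := by linarith
    have h6 : 4 ≤ L * η := by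
      rwa [div_le_iff₀ hη] at hL
    have h7 : 4 * (A.card : ℝ) ≤ 2 * R * η := by
      calc 4 * (A.card : ℝ) ≤ (L * η) * A.card := by gcongr
        _ = (L * A.card) * η := by ring
        _ ≤ 2 * R * η := by gcongr
    linarith
  -- the sum
  have hUA : η * R / 2 ≤ ((U \ A).card : ℝ) := by
    have h3 : U.card ≤ (U \ A).card + A.card := by
      have := card_le_card_sdiff_add_card (s := U) (t := A)
      exact this
    have h4 : (U.card : ℝ) ≤ (U \ A).card + A.card := by exact_mod_cast h3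
    linarith
  have hbig : ∀ k ∈ U \ A, κ ^ 2 ≤ ‖k • θ‖ ^ 2 := by
    intro k hk
    rw [mem_sdiff, hA, mem_filter, mem_range] at hk
    have h3 := (mem_Ico.1 (hU hk.1)).2
    have h4 : κ < ‖k • θ‖ := by
      by_contra h
      exact hk.2 ⟨h3, not_lt.1 h⟩
    exact pow_le_pow_left₀ hκ0.le h4.le 2
  have hfin : η * R / 2 * κ ^ 2 ≤ ∑ k ∈ U, ‖k • θ‖ ^ 2 := by
    calc η * R / 2 * κ ^ 2 ≤ (U \ A).card * κ ^ 2 := by gcongr
      _ = ∑ _k ∈ U \ A, κ ^ 2 := by rw [sum_const, nsmul_eq_mul]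
      _ ≤ ∑ k ∈ U \ A, ‖k • θ‖ ^ 2 := sum_le_sum hbig
      _ ≤ ∑ k ∈ U, ‖k • θ‖ ^ 2 :=
          sum_le_sum_of_subset_of_nonneg sdiff_subset fun _ _ _ => by positivity
  refine le_trans ?_ hfin
  have hmm : min 1 ((R : ℝ) ^ 2 * ‖S.factorial • θ‖ ^ 2) ≤
      (S.factorial : ℝ) ^ 2 * (min 1 (R * β)) ^ 2 := by
    rcases le_total 1 (R * β) with h | h
    · rw [min_eq_left h, one_pow, mul_one]
      refine (min_le_left _ _).trans ?_
      have : (1 : ℝ) ≤ S.factorial := by exact_mod_cast hM1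
      nlinarith
    · rw [min_eq_right h]
      refine (min_le_right _ _).trans ?_
      calc (R : ℝ) ^ 2 * ‖S.factorial • θ‖ ^ 2 ≤ (R : ℝ) ^ 2 * (S.factorial * β) ^ 2 := by
            gcongr
        _ = _ := by ring
  calc η / 2 * (1 / (8 * L * S)) ^ 2 / (S.factorial : ℝ) ^ 2 * R *
        min 1 ((R : ℝ) ^ 2 * ‖S.factorial • θ‖ ^ 2)
      ≤ η / 2 * (1 / (8 * L * S)) ^ 2 / (S.factorial : ℝ) ^ 2 * R *
        ((S.factorial : ℝ) ^ 2 * (min 1 (R * β)) ^ 2) := by gcongr
    _ = η * R / 2 * κ ^ 2 := by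
        rw [hκ]
        field_simp

end Pool.Agent.Lib.MP_3e612f_nt.RD
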