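import Pool.Agent.Lib.MP_3e612f_nt.RD.Let

/-!
Near orthogonality of the centered letter products.
-/

set_option autoImplicit false

namespace Pool.Agent.Lib.MP_3e612f_nt.RD

open Finset
open Pool.Agent.Lib.MP_3e612f_nt.EM

/-- the centered letter product -/
noncomputable def cp {q D L : ℕ} (S : Finset (Lt (q * q ^ D) L)) (n : ℕ) : ℝ :=
  ∏ y ∈ S, ((if y ∈ ltr q (q * q ^ D) L n then 1 else 0) - 1 / ((q : ℝ) * (q : ℝ) ^ D))

/-- a set of `d` letters, pairwise at distance `≥ D + 1`, with windows inside `[0, L)` -/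
def Spr {q D L : ℕ} (d : ℕ) (S : Finset (Lt (q * q ^ D) L)) : Prop :=
  S.card = d ∧ (∀ x ∈ S, ∀ y ∈ S, x ≠ y → FarL (D + 1) x y) ∧ ∀ x ∈ S, (x.1 : ℕ) + D < L

private theorem sum_mul' (f : ℕ → ℝ) (a b : ℕ) :
    ∑ m ∈ range (a * b), f m = ∑ c ∈ range b, ∑ r ∈ range a, f (a * c + r) := by
  induction b with
  | zero => simp
  | succ b ih => rw [Nat.mul_succ, sum_range_add, ih, sum_range_succ]

private theorem sum_fac {q D i r w : ℕ} (hq : 0 < q) (hw : w < q * q ^ D) (g : ℕ → ℝ)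
    (hg : ∀ m m', m % q ^ i = m' % q ^ i → m / (q ^ i * (q * q ^ D)) = m' / (q ^ i * (q * q ^ D)) →
      g m = g m') :
    ∑ m ∈ range (q ^ i * (q * q ^ D) * q ^ r),
      ((if m / q ^ i % (q * q ^ D) = w then 1 else 0) - 1 / ((q : ℝ) * (q : ℝ) ^ D)) * g m = 0 := by
  have hQ : 0 < q ^ i := pow_pos hq i
  have hT : 0 < q * q ^ D := Nat.mul_pos hq (pow_pos hq D)
  rw [sum_mul']
  refine sum_eq_zero fun c _ => ?_
  rw [sum_mul', sum_comm]
  refine sum_eq_zero fun a ha => ?_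
  rw [mem_range] at ha
  have hstep : ∀ b ∈ range (q * q ^ D),
      ((if (q ^ i * (q * q ^ D) * c + (q ^ i * b + a)) / q ^ i % (q * q ^ D) = w then (1 : ℝ) else 0) -
        1 / ((q : ℝ) * (q : ℝ) ^ D)) * g (q ^ i * (q * q ^ D) * c + (q ^ i * b + a)) =
      ((if b = w then (1 : ℝ) else 0) - 1 / ((q : ℝ) * (q : ℝ) ^ D)) *
        g (q ^ i * (q * q ^ D) * c + a) := by
    intro b hb
    rw [mem_range] at hb
    have e1 : (q ^ i * (q * q ^ D) * c + (q ^ i * b + a)) / q ^ i % (q * q ^ D) = b := by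
      have : q ^ i * (q * q ^ D) * c + (q ^ i * b + a) = q ^ i * ((q * q ^ D) * c + b) + a := by ring
      rw [this, Nat.mul_add_div hQ, Nat.div_eq_of_lt ha, Nat.add_zero, Nat.mul_add_mod,
        Nat.mod_eq_of_lt hb]
    have hlt : q ^ i * b + a < q ^ i * (q * q ^ D) := by
      calc q ^ i * b + a < q ^ i * b + q ^ i := by omega
        _ = q ^ i * (b + 1) := by ring
        _ ≤ q ^ i * (q * q ^ D) := Nat.mul_le_mul_left _ hb
    have e2 : g (q ^ i * (q * q ^ D) * c + (q ^ i * b + a)) = g (q ^ i * (q * q ^ D) * c + a) := by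
      apply hg
      · have h1 : q ^ i * (q * q ^ D) * c + (q ^ i * b + a) = q ^ i * ((q * q ^ D) * c + b) + a := by
          ring
        have h2 : q ^ i * (q * q ^ D) * c + a = q ^ i * ((q * q ^ D) * c) + a := by ring
        rw [h1, h2, Nat.mul_add_mod, Nat.mul_add_mod]
      · have hlt2 : a < q ^ i * (q * q ^ D) := by
          calc a < q ^ i * 1 := by omega
            _ ≤ q ^ i * (q * q ^ D) := Nat.mul_le_mul_left _ hT
        rw [Nat.mul_add_div (Nat.mul_pos hQ hT), Nat.mul_add_div (Nat.mul_pos hQ hT),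
          Nat.div_eq_of_lt hlt, Nat.div_eq_of_lt hlt2]
    rw [e1, e2]
  rw [sum_congr rfl hstep, ← sum_mul, sum_sub_distrib, sum_ite_eq', if_pos (mem_range.2 hw),
    sum_const, card_range, nsmul_eq_mul]
  have hT' : ((q : ℝ) * (q : ℝ) ^ D) ≠ 0 := by
    have : (0 : ℝ) < q := by exact_mod_cast hq
    positivity
  have : (((q * q ^ D : ℕ) : ℝ)) * (1 / ((q : ℝ) * (q : ℝ) ^ D)) = 1 := by
    push_cast
    field_simp
  rw [this]
  simp

private theorem win_low {q D i j : ℕ} (m : ℕ) (h : j + (D + 1) ≤ i) :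
    m / q ^ j % (q * q ^ D) = (m % q ^ i) % q ^ (j + (D + 1)) / q ^ j := by
  rw [Nat.mod_mod_of_dvd _ (pow_dvd_pow q h)]
  have : q ^ (j + (D + 1)) = q ^ j * (q * q ^ D) := by rw [pow_add, pow_succ' q D]
  rw [this, Nat.mod_mul_right_div_self]

private theorem win_high {q D i j : ℕ} (m : ℕ) (h : i + (D + 1) ≤ j) :
    m / q ^ j = m / (q ^ i * (q * q ^ D)) / q ^ (j - (i + (D + 1))) := by
  rw [Nat.div_div_eq_div_mul]
  congr 1
  rw [mul_assoc, ← pow_succ' q D, ← pow_add, ← pow_add]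
  congr 1
  omega

private theorem cp_dep {q D L : ℕ} {y : Lt (q * q ^ D) L} {R : Finset (Lt (q * q ^ D) L)}
    (h : ∀ z ∈ R, FarL (D + 1) y z) {m m' : ℕ} (h1 : m % q ^ (y.1 : ℕ) = m' % q ^ (y.1 : ℕ))
    (h2 : m / (q ^ (y.1 : ℕ) * (q * q ^ D)) = m' / (q ^ (y.1 : ℕ) * (q * q ^ D))) :
    cp R m = cp R m' := by
  unfold cp
  refine prod_congr rfl fun z hz => ?_
  have hz2 : m / q ^ (z.1 : ℕ) % (q * q ^ D) = m' / q ^ (z.1 : ℕ) % (q * q ^ D) := by
    rcases h z hz with hf | hf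
    · rw [win_high m hf, win_high m' hf, h2]
    · rw [win_low m hf, win_low m' hf, h1]
  simp only [ltr, mem_filter, mem_univ, true_and, hz2]

private theorem cp_abs {q D L : ℕ} (hq : 0 < q) (R : Finset (Lt (q * q ^ D) L)) (m : ℕ) :
    |cp R m| ≤ 1 := by
  unfold cp
  rw [abs_prod]
  refine prod_le_one (fun _ _ => abs_nonneg _) fun z _ => ?_
  have h0 : (1 : ℝ) ≤ (q : ℝ) * (q : ℝ) ^ D := by
    have h1 : (1 : ℝ) ≤ q := by exact_mod_cast hq
    have h2 : (1 : ℝ) ≤ (q : ℝ) ^ D := one_le_pow₀ h1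
    nlinarith
  have h1 : 1 / ((q : ℝ) * (q : ℝ) ^ D) ≤ 1 := by
    rw [div_le_one (by linarith)]
    exact h0
  have h2 : 0 ≤ 1 / ((q : ℝ) * (q : ℝ) ^ D) := by positivity
  split_ifs
  · rw [abs_le]; constructor <;> linarith
  · rw [abs_le]; constructor <;> linarith

/-- the letters which are near to a letter of `R` -/
private noncomputable def nb {q D L : ℕ} (R : Finset (Lt (q * q ^ D) L)) :
    Finset (Lt (q * q ^ D) L) := by
  classical
  exact univ.filter fun z => ∃ y ∈ R, ¬ FarL (D + 1) y z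

private theorem nb_card {q D L : ℕ} (R : Finset (Lt (q * q ^ D) L)) :
    (nb R).card ≤ R.card * ((2 * D + 1) * (q * q ^ D)) := by
  classical
  have hsub : nb R ⊆ R.biUnion fun y => univ.filter fun z : Lt (q * q ^ D) L =>
      ¬ FarL (D + 1) y z := by
    intro z hz
    simp only [nb, mem_filter, mem_univ, true_and] at hz
    simpa using hz
  refine (card_le_card hsub).trans ?_
  refine card_biUnion_le_card_mul _ _ _ fun y _ => ?_
  have hsub2 : (univ.filter fun z : Lt (q * q ^ D) L => ¬ FarL (D + 1) y z) ⊆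
      (univ.filter fun a : Fin L => (y.1 : ℕ) ≤ a + D ∧ (a : ℕ) ≤ y.1 + D) ×ˢ univ := by
    intro z hz
    simp only [mem_filter, mem_univ, true_and, FarL, not_or, not_le] at hz
    simp only [mem_product, mem_filter, mem_univ, true_and, and_true]
    omega
  refine (card_le_card hsub2).trans ?_
  rw [card_product, card_univ, Fintype.card_fin]
  refine Nat.mul_le_mul_right _ ?_
  have hinj : (univ.filter fun a : Fin L => (y.1 : ℕ) ≤ a + D ∧ (a : ℕ) ≤ y.1 + D).card ≤
      (Icc ((y.1 : ℕ) - D) (y.1 + D)).card := by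
    refine card_le_card_of_injOn (fun a : Fin L => (a : ℕ)) ?_ ?_
    · intro a ha
      simp only [coe_filter, mem_univ, true_and, Set.mem_ofPred_eq] at ha
      simp only [coe_Icc, Set.mem_Icc]
      omega
    · intro a _ b _ hab
      exact Fin.ext hab
  refine hinj.trans ?_
  rw [Nat.card_Icc]
  omega

private theorem corr_zero {q D L e : ℕ} (hq : 0 < q) {R R' : Finset (Lt (q * q ^ D) L)}
    (hR : Spr e R) {y : Lt (q * q ^ D) L} (hy : y ∈ R) (hy' : y ∉ nb R') :
    ∑ m ∈ range (q ^ L), cp R m * cp R' m = 0 := by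
  classical
  obtain ⟨hc, hf, hw⟩ := hR
  have hyL := hw y hy
  obtain ⟨r, hr⟩ : ∃ r, L = (y.1 : ℕ) + (D + 1) + r := ⟨L - (y.1 + (D + 1)), by omega⟩
  have hL : q ^ L = q ^ (y.1 : ℕ) * (q * q ^ D) * q ^ r := by
    conv_lhs => rw [hr]
    rw [pow_add, pow_add, pow_succ' q D]
  have hfar' : ∀ z ∈ R', FarL (D + 1) y z := by
    intro z hz
    by_contra hcon
    apply hy'
    simp only [nb, mem_filter, mem_univ, true_and]
    refine ⟨z, hz, ?_⟩
    simp only [FarL] at hcon ⊢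
    tauto
  have hfar : ∀ z ∈ R.erase y, FarL (D + 1) y z := by
    intro z hz
    rw [mem_erase] at hz
    exact hf y hy z hz.2 (Ne.symm hz.1)
  have key := sum_fac (D := D) (i := (y.1 : ℕ)) (r := r) (w := (y.2 : ℕ)) hq y.2.2
    (fun m => cp (R.erase y) m * cp R' m) (fun m m' h1 h2 => by
      show cp (R.erase y) m * cp R' m = cp (R.erase y) m' * cp R' m'
      rw [cp_dep hfar h1 h2, cp_dep hfar' h1 h2])
  rw [← hL] at key
  rw [← key]
  refine sum_congr rfl fun m _ => ?_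
  have : cp R m = ((if m / q ^ (y.1 : ℕ) % (q * q ^ D) = (y.2 : ℕ) then 1 else 0) -
      1 / ((q : ℝ) * (q : ℝ) ^ D)) * cp (R.erase y) m := by
    unfold cp
    rw [← mul_prod_erase R _ hy]
    simp only [ltr, mem_filter, mem_univ, true_and]
  rw [this]
  ring

theorem near_orth {q : ℕ} (hq : 2 ≤ q) (D e : ℕ) : ∃ c : ℝ, 0 ≤ c ∧ ∀ (L : ℕ)
    (x : Finset (Lt (q * q ^ D) L) → ℝ), (∀ S, ¬ Spr e S → x S = 0) →
      ∑ m ∈ range (q ^ L), (∑ S, x S * cp S m) ^ 2 ≤ c * (∑ S, x S ^ 2) * (q : ℝ) ^ L := by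
  classical
  have hq0 : 0 < q := by omega
  refine ⟨2 ^ (e * ((2 * D + 1) * (q * q ^ D))), by positivity, fun L x hx => ?_⟩
  -- the relation
  let N : Finset (Lt (q * q ^ D) L) → Finset (Lt (q * q ^ D) L) → Prop :=
    fun R R' => R ⊆ nb R' ∧ R' ⊆ nb R
  have hNs : ∀ R R', N R R' ↔ N R' R := fun R R' => ⟨fun h => ⟨h.2, h.1⟩, fun h => ⟨h.2, h.1⟩⟩
  have hG : ∀ R R', Spr e R → Spr e R' →
      |∑ m ∈ range (q ^ L), cp R m * cp R' m| ≤ if N R R' then (q : ℝ) ^ L else 0 := by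
    intro R R' hR hR'
    split_ifs with h
    · calc |∑ m ∈ range (q ^ L), cp R m * cp R' m|
          ≤ ∑ m ∈ range (q ^ L), |cp R m * cp R' m| := abs_sum_le_sum_abs _ _
        _ ≤ ∑ _m ∈ range (q ^ L), (1 : ℝ) := by
            refine sum_le_sum fun m _ => ?_
            rw [abs_mul]
            exact mul_le_one₀ (cp_abs hq0 R m) (abs_nonneg _) (cp_abs hq0 R' m)
        _ = (q : ℝ) ^ L := by simp
    · have : (∃ y ∈ R, y ∉ nb R') ∨ (∃ y ∈ R', y ∉ nb R) := by
        by_contra hcon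
        push Not at hcon
        exact h ⟨fun y hy => hcon.1 y hy, fun y hy => hcon.2 y hy⟩
      rcases this with ⟨y, hy, hy'⟩ | ⟨y, hy, hy'⟩
      · rw [corr_zero hq0 hR hy hy', abs_zero]
      · have h2 := corr_zero hq0 hR' hy hy'
        have h3 : ∑ m ∈ range (q ^ L), cp R m * cp R' m = 0 := by
          rw [← h2]
          exact sum_congr rfl fun m _ => mul_comm _ _
        rw [h3, abs_zero]
  have hexp : ∑ m ∈ range (q ^ L), (∑ S, x S * cp S m) ^ 2 =
      ∑ R, ∑ R', x R * x R' * ∑ m ∈ range (q ^ L), cp R m * cp R' m := by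
    have : ∀ m, (∑ S, x S * cp S m) ^ 2 = ∑ R, ∑ R', x R * x R' * (cp R m * cp R' m) := by
      intro m
      rw [sq, sum_mul_sum]
      refine sum_congr rfl fun R _ => sum_congr rfl fun R' _ => by ring
    simp only [this]
    rw [sum_comm]
    refine sum_congr rfl fun R _ => ?_
    rw [sum_comm]
    refine sum_congr rfl fun R' _ => ?_
    rw [mul_sum]
  have hterm : ∀ R R', x R * x R' * ∑ m ∈ range (q ^ L), cp R m * cp R' m ≤
      (x R ^ 2 / 2 + x R' ^ 2 / 2) * (if N R R' ∧ Spr e R ∧ Spr e R' then (q : ℝ) ^ L else 0) := by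
    intro R R'
    by_cases hR : Spr e R
    · by_cases hR' : Spr e R'
      · have h1 := hG R R' hR hR'
        have h2 : |x R * x R'| ≤ x R ^ 2 / 2 + x R' ^ 2 / 2 := by
          rw [abs_mul]
          nlinarith [sq_nonneg (|x R| - |x R'|), sq_abs (x R), sq_abs (x R')]
        calc x R * x R' * ∑ m ∈ range (q ^ L), cp R m * cp R' m
            ≤ |x R * x R' * ∑ m ∈ range (q ^ L), cp R m * cp R' m| := le_abs_self _
          _ = |x R * x R'| * |∑ m ∈ range (q ^ L), cp R m * cp R' m| := abs_mul _ _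
          _ ≤ (x R ^ 2 / 2 + x R' ^ 2 / 2) * (if N R R' then (q : ℝ) ^ L else 0) :=
              mul_le_mul h2 h1 (abs_nonneg _) (by positivity)
          _ = _ := by simp [hR, hR']
      · rw [hx R' hR']
        simp [hR']
    · rw [hx R hR]
      simp [hR]
  rw [hexp]
  have hcount : ∀ R : Finset (Lt (q * q ^ D) L), Spr e R →
      ∑ R', (if N R R' ∧ Spr e R ∧ Spr e R' then (q : ℝ) ^ L else 0) ≤
        2 ^ (e * ((2 * D + 1) * (q * q ^ D))) * (q : ℝ) ^ L := by
    intro R hR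
    rw [← sum_filter, sum_const, nsmul_eq_mul]
    refine mul_le_mul_of_nonneg_right ?_ (by positivity)
    have hsub : (univ.filter fun R' => N R R' ∧ Spr e R ∧ Spr e R') ⊆ (nb R).powerset := by
      intro R' hR'
      simp only [mem_filter, mem_univ, true_and] at hR'
      exact mem_powerset.2 hR'.1.2
    have h1 := card_le_card hsub
    rw [card_powerset] at h1
    have h2 := nb_card R
    rw [hR.1] at h2
    have h3 : (univ.filter fun R' => N R R' ∧ Spr e R ∧ Spr e R').card ≤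
        2 ^ (e * ((2 * D + 1) * (q * q ^ D))) :=
      h1.trans (Nat.pow_le_pow_right (by norm_num) h2)
    exact_mod_cast h3
  calc ∑ R, ∑ R', x R * x R' * ∑ m ∈ range (q ^ L), cp R m * cp R' m
      ≤ ∑ R, ∑ R', (x R ^ 2 / 2 + x R' ^ 2 / 2) *
          (if N R R' ∧ Spr e R ∧ Spr e R' then (q : ℝ) ^ L else 0) :=
        sum_le_sum fun R _ => sum_le_sum fun R' _ => hterm R R'
    _ = ∑ R, ∑ R', (x R ^ 2) *
          (if N R R' ∧ Spr e R ∧ Spr e R' then (q : ℝ) ^ L else 0) := by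
        simp only [add_mul, sum_add_distrib]
        have h1 : ∑ R, ∑ R', x R' ^ 2 / 2 *
              (if N R R' ∧ Spr e R ∧ Spr e R' then (q : ℝ) ^ L else 0) =
            ∑ R, ∑ R', x R ^ 2 / 2 *
              (if N R R' ∧ Spr e R ∧ Spr e R' then (q : ℝ) ^ L else 0) := by
          rw [sum_comm]
          refine sum_congr rfl fun R _ => sum_congr rfl fun R' _ => ?_
          have : (N R' R ∧ Spr e R' ∧ Spr e R) ↔ (N R R' ∧ Spr e R ∧ Spr e R') := by
            rw [hNs R' R]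
            tauto
          simp only [this]
        rw [h1, ← sum_add_distrib]
        refine sum_congr rfl fun R _ => ?_
        rw [← sum_add_distrib]
        refine sum_congr rfl fun R' _ => by ring
    _ ≤ ∑ R, x R ^ 2 * (2 ^ (e * ((2 * D + 1) * (q * q ^ D))) * (q : ℝ) ^ L) := by
        refine sum_le_sum fun R _ => ?_
        rw [← mul_sum]
        by_cases hR : Spr e R
        · exact mul_le_mul_of_nonneg_left (hcount R hR) (sq_nonneg _)
        · rw [hx R hR]
          simp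
    _ = 2 ^ (e * ((2 * D + 1) * (q * q ^ D))) * (∑ S, x S ^ 2) * (q : ℝ) ^ L := by
        rw [← sum_mul]
        ring

end Pool.Agent.Lib.MP_3e612f_nt.RD
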