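import Pool.Agent.Lib.MP_3e612f_nt.RD.Fam

/-!
Peeling one variable: a random subfamily; (e) of the proof in `Peel.lean`.
-/

set_option autoImplicit false

namespace Pool.Agent.Lib.MP_3e612f_nt.RD

open Finset
open Pool.Agent.Lib.MP_3e612f_nt.PI (ee)
open Pool.Agent.Lib.MP_3e612f_nt.DI (av pr)

/-- number of colourings in which `a` has colour `0` and no other element of `h` has -/
private theorem card_good {ι : Type} [Fintype ι] [DecidableEq ι] (C2 : ℕ) (h : Finset ι)
    (hh : h.card ≤ C2) (a : ι) :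
    (Fintype.card (ι → Fin (2 * C2 + 1)) : ℝ) ≤ 2 * (2 * C2 + 1) *
      ((univ.filter (fun c : ι → Fin (2 * C2 + 1) =>
        c a = 0 ∧ ∀ i, c i = 0 → i ∈ h → i = a)).card : ℝ) := by
  classical
  have hset : (univ.filter (fun c : ι → Fin (2 * C2 + 1) =>
      c a = 0 ∧ ∀ i, c i = 0 → i ∈ h → i = a)) =
      Fintype.piFinset (fun i => if i = a then ({0} : Finset (Fin (2 * C2 + 1)))
        else if i ∈ h then univ.erase 0 else univ) := by
    ext c
    simp only [mem_filter, mem_univ, true_and, Fintype.mem_piFinset]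
    constructor
    · rintro ⟨h1, h2⟩ i
      by_cases hi : i = a
      · rw [if_pos hi, hi, mem_singleton]; exact h1
      · rw [if_neg hi]
        by_cases hih : i ∈ h
        · rw [if_pos hih, mem_erase]
          exact ⟨fun h0 => hi (h2 i h0 hih), mem_univ _⟩
        · rw [if_neg hih]; exact mem_univ _
    · intro hc
      refine ⟨?_, ?_⟩
      · have := hc a
        rw [if_pos rfl, mem_singleton] at this
        exact this
      · intro i hi hih
        by_contra hne
        have := hc i
        rw [if_neg hne, if_pos hih, mem_erase] at this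
        exact this.1 hi
  rw [hset, Fintype.card_piFinset]
  have hprod : (∏ i, (if i = a then ({0} : Finset (Fin (2 * C2 + 1)))
        else if i ∈ h then univ.erase 0 else univ).card) =
      (2 * C2) ^ (h.erase a).card * (2 * C2 + 1) ^ ((univ.erase a).card - (h.erase a).card) := by
    rw [← Finset.mul_prod_erase univ _ (mem_univ a)]
    rw [if_pos rfl, card_singleton, one_mul]
    have h1 : ∀ i ∈ univ.erase a, (if i = a then ({0} : Finset (Fin (2 * C2 + 1)))
        else if i ∈ h then univ.erase 0 else univ).card =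
        if i ∈ h.erase a then 2 * C2 else 2 * C2 + 1 := by
      intro i hi
      have hne : i ≠ a := (mem_erase.mp hi).1
      rw [if_neg hne]
      by_cases hih : i ∈ h
      · rw [if_pos hih, if_pos (mem_erase.mpr ⟨hne, hih⟩), card_erase_of_mem (mem_univ _),
          card_univ, Fintype.card_fin]
        rfl
      · rw [if_neg hih, if_neg (fun hmem => hih (mem_erase.mp hmem).2), card_univ,
          Fintype.card_fin]
    rw [prod_congr rfl h1, prod_ite, prod_const, prod_const]
    have h2 : (univ.erase a).filter (fun i => i ∈ h.erase a) = h.erase a := by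
      ext i
      simp only [mem_filter, mem_erase, mem_univ, and_true, ne_eq]
      tauto
    have h3 : ((univ.erase a).filter (fun i => i ∉ h.erase a)).card =
        (univ.erase a).card - (h.erase a).card := by
      rw [filter_not, h2, card_sdiff_of_subset]
      exact erase_subset_erase a (subset_univ _)
    rw [h2, h3]
  rw [hprod]
  set m := (h.erase a).card with hm
  have hmC : m ≤ C2 := (card_le_card (erase_subset a h)).trans hh
  have hmN : m ≤ (univ.erase a).card := card_le_card (erase_subset_erase a (subset_univ _))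
  have hN : Fintype.card ι = (univ.erase a).card + 1 := by
    rw [card_erase_of_mem (mem_univ a), card_univ]
    have : 0 < Fintype.card ι := Fintype.card_pos_iff.mpr ⟨a⟩
    omega
  rw [Fintype.card_fun, Fintype.card_fin, hN]
  set M := (univ.erase a).card with hM
  push_cast
  set K : ℝ := 2 * (C2 : ℝ) + 1 with hK
  have hK0 : 0 < K := by positivity
  have h2C : 2 * (C2 : ℝ) = K - 1 := by rw [hK]; ring
  rw [h2C]
  have hbern : (1 / 2 : ℝ) * K ^ m ≤ (K - 1) ^ m := by
    have h1 : (1 : ℝ) + m * (-(1 / K)) ≤ (1 + -(1 / K)) ^ m := by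
      apply one_add_mul_le_pow
      have : 1 / K ≤ 1 := by
        rw [div_le_one hK0, hK]
        have : (0 : ℝ) ≤ C2 := Nat.cast_nonneg _
        linarith
      linarith
    have h2 : (K - 1) ^ m = K ^ m * (1 + -(1 / K)) ^ m := by
      rw [← mul_pow]
      congr 1
      field_simp
      ring
    have h3 : (1 / 2 : ℝ) ≤ 1 + m * (-(1 / K)) := by
      have hmR : (m : ℝ) ≤ C2 := by exact_mod_cast hmC
      have : (m : ℝ) * (1 / K) ≤ 1 / 2 := by
        rw [mul_one_div, div_le_iff₀ hK0, hK]
        linarith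
      linarith
    rw [h2]
    have h4 : (0 : ℝ) < K ^ m := by positivity
    nlinarith
  have hsplit : K ^ (M + 1) = K * (K ^ m * K ^ (M - m)) := by
    rw [← pow_add, Nat.add_sub_cancel' hmN, pow_succ]; ring
  rw [hsplit]
  have h5 : (0 : ℝ) < K ^ (M - m) := by positivity
  have h6 : K ^ m ≤ 2 * (K - 1) ^ m := by linarith
  calc K * (K ^ m * K ^ (M - m)) ≤ K * ((2 * (K - 1) ^ m) * K ^ (M - m)) := by
        apply mul_le_mul_of_nonneg_left _ hK0.le
        exact mul_le_mul_of_nonneg_right h6 h5.le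
    _ = 2 * K * ((K - 1) ^ m * K ^ (M - m)) := by ring

/-- (e): a random subfamily with at most one heavy pair for every column -/
theorem peel_sub {ι Q : Type} [Fintype ι] [DecidableEq ι] [DecidableEq Q] (C2 : ℕ)
    (F : Finset (ι × Q)) (hv : Q → Finset ι) (hhv : ∀ κ, (∃ i, (i, κ) ∈ F) → (hv κ).card ≤ C2)
    (hF : ∀ x ∈ F, x.1 ∈ hv x.2) (W : ι × Q → ℝ) (hW : ∀ x, 0 ≤ W x) :
    ∃ I : Finset ι, ∑ x ∈ F, W x ≤ 2 * (2 * C2 + 1) *
      ∑ x ∈ F.filter (fun x => x.1 ∈ I ∧ ∀ i ∈ I, i ∈ hv x.2 → i = x.1), W x := by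
  classical
  by_contra hcon
  push Not at hcon
  have hlt : ∀ c : ι → Fin (2 * C2 + 1), 2 * (2 * (C2 : ℝ) + 1) *
      ∑ x ∈ F.filter (fun x => c x.1 = 0 ∧ ∀ i, c i = 0 → i ∈ hv x.2 → i = x.1), W x <
      ∑ x ∈ F, W x := by
    intro c
    have h1 := hcon (univ.filter (fun i => c i = 0))
    have h2 : F.filter (fun x => x.1 ∈ univ.filter (fun i => c i = 0) ∧
        ∀ i ∈ univ.filter (fun i => c i = 0), i ∈ hv x.2 → i = x.1) =
        F.filter (fun x => c x.1 = 0 ∧ ∀ i, c i = 0 → i ∈ hv x.2 → i = x.1) := by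
      apply filter_congr
      intro x _
      simp only [mem_filter, mem_univ, true_and]
    rw [h2] at h1
    exact h1
  have hsum : ∑ c : ι → Fin (2 * C2 + 1), (2 * (2 * (C2 : ℝ) + 1) *
      ∑ x ∈ F.filter (fun x => c x.1 = 0 ∧ ∀ i, c i = 0 → i ∈ hv x.2 → i = x.1), W x) <
      ∑ _c : ι → Fin (2 * C2 + 1), ∑ x ∈ F, W x := by
    apply sum_lt_sum_of_nonempty
    · exact ⟨fun _ => 0, mem_univ _⟩
    · intro c _
      exact hlt c
  rw [← mul_sum] at hsum
  have hswap : ∑ c : ι → Fin (2 * C2 + 1),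
      ∑ x ∈ F.filter (fun x => c x.1 = 0 ∧ ∀ i, c i = 0 → i ∈ hv x.2 → i = x.1), W x =
      ∑ x ∈ F, ((univ.filter (fun c : ι → Fin (2 * C2 + 1) =>
        c x.1 = 0 ∧ ∀ i, c i = 0 → i ∈ hv x.2 → i = x.1)).card : ℝ) * W x := by
    simp_rw [sum_filter]
    rw [sum_comm]
    refine sum_congr rfl fun x _ => ?_
    rw [← sum_filter, sum_const, nsmul_eq_mul]
  rw [hswap, sum_const, nsmul_eq_mul, card_univ, mul_sum, mul_sum] at hsum
  refine absurd hsum (not_lt.mpr ?_)
  apply sum_le_sum
  intro x hx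
  have h1 := card_good C2 (hv x.2) (hhv x.2 ⟨x.1, hx⟩) x.1
  have h2 := mul_le_mul_of_nonneg_right h1 (hW x)
  calc (Fintype.card (ι → Fin (2 * C2 + 1)) : ℝ) * W x ≤ _ := h2
    _ = _ := by ring

end Pool.Agent.Lib.MP_3e612f_nt.RD
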