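import Pool.Agent.Lib.MP_3e612f_nt.RD.Defs

/-!
Peeling one variable: the heavy family is small; (f), (g), (h) of the proof in `Peel.lean`.
-/

set_option autoImplicit false

namespace Pool.Agent.Lib.MP_3e612f_nt.RD

open Finset
open Pool.Agent.Lib.MP_3e612f_nt.PI (ee)
open Pool.Agent.Lib.MP_3e612f_nt.DI (av pr)

section aux
variable {α : Type} [Fintype α]

private theorem ave_cast (f : α → ℝ) : ((ave f : ℝ) : ℂ) = av fun a => (f a : ℂ) := by
  unfold ave av
  push_cast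
  rfl

private theorem ave_mono' {f g : α → ℝ} (h : ∀ a, f a ≤ g a) : ave f ≤ ave g := by
  unfold ave
  exact mul_le_mul_of_nonneg_left (Finset.sum_le_sum fun a _ => h a) (by positivity)

private theorem ave_const' [Nonempty α] (c : ℝ) : ave (fun _ : α => c) = c := by
  unfold ave
  have h : (Fintype.card α : ℝ) ≠ 0 := by exact_mod_cast Fintype.card_ne_zero
  rw [Finset.sum_const, card_univ, nsmul_eq_mul, inv_mul_cancel_left₀ h]

private theorem ave_mul' (c : ℝ) (f : α → ℝ) : ave (fun a => c * f a) = c * ave f := by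
  unfold ave
  rw [← Finset.mul_sum, mul_left_comm]

private theorem ave_sub' (f g : α → ℝ) : ave (fun a => f a - g a) = ave f - ave g := by
  unfold ave
  rw [Finset.sum_sub_distrib, mul_sub]

private theorem ave_sum' {ι : Type} (s : Finset ι) (f : ι → α → ℝ) :
    ave (fun a => ∑ i ∈ s, f i a) = ∑ i ∈ s, ave (f i) := by
  unfold ave
  rw [Finset.sum_comm, Finset.mul_sum]

private theorem markov' {f : α → ℝ} (hf : ∀ a, 0 ≤ f a) {t : ℝ} (ht : 0 < t) :
    pr (fun a => t ≤ f a) ≤ ave f / t := by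
  have h := DI.pr_markov hf ht
  rwa [← ave_cast, Complex.ofReal_re] at h

private theorem ave_piecewise' {C E : Type} [Fintype C] [DecidableEq C] [Fintype E] (B : Finset C)
    (f : (C → E) → ℝ) :
    (ave fun k : C → E => ave fun k' : C → E => f (B.piecewise k' k)) = ave f := by
  have h := DI.av_piecewise B fun k => (f k : ℂ)
  simp only [← ave_cast] at h
  exact_mod_cast h

private theorem ave_prod' {C E : Type} [Fintype C] [DecidableEq C] [Fintype E] [Nonempty E]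
    (I : Finset C) (g : C → E → ℝ) :
    ave (fun k : C → E => ∏ i ∈ I, g i (k i)) = ∏ i ∈ I, ave (g i) := by
  have h1 : ∀ k : C → E, ∏ i ∈ I, g i (k i) = ∏ i, (if i ∈ I then g i (k i) else 1) := by
    intro k
    rw [Finset.prod_ite_mem, Finset.univ_inter]
  have h2 : ∏ i ∈ I, ave (g i) = ∏ i, (if i ∈ I then ave (g i) else 1) := by
    rw [Finset.prod_ite_mem, Finset.univ_inter]
  have h3 : ∀ i, (if i ∈ I then ave (g i) else 1) = ave fun e => if i ∈ I then g i e else 1 := by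
    intro i
    split_ifs
    · rfl
    · exact (ave_const' 1).symm
  simp only [h1]
  rw [h2]
  simp only [h3]
  unfold ave
  rw [Finset.prod_mul_distrib, Finset.prod_const, card_univ, Finset.prod_univ_sum,
    Fintype.piFinset_univ, Fintype.card_fun, Nat.cast_pow, inv_pow]

private theorem pr_or (P Q : α → Prop) : pr (fun a => P a ∨ Q a) ≤ pr P + pr Q := by
  have h := DI.pr_exists_le (univ : Finset Bool) (fun b a => if b then P a else Q a)
  have h1 : (∑ i : Bool, pr fun a => (if i = true then P a else Q a)) = pr P + pr Q := by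
    rw [Fintype.sum_bool]
    simp
  rw [← h1]
  refine le_trans (DI.pr_mono fun a ha => ?_) h
  rcases ha with ha | ha
  · exact ⟨true, mem_univ _, by simpa using ha⟩
  · exact ⟨false, mem_univ _, by simpa using ha⟩

end aux

private theorem exists_rep (x : UnitAddCircle) : ∃ r : ℝ, (r : UnitAddCircle) = x ∧ |r| = ‖x‖ := by
  induction x using QuotientAddGroup.induction_on with
  | H y =>
    refine ⟨y - round y, ?_, ?_⟩
    · have h : (((round y : ℤ) : ℝ) : UnitAddCircle) = 0 := by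
        rw [AddCircle.coe_eq_zero_iff]
        exact ⟨round y, by simp⟩
      rw [AddCircle.coe_sub, h, sub_zero]
    · exact (UnitAddCircle.norm_eq (x := y)).symm

private theorem norm_coe_le (r : ℝ) : ‖(r : UnitAddCircle)‖ ≤ |r| := by
  rw [UnitAddCircle.norm_eq]
  have := round_le r 0
  simpa using this

private theorem zz_sq_le (e : Bool × Bool) : (zz e : ℝ) ^ 2 ≤ 1 := by
  obtain ⟨a, b⟩ := e
  cases a <;> cases b <;> simp [zz]

private theorem ave_zz : ave (fun e : Bool × Bool => (zz e : ℝ)) = 0 := by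
  unfold ave
  rw [Fintype.sum_prod_type]
  simp only [Fintype.sum_bool, zz]
  norm_num

private theorem second {ι : Type} [Fintype ι] [DecidableEq ι] (T : Finset ι) (r : ι → ℝ) :
    ave (fun z : ι → Bool × Bool => (∑ i ∈ T, (zz (z i) : ℝ) * r i) ^ 2) ≤ ∑ i ∈ T, r i ^ 2 := by
  have h1 : ∀ z : ι → Bool × Bool, (∑ i ∈ T, (zz (z i) : ℝ) * r i) ^ 2 =
      ∑ i ∈ T, ∑ j ∈ T, (r i * r j) * ((zz (z i) : ℝ) * zz (z j)) := by
    intro z
    rw [sq, Finset.sum_mul_sum]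
    exact sum_congr rfl fun i _ => sum_congr rfl fun j _ => by ring
  simp only [h1]
  rw [ave_sum']
  refine Finset.sum_le_sum fun i hi => ?_
  rw [ave_sum']
  have h2 : ∀ j ∈ T, j ≠ i →
      ave (fun z : ι → Bool × Bool => (r i * r j) * ((zz (z i) : ℝ) * zz (z j))) = 0 := by
    intro j _ hj
    rw [ave_mul']
    have h3 := ave_prod' ({i, j} : Finset ι) (fun _ (e : Bool × Bool) => (zz e : ℝ))
    rw [Finset.prod_pair (Ne.symm hj), ave_zz, zero_mul] at h3
    simp only [Finset.prod_pair (Ne.symm hj)] at h3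
    rw [h3, mul_zero]
  rw [Finset.sum_eq_single_of_mem i hi h2, ave_mul']
  have h4 : ave (fun z : ι → Bool × Bool => (zz (z i) : ℝ) * zz (z i)) ≤ 1 := by
    refine (ave_mono' fun z => ?_).trans (le_of_eq (ave_const' 1))
    rw [← sq]
    exact zz_sq_le _
  nlinarith [mul_self_nonneg (r i)]

private theorem norm_sum_le_abs {ι : Type} (T : Finset ι) (c : ι → ℤ) (u : ι → UnitAddCircle)
    (r : ι → ℝ) (hr : ∀ i, (r i : UnitAddCircle) = u i) :
    ‖∑ i ∈ T, c i • u i‖ ≤ |∑ i ∈ T, (c i : ℝ) * r i| := by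
  have h : (((∑ i ∈ T, (c i : ℝ) * r i : ℝ)) : UnitAddCircle) = ∑ i ∈ T, c i • u i := by
    classical
    induction T using Finset.induction_on with
    | empty => simp
    | insert a s ha ih =>
      rw [Finset.sum_insert ha, Finset.sum_insert ha, AddCircle.coe_add, ih]
      congr 1
      rw [← zsmul_eq_mul, AddCircle.coe_zsmul, hr]
  rw [← h]
  exact norm_coe_le _

private theorem exp_neg_le {w : ℝ} (h0 : 0 ≤ w) (h1 : w ≤ 1) : Real.exp (-w) ≤ 1 - w / 2 := by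
  rw [Real.exp_neg, inv_le_comm₀ (Real.exp_pos _) (by linarith)]
  have h2 := Real.add_one_le_exp w
  refine le_trans ?_ h2
  rw [inv_le_comm₀ (by linarith) (by linarith), ← one_div, div_le_iff₀ (by linarith)]
  nlinarith

/-- one variable: the average of the truncated term -/
private theorem one_var (u b : UnitAddCircle) :
    ‖u‖ ^ 2 / 16 ≤ ave fun e : Bool × Bool => min (‖u‖ ^ 2) (‖zz e • u + b‖ ^ 2) := by
  unfold ave
  rw [Fintype.sum_prod_type]
  simp only [Fintype.sum_bool, zz, Fintype.card_prod, Fintype.card_bool]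
  have h0 : ‖u‖ ≤ ‖u + b‖ + ‖b‖ := by
    have := norm_sub_le (u + b) b
    simpa using this
  have h1 : ‖u‖ ^ 2 / 4 ≤ min (‖u‖ ^ 2) (‖b‖ ^ 2) + min (‖u‖ ^ 2) (‖u + b‖ ^ 2) := by
    have hu := norm_nonneg u
    have hb := norm_nonneg b
    have hub := norm_nonneg (u + b)
    rcases le_or_gt (‖u‖ / 2) ‖b‖ with h | h
    · have h2 : ‖u‖ ^ 2 / 4 ≤ min (‖u‖ ^ 2) (‖b‖ ^ 2) := le_min (by nlinarith) (by nlinarith)
      have h3 : 0 ≤ min (‖u‖ ^ 2) (‖u + b‖ ^ 2) := by positivity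
      linarith
    · have h2 : ‖u‖ / 2 ≤ ‖u + b‖ := by linarith
      have h3 : ‖u‖ ^ 2 / 4 ≤ min (‖u‖ ^ 2) (‖u + b‖ ^ 2) := le_min (by nlinarith) (by nlinarith)
      have h4 : 0 ≤ min (‖u‖ ^ 2) (‖b‖ ^ 2) := by positivity
      linarith
  have h5 : 0 ≤ min (‖u‖ ^ 2) (‖b‖ ^ 2) := by positivity
  have h6 : 0 ≤ min (‖u‖ ^ 2) (‖-u + b‖ ^ 2) := by positivity
  norm_num
  linarith

/-- the exponential moment -/
private theorem exp_moment {ι Q : Type} [Fintype ι] [DecidableEq ι] (F : Finset (ι × Q))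
    (I : Finset ι) (u : ι × Q → UnitAddCircle) (b : (ι → Bool × Bool) → Q → UnitAddCircle)
    (hb : ∀ k k' κ, b (I.piecewise k' k) κ = b k κ) (hI : ∀ x ∈ F, x.1 ∈ I)
    (hd : ∀ i, ∑ x ∈ F.filter (fun x => x.1 = i), ‖u x‖ ^ 2 ≤ 1) :
    ave (fun z : ι → Bool × Bool => Real.exp (-∑ x ∈ F,
      min (‖u x‖ ^ 2) (‖zz (z x.1) • u x + b z x.2‖ ^ 2))) ≤
      Real.exp (-(∑ x ∈ F, ‖u x‖ ^ 2) / 32) := by
  rw [← ave_piecewise' I]
  refine (ave_mono' fun k => ?_).trans (le_of_eq (ave_const' _))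
  obtain ⟨w, hw⟩ : ∃ w : ι → Bool × Bool → ℝ, ∀ i e, w i e =
      ∑ x ∈ F.filter (fun x => x.1 = i), min (‖u x‖ ^ 2) (‖zz e • u x + b k x.2‖ ^ 2) :=
    ⟨_, fun _ _ => rfl⟩
  have h1 : ∀ k' : ι → Bool × Bool, Real.exp (-∑ x ∈ F, min (‖u x‖ ^ 2)
      (‖zz ((I.piecewise k' k) x.1) • u x + b (I.piecewise k' k) x.2‖ ^ 2)) =
      ∏ i ∈ I, Real.exp (-w i (k' i)) := by
    intro k'
    rw [← Real.exp_sum, Finset.sum_neg_distrib]
    congr 2
    rw [← Finset.sum_fiberwise_of_maps_to hI]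
    refine sum_congr rfl fun i hi => ?_
    rw [hw]
    refine sum_congr rfl fun x hx => ?_
    rw [mem_filter] at hx
    rw [hb, hx.2, Finset.piecewise_eq_of_mem _ _ _ hi]
  simp only [h1]
  rw [ave_prod' I fun i e => Real.exp (-w i e)]
  have h2 : Real.exp (-(∑ x ∈ F, ‖u x‖ ^ 2) / 32) =
      ∏ i ∈ I, Real.exp (-(∑ x ∈ F.filter (fun x => x.1 = i), ‖u x‖ ^ 2) / 32) := by
    rw [← Real.exp_sum, ← Finset.sum_fiberwise_of_maps_to hI, ← Finset.sum_div,
      Finset.sum_neg_distrib]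
  rw [h2]
  refine Finset.prod_le_prod (fun i _ => ?_) fun i _ => ?_
  · unfold ave
    positivity
  · have h3 : ∀ e, 0 ≤ w i e ∧ w i e ≤ 1 := by
      intro e
      rw [hw]
      refine ⟨Finset.sum_nonneg fun x _ => by positivity, le_trans ?_ (hd i)⟩
      exact Finset.sum_le_sum fun x _ => min_le_left _ _
    have h4 : ave (fun e => Real.exp (-w i e)) ≤ ave (fun e => 1 - 1 / 2 * w i e) := by
      refine ave_mono' fun e => ?_
      have := exp_neg_le (h3 e).1 (h3 e).2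
      linarith
    have h5 : (∑ x ∈ F.filter (fun x => x.1 = i), ‖u x‖ ^ 2) / 16 ≤ ave (w i) := by
      have h6 : w i = fun e => ∑ x ∈ F.filter (fun x => x.1 = i),
          min (‖u x‖ ^ 2) (‖zz e • u x + b k x.2‖ ^ 2) := by
        funext e
        exact hw i e
      rw [h6, ave_sum', Finset.sum_div]
      exact Finset.sum_le_sum fun x _ => one_var (u x) (b k x.2)
    have h6 : ave (fun e => 1 - 1 / 2 * w i e) = 1 - 1 / 2 * ave (w i) := by
      rw [ave_sub', ave_const', ave_mul']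
    have h7 := Real.add_one_le_exp (-(∑ x ∈ F.filter (fun x => x.1 = i), ‖u x‖ ^ 2) / 32)
    linarith

/-- the light terms -/
private theorem light_sum {ι Q : Type} [Fintype ι] [DecidableEq ι] [DecidableEq Q] {C3 : ℝ}
    (F : Finset (ι × Q)) (I : Finset ι) (lt : Finset (ι × Q)) (u : ι × Q → UnitAddCircle)
    (hlt : ∑ x ∈ lt, ‖u x‖ ^ 2 ≤ C3)
    (hL : ∀ x ∈ F, ∀ i ∈ I, i ≠ x.1 → (i, x.2) ∈ lt)
    (hinj : ∀ x ∈ F, ∀ y ∈ F, x.2 = y.2 → x = y) :
    ave (fun z : ι → Bool × Bool =>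
      ∑ x ∈ F, ‖∑ i ∈ I.erase x.1, zz (z i) • u (i, x.2)‖ ^ 2) ≤ C3 := by
  rw [ave_sum']
  have h1 : ∀ x ∈ F, ave (fun z : ι → Bool × Bool =>
      ‖∑ i ∈ I.erase x.1, zz (z i) • u (i, x.2)‖ ^ 2) ≤ ∑ i ∈ I.erase x.1, ‖u (i, x.2)‖ ^ 2 := by
    intro x _
    choose r hr hr' using fun y => exists_rep (u y)
    refine (ave_mono' fun z => ?_).trans
      ((second (I.erase x.1) fun i => r (i, x.2)).trans (le_of_eq ?_))
    · have := norm_sum_le_abs (I.erase x.1) (fun i => zz (z i)) (fun i => u (i, x.2))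
        (fun i => r (i, x.2)) (fun i => hr _)
      rw [← sq_abs (∑ i ∈ I.erase x.1, _)]
      exact pow_le_pow_left₀ (norm_nonneg _) this 2
    · refine sum_congr rfl fun i _ => ?_
      rw [← hr', sq_abs]
  refine (Finset.sum_le_sum h1).trans ?_
  rw [Finset.sum_sigma']
  refine le_trans ?_ hlt
  have h2 : ∑ y ∈ F.sigma (fun x => I.erase x.1), ‖u (y.2, y.1.2)‖ ^ 2 =
      ∑ y ∈ (F.sigma (fun x => I.erase x.1)).image (fun y => (y.2, y.1.2)), ‖u y‖ ^ 2 := by
    rw [Finset.sum_image]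
    rintro ⟨x, i⟩ hx ⟨x', i'⟩ hx' h
    simp only [Prod.mk.injEq] at h
    obtain ⟨h3, h4⟩ := h
    have hx1 := (Finset.mem_sigma.1 hx).1
    have hx2 := (Finset.mem_sigma.1 hx').1
    have h5 := hinj x hx1 x' hx2 h4
    subst h5
    subst h3
    rfl
  rw [h2]
  refine Finset.sum_le_sum_of_subset_of_nonneg ?_ fun _ _ _ => by positivity
  intro y hy
  obtain ⟨⟨x, i⟩, hx, rfl⟩ := Finset.mem_image.1 hy
  obtain ⟨hx1, hx2⟩ := Finset.mem_sigma.1 hx
  rw [Finset.mem_erase] at hx2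
  exact hL x hx1 i hx2.2 hx2.1

/-- (f), (g), (h): the heavy family is small -/
theorem peel_heavy (M B : ℕ) {C C3 δ : ℝ} (hC : 0 ≤ C) (hC3 : 0 ≤ C3) (hδ : 0 < δ) : ∃ D : ℝ, 0 ≤ D ∧
    ∀ (ι Q : Type) [Fintype ι] [DecidableEq ι] [Fintype Q] [DecidableEq Q] (vt : Q → Finset ι)
      (v : ι → Q → UnitAddCircle) (F : Finset (ι × Q)) (I : Finset ι) (lt : Finset (ι × Q)),
      δ ≤ pr (fun z : ι → Bool × Bool => St vt B C (fun κ => ∑ i, zz (z i) • v i κ)) →
      ∑ x ∈ lt, ‖M • v x.1 x.2‖ ^ 2 ≤ C3 →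
      (∀ j, ∑ x ∈ F.filter (fun x => j = x.1 ∨ j ∈ vt x.2), ‖M • v x.1 x.2‖ ^ 2 ≤ 1) →
      (∀ x ∈ F, x.1 ∈ I) → (∀ x ∈ F, ∀ i ∈ I, i ≠ x.1 → (i, x.2) ∈ lt) →
      (∀ x ∈ F, ∀ y ∈ F, x.2 = y.2 → x = y) →
      ∑ x ∈ F, ‖M • v x.1 x.2‖ ^ 2 ≤ D := by
  obtain ⟨t, ht⟩ : ∃ t : ℝ, t = 4 * (C3 + 1) / δ := ⟨_, rfl⟩
  have ht0 : 0 < t := by
    rw [ht]
    positivity
  refine ⟨64 * |Real.log (4 / δ)| + 64 * (B + 2 * (M ^ 2 * C) + 2 * t), by positivity, ?_⟩
  intro ι Q _ _ _ _ vt v F I lt hΩ hlt hdeg hI hL hinj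
  obtain ⟨W, hW⟩ : ∃ W : ℝ, W = ∑ x ∈ F, ‖M • v x.1 x.2‖ ^ 2 := ⟨_, rfl⟩
  rw [← hW]
  by_contra hcon
  push Not at hcon
  obtain ⟨u, hu⟩ : ∃ u : ι × Q → UnitAddCircle, ∀ x, u x = M • v x.1 x.2 := ⟨_, fun _ => rfl⟩
  obtain ⟨b, hb⟩ : ∃ b : (ι → Bool × Bool) → Q → UnitAddCircle, ∀ z κ, b z κ =
      ∑ i ∈ univ \ I, zz (z i) • u (i, κ) := ⟨_, fun _ _ => rfl⟩
  obtain ⟨a, ha⟩ : ∃ a : (ι → Bool × Bool) → Q → UnitAddCircle, ∀ z κ, a z κ =
      ∑ i, zz (z i) • v i κ := ⟨_, fun _ _ => rfl⟩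
  obtain ⟨S, hS⟩ : ∃ S : (ι → Bool × Bool) → ℝ, ∀ z, S z = ∑ x ∈ F,
      min (‖u x‖ ^ 2) (‖zz (z x.1) • u x + b z x.2‖ ^ 2) := ⟨_, fun _ => rfl⟩
  obtain ⟨L, hLd⟩ : ∃ L : (ι → Bool × Bool) → ℝ, ∀ z, L z = ∑ x ∈ F,
      ‖∑ i ∈ I.erase x.1, zz (z i) • u (i, x.2)‖ ^ 2 := ⟨_, fun _ => rfl⟩
  simp only [← hu] at hW hlt hdeg
  have K1 : ∀ z, ∀ x ∈ F, M • a z x.2 = (zz (z x.1) • u x + b z x.2) +
      ∑ i ∈ I.erase x.1, zz (z i) • u (i, x.2) := by
    intro z x hx
    rw [ha, hb, Finset.smul_sum]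
    have h1 : ∑ i, M • zz (z i) • v i x.2 = ∑ i, zz (z i) • u (i, x.2) :=
      sum_congr rfl fun i _ => by rw [hu, smul_comm]
    rw [h1, ← Finset.sum_sdiff (Finset.subset_univ I), ← Finset.add_sum_erase I _ (hI x hx)]
    abel
  have K2 : ave L ≤ C3 := by
    have := light_sum F I lt u hlt hL hinj
    refine le_trans (le_of_eq ?_) this
    congr 1
    funext z
    exact hLd z
  have K3 : ave (fun z => Real.exp (-S z)) ≤ Real.exp (-W / 32) := by
    have := exp_moment F I u b (fun k k' κ => by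
      rw [hb, hb]
      refine sum_congr rfl fun i hi => ?_
      rw [Finset.mem_sdiff] at hi
      rw [Finset.piecewise_eq_of_notMem _ _ _ hi.2]) hI (fun i => by
      refine le_trans (Finset.sum_le_sum_of_subset_of_nonneg ?_ fun _ _ _ => by positivity) (hdeg i)
      intro x hx
      rw [mem_filter] at hx ⊢
      exact ⟨hx.1, Or.inl hx.2.symm⟩)
    rw [← hW] at this
    refine le_trans (le_of_eq ?_) this
    congr 1
    funext z
    rw [hS]
  have hlog : 64 * |Real.log (4 / δ)| < W := by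
    have : (0 : ℝ) ≤ 64 * (B + 2 * (M ^ 2 * C) + 2 * t) := by positivity
    linarith
  have P1 : pr (fun z => t ≤ L z) ≤ δ / 4 := by
    refine (markov' (fun z => ?_) ht0).trans ?_
    · rw [hLd]
      exact Finset.sum_nonneg fun _ _ => by positivity
    · rw [div_le_iff₀ ht0, ht]
      have : δ / 4 * (4 * (C3 + 1) / δ) = C3 + 1 := by
        field_simp
      rw [this]
      linarith
  have P2 : pr (fun z => Real.exp (-W / 64) ≤ Real.exp (-S z)) < δ / 4 := by
    refine (markov' (fun z => (Real.exp_pos _).le) (Real.exp_pos _)).trans_lt ?_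
    rw [div_lt_iff₀ (Real.exp_pos _)]
    refine K3.trans_lt ?_
    have h1 : Real.exp (-W / 64) < δ / 4 := by
      rw [← Real.lt_log_iff_exp_lt (by positivity)]
      have h2 : Real.log (δ / 4) = -Real.log (4 / δ) := by
        rw [← Real.log_inv, inv_div]
      rw [h2]
      have := le_abs_self (Real.log (4 / δ))
      linarith
    have h3 : Real.exp (-W / 32) = Real.exp (-W / 64) * Real.exp (-W / 64) := by
      rw [← Real.exp_add]
      congr 1
      ring
    rw [h3]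
    exact mul_lt_mul_of_pos_right h1 (Real.exp_pos _)
  have hex : ∃ z, St vt B C (a z) ∧ L z < t ∧ W / 64 < S z := by
    by_contra hne
    push Not at hne
    have h1 : pr (fun z : ι → Bool × Bool => St vt B C (fun κ => ∑ i, zz (z i) • v i κ)) ≤
        pr (fun z => t ≤ L z ∨ Real.exp (-W / 64) ≤ Real.exp (-S z)) := by
      refine DI.pr_mono fun z hz => ?_
      rcases le_or_gt t (L z) with h | h
      · exact Or.inl h
      · refine Or.inr ?_
        have h2 : a z = fun κ => ∑ i, zz (z i) • v i κ := by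
          funext κ
          exact ha z κ
        have h3 := hne z (by rw [h2]; exact hz) h
        rw [Real.exp_le_exp]
        linarith
    have h2 := pr_or (fun z => t ≤ L z) (fun z => Real.exp (-W / 64) ≤ Real.exp (-S z))
    linarith
  obtain ⟨z, ⟨E, hE, hEs⟩, hz1, hz2⟩ := hex
  have hsplit := Finset.sum_filter_add_sum_filter_not F (fun x => Disjoint (vt x.2) E)
    (fun x => min (‖u x‖ ^ 2) (‖zz (z x.1) • u x + b z x.2‖ ^ 2))
  rw [← hS] at hsplit
  have T2 : ∑ x ∈ F.filter (fun x => ¬ Disjoint (vt x.2) E),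
      min (‖u x‖ ^ 2) (‖zz (z x.1) • u x + b z x.2‖ ^ 2) ≤ B := by
    have h1 : ∀ x ∈ F.filter (fun x => ¬ Disjoint (vt x.2) E),
        min (‖u x‖ ^ 2) (‖zz (z x.1) • u x + b z x.2‖ ^ 2) ≤
          ∑ j ∈ E, if j = x.1 ∨ j ∈ vt x.2 then ‖u x‖ ^ 2 else 0 := by
      intro x hx
      rw [mem_filter, Finset.not_disjoint_iff] at hx
      obtain ⟨-, j, hj1, hj2⟩ := hx
      refine (min_le_left _ _).trans ?_
      have h2 := Finset.single_le_sum (f := fun j => if j = x.1 ∨ j ∈ vt x.2 then ‖u x‖ ^ 2 else 0)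
        (fun i _ => by split_ifs <;> positivity) hj2
      simp only [hj1, or_true, if_true] at h2
      exact h2
    refine (Finset.sum_le_sum h1).trans ?_
    refine (Finset.sum_le_sum_of_subset_of_nonneg (Finset.filter_subset _ F) fun x _ _ =>
      Finset.sum_nonneg fun j _ => by split_ifs <;> positivity).trans ?_
    rw [Finset.sum_comm]
    have h3 : ∀ j ∈ E, (∑ x ∈ F, if j = x.1 ∨ j ∈ vt x.2 then ‖u x‖ ^ 2 else 0) ≤ 1 := by
      intro j _
      rw [← Finset.sum_filter]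
      exact hdeg j
    refine (Finset.sum_le_sum h3).trans ?_
    rw [Finset.sum_const, nsmul_eq_mul, mul_one]
    exact_mod_cast hE
  have T1 : ∑ x ∈ F.filter (fun x => Disjoint (vt x.2) E),
      min (‖u x‖ ^ 2) (‖zz (z x.1) • u x + b z x.2‖ ^ 2) ≤ 2 * (M ^ 2 * C) + 2 * t := by
    have h1 : ∀ x ∈ F.filter (fun x => Disjoint (vt x.2) E),
        min (‖u x‖ ^ 2) (‖zz (z x.1) • u x + b z x.2‖ ^ 2) ≤
          2 * (M ^ 2 * ‖a z x.2‖ ^ 2) +
            2 * ‖∑ i ∈ I.erase x.1, zz (z i) • u (i, x.2)‖ ^ 2 := by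
      intro x hx
      rw [mem_filter] at hx
      refine (min_le_right _ _).trans ?_
      have h2 : zz (z x.1) • u x + b z x.2 = M • a z x.2 -
          ∑ i ∈ I.erase x.1, zz (z i) • u (i, x.2) := by
        rw [K1 z x hx.1, add_sub_cancel_right]
      rw [h2]
      have h3 := norm_sub_le (M • a z x.2) (∑ i ∈ I.erase x.1, zz (z i) • u (i, x.2))
      have h4 : ‖M • a z x.2‖ ≤ M * ‖a z x.2‖ := norm_nsmul_le
      have h5 := norm_nonneg (M • a z x.2 - ∑ i ∈ I.erase x.1, zz (z i) • u (i, x.2))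
      obtain ⟨p, hp⟩ : ∃ p, p = ‖M • a z x.2 - ∑ i ∈ I.erase x.1, zz (z i) • u (i, x.2)‖ :=
        ⟨_, rfl⟩
      obtain ⟨q, hq⟩ : ∃ q, q = ‖∑ i ∈ I.erase x.1, zz (z i) • u (i, x.2)‖ := ⟨_, rfl⟩
      rw [← hp, ← hq] at h3
      rw [← hp] at h5
      rw [← hp, ← hq]
      have h6 : p ≤ M * ‖a z x.2‖ + q := by linarith
      have h7 : p ^ 2 ≤ (M * ‖a z x.2‖ + q) ^ 2 := pow_le_pow_left₀ h5 h6 2
      nlinarith [sq_nonneg (M * ‖a z x.2‖ - q)]
    refine (Finset.sum_le_sum h1).trans ?_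
    rw [Finset.sum_add_distrib, ← Finset.mul_sum, ← Finset.mul_sum, ← Finset.mul_sum]
    have h3 : ∑ x ∈ F.filter (fun x => Disjoint (vt x.2) E), ‖a z x.2‖ ^ 2 ≤ C := by
      refine le_trans ?_ hEs
      have h4 : ∑ x ∈ F.filter (fun x => Disjoint (vt x.2) E), ‖a z x.2‖ ^ 2 =
          ∑ κ ∈ (F.filter (fun x => Disjoint (vt x.2) E)).image Prod.snd, ‖a z κ‖ ^ 2 := by
        rw [Finset.sum_image]
        intro x hx y hy h
        exact hinj x (mem_filter.1 hx).1 y (mem_filter.1 hy).1 h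
      rw [h4]
      refine Finset.sum_le_sum_of_subset_of_nonneg ?_ fun _ _ _ => by positivity
      intro κ hκ
      obtain ⟨x, hx, rfl⟩ := Finset.mem_image.1 hκ
      rw [mem_filter] at hx ⊢
      exact ⟨mem_univ _, hx.2⟩
    have h5 : ∑ x ∈ F.filter (fun x => Disjoint (vt x.2) E),
        ‖∑ i ∈ I.erase x.1, zz (z i) • u (i, x.2)‖ ^ 2 ≤ t := by
      refine le_trans ?_ hz1.le
      rw [hLd]
      exact Finset.sum_le_sum_of_subset_of_nonneg (Finset.filter_subset _ _) fun _ _ _ => by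
        positivity
    have h6 : (M : ℝ) ^ 2 * ∑ x ∈ F.filter (fun x => Disjoint (vt x.2) E), ‖a z x.2‖ ^ 2 ≤
        M ^ 2 * C := mul_le_mul_of_nonneg_left h3 (by positivity)
    linarith
  have h9 := abs_nonneg (Real.log (4 / δ))
  linarith

end Pool.Agent.Lib.MP_3e612f_nt.RD
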