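import Pool.Agent.Lib.MP_3e612f_nt.RD.PeelA
import Pool.Agent.Lib.MP_3e612f_nt.RD.PeelB
import Pool.Agent.Lib.MP_3e612f_nt.RD.PeelC

/-!
Peeling one variable.

PROOF of `peel`. `Ω` = the `z` for which `a(z) = ∑_i z_i v_i` satisfies `St vt B C`, with exceptional sets `E(z)`.
(a) `V* = {j : pr (z ∈ Ω, j ∈ E(z)) ≥ δ / (2 k)}`; `|V*| ≤ 2 k B / δ` (`∑_j pr (Ω, j ∈ E(z)) ≤ B`). If
`vt κ ∩ V* = ∅`, then `pr (Ω, vt κ ∩ E(z) = ∅) ≥ δ - k δ / (2 k) = δ / 2`.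
(b) `s_κ = ave (1[Ω, vt κ ∩ E(z) = ∅] ‖a_κ(z)‖²)`, `∑_κ s_κ ≤ C`. `τ_κ² = 4 s_κ / δ + 1 / |Q|` (so `τ_κ > 0`,
`∑ τ_κ² ≤ 4 C / δ + 1`). Markov: `pr (‖a_κ‖ ≤ τ_κ) ≥ δ / 4` for the `κ` of (a). The `κ` with `τ_κ > c0` (`c0`, `M`,
`C2` from `lo_circle` for `η = δ / 4`) are at most `(4 C / δ + 1) / c0²`: add one vertex of each of them to the
exceptional set. For the others (good `κ`): `∑_i min (τ_κ², ‖M v_iκ‖²) ≤ C2 τ_κ²`.
(c) `(i, κ)` is heavy if `κ` is good and `‖M v_iκ‖ > τ_κ`, light if `κ` is good and `‖M v_iκ‖ ≤ τ_κ`. For every good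
`κ` there are at most `C2` heavy `i`; the sum of `‖M v_iκ‖²` over all light pairs is at most
`C3 = C2 (4 C / δ + 1)`.
(d) `max_fam` for the heavy pairs, `vt' (i, κ) = insert i (vt κ)`, `W (i, κ) = ‖M v_iκ‖² ≤ 1/4`: `F`, `E_F`. It
remains to bound `W(F)`: then `E' = V* ∪ (vertices of (b)) ∪ E_F` and the sum outside is at most `C3 + W(F)`.
(e) Random colouring `ρ : ι → Fin R`, `R = ⌈2 C2⌉ + 1`, `I' = {ρ = 0}`,
`F' = {(i, κ) ∈ F : i ∈ I', no other i' ∈ I' is heavy for κ}`. `pr ((i, κ) ∈ F') ≥ (1/R) (1 - C2/R) ≥ 1/(2 R)`, so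
there is a `ρ` with `W(F') ≥ W(F) / (2 R)`.
(f) For `z` let `b_κ(z) = ∑_{i ∉ I'} z_i M v_iκ`, `l_κ(z) = ∑_{i ∈ I', (i, κ) light} z_i M v_iκ`. For `(i, κ) ∈ F'`:
`M a_κ(z) = z_i M v_iκ + b_κ(z) + l_κ(z)`. `ave ∑_κ ‖l_κ‖² ≤ ∑_{light} ‖M v_iκ‖² ≤ C3` (real representatives in
`[-1/2, 1/2]`, independent mean zero). So `pr (∑_κ ‖l_κ‖² > 2 C3 / δ) ≤ δ / 2`.
(g) `W_i(z) = ∑_{κ : (i, κ) ∈ F'} min (‖M v_iκ‖², ‖z_i M v_iκ + b_κ‖²) ∈ [0, 1]` (degree of `i` is `≤ 1`). For fixed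
`z` outside `I'` the `W_i`, `i ∈ I'`, are independent and `ave W_i ≥ 1/16 ∑_{κ : (i, κ) ∈ F'} ‖M v_iκ‖²` (one of
`‖b‖`, `‖M v + b‖` is `≥ ‖M v‖ / 2`; `z_i = 0` and `z_i = 1` have proportions `≥ 1/4`). As
`exp (-W) ≤ 1 - W / 2` on `[0, 1]`: `ave exp (- ∑ W_i) ≤ exp (- W(F') / 32)`, so
`pr (∑ W_i ≤ W(F') / 64) ≤ exp (- W(F') / 64) < δ / 2` if `W(F')` is large. (Fixing `z` outside `I'`: the average of
`G(z)` is the average over `z, z'` of `G(I'.piecewise z z')`, `av_piecewise`.)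
(h) So some `z ∈ Ω` has `∑ W_i > W(F') / 64` and `∑_κ ‖l_κ‖² ≤ 2 C3 / δ`. The pairs `(i, κ) ∈ F'` with a vertex of
`κ` in `E(z)` contribute at most `B` to `∑ W_i` (degrees `≤ 1`); the others at most
`2 ∑_{κ : vt κ ∩ E(z) = ∅} ‖M a_κ‖² + 2 ∑ ‖l_κ‖² ≤ 2 M² C + 4 C3 / δ` (each `κ` is in at most one pair of `F'`). Hence
`W(F') ≤ 64 (B + 2 M² C + 4 C3 / δ)`.
-/

set_option autoImplicit false

namespace Pool.Agent.Lib.MP_3e612f_nt.RD

open Finset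
open Pool.Agent.Lib.MP_3e612f_nt.PI (ee)
open Pool.Agent.Lib.MP_3e612f_nt.DI (av pr)

/-- **peeling one variable** -/
theorem peel (k B : ℕ) (hk : 1 ≤ k) {C δ : ℝ} (hC : 0 ≤ C) (hδ : 0 < δ) :
    ∃ (M B' : ℕ) (C' : ℝ), 1 ≤ M ∧ 0 ≤ C' ∧
    ∀ (ι Q : Type) [Fintype ι] [DecidableEq ι] [Fintype Q] (vt : Q → Finset ι),
      (∀ κ, (vt κ).Nonempty) → (∀ κ, (vt κ).card ≤ k) → ∀ v : ι → Q → UnitAddCircle,
      δ ≤ pr (fun z : ι → Bool × Bool => St vt B C (fun κ => ∑ i, zz (z i) • v i κ)) →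
      St (fun x : ι × Q => insert x.1 (vt x.2)) B' C' (fun x => M • v x.1 x.2) := by
  obtain ⟨M, B1, C2, C3, hM, hC2, hC3, hcols⟩ := peel_cols k B hk hC hδ
  obtain ⟨D, hD, hheavy⟩ := peel_heavy M B (C3 := C2 * C3) hC (mul_nonneg hC2 hC3) hδ
  obtain ⟨D', hD'⟩ : ∃ D' : ℝ, D' = 2 * (2 * (⌈C2⌉₊ : ℝ) + 1) * D := ⟨_, rfl⟩
  have hD'0 : 0 ≤ D' := by
    rw [hD']
    positivity
  refine ⟨M, B1 + ⌈(k + 1 : ℕ) * D' * (4 / 3)⌉₊, C2 * C3 + D', hM, by positivity, ?_⟩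
  intro ι Q _ _ _ vt hne hcard v hpr
  classical
  obtain ⟨V, τ, hV, hτ, hτ2, hmin⟩ := hcols ι Q vt hne hcard v hpr
  -- heavy vertices of a column
  obtain ⟨hv, hhv⟩ : ∃ hv : Q → Finset ι, ∀ κ, hv κ = univ.filter fun i => τ κ < ‖M • v i κ‖ :=
    ⟨_, fun _ => rfl⟩
  have hmem : ∀ κ i, i ∈ hv κ ↔ τ κ < ‖M • v i κ‖ := by
    intro κ i
    rw [hhv, mem_filter]
    exact ⟨fun h => h.2, fun h => ⟨mem_univ _, h⟩⟩
  have hhvc : ∀ κ, Disjoint (vt κ) V → (hv κ).card ≤ ⌈C2⌉₊ := by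
    intro κ hκ
    have h1 : ((hv κ).card : ℝ) * τ κ ^ 2 ≤ C2 * τ κ ^ 2 := by
      refine le_trans ?_ (hmin κ hκ)
      calc ((hv κ).card : ℝ) * τ κ ^ 2 = ∑ _i ∈ hv κ, τ κ ^ 2 := by
            rw [Finset.sum_const, nsmul_eq_mul]
        _ ≤ ∑ i ∈ hv κ, min (τ κ ^ 2) (‖M • v i κ‖ ^ 2) := by
            refine Finset.sum_le_sum fun i hi => le_min le_rfl ?_
            exact pow_le_pow_left₀ (hτ κ).le ((hmem κ i).1 hi).le 2
        _ ≤ ∑ i, min (τ κ ^ 2) (‖M • v i κ‖ ^ 2) :=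
            Finset.sum_le_univ_sum_of_nonneg fun i => le_min (by positivity) (by positivity)
    have h2 : ((hv κ).card : ℝ) ≤ C2 := le_of_mul_le_mul_right h1 (pow_pos (hτ κ) 2)
    exact_mod_cast h2.trans (Nat.le_ceil _)
  -- light and heavy pairs
  obtain ⟨lt, hlt⟩ : ∃ lt : Finset (ι × Q), lt = univ.filter fun x : ι × Q =>
      Disjoint (vt x.2) V ∧ x.1 ∉ hv x.2 := ⟨_, rfl⟩
  obtain ⟨G, hG⟩ : ∃ G : Finset (ι × Q), G = univ.filter fun x : ι × Q =>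
      Disjoint (vt x.2) V ∧ x.1 ∈ hv x.2 := ⟨_, rfl⟩
  have hlts : ∑ x ∈ lt, ‖M • v x.1 x.2‖ ^ 2 ≤ C2 * C3 := by
    have h1 : ∑ x ∈ lt, ‖M • v x.1 x.2‖ ^ 2 ≤
        ∑ x ∈ (univ : Finset (ι × Q)), if Disjoint (vt x.2) V then
          min (τ x.2 ^ 2) (‖M • v x.1 x.2‖ ^ 2) else 0 := by
      rw [hlt, Finset.sum_filter]
      refine Finset.sum_le_sum fun x _ => ?_
      by_cases h : Disjoint (vt x.2) V
      · by_cases h' : x.1 ∉ hv x.2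
        · rw [if_pos ⟨h, h'⟩, if_pos h]
          refine le_min ?_ le_rfl
          rw [hmem] at h'
          push Not at h'
          exact pow_le_pow_left₀ (norm_nonneg _) h' 2
        · rw [if_neg (fun hh => h' hh.2), if_pos h]
          exact le_min (by positivity) (by positivity)
      · rw [if_neg (fun hh => h hh.1), if_neg h]
    refine h1.trans ?_
    rw [Fintype.sum_prod_type_right]
    calc ∑ κ : Q, ∑ i : ι, (if Disjoint (vt κ) V then min (τ κ ^ 2) (‖M • v i κ‖ ^ 2) else 0)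
        ≤ ∑ κ : Q, C2 * τ κ ^ 2 := by
          refine Finset.sum_le_sum fun κ _ => ?_
          by_cases h : Disjoint (vt κ) V
          · simp only [if_pos h]
            exact hmin κ h
          · simp only [if_neg h, Finset.sum_const_zero]
            have := hτ κ
            positivity
      _ = C2 * ∑ κ : Q, τ κ ^ 2 := by rw [Finset.mul_sum]
      _ ≤ C2 * C3 := mul_le_mul_of_nonneg_left hτ2 hC2
  obtain ⟨W, hW⟩ : ∃ W : ι × Q → ℝ, ∀ x, W x = ‖M • v x.1 x.2‖ ^ 2 := ⟨_, fun _ => rfl⟩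
  have hW0 : ∀ x, 0 ≤ W x := fun x => by
    rw [hW]
    positivity
  have hW4 : ∀ x, W x ≤ 1 / 4 := by
    intro x
    rw [hW]
    have h1 : ‖M • v x.1 x.2‖ ≤ 1 / 2 := by
      have := AddCircle.norm_le_half_period (1 : ℝ) (x := M • v x.1 x.2) one_ne_zero
      simpa using this
    have h2 := norm_nonneg (M • v x.1 x.2)
    nlinarith
  have hcard' : ∀ x : ι × Q, (insert x.1 (vt x.2)).card ≤ k + 1 := fun x =>
    (Finset.card_insert_le _ _).trans (Nat.succ_le_succ (hcard x.2))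
  obtain ⟨F, hFG, hdeg, EF, hEF, hEFm⟩ := max_fam (fun x : ι × Q => insert x.1 (vt x.2)) (k + 1)
    hcard' W hW0 hW4 G
  have hFgood : ∀ x ∈ F, Disjoint (vt x.2) V ∧ x.1 ∈ hv x.2 := by
    intro x hx
    have := hFG hx
    rw [hG, mem_filter] at this
    exact this.2
  obtain ⟨I, hI⟩ := peel_sub ⌈C2⌉₊ F hv (fun κ ⟨i, hi⟩ => hhvc κ (hFgood _ hi).1)
    (fun x hx => (hFgood x hx).2) W hW0
  obtain ⟨F', hF'⟩ : ∃ F' : Finset (ι × Q), F' =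
      F.filter (fun x => x.1 ∈ I ∧ ∀ i ∈ I, i ∈ hv x.2 → i = x.1) := ⟨_, rfl⟩
  rw [← hF'] at hI
  have hF'm : ∀ x ∈ F', x ∈ F ∧ x.1 ∈ I ∧ ∀ i ∈ I, i ∈ hv x.2 → i = x.1 := by
    intro x hx
    rw [hF', mem_filter] at hx
    exact hx
  have hWF' : ∑ x ∈ F', W x ≤ D := by
    have h := hheavy ι Q vt v F' I lt hpr hlts ?_ (fun x hx => (hF'm x hx).2.1) ?_ ?_
    · simp only [hW]
      exact h
    · intro j
      refine le_trans ?_ (hdeg j)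
      simp only [← hW]
      refine Finset.sum_le_sum_of_subset_of_nonneg ?_ fun x _ _ => hW0 x
      intro x hx
      rw [mem_filter] at hx ⊢
      exact ⟨(hF'm x hx.1).1, Finset.mem_insert.2 hx.2⟩
    · intro x hx i hi hne'
      rw [hlt, mem_filter]
      refine ⟨mem_univ _, (hFgood x (hF'm x hx).1).1, fun h => hne' ?_⟩
      exact (hF'm x hx).2.2 i hi h
    · intro x hx y hy hxy
      have h1 := (hF'm x hx).2.2 y.1 (hF'm y hy).2.1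
        (by rw [hxy]; exact (hFgood y (hF'm y hy).1).2)
      exact Prod.ext h1.symm hxy
  have hWF : ∑ x ∈ F, W x ≤ D' := by
    rw [hD']
    exact hI.trans (mul_le_mul_of_nonneg_left hWF' (by positivity))
  refine ⟨V ∪ EF, ?_, ?_⟩
  · refine (Finset.card_union_le _ _).trans (add_le_add hV ?_)
    have h1 : (EF.card : ℝ) ≤ (k + 1 : ℕ) * D' * (4 / 3) := by
      have h2 : ((k + 1 : ℕ) : ℝ) * ∑ x ∈ F, W x ≤ (k + 1 : ℕ) * D' :=
        mul_le_mul_of_nonneg_left hWF (by positivity)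
      linarith
    exact_mod_cast h1.trans (Nat.le_ceil _)
  · have h1 : univ.filter (fun x : ι × Q => Disjoint (insert x.1 (vt x.2)) (V ∪ EF)) ⊆ lt ∪ F := by
      intro x hx
      rw [mem_filter] at hx
      have h2 : Disjoint (insert x.1 (vt x.2)) V :=
        Finset.disjoint_of_subset_right Finset.subset_union_left hx.2
      have h3 : Disjoint (insert x.1 (vt x.2)) EF :=
        Finset.disjoint_of_subset_right Finset.subset_union_right hx.2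
      have h4 : Disjoint (vt x.2) V :=
        Finset.disjoint_of_subset_left (Finset.subset_insert _ _) h2
      by_cases h5 : x.1 ∈ hv x.2
      · exact mem_union_right _ (hEFm x (by rw [hG, mem_filter]; exact ⟨mem_univ _, h4, h5⟩) h3)
      · exact mem_union_left _ (by rw [hlt, mem_filter]; exact ⟨mem_univ _, h4, h5⟩)
    refine (Finset.sum_le_sum_of_subset_of_nonneg h1 fun x _ _ => by positivity).trans ?_
    have h6 := Finset.sum_union_inter (s₁ := lt) (s₂ := F) (f := fun x => ‖M • v x.1 x.2‖ ^ 2)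
    have h7 : 0 ≤ ∑ x ∈ lt ∩ F, ‖M • v x.1 x.2‖ ^ 2 := Finset.sum_nonneg fun x _ => by positivity
    have h8 : ∑ x ∈ F, ‖M • v x.1 x.2‖ ^ 2 ≤ D' := by
      simp only [hW] at hWF
      exact hWF
    linarith

end Pool.Agent.Lib.MP_3e612f_nt.RD
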