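import Pool.Agent.Lib.MP_3e612f_nt.RD.Lo

/-!
Peeling one variable: the thresholds of the columns; (a), (b) of the proof in `Peel.lean`.
-/

set_option autoImplicit false

namespace Pool.Agent.Lib.MP_3e612f_nt.RD

open Finset
open Pool.Agent.Lib.MP_3e612f_nt.PI (ee)
open Pool.Agent.Lib.MP_3e612f_nt.DI (av pr)

/-- `pr` with a chosen decidability instance -/
private theorem pr_eq {α : Type} [Fintype α] (P : α → Prop) [DecidablePred P] :
    pr P = ((univ.filter P).card : ℝ) / Fintype.card α := by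
  unfold pr
  congr!

/-- the frequently exceptional vertices are few; for the other columns the good event is large -/
private theorem cols_a {Z ι Q : Type} [DecidableEq Z] [Fintype ι] [DecidableEq ι]
    (k B : ℕ) (hk : 1 ≤ k) {δ N : ℝ} (hδ : 0 < δ) (hN : 0 < N) (S : Finset Z) (hSN : (S.card : ℝ) ≤ N)
    (hS : δ * N ≤ S.card) (E : Z → Finset ι) (hE : ∀ z ∈ S, (E z).card ≤ B) (vt : Q → Finset ι)
    (hvt : ∀ κ, (vt κ).card ≤ k) :
    ∃ V : Finset ι, V.card ≤ ⌈2 * k * B / δ⌉₊ ∧ ∀ κ, Disjoint (vt κ) V →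
      δ / 2 * N ≤ (S.filter fun z => Disjoint (vt κ) (E z)).card := by
  classical
  have hk0 : (0 : ℝ) < k := by exact_mod_cast hk
  refine ⟨univ.filter fun j => δ / (2 * k) * N ≤ ((S.filter fun z => j ∈ E z).card : ℝ), ?_, ?_⟩
  · set V : Finset ι := univ.filter fun j => δ / (2 * k) * N ≤ ((S.filter fun z => j ∈ E z).card : ℝ)
      with hV
    have h1 : (V.card : ℝ) * (δ / (2 * k) * N) ≤ B * N := by
      calc (V.card : ℝ) * (δ / (2 * k) * N) = ∑ _j ∈ V, δ / (2 * k) * N := by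
            rw [Finset.sum_const, nsmul_eq_mul]
        _ ≤ ∑ j ∈ V, ((S.filter fun z => j ∈ E z).card : ℝ) :=
            Finset.sum_le_sum fun j hj => (mem_filter.1 hj).2
        _ ≤ ∑ j, ((S.filter fun z => j ∈ E z).card : ℝ) :=
            Finset.sum_le_univ_sum_of_nonneg fun j => by positivity
        _ = ∑ z ∈ S, ((E z).card : ℝ) := by
            have : ∀ j : ι, ((S.filter fun z => j ∈ E z).card : ℝ) =
                ∑ z ∈ S, if j ∈ E z then (1 : ℝ) else 0 := by
              intro j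
              rw [Finset.sum_boole]
            simp only [this]
            rw [Finset.sum_comm]
            refine Finset.sum_congr rfl fun z _ => ?_
            rw [Finset.sum_boole]
            congr 2
            ext j
            simp
        _ ≤ ∑ _z ∈ S, (B : ℝ) := Finset.sum_le_sum fun z hz => by exact_mod_cast hE z hz
        _ = S.card * B := by rw [Finset.sum_const, nsmul_eq_mul]
        _ ≤ B * N := by
            rw [mul_comm]
            exact mul_le_mul_of_nonneg_left hSN (by positivity)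
    have h2 : (V.card : ℝ) ≤ 2 * k * B / δ := by
      rw [le_div_iff₀ hδ]
      have h3 : (V.card : ℝ) * (δ / (2 * k)) ≤ B := by
        rw [← mul_assoc] at h1
        exact le_of_mul_le_mul_right h1 hN
      have h4 : (V.card : ℝ) * (δ / (2 * k)) = V.card * δ / (2 * k) := by ring
      rw [h4, div_le_iff₀ (by positivity)] at h3
      linarith
    exact_mod_cast h2.trans (Nat.le_ceil _)
  · intro κ hκ
    have h1 : ((S.filter fun z => ¬ Disjoint (vt κ) (E z)).card : ℝ) ≤ δ / 2 * N := by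
      have h2 : (S.filter fun z => ¬ Disjoint (vt κ) (E z)) ⊆
          (vt κ).biUnion fun j => S.filter fun z => j ∈ E z := by
        intro z hz
        rw [mem_filter] at hz
        obtain ⟨j, hj1, hj2⟩ := Finset.not_disjoint_iff.1 hz.2
        exact mem_biUnion.2 ⟨j, hj1, mem_filter.2 ⟨hz.1, hj2⟩⟩
      have h3 : ((S.filter fun z => ¬ Disjoint (vt κ) (E z)).card : ℝ) ≤
          ∑ j ∈ vt κ, ((S.filter fun z => j ∈ E z).card : ℝ) := by
        exact_mod_cast (Finset.card_le_card h2).trans Finset.card_biUnion_le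
      have h4 : ∀ j ∈ vt κ, ((S.filter fun z => j ∈ E z).card : ℝ) ≤ δ / (2 * k) * N := by
        intro j hj
        have h5 : j ∉ univ.filter fun j => δ / (2 * k) * N ≤ ((S.filter fun z => j ∈ E z).card : ℝ) :=
          Finset.disjoint_left.1 hκ hj
        rw [mem_filter] at h5
        push Not at h5
        exact (h5 (mem_univ _)).le
      refine h3.trans ((Finset.sum_le_sum h4).trans ?_)
      rw [Finset.sum_const, nsmul_eq_mul]
      have h6 : ((vt κ).card : ℝ) ≤ k := by exact_mod_cast hvt κ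
      calc ((vt κ).card : ℝ) * (δ / (2 * k) * N) ≤ k * (δ / (2 * k) * N) :=
            mul_le_mul_of_nonneg_right h6 (by positivity)
        _ = δ / 2 * N := by
            field_simp
    have h7 := Finset.card_filter_add_card_filter_not (s := S) fun z => Disjoint (vt κ) (E z)
    have h8 : ((S.filter fun z => Disjoint (vt κ) (E z)).card : ℝ) +
        (S.filter fun z => ¬ Disjoint (vt κ) (E z)).card = S.card := by exact_mod_cast h7
    linarith

/-- Markov for one column -/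
private theorem cols_b {Z : Type} [Fintype Z] [DecidableEq Z] {δ N τ2 s : ℝ}
    (S : Finset Z) (hS : δ / 2 * N ≤ S.card) (f : Z → ℝ) (hτ : 0 < τ2)
    (hs : ∑ z ∈ S, f z ^ 2 ≤ N * s) (hsτ : s ≤ δ / 4 * τ2) (hN : 0 < N) (_hf : ∀ z, 0 ≤ f z)
    {τ : ℝ} (hτ0 : 0 < τ) (hττ : τ ^ 2 = τ2) :
    δ / 4 * N ≤ (univ.filter fun z => f z ≤ τ).card := by
  classical
  have h1 : ((S.filter fun z => ¬ f z ≤ τ).card : ℝ) * τ2 ≤ δ / 4 * N * τ2 := by
    calc ((S.filter fun z => ¬ f z ≤ τ).card : ℝ) * τ2 = ∑ _z ∈ S.filter fun z => ¬ f z ≤ τ, τ2 := by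
          rw [Finset.sum_const, nsmul_eq_mul]
      _ ≤ ∑ z ∈ S.filter fun z => ¬ f z ≤ τ, f z ^ 2 := by
          refine Finset.sum_le_sum fun z hz => ?_
          have := (mem_filter.1 hz).2
          push Not at this
          rw [← hττ]
          exact pow_le_pow_left₀ hτ0.le this.le 2
      _ ≤ ∑ z ∈ S, f z ^ 2 :=
          Finset.sum_le_sum_of_subset_of_nonneg (Finset.filter_subset _ _) fun z _ _ => by positivity
      _ ≤ N * s := hs
      _ ≤ N * (δ / 4 * τ2) := mul_le_mul_of_nonneg_left hsτ hN.le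
      _ = δ / 4 * N * τ2 := by ring
  have h2 : ((S.filter fun z => ¬ f z ≤ τ).card : ℝ) ≤ δ / 4 * N := le_of_mul_le_mul_right h1 hτ
  have h3 := Finset.card_filter_add_card_filter_not (s := S) fun z => f z ≤ τ
  have h4 : ((S.filter fun z => f z ≤ τ).card : ℝ) + (S.filter fun z => ¬ f z ≤ τ).card = S.card := by
    exact_mod_cast h3
  have h5 : ((S.filter fun z => f z ≤ τ).card : ℝ) ≤ (univ.filter fun z => f z ≤ τ).card := by
    exact_mod_cast Finset.card_le_card (Finset.filter_subset_filter _ (Finset.subset_univ _))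
  linarith

/-- (a), (b): thresholds -/
theorem peel_cols (k B : ℕ) (hk : 1 ≤ k) {C δ : ℝ} (hC : 0 ≤ C) (hδ : 0 < δ) :
    ∃ (M B' : ℕ) (C2 C3 : ℝ), 1 ≤ M ∧ 0 ≤ C2 ∧ 0 ≤ C3 ∧
    ∀ (ι Q : Type) [Fintype ι] [DecidableEq ι] [Fintype Q] (vt : Q → Finset ι),
      (∀ κ, (vt κ).Nonempty) → (∀ κ, (vt κ).card ≤ k) → ∀ v : ι → Q → UnitAddCircle,
      δ ≤ pr (fun z : ι → Bool × Bool => St vt B C (fun κ => ∑ i, zz (z i) • v i κ)) →
      ∃ (V : Finset ι) (τ : Q → ℝ), V.card ≤ B' ∧ (∀ κ, 0 < τ κ) ∧ ∑ κ, τ κ ^ 2 ≤ C3 ∧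
        ∀ κ, Disjoint (vt κ) V → ∑ i, min (τ κ ^ 2) (‖M • v i κ‖ ^ 2) ≤ C2 * τ κ ^ 2 := by
  obtain ⟨M, C2, c0, hM, hC2, hc0, hlo⟩ := lo_circle (η := δ / 4) (by positivity)
  refine ⟨M, ⌈2 * k * B / δ⌉₊ + ⌈(4 * C / δ + 1) / c0 ^ 2⌉₊, C2, 4 * C / δ + 1, hM, hC2.le,
    by positivity, ?_⟩
  intro ι Q _ _ _ vt hne hcard v hpr
  classical
  set a : (ι → Bool × Bool) → Q → UnitAddCircle := fun z κ => ∑ i, zz (z i) • v i κ with ha
  set N : ℝ := (Fintype.card (ι → Bool × Bool) : ℝ) with hNdef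
  have hN : 0 < N := by
    rw [hNdef]
    exact_mod_cast Fintype.card_pos
  set S : Finset (ι → Bool × Bool) := univ.filter fun z => St vt B C (a z) with hSdef
  have hSN : (S.card : ℝ) ≤ N := by
    rw [hNdef]
    exact_mod_cast Finset.card_le_univ S
  have hS : δ * N ≤ S.card := by
    rw [pr_eq, le_div_iff₀ hN] at hpr
    exact hpr
  have hex : ∀ z, ∃ E : Finset ι, z ∈ S → E.card ≤ B ∧
      ∑ κ ∈ univ.filter (fun κ => Disjoint (vt κ) E), ‖a z κ‖ ^ 2 ≤ C := by
    intro z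
    by_cases hz : z ∈ S
    · obtain ⟨E, hE⟩ := (mem_filter.1 hz).2
      exact ⟨E, fun _ => hE⟩
    · exact ⟨∅, fun h => absurd h hz⟩
  choose E hE using hex
  obtain ⟨V, hV, hVd⟩ := cols_a k B hk hδ hN S hSN hS E (fun z hz => (hE z hz).1) vt hcard
  -- the mean squares
  set s : Q → ℝ := fun κ => N⁻¹ * ∑ z ∈ S.filter (fun z => Disjoint (vt κ) (E z)), ‖a z κ‖ ^ 2 with hs
  have hs0 : ∀ κ, 0 ≤ s κ := fun κ => mul_nonneg (by positivity) (Finset.sum_nonneg fun z _ => by positivity)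
  have hssum : ∑ κ, s κ ≤ C := by
    have h1 : ∑ κ, s κ = N⁻¹ * ∑ z ∈ S, ∑ κ ∈ univ.filter (fun κ => Disjoint (vt κ) (E z)),
        ‖a z κ‖ ^ 2 := by
      rw [hs]
      simp only
      rw [← Finset.mul_sum]
      congr 1
      simp only [Finset.sum_filter]
      rw [Finset.sum_comm]
    rw [h1, inv_mul_le_iff₀ hN]
    refine (Finset.sum_le_sum fun z hz => (hE z hz).2).trans ?_
    rw [Finset.sum_const, nsmul_eq_mul]
    exact mul_le_mul_of_nonneg_right hSN hC
  set q : ℝ := (Fintype.card Q : ℝ)⁻¹ with hq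
  have hQ : ∀ _ : Q, 0 < q := by
    intro κ
    have : Nonempty Q := ⟨κ⟩
    have h1 : 0 < Fintype.card Q := Fintype.card_pos
    rw [hq]
    positivity
  set τ : Q → ℝ := fun κ => Real.sqrt (4 * s κ / δ + q) with hτ
  have hτ2p : ∀ κ, 0 < 4 * s κ / δ + q := by
    intro κ
    have h1 := hs0 κ
    have h2 := hQ κ
    positivity
  have hτp : ∀ κ, 0 < τ κ := fun κ => Real.sqrt_pos.2 (hτ2p κ)
  have hτsq : ∀ κ, τ κ ^ 2 = 4 * s κ / δ + q := fun κ => Real.sq_sqrt (hτ2p κ).le
  have hτsum : ∑ κ, τ κ ^ 2 ≤ 4 * C / δ + 1 := by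
    simp only [hτsq]
    rw [Finset.sum_add_distrib, ← Finset.sum_div, ← Finset.mul_sum]
    have h1 : 4 * ∑ κ, s κ ≤ 4 * C := by linarith
    have h2 : 4 * (∑ κ, s κ) / δ ≤ 4 * C / δ := div_le_div_of_nonneg_right h1 hδ.le
    have h3 : ∑ _κ : Q, q ≤ 1 := by
      rw [Finset.sum_const, nsmul_eq_mul, card_univ, hq]
      exact mul_inv_le_one
    linarith
  -- one vertex of each column with a large threshold
  choose w hw using hne
  set T : Finset Q := univ.filter fun κ => c0 < τ κ with hT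
  have hTc : (T.card : ℝ) ≤ (4 * C / δ + 1) / c0 ^ 2 := by
    rw [le_div_iff₀ (by positivity)]
    calc (T.card : ℝ) * c0 ^ 2 = ∑ _κ ∈ T, c0 ^ 2 := by rw [Finset.sum_const, nsmul_eq_mul]
      _ ≤ ∑ κ ∈ T, τ κ ^ 2 := Finset.sum_le_sum fun κ hκ =>
          pow_le_pow_left₀ hc0.le (mem_filter.1 hκ).2.le 2
      _ ≤ ∑ κ, τ κ ^ 2 := Finset.sum_le_univ_sum_of_nonneg fun κ => by positivity
      _ ≤ 4 * C / δ + 1 := hτsum
  refine ⟨V ∪ T.image w, τ, ?_, hτp, hτsum, ?_⟩
  · refine (Finset.card_union_le _ _).trans (add_le_add hV ?_)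
    refine Finset.card_image_le.trans ?_
    exact_mod_cast hTc.trans (Nat.le_ceil _)
  · intro κ hκ
    have hκV : Disjoint (vt κ) V := Finset.disjoint_of_subset_right Finset.subset_union_left hκ
    have hκT : κ ∉ T := by
      intro h
      have h1 : w κ ∈ V ∪ T.image w := mem_union_right _ (mem_image_of_mem w h)
      exact Finset.disjoint_left.1 hκ (hw κ) h1
    have hκc : τ κ ≤ c0 := by
      by_contra h
      push Not at h
      exact hκT (mem_filter.2 ⟨mem_univ _, h⟩)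
    have h1 := hVd κ hκV
    have h2 : ∑ z ∈ S.filter (fun z => Disjoint (vt κ) (E z)), ‖a z κ‖ ^ 2 ≤ N * s κ := by
      rw [hs]
      simp only
      rw [mul_inv_cancel_left₀ hN.ne']
    have h3 : s κ ≤ δ / 4 * (4 * s κ / δ + q) := by
      have h4 : δ / 4 * (4 * s κ / δ + q) = s κ + δ / 4 * q := by
        field_simp
      rw [h4]
      have h5 := hQ κ
      have h6 : 0 ≤ δ / 4 * q := by positivity
      linarith
    have h4 := cols_b (S.filter fun z => Disjoint (vt κ) (E z)) h1 (fun z => ‖a z κ‖) (hτ2p κ) h2 h3 hN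
      (fun z => norm_nonneg _) (hτp κ) (hτsq κ)
    refine hlo ι (fun i => v i κ) (τ κ) (hτp κ) hκc ?_
    rw [pr_eq, le_div_iff₀ hN]
    exact h4

end Pool.Agent.Lib.MP_3e612f_nt.RD
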