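import Pool.Agent.Lib.MP_3e612f_nt.RD.Usd

/-!
Polynomial sequences are in the universal system of the real digit polynomials.

PROOF. `mem_closure_pi`-like: it suffices to find for every `l` an element of `GX` which agrees with the sequence on
`[0, q ^ l)` (`mem_closure_of_agree`). For `n < q ^ l` one has `n = ∑_{i < l} ε_i q ^ i` with `ε_i = (n / q ^ i % q ^ (D + 1)) % q`, so
`n ^ e = ∑_{j ∈ [0, l)^e} ∏_a q ^ (j a) ε_(j a)` (`Finset.prod_univ_sum` / `Finset.sum_pow'`); for `e ≤ d` this is a sum over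
`j ∈ [0, l)^d` with `j a = 0` for `a ≥ e` (if `l ≥ 1`). Put `F j w k = ∑_{e ≤ d} coeff (P k) e * ...` as an element of `ℝ/ℤ`. One may
also use `IsPhd.add`, `IsPhd.sum` and a lemma: a function of the windows at `≤ d` positions is `IsPhd`.
-/

set_option autoImplicit false

namespace Pool.Agent.Lib.MP_3e612f_nt.RD

open Finset
open Pool.Agent.Lib.MP_3e612f_nt.PI (ee mc wd)
open Pool.Agent.Lib.MP_3e612f_nt.DI (phd IsPhd)

/-- limits of sequences which agree on longer and longer intervals -/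
theorem mem_closure_of_agree {X : Set (ℕ → ℕ → UnitAddCircle)} {x : ℕ → ℕ → UnitAddCircle}
    (h : ∀ l : ℕ, ∃ y ∈ X, ∀ n < l, y n = x n) : x ∈ closure X := by
  choose y hy hyx using h
  refine mem_closure_of_tendsto (f := y) (b := Filter.atTop) ?_ (Filter.Eventually.of_forall hy)
  rw [tendsto_pi_nhds]
  intro n
  refine tendsto_const_nhds.congr' ?_
  filter_upwards [Filter.eventually_gt_atTop n] with l hl
  exact (hyx l n hl).symm

private theorem po_digits (q L n : ℕ) : ∑ i ∈ range L, (n / q ^ i % q) * q ^ i = n % q ^ L := by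
  induction L with
  | zero => simp [Nat.mod_one]
  | succ L ih => rw [Finset.sum_range_succ, ih, Nat.mod_pow_succ, mul_comm (q ^ L)]

private theorem po_real {q L n : ℕ} (D : ℕ) (hn : n < q ^ L) :
    ∑ i ∈ range L, ((wd q D i n % q : ℕ) : ℝ) * (q : ℝ) ^ i = n := by
  have h1 : ∀ i, wd q D i n % q = n / q ^ i % q := by
    intro i
    unfold wd
    exact Nat.mod_mod_of_dvd _ (dvd_pow_self q (Nat.succ_ne_zero D))
  have h2 := po_digits q L n
  rw [Nat.mod_eq_of_lt hn] at h2
  simp only [h1]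
  conv_rhs => rw [← h2]
  push_cast
  rfl

private theorem po_pow {q L n D d e : ℕ} (hL : 1 ≤ L) (hn : n < q ^ L) (he : e ≤ d) :
    (n : ℝ) ^ e = ∑ j ∈ Fintype.piFinset (fun _ : Fin d => range L), ∏ a : Fin d,
      (if (a : ℕ) < e then ((wd q D (j a) n % q : ℕ) : ℝ) * (q : ℝ) ^ (j a)
        else if j a = 0 then 1 else 0) := by
  rw [← Finset.prod_univ_sum (fun _ : Fin d => range L) (fun (a : Fin d) (i : ℕ) =>
    (if (a : ℕ) < e then ((wd q D i n % q : ℕ) : ℝ) * (q : ℝ) ^ i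
        else if i = 0 then (1 : ℝ) else 0))]
  have h1 : ∀ a : Fin d, ∑ i ∈ range L, (if (a : ℕ) < e then
      ((wd q D i n % q : ℕ) : ℝ) * (q : ℝ) ^ i else if i = 0 then (1 : ℝ) else 0) =
      if (a : ℕ) < e then (n : ℝ) else 1 := by
    intro a
    by_cases ha : (a : ℕ) < e
    · simp only [if_pos ha]
      exact po_real D hn
    · simp only [if_neg ha]
      rw [Finset.sum_ite_eq', if_pos (mem_range.2 hL)]
  simp only [h1]
  rw [Finset.prod_ite, Finset.prod_const, Finset.prod_const_one, mul_one]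
  congr 1
  have h2 : (univ.filter fun a : Fin d => (a : ℕ) < e).card = e := by
    rw [Fin.card_filter_val_lt]
    omega
  exact h2.symm

/-- **polynomial sequences** -/
theorem gx_poly {q : ℕ} (hq : 2 ≤ q) (D : ℕ) {d : ℕ} (hd : 1 ≤ d) (P : ℕ → Polynomial ℝ)
    (hP : ∀ k, (P k).natDegree ≤ d) :
    (fun (n k : ℕ) => (((P k).eval (n : ℝ) : ℝ) : UnitAddCircle)) ∈ closure (GX q D d) := by
  refine mem_closure_of_agree fun l => ?_
  set F : (Fin d → ℕ) → (Fin d → ℕ) → ℕ → UnitAddCircle := fun j w k =>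
    ((∑ e ∈ range (d + 1), (P k).coeff e * ∏ a : Fin d,
      (if (a : ℕ) < e then ((w a % q : ℕ) : ℝ) * (q : ℝ) ^ (j a)
        else if j a = 0 then 1 else 0) : ℝ) : UnitAddCircle) with hF
  refine ⟨fun n => phd q D d (l + 1) F (n + 0), ⟨l + 1, 0, F, fun n => rfl⟩, fun n hn => ?_⟩
  have hnq : n < q ^ (l + 1) := by
    have h1 : l + 1 < q ^ (l + 1) := Nat.lt_pow_self (by omega)
    omega
  funext k
  show phd q D d (l + 1) F (n + 0) k = _
  rw [add_zero]
  unfold phd
  rw [Finset.sum_apply]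
  have h2 : (P k).eval (n : ℝ) = ∑ j ∈ Fintype.piFinset (fun _ : Fin d => range (l + 1)),
      ∑ e ∈ range (d + 1), (P k).coeff e * ∏ a : Fin d,
      (if (a : ℕ) < e then ((wd q D (j a) n % q : ℕ) : ℝ) * (q : ℝ) ^ (j a)
        else if j a = 0 then 1 else 0) := by
    rw [Polynomial.eval_eq_sum_range' (Nat.lt_succ_of_le (hP k)), Finset.sum_comm]
    refine Finset.sum_congr rfl fun e he => ?_
    rw [po_pow (D := D) (Nat.succ_le_succ (Nat.zero_le l)) hnq
      (Nat.lt_succ_iff.1 (mem_range.1 he)), Finset.mul_sum]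
  rw [h2]
  have h3 : ∀ (s : Finset (Fin d → ℕ)) (g : (Fin d → ℕ) → ℝ),
      ((∑ j ∈ s, g j : ℝ) : UnitAddCircle) = ∑ j ∈ s, ((g j : ℝ) : UnitAddCircle) := by
    intro s g
    exact map_sum (QuotientAddGroup.mk' (AddSubgroup.zmultiples (1 : ℝ))) g s
  rw [h3]

end Pool.Agent.Lib.MP_3e612f_nt.RD
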