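import Pool.Agent.Lib.MP_3e612f_nt.RD.Ent
import Pool.Agent.Lib.MP_3e612f_nt.RD.Pol
import Pool.Agent.Lib.MP_3e612f_nt.DI.U.Main

/-!
The statement of the hand-in in terms of the sums over `Fin d → Fin L`.
-/

set_option autoImplicit false

namespace Pool.Agent.Lib.MP_3e612f_nt.RD

open Finset
open Pool.Agent.Lib.MP_3e612f_nt.PI (ee mc wd)
open Pool.Agent.Lib.MP_3e612f_nt.DI (phd IsPhd phd_eq_sum)

theorem gx_eq (q D d : ℕ) : GX q D d = {x | ∃ (L s : ℕ)
    (F : (Fin d → Fin L) → (Fin d → ℕ) → ℕ → UnitAddCircle),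
    ∀ n, x n = ∑ j : Fin d → Fin L, F j fun a => (n + s) / q ^ (j a : ℕ) % q ^ (D + 1)} := by
  classical
  ext x
  constructor
  · rintro ⟨L, s, F, h⟩
    refine ⟨L, s, fun j w => F (fun a => j a) w, fun n => ?_⟩
    rw [h n, phd_eq_sum]
  · rintro ⟨L, s, F, h⟩
    refine ⟨L, s, fun j w => if hj : ∀ a, j a < L then F (fun a => ⟨j a, hj a⟩) w else 0,
      fun n => ?_⟩
    rw [h n, phd_eq_sum]
    refine Finset.sum_congr rfl fun j _ => ?_
    rw [dif_pos fun a => (j a).2]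

theorem sh_iter (n : ℕ) (x : ℕ → ℕ → UnitAddCircle) :
    (fun (x : ℕ → ℕ → UnitAddCircle) i => x (i + 1))^[n] x = fun i => x (i + n) := by
  induction n generalizing x with
  | zero => rfl
  | succ n ih =>
    rw [Function.iterate_succ_apply, ih]
    funext i
    show x (i + n + 1) = x (i + (n + 1))
    rfl

end Pool.Agent.Lib.MP_3e612f_nt.RD
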