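import Pool.Agent.Lib.MP_3e612f_nt.RD.Cls

/-!
Existence of the gadget parameters.
-/

set_option autoImplicit false

namespace Pool.Agent.Lib.MP_3e612f_nt.RD

open Pool.Agent.Lib.MP_3e612f_nt.EM

/-- gadgets with the properties needed in `rig_Z` exist (this is `exists_GP` of `RigZ.lean`) -/
theorem gp_exists {q p r : ℕ} (hq : 2 ≤ q) (hp : p.Prime) (hr : r.Prime) (hpr : p ≠ r)
    (hpq : p.Coprime q) (hrq : r.Coprime q) (D : ℕ) :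
    ∃ (G : GP) (b κ : ℕ), G.q = q ∧ G.D = D ∧ G.p = p ∧ G.r = r ∧ 2 * G.p * G.r ≤ G.q ^ b ∧
      2 * G.p * G.T ≤ G.q ^ b ∧ 2 * G.r * G.T ≤ G.q ^ b ∧ 2 * (G.p + G.r) * G.T ≤ G.q ^ κ ∧
      G.q * G.T ≤ G.q ^ κ ∧ G.q ^ (b + κ + 2 * G.D + 2) ≤ G.H ∧ 2 * G.q ^ (b + κ) ≤ G.H ∧
      b + κ ≤ G.l := by
  obtain ⟨b, hb⟩ : ∃ b, 2 * p * r + 2 * p * q ^ D + 2 * r * q ^ D < q ^ b :=
    ⟨_, Nat.lt_pow_self hq⟩
  obtain ⟨κ, hκ⟩ : ∃ κ, 2 * (p + r) * q ^ D + q * q ^ D < q ^ κ := ⟨_, Nat.lt_pow_self hq⟩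
  obtain ⟨H, hH⟩ : ∃ H, H = q ^ (b + κ + 2 * D + 2) + 2 * q ^ (b + κ) := ⟨_, rfl⟩
  have hH0 : 0 < H := by
    rw [hH]
    have : 0 < q := by omega
    positivity
  obtain ⟨g, l, z0, x0, hl, hG⟩ := exists_gadT hq hpq hrq hp.pos hr.pos (q ^ D) H (b + κ)
  refine ⟨⟨q, D, g, l, H, p, r, z0, x0, hq, hp, hr, hpr, hpq, hrq, hH0, hG⟩, b, κ, rfl, rfl, rfl,
    rfl, ?_, ?_, ?_, ?_, ?_, ?_, ?_, hl⟩
  · show 2 * p * r ≤ q ^ b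
    omega
  · show 2 * p * q ^ D ≤ q ^ b
    omega
  · show 2 * r * q ^ D ≤ q ^ b
    omega
  · show 2 * (p + r) * q ^ D ≤ q ^ κ
    omega
  · show q * q ^ D ≤ q ^ κ
    omega
  · show q ^ (b + κ + 2 * D + 2) ≤ H
    omega
  · show 2 * q ^ (b + κ) ≤ H
    omega

end Pool.Agent.Lib.MP_3e612f_nt.RD
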