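import Pool.Agent.Lib.MP_3e612f_nt.RD.Cls
import Pool.Agent.Lib.MP_3e612f_nt.EM.Rig

/-!
Rigidity over the integers: the proof of `rig_Z`.

`gdv`: the vector of a gadget, as a function of the contents of the blocks. `rigY_one`, `rigY_two`: the two
elements of the span of the gadget vectors, in any abelian group. Then the universal group of the letters of a
block (finitely supported functions on `ℕ × ℕ`) gives coefficients which depend only on the window content of
the shift and on the content of the letter.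
-/

set_option autoImplicit false

namespace Pool.Agent.Lib.MP_3e612f_nt.RD

open Finset
open Pool.Agent.Lib.MP_3e612f_nt.PI (ee mc sg)
open Pool.Agent.Lib.MP_3e612f_nt.DI (av pr mlt)
open Pool.Agent.Lib.MP_3e612f_nt.EM

/-- the change of the letters when the content `c % T` of the position `j` is replaced by `c` -/
def dc (q T L : ℕ) (j c : ℕ) (x : Lt (q * T) L) : ℤ :=
  if j ≤ x.1 then
    (if c / q ^ ((x.1 : ℕ) - j) % (q * T) = x.2 then 1 else 0) -
      (if c % T / q ^ ((x.1 : ℕ) - j) % (q * T) = x.2 then 1 else 0)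
  else 0

theorem dl_dc (q T L : ℕ) (y x : Lt (q * T) L) : dl q T T L y x = dc q T L y.1 y.2 x := rfl

section Span

variable {V : Type} [AddCommGroup V]

/-- the vector of the gadget with the label `lam` -/
def gdv (q T l p r σp σr : ℕ) (e e' : ℕ × ℕ → V) (lam : ℕ) : V :=
  (blkV q T l e (p * (lam + T) + σp) - blkV q T l e (p * lam + σp)) +
    (blkV q T l e' (r * (lam + T) + σr) - blkV q T l e' (r * lam + σr))

/-- the span of the gadget vectors -/
def gsp (q T l p r σp σr H : ℕ) (e e' : ℕ × ℕ → V) : Submodule ℤ V :=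
  Submodule.span ℤ (Set.range fun lam : Fin H => gdv q T l p r σp σr e e' lam)

theorem gsp_swap (q T l p r σp σr H : ℕ) (e e' : ℕ × ℕ → V) :
    gsp q T l r p σr σp H e' e = gsp q T l p r σp σr H e e' := by
  unfold gsp
  congr 2
  funext lam
  unfold gdv
  rw [add_comm]

/-- the class of the content `q ^ b * c`, with its slope -/
theorem rigY_slope {q p r T b κ h l H : ℕ} (hq : 2 ≤ q) (hp : p.Prime) (hpq : p.Coprime q)
    (hpT : p.Coprime T) (hpr : p.Coprime r) (hr : 0 < r) (hT : 0 < T) (hTh : T ≤ q ^ h)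
    (hb1 : 2 * p * r ≤ q ^ b) (hb2 : 2 * p * T ≤ q ^ b) (hb3 : 2 * r * T ≤ q ^ b)
    (hH : q ^ (b + κ + 2 * h + 2) ≤ H) (hκ : T < q ^ κ) (σp σr : ℕ) (e e' : ℕ × ℕ → V) :
    (∀ B u : ℕ, u % q ^ (b + κ) + q ^ b * (B * T) < q ^ (b + κ) →
      (blkV q T l e (u + q ^ b * (B * T)) - blkV q T l e u) -
        B • (blkV q T l e (q ^ b * T) - blkV q T l e (q ^ b * (T % T))) ∈
          gsp q T l p r σp σr H e e') ∧
    ∀ c < q ^ κ, (blkV q T l e (q ^ b * c) - blkV q T l e (q ^ b * (c % T))) -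
        (c / T) • (blkV q T l e (q ^ b * T) - blkV q T l e (q ^ b * (T % T))) ∈
          gsp q T l p r σp σr H e e' := by
  set S := gsp q T l p r σp σr H e e' with hS
  let π : V →+ V ⧸ S := S.mkQ.toAddMonoidHom
  have hπ : ∀ v ∈ S, π v = 0 := fun v hv => (Submodule.Quotient.mk_eq_zero S).2 hv
  have hπ' : ∀ v, π v = 0 → v ∈ S := fun v hv => (Submodule.Quotient.mk_eq_zero S).1 hv
  have hq0 : 0 < q := by omega
  have hqb : 0 < q ^ b := pow_pos hq0 b
  have hK : ∀ x < H, π (blkV q T l e (p * (x + T) + σp)) + π (blkV q T l e' (r * (x + T) + σr)) =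
      π (blkV q T l e (p * x + σp)) + π (blkV q T l e' (r * x + σr)) := by
    intro x hx
    have h1 : gdv q T l p r σp σr e e' x ∈ S := Submodule.subset_span ⟨⟨x, hx⟩, rfl⟩
    have h2 := hπ _ h1
    unfold gdv at h2
    rw [map_add, map_sub, map_sub] at h2
    rw [← sub_eq_zero, ← h2]
    abel
  obtain ⟨γ, hγ⟩ := klT hq hp hpq hpT hpr hr hT hTh hb1 hb2 hb3
    (split_blkV (l := l) e π) (split_blkV (l := l) e' π) hH hK
  have hcc : ∀ c < q ^ κ, π (blkV q T l e (q ^ b * c)) - π (blkV q T l e (q ^ b * (c % T))) =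
      (c / T) • γ := by
    intro c hc
    have e1 : c % T + c / T * T = c := by
      rw [mul_comm]
      exact Nat.mod_add_div c T
    have h1 := hγ (c / T) κ le_rfl (q ^ b * (c % T)) (by
      rw [← mul_add, e1, pow_add, Nat.mul_div_mul_left _ _ hqb, Nat.mul_div_mul_left _ _ hqb,
        Nat.div_eq_of_lt hc, Nat.div_eq_of_lt (lt_of_le_of_lt (Nat.mod_le _ _) hc)])
    rwa [← mul_add, e1] at h1
  have hγT : π (blkV q T l e (q ^ b * T)) - π (blkV q T l e (q ^ b * (T % T))) = γ := by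
    have h1 := hcc T hκ
    rwa [Nat.div_self hT, one_smul] at h1
  refine ⟨fun B u hu => hπ' _ ?_, fun c hc => hπ' _ ?_⟩
  · have h1 := hγ B κ le_rfl u (by rw [add_comm]; exact div_add_small hu)
    rw [map_sub, map_sub, map_nsmul, map_sub, hγT, h1, sub_self]
  · rw [map_sub, map_sub, map_nsmul, map_sub, hγT, hcc c hc, sub_self]

/-- few residues carry -/
private theorem card_carry {Q p σ m : ℕ} (hp : p.Coprime Q) :
    ((range Q).filter fun x => Q ≤ (p * x + σ) % Q + m).card ≤ m := by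
  have h1 : ((range Q).filter fun x => Q ≤ (p * x + σ) % Q + m).card ≤ (Ico (Q - m) Q).card := by
    refine Finset.card_le_card_of_injOn (fun x => (p * x + σ) % Q) ?_ ?_
    · intro x hx
      obtain ⟨h1, h2⟩ := mem_filter.1 hx
      have hQ : 0 < Q := lt_of_le_of_lt (Nat.zero_le _) (mem_range.1 h1)
      have h3 := Nat.mod_lt (p * x + σ) hQ
      show (p * x + σ) % Q ∈ Ico (Q - m) Q
      rw [mem_Ico]
      omega
    · intro x hx y hy hxy
      have hx1 := mem_range.1 (mem_filter.1 hx).1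
      have hy1 := mem_range.1 (mem_filter.1 hy).1
      have h3 : p * x + σ ≡ p * y + σ [MOD Q] := hxy
      have h4 : p * x ≡ p * y [MOD Q] := Nat.ModEq.add_right_cancel' σ h3
      have h5 : x ≡ y [MOD Q] := Nat.ModEq.cancel_left_of_coprime hp.symm h4
      exact Nat.ModEq.eq_of_lt_of_lt h5 hx1 hy1
  rw [Nat.card_Ico] at h1
  omega

/-- the second element of the span -/
theorem rigY_two {q p r T b κ h l H : ℕ} (hq : 2 ≤ q) (hp : p.Prime) (hrp : r.Prime)
    (hpq : p.Coprime q) (hrq : r.Coprime q) (hpT : p.Coprime T) (hrT : r.Coprime T)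
    (hpr : p.Coprime r) (hT : 0 < T) (hTh : T ≤ q ^ h)
    (hb1 : 2 * p * r ≤ q ^ b) (hb2 : 2 * p * T ≤ q ^ b) (hb3 : 2 * r * T ≤ q ^ b)
    (hH : q ^ (b + κ + 2 * h + 2) ≤ H) (hH2 : 2 * q ^ (b + κ) ≤ H) (hκ : T < q ^ κ)
    (hκ2 : 2 * (p + r) * T ≤ q ^ κ) (σp σr : ℕ) (e e' : ℕ × ℕ → V) :
    p • (blkV q T l e (q ^ b * T) - blkV q T l e (q ^ b * (T % T))) +
      r • (blkV q T l e' (q ^ b * T) - blkV q T l e' (q ^ b * (T % T))) ∈
        gsp q T l p r σp σr H e e' := by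
  have hq0 : 0 < q := by omega
  have hqb : 0 < q ^ b := pow_pos hq0 b
  have h1 := (rigY_slope (l := l) hq hp hpq hpT hpr hrp.pos hT hTh hb1 hb2 hb3 hH hκ σp σr e e').1
  have h2 := (rigY_slope (l := l) hq hrp hrq hrT hpr.symm hp.pos hT hTh
    (by calc 2 * r * p = 2 * p * r := by ring
          _ ≤ q ^ b := hb1) hb3 hb2 hH hκ σr σp e' e).1
  rw [gsp_swap] at h2
  set S := gsp q T l p r σp σr H e e' with hS
  set Q := q ^ (b + κ) with hQ
  have hQb : Q = q ^ b * q ^ κ := by rw [hQ, pow_add]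
  -- a place without carry
  have hcop : ∀ t : ℕ, t.Coprime q → t.Coprime Q := fun t ht => Nat.Coprime.pow_right _ ht
  obtain ⟨x, hxQ, hx1, hx2⟩ : ∃ x < Q, (p * x + σp) % Q + q ^ b * (p * T) < Q ∧
      (r * x + σr) % Q + q ^ b * (r * T) < Q := by
    by_contra hcon
    push Not at hcon
    have h3 : range Q ⊆ ((range Q).filter fun x => Q ≤ (p * x + σp) % Q + q ^ b * (p * T)) ∪
        ((range Q).filter fun x => Q ≤ (r * x + σr) % Q + q ^ b * (r * T)) := by
      intro x hx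
      rw [mem_union, mem_filter, mem_filter]
      by_cases h4 : (p * x + σp) % Q + q ^ b * (p * T) < Q
      · right
        exact ⟨hx, hcon x (mem_range.1 hx) h4⟩
      · left
        exact ⟨hx, not_lt.1 h4⟩
    have h4 := (Finset.card_le_card h3).trans (Finset.card_union_le _ _)
    rw [card_range] at h4
    have h5 := card_carry (σ := σp) (m := q ^ b * (p * T)) (hcop p hpq)
    have h6 := card_carry (σ := σr) (m := q ^ b * (r * T)) (hcop r hrq)
    have h7 : q ^ b * (2 * (p + r) * T) ≤ Q := by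
      rw [hQb]
      exact Nat.mul_le_mul_left _ hκ2
    have h8 : q ^ b * (2 * (p + r) * T) = 2 * (q ^ b * (p * T) + q ^ b * (r * T)) := by ring
    have h9 : 0 < q ^ b * (p * T) := Nat.mul_pos hqb (Nat.mul_pos hp.pos hT)
    omega
  have h3 := h1 p (p * x + σp) hx1
  have h4 := h2 r (r * x + σr) hx2
  -- telescoping
  have hTQ : q ^ b * T ≤ Q := by
    rw [hQb]
    exact Nat.mul_le_mul_left _ hκ.le
  have h5 : ∀ i : ℕ, x + i * T ≤ H →
      (blkV q T l e (p * (x + i * T) + σp) - blkV q T l e (p * x + σp)) +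
        (blkV q T l e' (r * (x + i * T) + σr) - blkV q T l e' (r * x + σr)) ∈ S := by
    intro i
    induction i with
    | zero =>
      intro _
      rw [zero_mul, add_zero, sub_self, sub_self, add_zero]
      exact Submodule.zero_mem _
    | succ i ih =>
      intro hi
      have e1 : x + (i + 1) * T = x + i * T + T := by ring
      rw [e1] at hi ⊢
      have h6 := ih (by omega)
      have h7 : gdv q T l p r σp σr e e' (x + i * T) ∈ S :=
        Submodule.subset_span ⟨⟨x + i * T, by omega⟩, rfl⟩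
      have h8 := Submodule.add_mem _ h6 h7
      unfold gdv at h8
      refine (congrArg (· ∈ S) ?_).mp h8
      abel
  have h6 := h5 (q ^ b) (by omega)
  have e1 : p * (x + q ^ b * T) + σp = p * x + σp + q ^ b * (p * T) := by ring
  have e2 : r * (x + q ^ b * T) + σr = r * x + σr + q ^ b * (r * T) := by ring
  rw [e1, e2] at h6
  have h7 := Submodule.sub_mem _ h6 (Submodule.add_mem _ h3 h4)
  refine (congrArg (· ∈ S) ?_).mp h7
  abel

end Span

/-! ### The letters -/

theorem blk_congr {q T l L A U U' : ℕ} (h : U % (q ^ l * T) = U' % (q ^ l * T)) :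
    blk q T l L A U = blk q T l L A U' := by
  unfold blk
  refine Finset.filter_congr fun x _ => ?_
  by_cases hx : A ≤ (x.1 : ℕ) ∧ (x.1 : ℕ) < A + l
  · have hk : (x.1 : ℕ) - A < l := by omega
    rw [letter_mod (U := U) hk, h, ← letter_mod (U := U') hk]
  · constructor
    · rintro ⟨h1, h2, _⟩
      exact absurd ⟨h1, h2⟩ hx
    · rintro ⟨h1, h2, _⟩
      exact absurd ⟨h1, h2⟩ hx

/-- the change of the letters as a difference of blocks -/
theorem dc_bv {q T l b κ L A c : ℕ} (hq : 2 ≤ q) (hl : b + κ ≤ l) (hc : c < q ^ κ)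
    (x : Lt (q * T) L) :
    dc q T L (A + b) c x = bv q T l L A (q ^ b * (c % T)) (q ^ b * c) x := by
  have hq0 : 0 < q := by omega
  have hmem : ∀ U, x ∈ blk q T l L A U ↔ A ≤ (x.1 : ℕ) ∧ (x.1 : ℕ) < A + l ∧
      U / q ^ ((x.1 : ℕ) - A) % (q * T) = x.2 := by
    intro U
    unfold blk
    rw [mem_filter]
    simp only [mem_univ, true_and]
  have hc' : c % T < q ^ κ := lt_of_le_of_lt (Nat.mod_le _ _) hc
  unfold bv dc
  simp only [hmem]
  by_cases h1 : A + b ≤ x.1
  · rw [if_pos h1]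
    by_cases h2 : (x.1 : ℕ) < A + l
    · have e1 : ∀ c : ℕ, q ^ b * c / q ^ ((x.1 : ℕ) - A) = c / q ^ ((x.1 : ℕ) - (A + b)) := by
        intro c
        have : (x.1 : ℕ) - A = b + ((x.1 : ℕ) - (A + b)) := by omega
        rw [this, pow_add, Nat.mul_div_mul_left _ _ (pow_pos hq0 b)]
      have h3 : A ≤ (x.1 : ℕ) := by omega
      simp only [h3, h2, true_and, e1]
    · have e1 : ∀ c : ℕ, c < q ^ κ → c / q ^ ((x.1 : ℕ) - (A + b)) = 0 := by
        intro c h3
        apply Nat.div_eq_of_lt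
        exact lt_of_lt_of_le h3 (Nat.pow_le_pow_right hq0 (by omega))
      simp only [h2, false_and, and_false, if_false, e1 _ hc, e1 _ hc', sub_self]
  · rw [if_neg h1]
    by_cases h3 : A ≤ (x.1 : ℕ)
    · have h4 : (x.1 : ℕ) < A + l := by omega
      have e1 : q ^ b * c / q ^ ((x.1 : ℕ) - A) % (q * T) =
          q ^ b * (c % T) / q ^ ((x.1 : ℕ) - A) % (q * T) := by
        obtain ⟨k, hk⟩ : ∃ k, b = ((x.1 : ℕ) - A) + (k + 1) := ⟨b - ((x.1 : ℕ) - A) - 1, by omega⟩
        have e2 : ∀ c, q ^ b * c / q ^ ((x.1 : ℕ) - A) = q ^ (k + 1) * c := by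
          intro c
          rw [hk, pow_add, mul_assoc, Nat.mul_div_cancel_left _ (pow_pos hq0 _)]
        rw [e2, e2]
        have e3 := Nat.mod_add_div c T
        have e4 : q ^ (k + 1) * c = q ^ (k + 1) * (c % T) + q * T * (q ^ k * (c / T)) := by
          calc q ^ (k + 1) * c = q ^ (k + 1) * (c % T + T * (c / T)) := by rw [e3]
            _ = _ := by ring
        rw [e4, Nat.add_mul_mod_self_left]
      simp only [e1, sub_self]
    · simp only [h3, false_and, if_false, sub_self]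

/-- the indicator of the letter `x` on the universal group -/
private noncomputable def ph {q T L : ℕ} (A : ℕ) (x : Lt (q * T) L) : (ℕ × ℕ →₀ ℤ) →+ ℤ :=
  if A ≤ (x.1 : ℕ) then Finsupp.applyAddHom ((x.1 : ℕ) - A, (x.2 : ℕ)) else 0

private theorem ph_blk {q T l L : ℕ} (A U : ℕ) (x : Lt (q * T) L) :
    ph A x (blkV q T l (fun y => Finsupp.single y 1) U) =
      if x ∈ blk q T l L A U then 1 else 0 := by
  have hmem : x ∈ blk q T l L A U ↔ A ≤ (x.1 : ℕ) ∧ (x.1 : ℕ) < A + l ∧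
      U / q ^ ((x.1 : ℕ) - A) % (q * T) = x.2 := by
    unfold blk
    rw [mem_filter]
    simp only [mem_univ, true_and]
  unfold ph
  by_cases h1 : A ≤ (x.1 : ℕ)
  · rw [if_pos h1]
    unfold blkV
    rw [map_sum]
    simp only [Finsupp.applyAddHom_apply, Finsupp.single_apply, Prod.mk.injEq]
    by_cases h2 : (x.1 : ℕ) < A + l
    · rw [Finset.sum_eq_single ((x.1 : ℕ) - A)]
      · simp only [hmem, h1, h2, true_and]
      · intro k _ hk
        rw [if_neg]
        rintro ⟨h3, _⟩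
        exact hk h3
      · intro h3
        exact absurd (mem_range.2 (by omega)) h3
    · rw [if_neg (by rw [hmem]; tauto)]
      refine Finset.sum_eq_zero fun k hk => ?_
      rw [if_neg]
      rintro ⟨h3, _⟩
      rw [mem_range] at hk
      omega
  · rw [if_neg h1, if_neg (by rw [hmem]; tauto)]
    rfl

/-- the letters of the first factor -/
private noncomputable def e1 (y : ℕ × ℕ) : (ℕ × ℕ →₀ ℤ) × (ℕ × ℕ →₀ ℤ) := (Finsupp.single y 1, 0)

/-- the letters of the second factor -/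
private noncomputable def e2 (y : ℕ × ℕ) : (ℕ × ℕ →₀ ℤ) × (ℕ × ℕ →₀ ℤ) := (0, Finsupp.single y 1)

private theorem blk_e1 (q T l U : ℕ) :
    blkV q T l e1 U = (blkV q T l (fun y => Finsupp.single y 1) U, 0) := by
  unfold blkV e1
  refine Prod.ext ?_ ?_
  · rw [Prod.fst_sum]
  · rw [Prod.snd_sum]
    simp

private theorem blk_e2 (q T l U : ℕ) :
    blkV q T l e2 U = (0, blkV q T l (fun y => Finsupp.single y 1) U) := by
  unfold blkV e2
  refine Prod.ext ?_ ?_
  · rw [Prod.fst_sum]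
    simp
  · rw [Prod.snd_sum]

/-- a combination of gadget vectors, evaluated at a letter -/
private theorem eval_comb {q T l L H p r σp σr : ℕ} (A : ℕ) (x : Lt (q * T) L) (γ : Fin H → ℤ)
    (w : (ℕ × ℕ →₀ ℤ) × (ℕ × ℕ →₀ ℤ))
    (h : ∑ i : Fin H, γ i • gdv q T l p r σp σr e1 e2 i = w) :
    ∑ i : Fin H, γ i * bv q T l L A (p * i + σp) (p * (i + T) + σp) x = ph A x w.1 ∧
    ∑ i : Fin H, γ i * bv q T l L A (r * i + σr) (r * (i + T) + σr) x = ph A x w.2 := by
  subst h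
  constructor
  · rw [Prod.fst_sum, map_sum]
    refine Finset.sum_congr rfl fun i _ => ?_
    rw [Prod.smul_fst, map_zsmul, smul_eq_mul]
    congr 1
    unfold gdv bv
    rw [blk_e1, blk_e1, blk_e2, blk_e2, Prod.fst_add, Prod.fst_sub, Prod.fst_sub]
    simp only [sub_self, add_zero]
    rw [map_sub, ph_blk, ph_blk]
  · rw [Prod.snd_sum, map_sum]
    refine Finset.sum_congr rfl fun i _ => ?_
    rw [Prod.smul_snd, map_zsmul, smul_eq_mul]
    congr 1
    unfold gdv bv
    rw [blk_e1, blk_e1, blk_e2, blk_e2, Prod.snd_add, Prod.snd_sub, Prod.snd_sub]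
    simp only [sub_self, zero_add]
    rw [map_sub, ph_blk, ph_blk]

private theorem bv_congr {q T l L A U U' W W' : ℕ} (h1 : U % (q ^ l * T) = W % (q ^ l * T))
    (h2 : U' % (q ^ l * T) = W' % (q ^ l * T)) (x : Lt (q * T) L) :
    bv q T l L A U U' x = bv q T l L A W W' x := by
  unfold bv
  rw [blk_congr h1, blk_congr h2]

/-- the content of the window of the shift -/
private def sp (G : GP) (t S : ℕ) : ℕ := t * G.x0 S S + sg G.q G.g t (G.z0 S S) S

private theorem v_eq (G : GP) (L s t a i : ℕ) (x : Lt (G.q * G.T) L) :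
    G.v L s t (a, i) x = bv G.q G.T G.l L (a + G.g) (t * i + sp G t (sT G.q G.T G.g G.l s a))
      (t * (i + G.T) + sp G t (sT G.q G.T G.g G.l s a)) x := by
  unfold GP.v gv uT sp
  simp only
  refine bv_congr ?_ ?_ x
  · rw [Nat.mod_mod]
    congr 1
    ring
  · rw [Nat.mod_add_mod]
    congr 1
    ring

/-- **rigidity over the integers**: the integer combinations of the gadgets at one position, with bounded
coefficients -/
theorem rig_Z (G : GP) {b κ : ℕ} (hb1 : 2 * G.p * G.r ≤ G.q ^ b) (hb2 : 2 * G.p * G.T ≤ G.q ^ b)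
    (hb3 : 2 * G.r * G.T ≤ G.q ^ b) (hκ : 2 * (G.p + G.r) * G.T ≤ G.q ^ κ)
    (hκ2 : G.q * G.T ≤ G.q ^ κ) (hH : G.q ^ (b + κ + 2 * G.D + 2) ≤ G.H)
    (hH2 : 2 * G.q ^ (b + κ) ≤ G.H) (hl : b + κ ≤ G.l) :
    ∃ Γ : ℕ, ∀ (s a L : ℕ) (y : Lt (G.q * G.T) L), (y.1 : ℕ) = a + (G.g + b) →
      (∃ γ : Fin G.H → ℤ, (∀ i, |γ i| ≤ Γ) ∧
        (∀ x, ∑ i, γ i * G.v L s G.p (a, i) x =
          dl G.q G.T G.T L y x - ((y.2 : ℕ) / G.T : ℕ) * dc G.q G.T L y.1 G.T x) ∧
        ∀ x, ∑ i, γ i * G.v L s G.r (a, i) x = 0) ∧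
      ∃ γ : Fin G.H → ℤ, (∀ i, |γ i| ≤ Γ) ∧
        (∀ x, ∑ i, γ i * G.v L s G.p (a, i) x = G.p * dc G.q G.T L y.1 G.T x) ∧
        ∀ x, ∑ i, γ i * G.v L s G.r (a, i) x = G.r * dc G.q G.T L y.1 G.T x := by
  classical
  have hq := G.hq
  have hT := G.T_pos
  have hpT : G.p.Coprime G.T := Nat.Coprime.pow_right _ G.hpq
  have hrT : G.r.Coprime G.T := Nat.Coprime.pow_right _ G.hrq
  have hpr : G.p.Coprime G.r := (Nat.coprime_primes G.hp G.hr).2 G.hpr
  have hTκ : G.T < G.q ^ κ := by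
    refine lt_of_lt_of_le ?_ hκ2
    calc G.T < 2 * G.T := by omega
      _ ≤ G.q * G.T := Nat.mul_le_mul_right _ hq
  have hcκ : ∀ c < G.q * G.T, c < G.q ^ κ := fun c hc => lt_of_lt_of_le hc hκ2
  -- the coefficients
  have hex1 : ∀ S c : ℕ, ∃ γ : Fin G.H → ℤ, c < G.q * G.T →
      ∑ i, γ i • gdv G.q G.T G.l G.p G.r (sp G G.p S) (sp G G.r S) e1 e2 i =
        (blkV G.q G.T G.l e1 (G.q ^ b * c) - blkV G.q G.T G.l e1 (G.q ^ b * (c % G.T))) -
          (c / G.T) • (blkV G.q G.T G.l e1 (G.q ^ b * G.T) -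
            blkV G.q G.T G.l e1 (G.q ^ b * (G.T % G.T))) := by
    intro S c
    by_cases hc : c < G.q * G.T
    · have h1 := (rigY_slope (l := G.l) hq G.hp G.hpq hpT hpr G.hr.pos hT le_rfl hb1 hb2 hb3 hH
        hTκ (sp G G.p S) (sp G G.r S) e1 e2).2 c (hcκ c hc)
      obtain ⟨γ, hγ⟩ := (Submodule.mem_span_range_iff_exists_fun ℤ).1 h1
      exact ⟨γ, fun _ => hγ⟩
    · exact ⟨0, fun h => absurd h hc⟩
  have hex2 : ∀ S : ℕ, ∃ γ : Fin G.H → ℤ,
      ∑ i, γ i • gdv G.q G.T G.l G.p G.r (sp G G.p S) (sp G G.r S) e1 e2 i =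
        G.p • (blkV G.q G.T G.l e1 (G.q ^ b * G.T) -
            blkV G.q G.T G.l e1 (G.q ^ b * (G.T % G.T))) +
          G.r • (blkV G.q G.T G.l e2 (G.q ^ b * G.T) -
            blkV G.q G.T G.l e2 (G.q ^ b * (G.T % G.T))) := by
    intro S
    have h1 := rigY_two (l := G.l) hq G.hp G.hr G.hpq G.hrq hpT hrT hpr hT le_rfl hb1 hb2 hb3 hH
      hH2 hTκ hκ (sp G G.p S) (sp G G.r S) e1 e2
    exact (Submodule.mem_span_range_iff_exists_fun ℤ).1 h1
  choose γ1 hγ1 using hex1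
  choose γ2 hγ2 using hex2
  set N := G.q ^ (G.g + G.l) * G.T with hN
  set Γ : ℕ := (∑ S ∈ range N, ∑ c ∈ range (G.q * G.T), ∑ i, (γ1 S c i).natAbs) +
    ∑ S ∈ range N, ∑ i, (γ2 S i).natAbs with hΓ
  have hΓ1 : ∀ S < N, ∀ c < G.q * G.T, ∀ i, |γ1 S c i| ≤ Γ := by
    intro S hS c hc i
    have h1 : (γ1 S c i).natAbs ≤ ∑ i, (γ1 S c i).natAbs :=
      Finset.single_le_sum (f := fun i => (γ1 S c i).natAbs) (fun _ _ => Nat.zero_le _)
        (mem_univ i)
    have h2 : ∑ i, (γ1 S c i).natAbs ≤ ∑ c ∈ range (G.q * G.T), ∑ i, (γ1 S c i).natAbs :=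
      Finset.single_le_sum (f := fun c => ∑ i, (γ1 S c i).natAbs) (fun _ _ => Nat.zero_le _)
        (mem_range.2 hc)
    have h3 : ∑ c ∈ range (G.q * G.T), ∑ i, (γ1 S c i).natAbs ≤
        ∑ S ∈ range N, ∑ c ∈ range (G.q * G.T), ∑ i, (γ1 S c i).natAbs :=
      Finset.single_le_sum (f := fun S => ∑ c ∈ range (G.q * G.T), ∑ i, (γ1 S c i).natAbs)
        (fun _ _ => Nat.zero_le _) (mem_range.2 hS)
    rw [Int.abs_eq_natAbs]
    exact_mod_cast (by omega : (γ1 S c i).natAbs ≤ Γ)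
  have hΓ2 : ∀ S < N, ∀ i, |γ2 S i| ≤ Γ := by
    intro S hS i
    have h1 : (γ2 S i).natAbs ≤ ∑ i, (γ2 S i).natAbs :=
      Finset.single_le_sum (f := fun i => (γ2 S i).natAbs) (fun _ _ => Nat.zero_le _)
        (mem_univ i)
    have h3 : ∑ i, (γ2 S i).natAbs ≤ ∑ S ∈ range N, ∑ i, (γ2 S i).natAbs :=
      Finset.single_le_sum (f := fun S => ∑ i, (γ2 S i).natAbs)
        (fun _ _ => Nat.zero_le _) (mem_range.2 hS)
    rw [Int.abs_eq_natAbs]
    exact_mod_cast (by omega : (γ2 S i).natAbs ≤ Γ)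
  refine ⟨Γ, ?_⟩
  intro s a L y hy
  set S := sT G.q G.T G.g G.l s a with hS
  have hSN : S < N := Nat.mod_lt _ (Nat.mul_pos (Nat.pow_pos (by omega)) hT)
  have hyc : (y.2 : ℕ) < G.q * G.T := y.2.2
  have hy' : (y.1 : ℕ) = a + G.g + b := by rw [hy]; ring
  -- the values of the universal vectors
  have hval : ∀ (c : ℕ) (x : Lt (G.q * G.T) L), c < G.q ^ κ →
      ph (a + G.g) x (blkV G.q G.T G.l (fun y => Finsupp.single y 1) (G.q ^ b * c)) -
        ph (a + G.g) x (blkV G.q G.T G.l (fun y => Finsupp.single y 1) (G.q ^ b * (c % G.T))) =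
      dc G.q G.T L y.1 c x := by
    intro c x hc
    rw [ph_blk, ph_blk, hy', dc_bv (l := G.l) hq hl hc]
    rfl
  constructor
  · refine ⟨γ1 S y.2, hΓ1 S hSN _ hyc, fun x => ?_, fun x => ?_⟩
    · simp only [v_eq]
      rw [(eval_comb (a + G.g) x (γ1 S y.2) _ (hγ1 S y.2 hyc)).1, dl_dc,
        blk_e1, blk_e1, blk_e1, blk_e1, Prod.fst_sub, Prod.smul_fst, Prod.fst_sub, Prod.fst_sub,
        map_sub, map_nsmul, map_sub, map_sub, hval _ x (hcκ _ hyc), hval _ x hTκ, nsmul_eq_mul]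
    · simp only [v_eq]
      rw [(eval_comb (a + G.g) x (γ1 S y.2) _ (hγ1 S y.2 hyc)).2,
        blk_e1, blk_e1, blk_e1, blk_e1]
      simp
  · refine ⟨γ2 S, hΓ2 S hSN, fun x => ?_, fun x => ?_⟩
    · simp only [v_eq]
      rw [(eval_comb (a + G.g) x (γ2 S) _ (hγ2 S)).1,
        blk_e1, blk_e1, blk_e2, blk_e2, Prod.fst_add, Prod.smul_fst, Prod.smul_fst, Prod.fst_sub,
        Prod.fst_sub, map_add, map_nsmul, map_nsmul, map_sub, map_sub, hval _ x hTκ]
      simp
    · simp only [v_eq]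
      rw [(eval_comb (a + G.g) x (γ2 S) _ (hγ2 S)).2,
        blk_e1, blk_e1, blk_e2, blk_e2, Prod.snd_add, Prod.smul_snd, Prod.smul_snd, Prod.snd_sub,
        Prod.snd_sub, map_add, map_nsmul, map_nsmul, map_sub, map_sub, hval _ x hTκ]
      simp

end Pool.Agent.Lib.MP_3e612f_nt.RD
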