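import Pool.Agent.Lib.MP_3e612f_nt.RD.Cls
import Pool.Agent.Lib.MP_3e612f_nt.EM.Rig
import Pool.Agent.Lib.MP_3e612f_nt.RD.RigE
import Pool.Agent.Lib.MP_3e612f_nt.RD.RigY

/-!
Rigidity over the integers.

`dc q T L j c`: the change of the letters of level `T` when the content `c % T` of the position `j` is replaced by `c`
(`dl q T T L y = dc q T L y.1 y.2`). `b`: `2 p r`, `2 p T`, `2 r T ≤ q ^ b`.

`rig_Z` is proved in `RigY.lean`. PROOF of `rig_Z`. As `rig_span` / `Gv_rig` in `EM/Rig.lean`, over `ℤ`. Universal version: `V` = the free module on the letters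
`(k, c)`, `k < l`, `c < q T`, of a block, `e`, `e'` the two inclusions in `V × V`; the gadget vectors at the position `a` only
depend on the contents `(sT s a, sT s a)`, an element of `range (q ^ (g + l) * T)`; there are finitely many of them
and finitely many contents `y.2 < q T`, so the maximum of the absolute values of all coefficients is a bound `Γ`; then
map the letter `(k, c)` of the block to the letter `(a + g + k, c)` (to `0` if `a + g + k ≥ L`), as `emE`.
`G = (V × V) / span` of the gadgets `gvV .. (a, lam)`, `lam < H`.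
(1) `klT` with `Lp U = (blkV U, 0)`, `Lr U = (0, blkV U)`: slope `γ`. `blkV (q ^ b c) - blkV (q ^ b (c % T))` is the vector of
the letter `(b, c)` (letters below `b` cancel: `em_xi`), and it is `(c / T) • γ`; for `c = T`: `γ` is the class of the
vector of `(b, T)`. Hence `(dl y - (y.2 / T) • dc j T, 0)` is in the span.
(2) `klT` with `p`, `r` (and `Lp`, `Lr`) exchanged: slope `γ'` = the class of `(0, dc j T)`. Sum the hypothesis of `klT` over
`x, x + T, .., x + (q ^ b - 1) T`: `Lp (u + q ^ b (p T)) - Lp u + Lr (w + q ^ b (r T)) - Lr w = 0`, `u = p x + σp`,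
`w = r x + σr`. Choose `x < q ^ (b + κ)` such that there is no carry beyond `b + κ` in both (the proportion of the bad `x` is
at most `(p + r) T / q ^ κ < 1`): `p • γ + r • γ' = 0`, so `(p • dc j T, r • dc j T)` is in the span.
-/

set_option autoImplicit false

namespace Pool.Agent.Lib.MP_3e612f_nt.RD

open Finset
open Pool.Agent.Lib.MP_3e612f_nt.PI (ee mc)
open Pool.Agent.Lib.MP_3e612f_nt.DI (av pr mlt)
open Pool.Agent.Lib.MP_3e612f_nt.EM

/-- gadgets with the properties needed in `rig_Z` exist -/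
theorem exists_GP {q p r : ℕ} (hq : 2 ≤ q) (hp : p.Prime) (hr : r.Prime) (hpr : p ≠ r)
    (hpq : p.Coprime q) (hrq : r.Coprime q) (D : ℕ) :
    ∃ (G : GP) (b κ : ℕ), G.q = q ∧ G.D = D ∧ G.p = p ∧ G.r = r ∧ 2 * G.p * G.r ≤ G.q ^ b ∧
      2 * G.p * G.T ≤ G.q ^ b ∧ 2 * G.r * G.T ≤ G.q ^ b ∧ 2 * (G.p + G.r) * G.T ≤ G.q ^ κ ∧
      G.q * G.T ≤ G.q ^ κ ∧ G.q ^ (b + κ + 2 * G.D + 2) ≤ G.H ∧ 2 * G.q ^ (b + κ) ≤ G.H ∧
      b + κ ≤ G.l :=
  gp_exists hq hp hr hpr hpq hrq D

end Pool.Agent.Lib.MP_3e612f_nt.RD
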